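import Pool.Agent.LibW64P.SDefs
import Pool.Agent.LibW64T.T2a
import Pool.Agent.LibW64T.T2b
import Pool.Agent.LibW64T.T2e

/-! # Row P8: charts are models

Plan. See the proof of `W_T2` (LibW64T/T2.lean), steps 1 - 3, for most of this. `A0` := the image of `Γ(T, T0)`, a
`k`-subalgebra (range of an algebra homomorphism for the `kapU` structures, `W_T2f`), finitely generated
(`kapU_finiteType t T0`). `L := Subfield.closure A0`. For a chart `V1`: `chM` on `V1` of `g.appLE T0 V1 a` equals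
`chM` on `g ⁻¹ᵁ T0` of `g.app T0 a` (germs), so `A0 ≤ A1`; `A1` exists and is finitely generated with
fraction field `K` (`W_T2b` with `V0 := V1`). `hpt`: `W_T2a` (elements of `L` are `u / w`, `u, w ∈ A0`). -/

set_option autoImplicit false
open AlgebraicGeometry CategoryTheory

namespace Pool.Agent.LibHP

/-- The homomorphism from the functions on the base to the function field. -/
private noncomputable def p8F {k K : Type} [Field k] [Field K] [Algebra k K] {V T : Scheme.{0}}
    [IsIntegral V] (h : V ⟶ Spec (CommRingCat.of k)) (t : T ⟶ Spec (CommRingCat.of k)) (g : V ⟶ T)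
    (hg : g ≫ t = h) (e : V.functionField →+* K)
    (hk : ∀ c : k, algebraMap k K c = e (toStalk h (genericPoint V) c)) (T0 : T.Opens)
    (hηT : genericPoint V ∈ g ⁻¹ᵁ T0) :
    letI : Algebra k Γ(T, T0) := (kapU t T0).toAlgebra
    Γ(T, T0) →ₐ[k] K :=
  letI : Algebra k Γ(T, T0) := (kapU t T0).toAlgebra
  { (chM e (g ⁻¹ᵁ T0) hηT).comp (g.app T0).hom with
    commutes' := fun c => by
      change chM e (g ⁻¹ᵁ T0) hηT ((g.app T0).hom (kapU t T0 c)) = algebraMap k K c
      have h1 := W_T2f h t g hg T0 (g ⁻¹ᵁ T0) le_rfl c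
      rw [Scheme.Hom.appLE_eq_app] at h1
      rw [h1, hk]
      exact congrArg e (germ_kapU h (g ⁻¹ᵁ T0) (genericPoint V) hηT c) }

private theorem p8_base {k K : Type} [Field k] [Field K] [Algebra k K] {V T : Scheme.{0}}
    [IsIntegral V] (h : V ⟶ Spec (CommRingCat.of k)) (t : T ⟶ Spec (CommRingCat.of k))
    [LocallyOfFiniteType t] (g : V ⟶ T) (hg : g ≫ t = h) (e : V.functionField →+* K)
    (hk : ∀ c : k, algebraMap k K c = e (toStalk h (genericPoint V) c)) (T0 : T.Opens)
    (hT0 : IsAffineOpen T0) (hηT : genericPoint V ∈ g ⁻¹ᵁ T0) :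
    ∃ A0 : Subalgebra k K, A0.FG ∧ IsBase g e T0 hηT A0 := by
  letI : Algebra k Γ(T, T0) := (kapU t T0).toAlgebra
  haveI : Algebra.FiniteType k Γ(T, T0) := kapU_finiteType t T0 hT0
  refine ⟨(p8F h t g hg e hk T0 hηT).range, ?_, ?_⟩
  · rw [← Algebra.map_top]
    exact (Algebra.FiniteType.out : (⊤ : Subalgebra k Γ(T, T0)).FG).map _
  · intro c
    rw [AlgHom.mem_range]
    rfl

/-- The subfield generated by a subalgebra. -/
private theorem p8_frac {k K : Type} [Field k] [Field K] [Algebra k K] (A0 : Subalgebra k K)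
    (c : K) : c ∈ Subfield.closure (A0 : Set K) ↔
      ∃ u w : K, u ∈ A0 ∧ w ∈ A0 ∧ w ≠ 0 ∧ c * w = u := by
  constructor
  · intro hc
    rw [Subfield.mem_closure_iff] at hc
    obtain ⟨y, hy, z, hz, hyz⟩ := hc
    have hcl : ∀ x ∈ Subring.closure (A0 : Set K), x ∈ A0 := by
      intro x hx
      have h1 : Subring.closure (A0 : Set K) ≤ A0.toSubring := Subring.closure_le.2 fun y hy => hy
      exact h1 hx
    by_cases hz0 : z = 0
    · refine ⟨0, 1, A0.zero_mem, A0.one_mem, one_ne_zero, ?_⟩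
      rw [← hyz, hz0, div_zero, zero_mul]
    · refine ⟨y, z, hcl y hy, hcl z hz, hz0, ?_⟩
      rw [← hyz, div_mul_cancel₀ _ hz0]
  · rintro ⟨u, w, hu, hw, hw0, hcw⟩
    have h1 : c = u / w := by rw [← hcw, mul_div_cancel_right₀ _ hw0]
    rw [h1]
    exact div_mem (Subfield.subset_closure hu) (Subfield.subset_closure hw)

theorem W_P8 {k : Type} [Field k] {V T : Scheme.{0}} [IsIntegral V] [IsIntegral T]
    (h : V ⟶ Spec (CommRingCat.of k)) [LocallyOfFiniteType h]
    (t : T ⟶ Spec (CommRingCat.of k)) [LocallyOfFiniteType t] (g : V ⟶ T) (hg : g ≫ t = h)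
    (K : Type) [Field K] [Algebra k K] (e : V.functionField →+* K) (he : Function.Bijective e)
    (hk : ∀ c : k, algebraMap k K c = e (toStalk h (genericPoint V) c)) (T0 : T.Opens)
    (hT0 : IsAffineOpen T0) (hηT : genericPoint V ∈ g ⁻¹ᵁ T0) :
    ∃ (L : Subfield K) (A0 : Subalgebra k K), IsBase g e T0 hηT A0 ∧
      (∀ (V1 : V.Opens) (_ : IsAffineOpen V1) (_ : V1 ≤ g ⁻¹ᵁ T0) (hη1 : genericPoint V ∈ V1),
        ∃ A1 : Subalgebra k K, IsChart e V1 hη1 A1 ∧ IsModel L A1 A0) ∧
      ∀ v : V, g.base v = genericPoint T → ∀ c ∈ L, ∃ a : V.presheaf.stalk v,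
        e (algebraMap (V.presheaf.stalk v) V.functionField a) = c := by
  obtain ⟨A0, hA0fg, hA0⟩ := p8_base h t g hg e hk T0 hT0 hηT
  refine ⟨Subfield.closure (A0 : Set K), A0, hA0, ?_, ?_⟩
  · intro V1 hV1 hle hη1
    obtain ⟨A1, β, hA1, hβ, hβk, hfrac⟩ := W_T2b h V1 hV1 hη1 K e he hk
    refine ⟨A1, ?_, hA1, hA0fg, ?_, p8_frac A0, hfrac⟩
    · intro c
      constructor
      · intro hc
        refine ⟨β.symm ⟨c, hc⟩, ?_⟩
        have h1 := hβ (β.symm ⟨c, hc⟩)
        rw [RingEquiv.apply_symm_apply] at h1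
        exact h1.symm
      · rintro ⟨b, hb⟩
        have h1 : (β b : K) = c := (hβ b).trans hb
        rw [← h1]
        exact SetLike.coe_mem _
    · intro c hc
      obtain ⟨a, ha⟩ := (hA0 c).1 hc
      have h1 : (β (V.presheaf.map (homOfLE hle).op ((g.app T0).hom a)) : K) = c := by
        rw [hβ, ← ha]
        unfold chM
        change e _ = e _
        congr 1
        exact V.presheaf.germ_res_apply (homOfLE hle) (genericPoint V) hη1 ((g.app T0).hom a)
      rw [← h1]
      exact SetLike.coe_mem _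
  · intro v hv c hc
    obtain ⟨u, w, hu, hw, hw0, hcw⟩ := (p8_frac A0 c).1 hc
    obtain ⟨a, ha⟩ := (hA0 u).1 hu
    obtain ⟨b, hb⟩ := (hA0 w).1 hw
    have hTη : genericPoint T ∈ T0 := by
      rw [← SetLike.mem_coe, (genericPoint_spec T).mem_open_set_iff T0.isOpen]
      exact ⟨g.base (genericPoint V), trivial, hηT⟩
    have ha' : e (V.presheaf.germ (g ⁻¹ᵁ T0) (genericPoint V) hηT
        ((g.appLE T0 (g ⁻¹ᵁ T0) le_rfl).hom a)) = u := by
      rw [Scheme.Hom.appLE_eq_app]
      exact ha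
    have hb' : e (V.presheaf.germ (g ⁻¹ᵁ T0) (genericPoint V) hηT
        ((g.appLE T0 (g ⁻¹ᵁ T0) le_rfl).hom b)) = w := by
      rw [Scheme.Hom.appLE_eq_app]
      exact hb
    obtain ⟨x, hx⟩ := W_T2a g v hv T0 hTη (g ⁻¹ᵁ T0) hηT le_rfl a b (by
      intro h0
      apply hw0
      rw [← hb', h0, map_zero])
    refine ⟨x, ?_⟩
    apply mul_right_cancel₀ hw0
    rw [hcw, ← hb', ← ha', ← map_mul]
    exact congrArg e hx

end Pool.Agent.LibHP
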