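import Mathlib

/-! # Row P5: affine charts of a fibre

The restriction of `Z` to `p ⁻¹ᵁ V1` is `Spec` of the pushout of `Γ(T, T0) ⟶ Γ(V, V1)` and the surjective
`φ0`. -/

set_option autoImplicit false
open AlgebraicGeometry CategoryTheory

namespace Pool.Agent.LibHP

/-- Factorization of a ring homomorphism through a surjective one. -/
private theorem P5_lift {R k Q : Type} [CommRing R] [CommRing k] [CommRing Q] (f : R →+* k)
    (hf : Function.Surjective f) (g : R →+* Q) (hg : ∀ r, f r = 0 → g r = 0) :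
    ∃ β : k →+* Q, ∀ r, β (f r) = g r := by
  refine ⟨RingHom.liftOfSurjective f hf ⟨g, fun r hr => ?_⟩, fun r => ?_⟩
  · exact hg r hr
  · exact RingHom.liftOfRightInverse_comp_apply f _ _ _ r

private theorem P5_ker (R B k P : CommRingCat.{0}) (α : R ⟶ B) (φ : R ⟶ k)
    (hsurj : Function.Surjective φ.hom) (a : B ⟶ P) (b : k ⟶ P)
    (hpo : IsPushout α φ a b) :
    (∀ x : B, a.hom x = 0 ↔ x ∈ Ideal.map α.hom (RingHom.ker φ.hom)) ∧
      Function.Surjective a.hom := by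
  have hw : ∀ c : R, a.hom (α.hom c) = b.hom (φ.hom c) := by
    intro c
    have h := congrArg (fun f : R ⟶ P => f.hom c) hpo.w
    simpa using h
  refine ⟨fun x => ⟨fun hx => ?_, fun hx => ?_⟩, ?_⟩
  · set J : Ideal B := Ideal.map α.hom (RingHom.ker φ.hom) with hJ
    obtain ⟨β, hβ⟩ := P5_lift φ.hom hsurj ((Ideal.Quotient.mk J).comp α.hom)
      (fun r hr => by
        rw [RingHom.comp_apply, Ideal.Quotient.eq_zero_iff_mem]
        exact Ideal.mem_map_of_mem _ hr)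
    have h1 : α ≫ CommRingCat.ofHom (Ideal.Quotient.mk J) = φ ≫ CommRingCat.ofHom β := by
      ext r
      simpa using (hβ r).symm
    have h2 := congrArg (fun f : B ⟶ CommRingCat.of (B ⧸ J) => f.hom x) (hpo.inl_desc _ _ h1)
    have h3 : (Ideal.Quotient.mk J) x = 0 := by
      refine Eq.trans h2.symm ?_
      change (hpo.desc _ _ h1).hom (a.hom x) = 0
      rw [hx, map_zero]
    exact Ideal.Quotient.eq_zero_iff_mem.1 h3
  · have h1 : Ideal.map α.hom (RingHom.ker φ.hom) ≤ RingHom.ker a.hom := by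
      rw [Ideal.map_le_iff_le_comap]
      intro c hc
      change a.hom (α.hom c) = 0
      rw [hw c, show φ.hom c = 0 from hc, map_zero]
    exact h1 hx
  · obtain ⟨β, hβ⟩ := P5_lift φ.hom hsurj (a.hom.rangeRestrict.comp α.hom)
      (fun r hr => by
        apply Subtype.ext
        change a.hom (α.hom r) = 0
        rw [hw r, hr, map_zero])
    have h1 : α ≫ CommRingCat.ofHom a.hom.rangeRestrict = φ ≫ CommRingCat.ofHom β := by
      ext r
      have := (hβ r).symm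
      exact congrArg Subtype.val this
    have h3 : hpo.desc _ _ h1 ≫ CommRingCat.ofHom a.hom.range.subtype = 𝟙 P := by
      apply hpo.hom_ext
      · rw [← Category.assoc, hpo.inl_desc]
        ext r
        rfl
      · rw [← Category.assoc, hpo.inr_desc]
        ext r
        obtain ⟨c, rfl⟩ := hsurj r
        have h4 : (β (φ.hom c) : P) = a.hom (α.hom c) := by
          rw [hβ c]
          rfl
        have h5 := hw c
        simp only [CommRingCat.hom_comp, CommRingCat.hom_ofHom, RingHom.comp_apply,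
          Category.comp_id] at h4 h5 ⊢
        rw [← h5, ← h4]
        rfl
    intro y
    have h6 := congrArg (fun f : P ⟶ P => f.hom y) h3
    have h7 := ((hpo.desc _ _ h1).hom y).2
    obtain ⟨x, hx⟩ := h7
    exact ⟨x, hx.trans h6⟩

private theorem P5_fromSpec {V : Scheme.{0}} (V1 : V.Opens) (hV1 : IsAffineOpen V1)
    (P : CommRingCat.{0}) (a : Γ(V, V1) ⟶ P) (h : ⊤ ≤ (Spec.map a ≫ hV1.fromSpec) ⁻¹ᵁ V1) :
    (Spec.map a ≫ hV1.fromSpec).appLE V1 ⊤ h = a ≫ (Scheme.ΓSpecIso P).inv := by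
  have h0 : (⊤ : (Spec Γ(V, V1)).Opens) ≤ hV1.fromSpec ⁻¹ᵁ V1 := hV1.fromSpec_preimage_self.ge
  have h1 : hV1.fromSpec.appLE V1 ⊤ h0 = (Scheme.ΓSpecIso Γ(V, V1)).inv := by
    rw [Scheme.Hom.appLE, hV1.fromSpec_app_self, Category.assoc, ← Functor.map_comp]
    convert Category.comp_id _
    exact (Spec Γ(V, V1)).presheaf.map_id _
  have h2 : (⊤ : (Spec P).Opens) ≤ (Spec.map a) ⁻¹ᵁ (⊤ : (Spec Γ(V, V1)).Opens) := le_top
  have h3 := Scheme.Hom.appLE_comp_appLE (Spec.map a) hV1.fromSpec V1 ⊤ ⊤ h0 h2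
  rw [← h3, h1]
  have h4 : (Spec.map a).appLE ⊤ ⊤ h2 = (Spec.map a).appTop :=
    (Scheme.Hom.app_eq_appLE (f := Spec.map a) (U := ⊤)).symm
  rw [h4]
  exact (Scheme.ΓSpecIso_inv_naturality a).symm

theorem W_P5 {k : Type} [Field k] {V T Z : Scheme.{0}} (g : V ⟶ T) (T0 : T.Opens)
    (hT0 : IsAffineOpen T0) (V1 : V.Opens) (hV1 : IsAffineOpen V1) (hle : V1 ≤ g ⁻¹ᵁ T0)
    (φ0 : Γ(T, T0) ⟶ CommRingCat.of k) (hsurj : Function.Surjective φ0.hom)
    (i : Spec (CommRingCat.of k) ⟶ T) (hi : i = Spec.map φ0 ≫ hT0.fromSpec) (p : Z ⟶ V)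
    (q : Z ⟶ Spec (CommRingCat.of k)) (hpb : IsPullback p q g i) :
    IsAffineOpen (p ⁻¹ᵁ V1) ∧ Function.Surjective (p.app V1).hom ∧
      ∀ b : Γ(V, V1), (p.app V1).hom b = 0 ↔
        b ∈ Ideal.map (g.appLE T0 V1 hle).hom (RingHom.ker φ0.hom) := by
  obtain ⟨P, a, b, hpo⟩ : ∃ (P : CommRingCat.{0}) (a : Γ(V, V1) ⟶ P) (b : CommRingCat.of k ⟶ P),
      IsPushout (g.appLE T0 V1 hle) φ0 a b :=
    ⟨_, _, _, IsPushout.of_hasPushout _ _⟩
  obtain ⟨hker, hsur⟩ := P5_ker _ _ _ _ _ _ hsurj a b hpo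
  have h1 := isPullback_SpecMap_of_isPushout _ _ a b hpo
  have e1 : Spec.map (g.appLE T0 V1 hle) ≫ hT0.fromSpec = hV1.fromSpec ≫ g :=
    IsAffineOpen.SpecMap_appLE_fromSpec g hT0 hV1 hle
  have h2 : IsPullback (Spec.map a) (Spec.map b)
      (Spec.map (g.appLE T0 V1 hle) ≫ hT0.fromSpec) (Spec.map φ0 ≫ hT0.fromSpec) :=
    IsPullback.of_isLimit (Limits.PullbackCone.isLimitOfCompMono _ _ hT0.fromSpec _ h1.isLimit)
  rw [e1, ← hi] at h2
  have hw : (Spec.map a ≫ hV1.fromSpec) ≫ g = Spec.map b ≫ i := by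
    rw [Category.assoc]
    exact h2.w
  obtain ⟨u, hu⟩ : ∃ u : Spec P ⟶ Z, u = hpb.lift (Spec.map a ≫ hV1.fromSpec) (Spec.map b) hw :=
    ⟨_, rfl⟩
  have hq : u ≫ q = Spec.map b := by rw [hu]; exact hpb.lift_snd _ _ hw
  have hp : u ≫ p = Spec.map a ≫ hV1.fromSpec := by rw [hu]; exact hpb.lift_fst _ _ hw
  have h3 : IsPullback (u ≫ q) (Spec.map a) i (hV1.fromSpec ≫ g) := by
    rw [hq]
    exact h2.flip
  have h4 : IsPullback u (Spec.map a) p hV1.fromSpec := IsPullback.of_right h3 hp hpb.flip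
  have hopen : IsOpenImmersion u :=
    MorphismProperty.of_isPullback (P := @IsOpenImmersion) h4.flip inferInstance
  have hrange : u.opensRange = p ⁻¹ᵁ V1 := by
    apply le_antisymm
    · rintro z ⟨y, rfl⟩
      change p.base (u.base y) ∈ V1
      have h5 : p.base (u.base y) = hV1.fromSpec.base ((Spec.map a).base y) := by
        have := congrArg (fun f : Spec P ⟶ V => f.base y) hp
        simpa using this
      rw [h5]
      have h6 : hV1.fromSpec.base ((Spec.map a).base y) ∈ Set.range hV1.fromSpec.base := ⟨_, rfl⟩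
      rw [hV1.range_fromSpec] at h6
      exact h6
    · intro z hz
      have h5 : Set.range ((p ⁻¹ᵁ V1).ι ≫ p).base ⊆ Set.range hV1.fromSpec.base := by
        rw [hV1.range_fromSpec]
        rintro _ ⟨y, rfl⟩
        exact y.2
      obtain ⟨l, hl⟩ : ∃ l, l = IsOpenImmersion.lift hV1.fromSpec ((p ⁻¹ᵁ V1).ι ≫ p) h5 := ⟨_, rfl⟩
      have hl2 : l ≫ hV1.fromSpec = (p ⁻¹ᵁ V1).ι ≫ p := by
        rw [hl]; exact IsOpenImmersion.lift_fac _ _ _
      obtain ⟨m, hm⟩ : ∃ m, m = h4.lift (p ⁻¹ᵁ V1).ι l hl2.symm := ⟨_, rfl⟩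
      have hm2 : m ≫ u = (p ⁻¹ᵁ V1).ι := by rw [hm]; exact h4.lift_fst _ _ _
      refine ⟨m.base ⟨z, hz⟩, ?_⟩
      have h6 := congrArg (fun f : ((p ⁻¹ᵁ V1 : Z.Opens) : Scheme) ⟶ Z => f.base ⟨z, hz⟩) hm2
      simpa using h6
  have htop : (⊤ : (Spec P).Opens) ≤ u ⁻¹ᵁ (p ⁻¹ᵁ V1) := by
    rw [← hrange, Scheme.Hom.preimage_opensRange]
  have hcomp : p.app V1 ≫ u.appLE (p ⁻¹ᵁ V1) ⊤ htop = a ≫ (Scheme.ΓSpecIso P).inv := by
    have h5 : (⊤ : (Spec P).Opens) ≤ (Spec.map a ≫ hV1.fromSpec) ⁻¹ᵁ V1 := by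
      rw [← hp]; exact htop
    rw [← P5_fromSpec V1 hV1 P a h5]
    have h6 := Scheme.Hom.appLE_comp_appLE u p V1 (p ⁻¹ᵁ V1) ⊤ le_rfl htop
    rw [Scheme.Hom.app_eq_appLE, h6]
    simp only [hp]
  have hiso : IsIso (u.appLE (p ⁻¹ᵁ V1) ⊤ htop) := by
    have h5 : IsIso (u.app (p ⁻¹ᵁ V1)) := Scheme.Hom.isIso_app u _ hrange.ge
    have h6 : IsIso (homOfLE htop) := by
      have h7 : (⊤ : (Spec P).Opens) = u ⁻¹ᵁ (p ⁻¹ᵁ V1) := le_antisymm htop le_top
      have h8 : homOfLE htop = eqToHom h7 := Subsingleton.elim _ _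
      rw [h8]
      infer_instance
    rw [Scheme.Hom.appLE]
    infer_instance
  have hbij : Function.Bijective (u.appLE (p ⁻¹ᵁ V1) ⊤ htop).hom :=
    ConcreteCategory.bijective_of_isIso (u.appLE (p ⁻¹ᵁ V1) ⊤ htop)
  have hbij2 : Function.Bijective (Scheme.ΓSpecIso P).inv.hom :=
    ConcreteCategory.bijective_of_isIso (Scheme.ΓSpecIso P).inv
  have hval : ∀ c : Γ(V, V1), (u.appLE (p ⁻¹ᵁ V1) ⊤ htop).hom ((p.app V1).hom c) =
      (Scheme.ΓSpecIso P).inv.hom (a.hom c) := by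
    intro c
    exact congrArg (fun f : Γ(V, V1) ⟶ Γ(Spec P, ⊤) => f.hom c) hcomp
  refine ⟨?_, ?_, ?_⟩
  · rw [← hrange]
    exact isAffineOpen_opensRange u
  · intro y
    obtain ⟨c, hc⟩ := hsur (Function.surjInv hbij2.2 ((u.appLE (p ⁻¹ᵁ V1) ⊤ htop).hom y))
    refine ⟨c, hbij.1 ?_⟩
    rw [hval, hc]
    exact Function.surjInv_eq hbij2.2 _
  · intro c
    rw [← hker c]
    constructor
    · intro h
      have h5 := hval c
      rw [h, map_zero] at h5
      exact hbij2.1 (by rw [← h5, map_zero])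
    · intro h
      have h5 := hval c
      rw [h, map_zero] at h5
      exact hbij.1 (by rw [h5, map_zero])

end Pool.Agent.LibHP
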