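import Pool.Agent.LibW64P.SDefs
import Pool.Agent.LibW64P.P5

/-! # Row P6: the fibre through a point on all charts

Plan. `i := s ≫ g = Spec.map φT ≫ hT0.fromSpec` with `φT := g.appLE T0 V0 hle0 ≫ ofHom (φ ∘ chR)` (as at the
beginning of the proof of `W_T1a`/`W_T1`, LibW64T: `Spec.map φ ≫ hV0.fromSpec ≫ g`,
`IsAffineOpen.SpecMap_appLE_fromSpec`), surjective because `k`-linear (`hkT`: constants of `T` go to constants).
`W_P5` for all affine `V1 ≤ g ⁻¹ᵁ T0`. `Z := pullback g (s ≫ g)`, `p := pullback.fst`,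
`y := p (genericPoint Z)`, `R_y := V.presheaf.stalk y`. `O` := range of
`R_y → V.functionField → K` (injective), `Ψ` := `p.stalkMap (genericPoint Z) : R_y → Z.functionField`
transported to `O`. `inv`: `p.stalkMap` is a local homomorphism to a field, so `x` with `Ψ x ≠ 0` is a unit
of `R_y`. Let `V1`, `A1` be as in the statement. `W_P5`: `p.app V1` surjective with kernel
`Ideal.map (g.appLE T0 V1) (ker φT)`, which corresponds to `fibI A1 A0 φ0` under `chR : Γ(V, V1) ≃ A1`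
(`chM` on `g.appLE T0 V1 a` equals `chM` on `g.app T0 a`: germs and restriction, so `A0` corresponds to
`Γ(T, T0)`; and `φ0 (chM a) = φT a`). As `fibI ≠ ⊤`, `p ⁻¹ᵁ V1` is nonempty (`p.app V1` is surjective onto a
nonzero ring), so it contains `genericPoint Z`, and `y ∈ V1`. `ψ := Ψ` on `A1`:
`ψ (chR b) = p.stalkMap (germ_y b) = germ (p.app V1 b)`. `ker`: the germ map of the integral scheme `Z` is
injective. `frac`: `Z.functionField` is the fraction field of `Γ(Z, p ⁻¹ᵁ V1)`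
(`functionField_isFractionRing_of_isAffineOpen`) and `p.app V1` is surjective. -/

set_option autoImplicit false
open AlgebraicGeometry CategoryTheory

namespace Pool.Agent.LibHP

private theorem P6_germ {V T : Scheme.{0}} (g : V ⟶ T) (x : V) (T0 : T.Opens)
    (hx : x ∈ g ⁻¹ᵁ T0) (V1 : V.Opens) (hx1 : x ∈ V1) (hle : V1 ≤ g ⁻¹ᵁ T0) (a : Γ(T, T0)) :
    V.presheaf.germ V1 x hx1 ((g.appLE T0 V1 hle).hom a) =
      V.presheaf.germ (g ⁻¹ᵁ T0) x hx ((g.app T0).hom a) := by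
  have e3 : g.appLE T0 V1 hle ≫ V.presheaf.germ V1 x hx1 =
      g.app T0 ≫ V.presheaf.germ (g ⁻¹ᵁ T0) x hx := by
    rw [Scheme.Hom.appLE, Category.assoc, TopCat.Presheaf.germ_res]
  exact congrArg (fun φ => φ.hom a) e3

private theorem P6_const {k : Type} [Field k] {V T : Scheme.{0}}
    (t : T ⟶ Spec (CommRingCat.of k)) (g : V ⟶ T) (x : V) (T0 : T.Opens)
    (hx : x ∈ g ⁻¹ᵁ T0) (c : k) : ∃ a : Γ(T, T0),
    V.presheaf.germ (g ⁻¹ᵁ T0) x hx ((g.app T0).hom a) = toStalk (g ≫ t) x c := by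
  refine ⟨(T.presheaf.map (homOfLE (le_top : T0 ≤ ⊤)).op).hom
    (t.appTop.hom ((Scheme.ΓSpecIso (CommRingCat.of k)).inv.hom c)), ?_⟩
  have h1 : t.appTop ≫ T.presheaf.map (homOfLE (le_top : T0 ≤ ⊤)).op ≫ g.app T0 ≫
      V.presheaf.germ (g ⁻¹ᵁ T0) x hx = (g ≫ t).appTop ≫ V.presheaf.germ ⊤ x trivial := by
    have e1 : g.app T0 ≫ V.presheaf.germ (g ⁻¹ᵁ T0) x hx =
        T.presheaf.germ T0 (g x) hx ≫ g.stalkMap x := (Scheme.Hom.germ_stalkMap g T0 x hx).symm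
    have e2 : T.presheaf.map (homOfLE (le_top : T0 ≤ ⊤)).op ≫ T.presheaf.germ T0 (g x) hx =
        T.presheaf.germ ⊤ (g x) trivial := T.presheaf.germ_res _ _ _
    have e3 : T.presheaf.germ ⊤ (g x) trivial ≫ g.stalkMap x =
        g.app ⊤ ≫ V.presheaf.germ (g ⁻¹ᵁ ⊤) x trivial := Scheme.Hom.germ_stalkMap g ⊤ x trivial
    rw [e1, ← Category.assoc (T.presheaf.map _), e2, e3, Scheme.Hom.comp_appTop, Category.assoc]
    rfl
  have h2 := congrArg (fun φ => φ.hom ((Scheme.ΓSpecIso (CommRingCat.of k)).inv.hom c)) h1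
  exact h2

private theorem P6_aux {k : Type} [Field k] {V T Z : Scheme.{0}} [IsIntegral V] [IsIntegral T]
    [IsIntegral Z]
    (h : V ⟶ Spec (CommRingCat.of k)) (t : T ⟶ Spec (CommRingCat.of k)) (g : V ⟶ T)
    (hg : g ≫ t = h) (K : Type) [Field K] [Algebra k K] (e : V.functionField →+* K)
    (he : Function.Bijective e)
    (hk : ∀ c : k, algebraMap k K c = e (toStalk h (genericPoint V) c)) (T0 : T.Opens)
    (hT0 : IsAffineOpen T0) (hηT : genericPoint V ∈ g ⁻¹ᵁ T0) (A0 : Subalgebra k K)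
    (hA0 : IsBase g e T0 hηT A0) (V0 : V.Opens) (hV0 : IsAffineOpen V0)
    (hle0 : V0 ≤ g ⁻¹ᵁ T0) (hη0 : genericPoint V ∈ V0) (A : Subalgebra k K)
    (hA : IsChart e V0 hη0 A) (hA0A : A0 ≤ A) (φ : A →ₐ[k] k)
    (s : Spec (CommRingCat.of k) ⟶ V)
    (hs : s = Spec.map (CommRingCat.ofHom ((φ : A →+* k).comp (chR e V0 hη0 A hA))) ≫
      hV0.fromSpec) (p : Z ⟶ V) (q : Z ⟶ Spec (CommRingCat.of k))
    (hpb : IsPullback p q g (s ≫ g)) :
    ∃ (O : Subring K) (Ψ : O →+* Z.functionField),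
      ∀ (V1 : V.Opens) (_ : IsAffineOpen V1) (_ : V1 ≤ g ⁻¹ᵁ T0) (hη1 : genericPoint V ∈ V1)
        (A1 : Subalgebra k K) (hA1 : IsChart e V1 hη1 A1),
        fibI A1 A0 (φ.comp (Subalgebra.inclusion hA0A)) ≠ ⊤ →
        ∃ (hZ : genericPoint Z ∈ p ⁻¹ᵁ V1) (ψ : A1 →+* Z.functionField),
          IsAffineOpen (p ⁻¹ᵁ V1) ∧ Function.Surjective (p.app V1).hom ∧
          IsFib A1 A0 (φ.comp (Subalgebra.inclusion hA0A)) O Ψ ψ ∧
          ∀ b : Γ(V, V1), ψ (chR e V1 hη1 A1 hA1 b) =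
            (Z.presheaf.germ (p ⁻¹ᵁ V1) _ hZ).hom ((p.app V1).hom b) := by
  obtain ⟨φT, hφT⟩ : ∃ φT : Γ(T, T0) ⟶ CommRingCat.of k, φT = g.appLE T0 V0 hle0 ≫
    CommRingCat.ofHom ((φ : A →+* k).comp (chR e V0 hη0 A hA)) := ⟨_, rfl⟩
  have hφTa : ∀ a : Γ(T, T0), φT.hom a = φ (chR e V0 hη0 A hA ((g.appLE T0 V0 hle0).hom a)) := by
    intro a
    rw [hφT]
    rfl
  have hi : s ≫ g = Spec.map φT ≫ hT0.fromSpec := by
    rw [hφT, Spec.map_comp, Category.assoc,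
      IsAffineOpen.SpecMap_appLE_fromSpec g hT0 hV0 hle0, hs, Category.assoc]
  have hch : ∀ (V1 : V.Opens) (hle1 : V1 ≤ g ⁻¹ᵁ T0) (hη1 : genericPoint V ∈ V1) (a : Γ(T, T0)),
      chM e V1 hη1 ((g.appLE T0 V1 hle1).hom a) = chM e (g ⁻¹ᵁ T0) hηT ((g.app T0).hom a) := by
    intro V1 hle1 hη1 a
    exact congrArg e (P6_germ g (genericPoint V) T0 hηT V1 hη1 hle1 a)
  have hsurj : Function.Surjective φT.hom := by
    intro c
    obtain ⟨a, ha⟩ := P6_const t g (genericPoint V) T0 hηT c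
    refine ⟨a, ?_⟩
    rw [hφTa]
    have h1 : chR e V0 hη0 A hA ((g.appLE T0 V0 hle0).hom a) = algebraMap k A c := by
      apply Subtype.ext
      show chM e V0 hη0 ((g.appLE T0 V0 hle0).hom a) = algebraMap k K c
      rw [hch V0 hle0 hη0 a, hk, ← hg]
      exact congrArg e ha
    rw [h1, AlgHom.commutes]
    rfl
  -- the local ring
  have hfr : IsFractionRing (V.presheaf.stalk (p (genericPoint Z))) V.functionField :=
    inferInstance
  obtain ⟨ρ, hρ⟩ : ∃ ρ : V.presheaf.stalk (p (genericPoint Z)) →+* K,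
    ρ = e.comp (algebraMap (V.presheaf.stalk (p (genericPoint Z))) V.functionField) := ⟨_, rfl⟩
  have hρinj : Function.Injective ρ := by
    rw [hρ]
    exact he.1.comp (IsFractionRing.injective _ _)
  obtain ⟨Ψ, hΨ⟩ : ∃ Ψ : ρ.range →+* Z.functionField, ∀ r, ∀ hr : ρ r ∈ ρ.range,
      Ψ ⟨ρ r, hr⟩ = (p.stalkMap (genericPoint Z)).hom r := by
    let E : V.presheaf.stalk (p (genericPoint Z)) ≃+* ρ.range :=
      RingEquiv.ofBijective ρ.rangeRestrict
        ⟨fun x y hxy => hρinj (congrArg Subtype.val hxy), ρ.rangeRestrict_surjective⟩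
    refine ⟨(p.stalkMap (genericPoint Z)).hom.comp (E.symm : ρ.range →+* _), fun r hr => ?_⟩
    have h1 : E.symm ⟨ρ r, hr⟩ = r := by
      rw [RingEquiv.symm_apply_eq]
      rfl
    show (p.stalkMap (genericPoint Z)).hom (E.symm ⟨ρ r, hr⟩) = _
    rw [h1]
  refine ⟨ρ.range, Ψ, ?_⟩
  intro V1 hV1 hle1 hη1 A1 hA1 hfib
  obtain ⟨haff, hsurj1, hker⟩ := W_P5 g T0 hT0 V1 hV1 hle1 φT hsurj (s ≫ g) hi p q hpb
  -- the chart
  have hne1 : Nonempty V1 := ⟨⟨_, hη1⟩⟩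
  have hβinj : Function.Injective (chR e V1 hη1 A1 hA1) := by
    intro x y hxy
    have h1 : chM e V1 hη1 x = chM e V1 hη1 y := congrArg Subtype.val hxy
    exact Scheme.germToFunctionField_injective V V1 (he.1 h1)
  have hβsurj : Function.Surjective (chR e V1 hη1 A1 hA1) := by
    rintro ⟨c, hc⟩
    obtain ⟨b, hb⟩ := (hA1 c).1 hc
    exact ⟨b, Subtype.ext hb⟩
  have hset : (chR e V1 hη1 A1 hA1).comp (g.appLE T0 V1 hle1).hom '' (RingHom.ker φT.hom : Set _) =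
      {a : A1 | ∃ h : (a : K) ∈ A0, (φ.comp (Subalgebra.inclusion hA0A)) ⟨a, h⟩ = 0} := by
    have hval : ∀ (a : Γ(T, T0)) (hmem : chM e (g ⁻¹ᵁ T0) hηT ((g.app T0).hom a) ∈ A0),
        (φ.comp (Subalgebra.inclusion hA0A)) ⟨_, hmem⟩ = φT.hom a := by
      intro a hmem
      rw [hφTa]
      show φ _ = φ _
      congr 1
      apply Subtype.ext
      exact (hch V0 hle0 hη0 a).symm
    ext a
    constructor
    · rintro ⟨u, hu, rfl⟩
      have h1 : (((chR e V1 hη1 A1 hA1).comp (g.appLE T0 V1 hle1).hom u : A1) : K) =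
          chM e (g ⁻¹ᵁ T0) hηT ((g.app T0).hom u) := hch V1 hle1 hη1 u
      have h2 : (((chR e V1 hη1 A1 hA1).comp (g.appLE T0 V1 hle1).hom u : A1) : K) ∈ A0 := by
        rw [h1]
        exact (hA0 _).2 ⟨u, rfl⟩
      refine ⟨h2, ?_⟩
      have h3 : (⟨_, h2⟩ : A0) = ⟨_, (hA0 _).2 ⟨u, rfl⟩⟩ := Subtype.ext h1
      rw [h3, hval u]
      exact hu
    · rintro ⟨h1, h2⟩
      obtain ⟨u, hu⟩ := (hA0 _).1 h1
      refine ⟨u, ?_, ?_⟩
      · show φT.hom u = 0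
        have hm : chM e (g ⁻¹ᵁ T0) hηT ((g.app T0).hom u) ∈ A0 := (hA0 _).2 ⟨u, rfl⟩
        rw [← hval u hm, ← h2]
        congr 1
        exact Subtype.ext hu
      · apply Subtype.ext
        rw [← hu]
        exact hch V1 hle1 hη1 u
  have hfibI : Ideal.map (chR e V1 hη1 A1 hA1)
      (Ideal.map (g.appLE T0 V1 hle1).hom (RingHom.ker φT.hom)) =
      fibI A1 A0 (φ.comp (Subalgebra.inclusion hA0A)) := by
    rw [Ideal.map_map, Ideal.map, hset]
    rfl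
  have hker' : ∀ b : Γ(V, V1), (p.app V1).hom b = 0 ↔
      chR e V1 hη1 A1 hA1 b ∈ fibI A1 A0 (φ.comp (Subalgebra.inclusion hA0A)) := by
    intro b
    rw [hker, ← hfibI, Ideal.mem_map_iff_of_surjective _ hβsurj]
    constructor
    · intro hb
      exact ⟨b, hb, rfl⟩
    · rintro ⟨x, hx, hxb⟩
      rw [← hβinj hxb]
      exact hx
  have hZ : genericPoint Z ∈ p ⁻¹ᵁ V1 := by
    by_contra hcon
    have hbot : p ⁻¹ᵁ V1 = ⊥ := by
      rw [eq_bot_iff]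
      intro z hz
      exfalso
      apply hcon
      exact ((genericPoint_spec Z).mem_open_set_iff (p ⁻¹ᵁ V1).isOpen).2 ⟨z, trivial, hz⟩
    have hsub : Subsingleton Γ(Z, p ⁻¹ᵁ V1) := by
      rw [hbot]
      exact CommRingCat.subsingleton_of_isTerminal Z.sheaf.isTerminalOfEmpty
    apply hfib
    rw [Ideal.eq_top_iff_one]
    have h1 := (hker' 1).1 (Subsingleton.elim _ _)
    rwa [map_one] at h1
  have hneZ : Nonempty (p ⁻¹ᵁ V1) := ⟨⟨_, hZ⟩⟩
  obtain ⟨ψ, hψ⟩ : ∃ ψ : A1 →+* Z.functionField, ∀ b : Γ(V, V1), ψ (chR e V1 hη1 A1 hA1 b) =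
      (Z.presheaf.germ (p ⁻¹ᵁ V1) _ hZ).hom ((p.app V1).hom b) := by
    let E : Γ(V, V1) ≃+* A1 := RingEquiv.ofBijective (chR e V1 hη1 A1 hA1) ⟨hβinj, hβsurj⟩
    refine ⟨((Z.presheaf.germ (p ⁻¹ᵁ V1) _ hZ).hom.comp (p.app V1).hom).comp
      (E.symm : A1 →+* Γ(V, V1)), fun b => ?_⟩
    have h1 : E.symm (chR e V1 hη1 A1 hA1 b) = b := by
      rw [RingEquiv.symm_apply_eq]
      rfl
    show (Z.presheaf.germ (p ⁻¹ᵁ V1) _ hZ).hom ((p.app V1).hom
      (E.symm (chR e V1 hη1 A1 hA1 b))) = _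
    rw [h1]
  refine ⟨hZ, ψ, haff, hsurj1, ⟨?_, ?_, ?_, ?_⟩, hψ⟩
  · rintro ⟨x, r, rfl⟩ hx
    rw [hΨ r] at hx
    have h1 : IsUnit ((p.stalkMap (genericPoint Z)).hom r) := isUnit_iff_ne_zero.2 hx
    have h2 : IsUnit r := isUnit_of_map_unit (p.stalkMap (genericPoint Z)).hom r h1
    obtain ⟨r', hr'⟩ := h2.exists_right_inv
    refine ⟨r', ?_⟩
    have h3 : ρ r * ρ r' = 1 := by rw [← map_mul, hr', map_one]
    exact eq_inv_of_mul_eq_one_right h3
  · intro a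
    obtain ⟨b, rfl⟩ := hβsurj a
    have hsp : genericPoint V ⤳ p (genericPoint Z) := genericPoint_specializes _
    have h1 : ρ ((V.presheaf.germ V1 (p (genericPoint Z)) hZ).hom b) =
        ((chR e V1 hη1 A1 hA1 b : A1) : K) := by
      rw [hρ]
      show e _ = e _
      congr 1
      have e2 : V.presheaf.germ V1 (p (genericPoint Z)) hZ ≫ V.presheaf.stalkSpecializes hsp =
          V.presheaf.germ V1 (genericPoint V) hη1 :=
        TopCat.Presheaf.germ_stalkSpecializes V.presheaf hZ hsp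
      exact congrArg (fun φ => φ.hom b) e2
    have h2 : ((chR e V1 hη1 A1 hA1 b : A1) : K) ∈ ρ.range := ⟨_, h1⟩
    refine ⟨h2, ?_⟩
    have h3 : (⟨_, h2⟩ : ρ.range) =
        ⟨ρ ((V.presheaf.germ V1 (p (genericPoint Z)) hZ).hom b), ⟨_, rfl⟩⟩ :=
      Subtype.ext h1.symm
    rw [h3, hΨ, hψ]
    have e1 : V.presheaf.germ V1 (p (genericPoint Z)) hZ ≫ p.stalkMap (genericPoint Z) =
        p.app V1 ≫ Z.presheaf.germ (p ⁻¹ᵁ V1) (genericPoint Z) hZ :=
      Scheme.Hom.germ_stalkMap p V1 (genericPoint Z) hZ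
    exact congrArg (fun φ => φ.hom b) e1
  · intro a
    obtain ⟨b, rfl⟩ := hβsurj a
    rw [hψ, ← hker']
    constructor
    · intro h0
      apply Scheme.germToFunctionField_injective Z (p ⁻¹ᵁ V1)
      rw [map_zero]
      exact h0
    · intro h0
      rw [h0, map_zero]
  · intro z
    have hfrac : IsFractionRing Γ(Z, p ⁻¹ᵁ V1) Z.functionField :=
      functionField_isFractionRing_of_isAffineOpen Z (p ⁻¹ᵁ V1) haff
    obtain ⟨a, b, hb, hab⟩ := IsFractionRing.div_surjective (A := Γ(Z, p ⁻¹ᵁ V1)) z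
    obtain ⟨a0, rfl⟩ := hsurj1 a
    obtain ⟨b0, rfl⟩ := hsurj1 b
    have hb0 : (p.app V1).hom b0 ≠ 0 := nonZeroDivisors.ne_zero hb
    have h3 : (Z.presheaf.germ (p ⁻¹ᵁ V1) _ hZ).hom ((p.app V1).hom b0) ≠ 0 := by
      intro h0
      apply hb0
      apply Scheme.germToFunctionField_injective Z (p ⁻¹ᵁ V1)
      rw [map_zero]
      exact h0
    refine ⟨chR e V1 hη1 A1 hA1 a0, chR e V1 hη1 A1 hA1 b0, ?_, ?_⟩
    · rw [hψ]
      exact h3
    · rw [hψ, hψ, ← hab]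
      exact div_mul_cancel₀ _ h3

theorem W_P6 {k : Type} [Field k] {V T : Scheme.{0}} [IsIntegral V] [IsIntegral T]
    (h : V ⟶ Spec (CommRingCat.of k)) (t : T ⟶ Spec (CommRingCat.of k)) (g : V ⟶ T)
    (hg : g ≫ t = h) (K : Type) [Field K] [Algebra k K] (e : V.functionField →+* K)
    (he : Function.Bijective e)
    (hk : ∀ c : k, algebraMap k K c = e (toStalk h (genericPoint V) c)) (T0 : T.Opens)
    (hT0 : IsAffineOpen T0) (hηT : genericPoint V ∈ g ⁻¹ᵁ T0) (A0 : Subalgebra k K)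
    (hA0 : IsBase g e T0 hηT A0) (V0 : V.Opens) (hV0 : IsAffineOpen V0)
    (hle0 : V0 ≤ g ⁻¹ᵁ T0) (hη0 : genericPoint V ∈ V0) (A : Subalgebra k K)
    (hA : IsChart e V0 hη0 A) (hA0A : A0 ≤ A) (φ : A →ₐ[k] k)
    (s : Spec (CommRingCat.of k) ⟶ V)
    (hs : s = Spec.map (CommRingCat.ofHom ((φ : A →+* k).comp (chR e V0 hη0 A hA))) ≫
      hV0.fromSpec)
    (_ : IsIntegral (Limits.pullback g (s ≫ g))) :
    ∃ (O : Subring K) (Ψ : O →+* (Limits.pullback g (s ≫ g)).functionField),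
      ∀ (V1 : V.Opens) (_ : IsAffineOpen V1) (_ : V1 ≤ g ⁻¹ᵁ T0) (hη1 : genericPoint V ∈ V1)
        (A1 : Subalgebra k K) (hA1 : IsChart e V1 hη1 A1),
        fibI A1 A0 (φ.comp (Subalgebra.inclusion hA0A)) ≠ ⊤ →
        ∃ (hZ : genericPoint ↥(Limits.pullback g (s ≫ g)) ∈
            (Limits.pullback.fst g (s ≫ g)) ⁻¹ᵁ V1)
          (ψ : A1 →+* (Limits.pullback g (s ≫ g)).functionField),
          IsAffineOpen ((Limits.pullback.fst g (s ≫ g)) ⁻¹ᵁ V1) ∧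
          Function.Surjective ((Limits.pullback.fst g (s ≫ g)).app V1).hom ∧
          IsFib A1 A0 (φ.comp (Subalgebra.inclusion hA0A)) O Ψ ψ ∧
          ∀ b : Γ(V, V1), ψ (chR e V1 hη1 A1 hA1 b) =
            ((Limits.pullback g (s ≫ g)).presheaf.germ
              ((Limits.pullback.fst g (s ≫ g)) ⁻¹ᵁ V1) _ hZ).hom
              (((Limits.pullback.fst g (s ≫ g)).app V1).hom b) := by
  exact P6_aux h t g hg K e he hk T0 hT0 hηT A0 hA0 V0 hV0 hle0 hη0 A hA hA0A φ s hs _ _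
    (IsPullback.of_hasPullback g (s ≫ g))

end Pool.Agent.LibHP
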