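import Pool.Agent.LibW64P.SDefs

/-! # Row P9: small charts

SHORT/MEDIUM. Plan. Let `V0'` be an affine open subset of the nonempty open set `W'` (it contains the generic
point), with chart ring `A'` (the range of `chM`). `R` is generated by finitely many elements of `K`, which are
fractions of elements of `A'` (`functionField_isFractionRing_of_isAffineOpen`, `he`) with common denominator
`d ∈ Γ(V, V0')`, `d ≠ 0`. `V0 := V.basicOpen d` (affine: `IsAffineOpen.basicOpen`), `Γ(V, V0) = Γ(V, V0')[1/d]`,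
it contains `1/d`. (See `exists_factor_open` used in LibK3G/WH2.lean, which is a similar statement.) -/

set_option autoImplicit false
open AlgebraicGeometry CategoryTheory

namespace Pool.Agent.LibHP

theorem W_P9 {k : Type} [Field k] {V : Scheme.{0}} [IsIntegral V] (K : Type) [Field K]
    [Algebra k K] (e : V.functionField →+* K) (he : Function.Bijective e) (W' : V.Opens)
    (hW : genericPoint V ∈ W') (R : Subalgebra k K) (hR : R.FG)
    (hconst : ∀ (V1 : V.Opens) (hη1 : genericPoint V ∈ V1) (c : k),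
      ∃ b : Γ(V, V1), chM e V1 hη1 b = algebraMap k K c) :
    ∃ (V0 : V.Opens) (_ : IsAffineOpen V0) (_ : V0 ≤ W') (hη0 : genericPoint V ∈ V0),
      ∀ A : Subalgebra k K, IsChart e V0 hη0 A → R ≤ A := by
  classical
  obtain ⟨_, ⟨V1, hV1, rfl⟩, hg1, hle⟩ := V.isBasis_affineOpens.exists_subset_of_mem_open
    hW W'.isOpen
  have hg1' : genericPoint V ∈ V1 := hg1
  have hle' : V1 ≤ W' := hle
  have hneV : Nonempty V1 := ⟨⟨_, hg1'⟩⟩
  have hfr := functionField_isFractionRing_of_isAffineOpen V V1 hV1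
  obtain ⟨s, rfl⟩ := hR
  obtain ⟨⟨b, hb⟩, hbT⟩ := IsLocalization.exist_integer_multiples_of_finset
    (nonZeroDivisors Γ(V, V1)) (s.image (Equiv.ofBijective e he).symm)
  have hb0 : b ≠ 0 := nonZeroDivisors.ne_zero hb
  have hU : IsAffineOpen (V.basicOpen b) := hV1.basicOpen b
  have hg : genericPoint V ∈ V.basicOpen b := by
    rw [V.mem_basicOpen b (genericPoint V) hg1']
    refine IsUnit.mk0 _ fun h3 => hb0 ?_
    apply germ_injective_of_isIntegral V _ hg1'
    rw [h3, map_zero]
  have hbu : IsUnit (V.presheaf.map (homOfLE (V.basicOpen_le b)).op b) :=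
    RingedSpace.isUnit_res_basicOpen _ b
  have hgr : ∀ a : Γ(V, V1), V.presheaf.germ (V.basicOpen b) (genericPoint V) hg
      (V.presheaf.map (homOfLE (V.basicOpen_le b)).op a) =
      V.presheaf.germ V1 (genericPoint V) hg1' a := by
    intro a
    exact TopCat.Presheaf.germ_res_apply _ _ _ _ _
  refine ⟨V.basicOpen b, hU, (V.basicOpen_le b).trans hle', hg, fun A hA => ?_⟩
  refine Algebra.adjoin_le fun x hx => (hA x).2 ?_
  obtain ⟨r, hr⟩ := hbT ((Equiv.ofBijective e he).symm x)
    (Finset.mem_image_of_mem _ (Finset.mem_coe.1 hx))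
  obtain ⟨u, hu⟩ := hbu
  refine ⟨((u⁻¹ : (Γ(V, V.basicOpen b))ˣ) : Γ(V, V.basicOpen b)) *
    V.presheaf.map (homOfLE (V.basicOpen_le b)).op r, ?_⟩
  have h4 : V.presheaf.germ (V.basicOpen b) (genericPoint V) hg (u : Γ(V, V.basicOpen b)) ≠ 0 :=
    (u.isUnit.map (V.presheaf.germ (V.basicOpen b) (genericPoint V) hg).hom).ne_zero
  have h5 : V.presheaf.germ (V.basicOpen b) (genericPoint V) hg
      (((u⁻¹ : (Γ(V, V.basicOpen b))ˣ) : Γ(V, V.basicOpen b)) *
        V.presheaf.map (homOfLE (V.basicOpen_le b)).op r) =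
      (Equiv.ofBijective e he).symm x := by
    apply mul_left_cancel₀ h4
    rw [← map_mul, ← mul_assoc, Units.mul_inv, one_mul, hgr, hu, hgr]
    rw [Algebra.smul_def] at hr
    exact hr
  show e (V.presheaf.germ (V.basicOpen b) (genericPoint V) hg _) = x
  rw [h5]
  exact (Equiv.ofBijective e he).apply_symm_apply x

end Pool.Agent.LibHP
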