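import Pool.Agent.LibW64P.SDefs
import Pool.Agent.LibW64P.P6
import Pool.Agent.LibW64P.P9
import Pool.Agent.LibW64T.T2e
import Pool.Agent.LibW64T.U3

/-! # Row PC: the base field is algebraically closed in the function field

SHORT/MEDIUM. Plan. `W_P9` with `W' := W ⊓ g ⁻¹ᵁ T0`, `R := ⊥`: `V0`, and `hch`: `A`. `W_U3` needs: for every
`φ : A →ₐ[k] k` the ring `A ⧸ fibreIdeal A A0 φ` is a domain. `s` as in row PA (`W_T2e`), `H s`: the fibre `Z` is
integral; `W_P6` with `V1 := V0`, `A1 := A` (`fibI A A0 φ0 ≠ ⊤`, as `φ` kills it) gives `ψ : A →+* κ` with kernel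
`fibI A A0 φ0 = fibreIdeal A A0 φ` (same generators), `κ` a field. -/

set_option autoImplicit false
open AlgebraicGeometry CategoryTheory

namespace Pool.Agent.LibHP

theorem W_PC {k : Type} [Field k] [CharZero k] {V T : Scheme.{0}} [IsIntegral V] [IsIntegral T]
    (h : V ⟶ Spec (CommRingCat.of k)) [LocallyOfFiniteType h]
    (t : T ⟶ Spec (CommRingCat.of k)) [LocallyOfFiniteType t] (g : V ⟶ T) (hg : g ≫ t = h)
    (W : V.Opens)
    (H : ∀ s : Spec (CommRingCat.of k) ⟶ V, s ≫ h = 𝟙 _ → Set.range s.base ⊆ W →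
      IsIntegral (Limits.pullback g (s ≫ g)) ∧
      (∀ y : ↥(Limits.pullback g (s ≫ g)),
        IsIntegrallyClosed ((Limits.pullback g (s ≫ g)).presheaf.stalk y)) ∧
      RelWHP (Limits.pullback.snd g (s ≫ g))
        (Limits.pullback.lift s (𝟙 _) (by rw [Category.id_comp])))
    (K : Type) [Field K] [Algebra k K] (e : V.functionField →+* K) (he : Function.Bijective e)
    (hk : ∀ c : k, algebraMap k K c = e (toStalk h (genericPoint V) c)) (T0 : T.Opens)
    (hT0 : IsAffineOpen T0) (hηT : genericPoint V ∈ g ⁻¹ᵁ T0) (L : Subfield K)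
    (A0 : Subalgebra k K) (hA0 : IsBase g e T0 hηT A0)
    (hW : (W : Set V).Nonempty)
    (hch : ∀ (V1 : V.Opens) (_ : IsAffineOpen V1) (_ : V1 ≤ g ⁻¹ᵁ T0)
      (hη1 : genericPoint V ∈ V1), ∃ A1 : Subalgebra k K, IsChart e V1 hη1 A1 ∧ IsModel L A1 A0)
    (hdense : DensePts k K) : ClosedSub L := by
  have hηW : genericPoint V ∈ W :=
    ((genericPoint_spec V).mem_open_set_iff W.isOpen).2 (by simpa using hW)
  have hconst : ∀ (V1 : V.Opens) (hη1 : genericPoint V ∈ V1) (c : k),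
      chM e V1 hη1 (kapU h V1 c) = algebraMap k K c := by
    intro V1 hη1 c
    rw [hk c]
    exact congrArg e (germ_kapU h V1 (genericPoint V) hη1 c)
  obtain ⟨V0, hV0, hle, hη0, -⟩ := W_P9 K e he (W ⊓ g ⁻¹ᵁ T0) ⟨hηW, hηT⟩ (⊥ : Subalgebra k K)
    Subalgebra.fg_bot (fun V1 hη1 c => ⟨_, hconst V1 hη1 c⟩)
  have hle0 : V0 ≤ g ⁻¹ᵁ T0 := hle.trans inf_le_right
  have hleW : V0 ≤ W := hle.trans inf_le_left
  obtain ⟨A, hA, hM⟩ := hch V0 hV0 hle0 hη0
  have hchar : CharZero K := charZero_of_injective_algebraMap (algebraMap k K).injective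
  refine W_U3 k K L A A0 hM hdense fun φ => ?_
  have hlin : ∀ c : k,
      (CommRingCat.ofHom ((φ : A →+* k).comp (chR e V0 hη0 A hA))).hom (kapU h V0 c) = c := by
    intro c
    have h1 : chR e V0 hη0 A hA (kapU h V0 c) = algebraMap k A c :=
      Subtype.ext (hconst V0 hη0 c)
    change φ (chR e V0 hη0 A hA (kapU h V0 c)) = c
    rw [h1, AlgHom.commutes]
    rfl
  obtain ⟨hs1, hs2⟩ := W_T2e h V0 hV0 _ hlin
  obtain ⟨hint, -, -⟩ := H _ hs1 (hs2.trans hleW)
  obtain ⟨O, Ψ, hP⟩ := W_P6 h t g hg K e he hk T0 hT0 hηT A0 hA0 V0 hV0 hle0 hη0 A hA hM.le φ _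
    rfl hint
  have hfib : fibI A A0 (φ.comp (Subalgebra.inclusion hM.le)) = fibreIdeal A A0 φ := by
    unfold fibI fibreIdeal
    congr 1
    ext a
    constructor
    · rintro ⟨h1, h2⟩
      exact ⟨h1, h2⟩
    · rintro ⟨h1, h2⟩
      exact ⟨h1, h2⟩
  have hne : fibI A A0 (φ.comp (Subalgebra.inclusion hM.le)) ≠ ⊤ := by
    rw [hfib]
    intro h1
    have h2 : fibreIdeal A A0 φ ≤ RingHom.ker (φ : A →+* k) := by
      refine Ideal.span_le.2 ?_
      rintro a ⟨-, h2⟩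
      exact h2
    have h3 : (1 : A) ∈ RingHom.ker (φ : A →+* k) := h2 (h1 ▸ Submodule.mem_top)
    rw [RingHom.mem_ker, map_one] at h3
    exact one_ne_zero h3
  obtain ⟨hZ, ψ, -, -, hF, -⟩ := hP V0 hV0 hle0 hη0 A hA hne
  have hker : RingHom.ker ψ = fibreIdeal A A0 φ := by
    ext a
    rw [RingHom.mem_ker, hF.ker, hfib]
  rw [← hker]
  have hprime : (RingHom.ker ψ).IsPrime := RingHom.ker_isPrime ψ
  exact Ideal.Quotient.isDomain _

end Pool.Agent.LibHP
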