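import Pool.Agent.LibW64P.SDefs
import Pool.Agent.LibW64T.T3

/-! # Row PE: the function field of an open subscheme

SHORT. Plan. As `W_T3` (LibW64T/T3.lean), with the converse of its last property: the stalk maps of the open
immersion `j` are isomorphisms. -/

set_option autoImplicit false
open AlgebraicGeometry CategoryTheory

namespace Pool.Agent.LibHP

theorem W_PE {k : Type} [Field k] {X V : Scheme.{0}} [IsIntegral X] [IsIntegral V]
    (f : X ⟶ Spec (CommRingCat.of k)) (j : V ⟶ X) (hj : IsOpenImmersion j) :
    ∃ e : V.functionField →+* X.functionField, Function.Bijective e ∧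
      (∀ c : k, toStalk f (genericPoint X) c = e (toStalk (j ≫ f) (genericPoint V) c)) ∧
      (∀ (v : V) (a : V.presheaf.stalk v), ∃ b : X.presheaf.stalk (j.base v),
        e (algebraMap (V.presheaf.stalk v) V.functionField a) =
          algebraMap (X.presheaf.stalk (j.base v)) X.functionField b) ∧
      ∀ (v : V) (b : X.presheaf.stalk (j.base v)), ∃ a : V.presheaf.stalk v,
        e (algebraMap (V.presheaf.stalk v) V.functionField a) =
          algebraMap (X.presheaf.stalk (j.base v)) X.functionField b := by
  have hη : j (genericPoint V) = genericPoint X := genericPoint_eq_of_isOpenImmersion j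
  have hs : j (genericPoint V) ⤳ genericPoint X := specializes_of_eq hη
  have hs' : genericPoint X ⤳ j (genericPoint V) := specializes_of_eq hη.symm
  have i1 : IsIso (X.presheaf.stalkSpecializes hs) := by
    refine ⟨X.presheaf.stalkSpecializes hs', ?_, ?_⟩
    · rw [TopCat.Presheaf.stalkSpecializes_comp]
      exact TopCat.Presheaf.stalkSpecializes_refl _ _
    · rw [TopCat.Presheaf.stalkSpecializes_comp]
      exact TopCat.Presheaf.stalkSpecializes_refl _ _
  let σ : X.presheaf.stalk (genericPoint X) ⟶ V.presheaf.stalk (genericPoint V) :=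
    X.presheaf.stalkSpecializes hs ≫ j.stalkMap (genericPoint V)
  have hσ : σ = X.presheaf.stalkSpecializes hs ≫ j.stalkMap (genericPoint V) := rfl
  have i3 : IsIso σ := by
    rw [hσ]
    infer_instance
  have hinv : ∀ y, (inv σ).hom (σ.hom y) = y := by
    intro y
    have h1 : (σ ≫ inv σ).hom y = (𝟙 (X.presheaf.stalk (genericPoint X)) :
      X.presheaf.stalk (genericPoint X) ⟶ _).hom y := by rw [IsIso.hom_inv_id]
    exact h1
  have main : ∀ (v : V) (b : X.presheaf.stalk (j.base v)),
      (inv σ).hom (algebraMap (V.presheaf.stalk v) V.functionField ((j.stalkMap v).hom b)) =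
        algebraMap (X.presheaf.stalk (j.base v)) X.functionField b := by
    intro v b
    have hg : genericPoint V ⤳ v := (genericPoint_spec V).specializes trivial
    have hgX : genericPoint X ⤳ j v := (genericPoint_spec X).specializes trivial
    have key : (V.presheaf.stalkSpecializes hg).hom ((j.stalkMap v).hom b) =
        σ.hom ((X.presheaf.stalkSpecializes hgX).hom b) := by
      have h1 : X.presheaf.stalkSpecializes hgX ≫ σ =
          j.stalkMap v ≫ V.presheaf.stalkSpecializes hg := by
        rw [hσ, ← Category.assoc, TopCat.Presheaf.stalkSpecializes_comp]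
        exact Scheme.Hom.stalkSpecializes_stalkMap j _ _ hg
      have h2 := congrArg (fun φ => φ.hom b) h1
      exact h2.symm
    have h4 : algebraMap (V.presheaf.stalk v) V.functionField ((j.stalkMap v).hom b) =
        (V.presheaf.stalkSpecializes hg).hom ((j.stalkMap v).hom b) := rfl
    have h5 : algebraMap (X.presheaf.stalk (j.base v)) X.functionField b =
        (X.presheaf.stalkSpecializes hgX).hom b := rfl
    rw [h4, h5, key]
    exact hinv _
  refine ⟨(inv σ).hom, ConcreteCategory.bijective_of_isIso (C := CommRingCat) (inv σ),
    fun c => ?_, fun v a => ?_, fun v b => ?_⟩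
  · have key : toStalk (j ≫ f) (genericPoint V) c = σ.hom (toStalk f (genericPoint X) c) := by
      have h1 : (Scheme.ΓSpecIso (CommRingCat.of k)).inv ≫ (j ≫ f).appTop ≫
          V.presheaf.germ ⊤ (genericPoint V) trivial =
          ((Scheme.ΓSpecIso (CommRingCat.of k)).inv ≫ f.appTop ≫
            X.presheaf.germ ⊤ (genericPoint X) trivial) ≫ σ := by
        rw [hσ, Category.assoc, Category.assoc]
        congr 1
        rw [Scheme.Hom.comp_appTop, Category.assoc]
        congr 1
        rw [TopCat.Presheaf.germ_stalkSpecializes_assoc]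
        exact (Scheme.Hom.germ_stalkMap j ⊤ (genericPoint V) trivial).symm
      have h2 := congrArg (fun φ => φ.hom c) h1
      exact h2
    rw [key]
    exact (hinv _).symm
  · obtain ⟨b, hb⟩ := (ConcreteCategory.bijective_of_isIso (C := CommRingCat) (j.stalkMap v)).2 a
    have h3 : (j.stalkMap v).hom b = a := hb
    exact ⟨b, by rw [← h3]; exact main v b⟩
  · exact ⟨(j.stalkMap v).hom b, main v b⟩

end Pool.Agent.LibHP
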