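import Pool.Agent.LibW64P.SDefs
import Pool.Agent.LibHP.E2a
import Pool.Agent.LibHP.S2

/-! # Row PR: a bad point of the web gives horizontal ramification

`O := X.presheaf.stalk x`, `x = j v`, a discrete valuation ring; `𝔭` consists of the elements of `A1` whose
image in `V.presheaf.stalk v` is not a unit. -/

set_option autoImplicit false
open AlgebraicGeometry CategoryTheory

namespace Pool.Agent.LibHP

/-- The image in the function field of a germ. -/
private theorem PR_germ {V : Scheme.{0}} [IsIntegral V] {K : Type} [Field K]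
    (e : V.functionField →+* K) (V1 : V.Opens) (hη : genericPoint V ∈ V1) (v : V) (hv : v ∈ V1)
    (b : Γ(V, V1)) :
    e (algebraMap (V.presheaf.stalk v) V.functionField ((V.presheaf.germ V1 v hv).hom b)) =
      chM e V1 hη b := by
  have hne : Nonempty V1 := ⟨⟨v, hv⟩⟩
  have h := Scheme.algebraMap_germ_eq_germToFunctionField (X := V) (U := V1) hv b
  exact congrArg e h

theorem W_PR {k : Type} [Field k] [CharZero k] {X V T : Scheme.{0}} [IsIntegral X] [IsIntegral V]
    [IsIntegral T] (f : X ⟶ Spec (CommRingCat.of k)) [Smooth f] (j : V ⟶ X)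
    (hj : IsOpenImmersion j) (g : V ⟶ T) (v : V) (hgv : g.base v = genericPoint T)
    (hx : ringKrullDim (X.presheaf.stalk (j.base v)) = 1)
    [Algebra k X.functionField] (e : V.functionField →+* X.functionField)
    (he : Function.Bijective e)
    (he1 : ∀ a : V.presheaf.stalk v, ∃ b : X.presheaf.stalk (j.base v),
      e (algebraMap (V.presheaf.stalk v) V.functionField a) =
        algebraMap (X.presheaf.stalk (j.base v)) X.functionField b)
    (he2 : ∀ b : X.presheaf.stalk (j.base v), ∃ a : V.presheaf.stalk v,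
      e (algebraMap (V.presheaf.stalk v) V.functionField a) =
        algebraMap (X.presheaf.stalk (j.base v)) X.functionField b)
    (N : Type) [Field N] [Algebra X.functionField N] [FiniteDimensional X.functionField N]
    (hnp : ¬ PresAt (algebraMap X.functionField N) (j.base v)) (T0 : T.Opens)
    (hηT : genericPoint V ∈ g ⁻¹ᵁ T0) (A0 : Subalgebra k X.functionField)
    (hA0 : IsBase g e T0 hηT A0) (V1 : V.Opens) (hV1 : IsAffineOpen V1) (hle : V1 ≤ g ⁻¹ᵁ T0)
    (hv : v ∈ V1) (hη1 : genericPoint V ∈ V1) (A1 : Subalgebra k X.functionField)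
    (hA1 : IsChart e V1 hη1 A1) :
    RamHor A1 A0 N := by
  have hdvr := isDiscreteValuationRing_stalk f (j.base v) hx
  let _ : Algebra (X.presheaf.stalk (j.base v)) N :=
    (stalkTo (algebraMap X.functionField N) (j.base v)).toAlgebra
  have tow : IsScalarTower (X.presheaf.stalk (j.base v)) X.functionField N :=
    IsScalarTower.of_algebraMap_eq (fun _ => rfl)
  have hne1 : Nonempty V1 := ⟨⟨v, hv⟩⟩
  have hsinj : Function.Injective (algebraMap (V.presheaf.stalk v) V.functionField) :=
    IsFractionRing.injective _ _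
  have hginj : Function.Injective (V.presheaf.germ V1 v hv).hom :=
    germ_injective_of_isIntegral V v hv
  have hinj : Function.Injective (chM e V1 hη1) := by
    intro b b' h
    rw [← PR_germ e V1 hη1 v hv, ← PR_germ e V1 hη1 v hv] at h
    exact hginj (hsinj (he.1 h))
  have hρ : Function.Bijective (chR e V1 hη1 A1 hA1) := by
    constructor
    · intro b b' h
      exact hinj (congrArg (fun a : A1 => (a : X.functionField)) h)
    · rintro ⟨c, hc⟩
      obtain ⟨b, hb⟩ := (hA1 c).1 hc
      exact ⟨b, Subtype.ext hb⟩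
  obtain ⟨ρ, hρe⟩ : ∃ ρ : Γ(V, V1) ≃+* A1, ∀ b, ((ρ b : A1) : X.functionField) = chM e V1 hη1 b :=
    ⟨RingEquiv.ofBijective _ hρ, fun _ => rfl⟩
  obtain ⟨γ, hγ⟩ : ∃ γ : A1 →+* V.presheaf.stalk v,
      ∀ b, γ (ρ b) = (V.presheaf.germ V1 v hv).hom b :=
    ⟨(V.presheaf.germ V1 v hv).hom.comp ρ.symm.toRingHom, fun b => by
      simp⟩
  have hγe : ∀ a : A1, e (algebraMap (V.presheaf.stalk v) V.functionField (γ a)) =
      (a : X.functionField) := by
    intro a
    obtain ⟨b, rfl⟩ := ρ.surjective a
    rw [hγ, hρe, PR_germ e V1 hη1 v hv]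
  refine ⟨(IsLocalRing.maximalIdeal (V.presheaf.stalk v)).comap γ, X.presheaf.stalk (j.base v),
    inferInstance, inferInstance, inferInstance, inferInstance, inferInstance, ?_, hdvr,
    inferInstance, tow, ?_, ?_⟩
  · -- horizontal
    intro a ha0 ha
    obtain ⟨a', ha'⟩ := (hA0 _).1 ha0
    by_contra hne
    have hvT : g.base v ∈ T0 := hle hv
    have hfield : IsField (T.presheaf.stalk (g.base v)) := by
      rw [hgv]
      exact Field.toIsField T.functionField
    have hcomm : (V.presheaf.germ (g ⁻¹ᵁ T0) v (hle hv)).hom ((g.app T0).hom a') =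
        (g.stalkMap v).hom ((T.presheaf.germ T0 (g.base v) hvT).hom a') := by
      have h := Scheme.Hom.germ_stalkMap_apply g T0 v hvT a'
      exact h.symm
    have h1 : γ a = (V.presheaf.germ (g ⁻¹ᵁ T0) v (hle hv)).hom ((g.app T0).hom a') := by
      apply hsinj
      apply he.1
      rw [hγe, PR_germ e (g ⁻¹ᵁ T0) hηT v (hle hv), ha']
    have h2 : (T.presheaf.germ T0 (g.base v) hvT).hom a' ≠ 0 := by
      intro h0
      rw [hcomm, h0, map_zero] at h1
      apply hne
      apply Subtype.ext
      have h3 := hγe a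
      rw [h1, map_zero, map_zero] at h3
      exact h3.symm
    have h3 : IsUnit ((T.presheaf.germ T0 (g.base v) hvT).hom a') := by
      obtain ⟨c, hc⟩ := hfield.mul_inv_cancel h2
      exact IsUnit.of_mul_eq_one c hc
    have h4 : IsUnit (γ a) := by
      rw [h1, hcomm]
      exact h3.map _
    exact ((IsLocalRing.mem_maximalIdeal _).1 ha) h4
  · -- the local ring
    intro x
    constructor
    · rintro ⟨o, rfl⟩
      obtain ⟨s, hs⟩ := he2 o
      have hloc := hV1.isLocalization_stalk ⟨v, hv⟩
      let _ : Algebra Γ(V, V1) (V.presheaf.stalk v) :=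
        TopCat.Presheaf.algebra_section_stalk V.presheaf ⟨v, hv⟩
      obtain ⟨⟨a, b⟩, hab⟩ := IsLocalization.surj (hV1.primeIdealOf ⟨v, hv⟩).asIdeal.primeCompl s
      have hu : IsUnit ((V.presheaf.germ V1 v hv).hom (b : Γ(V, V1))) :=
        IsLocalization.map_units (V.presheaf.stalk v) b
      have hab' : s * (V.presheaf.germ V1 v hv).hom (b : Γ(V, V1)) =
          (V.presheaf.germ V1 v hv).hom a := hab
      refine ⟨ρ a, ρ b, ?_, ?_⟩
      · intro h
        rw [Ideal.mem_comap, hγ] at h
        exact ((IsLocalRing.mem_maximalIdeal _).1 h) hu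
      · rw [← hs, hρe, hρe, ← PR_germ e V1 hη1 v hv, ← PR_germ e V1 hη1 v hv, ← map_mul,
          ← map_mul, hab']
    · rintro ⟨a, b, hb, hxb⟩
      have hu : IsUnit (γ b) := by
        by_contra h
        exact hb ((IsLocalRing.mem_maximalIdeal _).2 h)
      obtain ⟨w, hw⟩ := hu.exists_right_inv
      obtain ⟨o, ho⟩ := he1 (γ a * w)
      refine ⟨o, ?_⟩
      rw [← ho, map_mul, map_mul, hγe, ← hxb, mul_assoc, ← hγe b, ← map_mul, ← map_mul, hw,
        map_one, map_one, mul_one]
  · -- ramified
    intro het
    apply hnp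
    have cz : CharZero X.functionField :=
      charZero_of_injective_ringHom (toStalk f (genericPoint X)).injective
    intro D hD b hb
    exact isIntegral_derivation_of_etale (X.presheaf.stalk (j.base v)) X.functionField N D hD b hb

end Pool.Agent.LibHP
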