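import Pool.Agent.LibW64P.Defs
import Pool.Agent.LibW64.F6a

/-! # Row EX: localizations of charts

SHORT/MEDIUM (seven easy lemmas). Plan. `W_EX3`: generators and `a⁻¹`. `W_EX4`: `locA A a` is a model.
`W_EX5`: `ψ a = 0` would give `a ∈ fibI`, and `φ` kills `fibI`. `W_EX6`: define `ψ' x := Ψ x`: for `x ∈ locA A a`,
`x * a ^ n ∈ A ⊆ O`, and `a⁻¹ ∈ O` by `inv`, so `x ∈ O`; `ker`: if `Ψ x = 0`, then `ψ (x a ^ n) = 0`, so
`x a ^ n ∈ fibI A`, so it is in `fibI (locA A a)`, where `a` is a unit; conversely generators of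
`fibI (locA A a)` are in `A0 ⊆ A` and in `fibI A`. `W_EX7`: `W_F6a`. -/

set_option autoImplicit false
open Polynomial

namespace Pool.Agent.LibHP

theorem W_EX1 {k K : Type} [Field k] [Field K] [Algebra k K] (A : Subalgebra k K) (a : A) :
    A ≤ locA A a := by
  intro x hx
  exact ⟨0, by rw [pow_zero, mul_one]; exact hx⟩

theorem W_EX2 {k K : Type} [Field k] [Field K] [Algebra k K] (A : Subalgebra k K) (a : A)
    (ha : a ≠ 0) : ((a : K))⁻¹ ∈ locA A a := by
  have h : (a : K) ≠ 0 := fun h => ha (Subtype.ext h)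
  exact ⟨1, by rw [pow_one, inv_mul_cancel₀ h]; exact A.one_mem⟩

theorem W_EX3 {k K : Type} [Field k] [Field K] [Algebra k K] (A : Subalgebra k K) (a : A)
    (ha : a ≠ 0) (hA : A.FG) : (locA A a).FG := by
  classical
  have h : (a : K) ≠ 0 := fun h => ha (Subtype.ext h)
  obtain ⟨s, hs⟩ := hA
  refine ⟨insert (a : K)⁻¹ s, le_antisymm (Algebra.adjoin_le ?_) ?_⟩
  · intro x hx
    rw [Finset.coe_insert, Set.mem_insert_iff] at hx
    rcases hx with rfl | hx
    · exact W_EX2 A a ha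
    · refine W_EX1 A a ?_
      rw [← hs]
      exact Algebra.subset_adjoin hx
  · rintro x ⟨n, hn⟩
    have h1 : x = x * (a : K) ^ n * ((a : K)⁻¹) ^ n := by
      rw [mul_assoc, ← mul_pow, mul_inv_cancel₀ h, one_pow, mul_one]
    rw [h1]
    refine mul_mem ?_ (pow_mem (Algebra.subset_adjoin ?_) n)
    · exact Algebra.adjoin_mono (by rw [Finset.coe_insert]; exact Set.subset_insert _ _)
        (hs.ge hn)
    · rw [Finset.coe_insert]
      exact Set.mem_insert _ _

theorem W_EX4 {k K : Type} [Field k] [Field K] [Algebra k K] (L : Subfield K)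
    (A A0 : Subalgebra k K) (h : IsModel L A A0) (a : A) (ha : a ≠ 0) :
    IsModel L (locA A a) A0 := by
  exact
    { fg := W_EX3 A a ha h.fg
      fg0 := h.fg0
      le := h.le.trans (W_EX1 A a)
      fracL := h.fracL
      fracK := fun c => by
        obtain ⟨u, w, hu, hw, h0, h1⟩ := h.fracK c
        exact ⟨u, w, W_EX1 A a hu, W_EX1 A a hw, h0, h1⟩ }

theorem W_EX5 {k K κ : Type} [Field k] [Field K] [Algebra k K] [Field κ] (A A0 : Subalgebra k K)
    (hle : A0 ≤ A) (φ : A →ₐ[k] k) (O : Subring K) (Ψ : O →+* κ) (ψ : A →+* κ)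
    (h : IsFib A A0 (φ.comp (Subalgebra.inclusion hle)) O Ψ ψ) (a : A) (ha : φ a ≠ 0) :
    ψ a ≠ 0 := by
  intro h0
  have h1 : fibI A A0 (φ.comp (Subalgebra.inclusion hle)) ≤ RingHom.ker (φ : A →+* k) := by
    unfold fibI
    rw [Ideal.span_le]
    rintro x ⟨h2, h3⟩
    rw [SetLike.mem_coe, RingHom.mem_ker]
    exact h3
  exact ha (h1 ((h.ker a).1 h0))

theorem W_EX6 {k K κ : Type} [Field k] [Field K] [Algebra k K] [Field κ] (A A0 : Subalgebra k K)
    (hle : A0 ≤ A) (φ0 : A0 →ₐ[k] k) (O : Subring K) (Ψ : O →+* κ) (ψ : A →+* κ)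
    (h : IsFib A A0 φ0 O Ψ ψ) (a : A) (ha : ψ a ≠ 0) :
    ∃ ψ' : locA A a →+* κ, (∀ c : A, ψ' (Subalgebra.inclusion (W_EX1 A a) c) = ψ c) ∧
      IsFib (locA A a) A0 φ0 O Ψ ψ' := by
  classical
  obtain ⟨haO, haΨ⟩ := h.comp a
  have h0 : (a : K) ≠ 0 := by
    intro h1
    apply ha
    have h2 : a = 0 := Subtype.ext h1
    rw [h2, map_zero]
  have hinv : (a : K)⁻¹ ∈ O := h.inv ⟨a, haO⟩ (by rw [haΨ]; exact ha)
  have hO : ∀ x : locA A a, (x : K) ∈ O := by
    rintro ⟨x, n, hn⟩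
    obtain ⟨h1, -⟩ := h.comp ⟨_, hn⟩
    have h2 : x = x * (a : K) ^ n * ((a : K)⁻¹) ^ n := by
      rw [mul_assoc, ← mul_pow, mul_inv_cancel₀ h0, one_pow, mul_one]
    show x ∈ O
    rw [h2]
    exact mul_mem h1 (pow_mem hinv n)
  obtain ⟨ψ', hψ'⟩ : ∃ ψ' : locA A a →+* κ, ∀ x : locA A a, ψ' x = Ψ ⟨x, hO x⟩ :=
    ⟨Ψ.comp (((locA A a).val : locA A a →+* K).codRestrict O hO), fun x => rfl⟩
  have hinc : ∀ c : A, ψ' (Subalgebra.inclusion (W_EX1 A a) c) = ψ c := by
    intro c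
    rw [hψ']
    obtain ⟨h1, h2⟩ := h.comp c
    rw [← h2]
    rfl
  have hmap : ∀ y ∈ fibI A A0 φ0,
      Subalgebra.inclusion (W_EX1 A a) y ∈ fibI (locA A a) A0 φ0 := by
    have h1 : fibI A A0 φ0 ≤ (fibI (locA A a) A0 φ0).comap
        (Subalgebra.inclusion (W_EX1 A a) : A →+* locA A a) := by
      conv_lhs => unfold fibI
      rw [Ideal.span_le]
      rintro x ⟨h2, h3⟩
      exact Ideal.subset_span ⟨h2, h3⟩
    exact fun y hy => h1 hy
  refine ⟨ψ', hinc, ?_⟩
  exact
    { inv := h.inv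
      comp := fun x => ⟨hO x, (hψ' x).symm⟩
      ker := fun x => by
        constructor
        · intro hx
          obtain ⟨n, hn⟩ := x.2
          obtain ⟨y, hy⟩ : ∃ y : A, y = ⟨(x : K) * (a : K) ^ n, hn⟩ := ⟨_, rfl⟩
          have h1 : Subalgebra.inclusion (W_EX1 A a) y =
              x * Subalgebra.inclusion (W_EX1 A a) a ^ n := by
            apply Subtype.ext
            rw [hy]
            rfl
          have h2 : ψ y = 0 := by
            rw [← hinc, h1, map_mul, hx, zero_mul]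
          have h3 := hmap y ((h.ker y).1 h2)
          have h4 : x = Subalgebra.inclusion (W_EX1 A a) y *
              (⟨(a : K)⁻¹, W_EX2 A a (fun h5 => h0 (by rw [h5]; rfl))⟩ : locA A a) ^ n := by
            rw [h1]
            apply Subtype.ext
            show (x : K) = (x : K) * (a : K) ^ n * ((a : K)⁻¹) ^ n
            rw [mul_assoc, ← mul_pow, mul_inv_cancel₀ h0, one_pow, mul_one]
          rw [h4]
          exact Ideal.mul_mem_right _ _ h3
        · intro hx
          have h1 : fibI (locA A a) A0 φ0 ≤ RingHom.ker ψ' := by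
            conv_lhs => unfold fibI
            rw [Ideal.span_le]
            rintro c ⟨h2, h3⟩
            rw [SetLike.mem_coe, RingHom.mem_ker]
            have h4 : Subalgebra.inclusion (W_EX1 A a) ⟨(c : K), hle h2⟩ = c := rfl
            rw [← h4, hinc, h.ker]
            exact Ideal.subset_span ⟨h2, h3⟩
          exact h1 hx
      frac := fun z => by
        obtain ⟨c, b, hb, hz⟩ := h.frac z
        refine ⟨Subalgebra.inclusion (W_EX1 A a) c, Subalgebra.inclusion (W_EX1 A a) b, ?_, ?_⟩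
        · rw [hinc]
          exact hb
        · rw [hinc, hinc]
          exact hz }

theorem W_EX7 {k K : Type} [Field k] [Field K] [Algebra k K] (A : Subalgebra k K) (a : A)
    (φ : A →ₐ[k] k) (ha : φ a ≠ 0) :
    ∃ φ' : locA A a →ₐ[k] k, ∀ c : A, φ' (Subalgebra.inclusion (W_EX1 A a) c) = φ c := by
  exact W_F6a A (locA A a) (W_EX1 A a) a (fun c hc => hc) φ ha

end Pool.Agent.LibHP
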