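import Pool.Agent.LibW64P.SDefs

/-! # Row P2: the relative weak Hilbert property in the language of the function field

Plan. Copy `whil_of_weakHilbertProp` (LibK3G/WH2.lean), with
`J := {i : Fin n // ¬ Etale (..).fromNormalization ∨ ∀ t, t ≫ (..).fromNormalization ≠ s0}`, `h` with the
`J`-family and `(eJ i).2`; at the end `by_cases` on membership of `j` in `J`: if `j ∉ J`, then
`UnramOver` and there is a lift of `s0`, against `hram` (as `hgr` there); if `j ∈ J`, as there. -/

set_option autoImplicit false
open AlgebraicGeometry CategoryTheory CategoryTheory.Limits Polynomial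

namespace Pool.Agent.LibHP

open Pool.Agent.LibK3G

theorem W_P2 {k : Type} [Field k] [CharZero k] {S : Scheme.{0}} [IsIntegral S]
    (s : S ⟶ Spec (CommRingCat.of k)) [LocallyOfFiniteType s] [Algebra k S.functionField]
    (hk : ∀ a : k, algebraMap k S.functionField a = toStalk s (genericPoint S) a)
    (hn : ∀ x : S, IsIntegrallyClosed (S.presheaf.stalk x))
    (s0 : Spec (CommRingCat.of k) ⟶ S) (h : RelWHP s s0) :
    Pool.Agent.LibK3G.WHil k S.functionField (fun N _ _ => Pool.Agent.LibK3G.UnramOver S N ∧
      ∃ t : Spec (CommRingCat.of k) ⟶ (Pool.Agent.LibK3G.genPt (S := S) N).normalization,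
        t ≫ (Pool.Agent.LibK3G.genPt (S := S) N).fromNormalization = s0) := by
  classical
  intro A _ _ _ F m P hP hram
  have hnoeth : IsLocallyNoetherian S := LocallyOfFiniteType.isLocallyNoetherian s
  have hcz : CharZero S.functionField :=
    charZero_of_injective_algebraMap (algebraMap k S.functionField).injective
  obtain ⟨U, hU, hg, G, hG, hGk⟩ := exists_factor_open s hk A F
  have hne : Nonempty U := ⟨⟨_, hg⟩⟩
  have hfr := functionField_isFractionRing_of_isAffineOpen S U hU
  have hcl := isIntegrallyClosed_sections hn U hU hg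
  have hn' : ∀ U : S.Opens, IsAffineOpen U → genericPoint S ∈ U → IsIntegrallyClosed Γ(S, U) :=
    fun V hV hgV => isIntegrallyClosed_sections hn V hV hgV
  have hG' : (algebraMap Γ(S, U) S.functionField).comp G = (F : A →+* S.functionField) :=
    RingHom.ext hG
  -- the product of the polynomials
  set R : Γ(S, U)[X] := ∏ i, (P i).map G with hR
  have hRm : R.Monic := monic_prod_of_monic _ _ fun i _ => (hP i).map _
  obtain ⟨n, g, e, hgm, hgi, hgd, hprod⟩ := exists_factors (K := S.functionField) R hRm
  have hfact : ∀ i, Fact (Irreducible ((g i).map (algebraMap Γ(S, U) S.functionField))) :=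
    fun i => ⟨hgi i⟩
  have hfd : ∀ i, FiniteDimensional S.functionField
      (AdjoinRoot ((g i).map (algebraMap Γ(S, U) S.functionField))) :=
    fun i => ((hgm i).map _).finite_adjoinRoot
  have hgr : ∀ i, AlgebraicGeometry.Etale (genPt (S := S)
      (AdjoinRoot ((g i).map (algebraMap Γ(S, U) S.functionField)))).fromNormalization →
      ∀ t : Spec (CommRingCat.of k) ⟶ (genPt (S := S)
        (AdjoinRoot ((g i).map (algebraMap Γ(S, U) S.functionField)))).normalization,
        t ≫ (genPt (S := S)
          (AdjoinRoot ((g i).map (algebraMap Γ(S, U) S.functionField)))).fromNormalization ≠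
            s0 := by
    intro i het t ht
    have h1 := hgd i
    rw [hR, Polynomial.map_prod] at h1
    obtain ⟨j, -, hj⟩ := ((hgi i).prime.dvd_finsetProd_iff _).1 h1
    rw [Polynomial.map_map, hG'] at hj
    exact hram j _ ((hgm i).map _) hj ⟨het, t, ht⟩
  have hlift : ∀ i, ∃ d : Γ(S, U), d ≠ 0 ∧ ∀ (χ : Γ(S, U) →+* k), χ d ≠ 0 → ∀ x : k,
      ((g i).map χ).IsRoot x → ∃ τ : Γ((genPt (S := S) (AdjoinRoot ((g i).map (algebraMap Γ(S, U)
        S.functionField)))).normalization, (genPt (S := S) (AdjoinRoot ((g i).map (algebraMap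
          Γ(S, U) S.functionField)))).fromNormalization ⁻¹ᵁ U) →+* k, τ.comp ((genPt (S := S)
            (AdjoinRoot ((g i).map (algebraMap Γ(S, U)
              S.functionField)))).fromNormalization.app U).hom = χ := by
    intro i
    obtain ⟨E, hE1, hE2, -⟩ := exists_sections
      (AdjoinRoot ((g i).map (algebraMap Γ(S, U) S.functionField))) U hU hg
    obtain ⟨d, hd, hd'⟩ := exists_lift_of_root (g i) (hgm i) (hgi i) _
      (finite_normalization hn' (AdjoinRoot ((g i).map (algebraMap Γ(S, U) S.functionField)))
        U hU hg) E hE2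
    exact ⟨d, hd, fun χ hχ x hx => hd' k χ hχ x hx⟩
  choose d hd hlift using hlift
  -- the ramified covers
  let J := {i : Fin n // ¬ AlgebraicGeometry.Etale (genPt (S := S)
      (AdjoinRoot ((g i).map (algebraMap Γ(S, U) S.functionField)))).fromNormalization ∨
      ∀ t : Spec (CommRingCat.of k) ⟶ (genPt (S := S)
        (AdjoinRoot ((g i).map (algebraMap Γ(S, U) S.functionField)))).normalization,
        t ≫ (genPt (S := S)
          (AdjoinRoot ((g i).map (algebraMap Γ(S, U) S.functionField)))).fromNormalization ≠ s0}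
  let eJ : Fin (Fintype.card J) ≃ J := (Fintype.equivFin J).symm
  have hdense := h (Fintype.card J) (fun i => (genPt (S := S) (AdjoinRoot ((g (eJ i)).map
    (algebraMap Γ(S, U) S.functionField)))).normalization) (fun i => (genPt (S := S) (AdjoinRoot
      ((g (eJ i)).map (algebraMap Γ(S, U) S.functionField)))).fromNormalization)
      (fun i => inferInstance) (fun i y => isIntegrallyClosed_normalization _ y)
      (fun i => isFinite_normalization hn' _) (fun i => surjective_normalization _)
      (fun i => (eJ i).2)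
  have hD0 : (∏ i, d i) ≠ 0 := Finset.prod_ne_zero_iff.2 fun i _ => hd i
  have hgD : genericPoint S ∈ S.basicOpen (∏ i, d i) := by
    rw [S.mem_basicOpen _ (genericPoint S) hg]
    refine IsUnit.mk0 _ fun h3 => hD0 ?_
    apply germ_injective_of_isIntegral S _ hg
    rw [h3, map_zero]
  obtain ⟨x, hxD, σ, hσ, ⟨y, hy⟩, hno⟩ := hdense.inter_open_nonempty _
    (S.basicOpen (∏ i, d i)).isOpen ⟨_, hgD⟩
  have hno' : ∀ i : J, ∀ ρ : Spec (CommRingCat.of k) ⟶ (genPt (S := S) (AdjoinRoot ((g i).map
      (algebraMap Γ(S, U) S.functionField)))).normalization, ρ ≫ (genPt (S := S) (AdjoinRoot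
        ((g i).map (algebraMap Γ(S, U) S.functionField)))).fromNormalization ≠ σ := by
    intro i
    obtain ⟨j', hj'⟩ := eJ.surjective i
    rw [← hj']
    exact hno j'
  have hy0 : y = IsLocalRing.closedPoint k := Subsingleton.elim _ _
  have hσx : σ (IsLocalRing.closedPoint k) = x := by
    rw [← hy0]
    exact hy
  obtain ⟨χ, hχ, hσχ, hχd⟩ := exists_hom_of_section s U hU σ hσ (by
    rw [hσx]
    exact S.basicOpen_le _ hxD)
  have hχ0 : ∀ i, χ (d i) ≠ 0 := by
    intro i h0
    apply hχd (∏ i, d i) (by rw [hσx]; exact hxD)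
    rw [map_prod]
    exact Finset.prod_eq_zero (Finset.mem_univ i) h0
  refine ⟨{ χ.comp G with commutes' := fun c => ?_ }, fun i x hx => ?_⟩
  · change χ (G (algebraMap k A c)) = c
    rw [hGk, hχ]
  · have h1 : ((P i).map (χ.comp G)).IsRoot x := hx
    have h2 : (R.map χ).IsRoot x := by
      rw [hR, Polynomial.map_prod, IsRoot.def, eval_prod]
      refine Finset.prod_eq_zero (Finset.mem_univ i) ?_
      rw [Polynomial.map_map]
      exact h1
    rw [hprod, Polynomial.map_prod, IsRoot.def, eval_prod, Finset.prod_eq_zero_iff] at h2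
    obtain ⟨j, -, hj⟩ := h2
    rw [Polynomial.map_pow, eval_pow] at hj
    have hj' : ((g j).map χ).IsRoot x := (pow_eq_zero_iff (by
      intro h0
      rw [h0, pow_zero] at hj
      exact one_ne_zero hj)).1 hj
    obtain ⟨τ, hτ⟩ := hlift j χ (hχ0 j) x hj'
    have hj0 : ¬ AlgebraicGeometry.Etale (genPt (S := S)
      (AdjoinRoot ((g j).map (algebraMap Γ(S, U) S.functionField)))).fromNormalization ∨
      ∀ t : Spec (CommRingCat.of k) ⟶ (genPt (S := S)
        (AdjoinRoot ((g j).map (algebraMap Γ(S, U) S.functionField)))).normalization,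
        t ≫ (genPt (S := S)
          (AdjoinRoot ((g j).map (algebraMap Γ(S, U) S.functionField)))).fromNormalization ≠
            s0 := by
      by_cases het : AlgebraicGeometry.Etale (genPt (S := S)
        (AdjoinRoot ((g j).map (algebraMap Γ(S, U) S.functionField)))).fromNormalization
      · exact Or.inr (hgr j het)
      · exact Or.inl het
    have hfin := isFinite_normalization hn' (AdjoinRoot ((g j).map (algebraMap Γ(S, U)
        S.functionField)))
    obtain ⟨ρ, hρ⟩ := exists_section_of_hom _ U hU χ τ hτ σ hσχ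
    exact hno' ⟨j, hj0⟩ ρ hρ

end Pool.Agent.LibHP
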