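import Pool.Agent.LibW64P.SDefs

/-! # Row P3: unramified extensions on affine charts

Plan. `exists_sections` (LibK3G/WH1.lean) identifies `Γ(normalization, preimage of U)` (via `e`) with the
elements of `M` integral over (the image of) `Γ(S, U)`, i.e. with `integralClosure B M`, `B` := the range of
the germ map, `Γ(S, U) ≃ B` (`germ_injective_of_isIntegral`). `Etale (fromNormalization)` gives that
`((genPt M).fromNormalization.app U).hom` is etale (`U` affine, its preimage is affine:
`AlgebraicGeometry.Etale` on affine opens, `HasRingHomProperty.appLE`/`app`, as in the other uses of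
`UnramOver` or `FinEt` in LibK3G, LibHP: grep `RingHom.Etale`), transport along the two ring isomorphisms
(`Algebra.Etale.of_equiv`, `RingHom.Etale` composition with isomorphisms). -/

set_option autoImplicit false
open AlgebraicGeometry CategoryTheory

namespace Pool.Agent.LibHP

open Pool.Agent.LibK3G

/-- Integrality over the image. -/
private theorem p3_int {R κ M : Type} [CommRing R] [Field κ] [Field M] [Algebra κ M] (gm : R →+* κ)
    (z : M) : IsIntegral gm.range z ↔ ((algebraMap κ M).comp gm).IsIntegralElem z := by
  constructor
  · rintro ⟨p, hp, hz⟩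
    obtain ⟨q, hq, -, hqm⟩ := Polynomial.lifts_and_natDegree_eq_and_monic
      (f := gm.rangeRestrict) (p := p) (by
        rw [Polynomial.lifts_iff_coeff_lifts]
        intro n
        exact gm.rangeRestrict_surjective _) hp
    refine ⟨q, hqm, ?_⟩
    rw [← hq, Polynomial.eval₂_map] at hz
    exact hz
  · rintro ⟨p, hp, hz⟩
    refine ⟨p.map gm.rangeRestrict, hp.map _, ?_⟩
    rw [Polynomial.eval₂_map]
    exact hz

/-- The sections of the normalization are the integral closure. -/
private theorem p3_equiv {S : Scheme.{0}} [IsIntegral S] (M : Type) [Field M]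
    [Algebra S.functionField M] [FiniteDimensional S.functionField M] (U : S.Opens)
    (hU : IsAffineOpen U) (hg : genericPoint S ∈ U) :
    ∃ γ : Γ((genPt (S := S) M).normalization, (genPt (S := S) M).fromNormalization ⁻¹ᵁ U) ≃+*
      integralClosure (S.presheaf.germ U (genericPoint S) hg).hom.range M,
      ∀ a : Γ(S, U), γ (((genPt (S := S) M).fromNormalization.app U).hom a) =
        algebraMap (S.presheaf.germ U (genericPoint S) hg).hom.range _
          ⟨(S.presheaf.germ U (genericPoint S) hg).hom a, a, rfl⟩ := by
  obtain ⟨e, he1, he2, he3⟩ := exists_sections M U hU hg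
  refine ⟨RingEquiv.ofBijective (e.codRestrict
    (integralClosure (S.presheaf.germ U (genericPoint S) hg).hom.range M).toSubring
    (fun b => (p3_int _ _).2 ((he3 (e b)).2 ⟨b, rfl⟩))) ⟨fun a b hab =>
      he1 (congrArg Subtype.val hab), fun z => ?_⟩, fun a => ?_⟩
  · obtain ⟨b, hb⟩ := (he3 z.1).1 ((p3_int _ _).1 z.2)
    exact ⟨b, Subtype.ext hb⟩
  · apply Subtype.ext
    exact he2 a

theorem W_P3 {S : Scheme.{0}} [IsIntegral S] (M : Type) [Field M] [Algebra S.functionField M]
    [FiniteDimensional S.functionField M] (h : Pool.Agent.LibK3G.UnramOver S M) (U : S.Opens)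
    (hU : IsAffineOpen U) (hg : genericPoint S ∈ U) :
    Algebra.Etale (S.presheaf.germ U (genericPoint S) hg).hom.range
      (integralClosure (S.presheaf.germ U (genericPoint S) hg).hom.range M) := by
  obtain ⟨γ, hγ⟩ := p3_equiv M U hU hg
  have het : AlgebraicGeometry.Etale (genPt (S := S) M).fromNormalization := h
  have h1 : ((genPt (S := S) M).fromNormalization.app U).hom.Etale := by
    have h2 := HasRingHomProperty.appLE (P := @AlgebraicGeometry.Etale)
      (genPt (S := S) M).fromNormalization het ⟨U, hU⟩
      ⟨(genPt (S := S) M).fromNormalization ⁻¹ᵁ U, hU.preimage _⟩ le_rfl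
    rwa [Scheme.Hom.appLE_eq_app] at h2
  rw [← RingHom.etale_algebraMap]
  have hβ : Function.Bijective (S.presheaf.germ U (genericPoint S) hg).hom.rangeRestrict := by
    refine ⟨fun a b hab => ?_, RingHom.rangeRestrict_surjective _⟩
    exact germ_injective_of_isIntegral S _ hg (congrArg Subtype.val hab)
  let β := RingEquiv.ofBijective _ hβ
  have h3 : algebraMap (S.presheaf.germ U (genericPoint S) hg).hom.range
      (integralClosure (S.presheaf.germ U (genericPoint S) hg).hom.range M) =
      ((γ : _ →+* integralClosure (S.presheaf.germ U (genericPoint S) hg).hom.range M).comp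
        ((genPt (S := S) M).fromNormalization.app U).hom).comp (β.symm : _ →+* Γ(S, U)) := by
    ext1 b
    obtain ⟨a, rfl⟩ := β.surjective b
    change _ = γ (((genPt (S := S) M).fromNormalization.app U).hom (β.symm (β a)))
    rw [β.symm_apply_apply, hγ]
    rfl
  rw [h3]
  exact RingHom.Etale.stableUnderComposition _ _ (RingHom.Etale.of_bijective β.symm.bijective)
    (RingHom.Etale.stableUnderComposition _ _ h1 (RingHom.Etale.of_bijective γ.bijective))

end Pool.Agent.LibHP
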