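import Pool.Agent.LibW64P.SDefs

/-! # Row P4: lifts of rational points to normalizations

Plan. `t` maps to the preimage of `U` (as `s0` maps into `U`), so it gives
`τ0 : Γ(normalization, preimage of U) →+* k` with `τ0 ∘ fromNormalization.app U = χ` (pull back functions by
`t`: `t.appLE _ ⊤`, and `(Scheme.ΓSpecIso (CommRingCat.of k)).hom`; `s0 = t ≫ fromNormalization`, and the
pull back of functions on `U` by `Spec.map χ ≫ hU.fromSpec` is `χ`). `exists_sections` (LibK3G/WH1.lean):
`integralClosure B M ≃ Γ(normalization, ..)` compatible with the germ map and `app U`; compose. -/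

set_option autoImplicit false
open AlgebraicGeometry CategoryTheory

namespace Pool.Agent.LibHP

open Pool.Agent.LibK3G

/-- Integrality over the image. -/
private theorem p4_int {R κ M : Type} [CommRing R] [Field κ] [Field M] [Algebra κ M] (gm : R →+* κ)
    (z : M) : IsIntegral gm.range z ↔ ((algebraMap κ M).comp gm).IsIntegralElem z := by
  constructor
  · rintro ⟨p, hp, hz⟩
    obtain ⟨q, hq, -, hqm⟩ := Polynomial.lifts_and_natDegree_eq_and_monic
      (f := gm.rangeRestrict) (p := p) (by
        rw [Polynomial.lifts_iff_coeff_lifts]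
        intro n
        exact gm.rangeRestrict_surjective _) hp
    refine ⟨q, hqm, ?_⟩
    rw [← hq, Polynomial.eval₂_map] at hz
    exact hz
  · rintro ⟨p, hp, hz⟩
    refine ⟨p.map gm.rangeRestrict, hp.map _, ?_⟩
    rw [Polynomial.eval₂_map]
    exact hz

/-- The sections of the normalization are the integral closure. -/
private theorem p4_equiv {S : Scheme.{0}} [IsIntegral S] (M : Type) [Field M]
    [Algebra S.functionField M] [FiniteDimensional S.functionField M] (U : S.Opens)
    (hU : IsAffineOpen U) (hg : genericPoint S ∈ U) :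
    ∃ γ : Γ((genPt (S := S) M).normalization, (genPt (S := S) M).fromNormalization ⁻¹ᵁ U) ≃+*
      integralClosure (S.presheaf.germ U (genericPoint S) hg).hom.range M,
      ∀ a : Γ(S, U), γ (((genPt (S := S) M).fromNormalization.app U).hom a) =
        algebraMap (S.presheaf.germ U (genericPoint S) hg).hom.range _
          ⟨(S.presheaf.germ U (genericPoint S) hg).hom a, a, rfl⟩ := by
  obtain ⟨e, he1, he2, he3⟩ := exists_sections M U hU hg
  refine ⟨RingEquiv.ofBijective (e.codRestrict
    (integralClosure (S.presheaf.germ U (genericPoint S) hg).hom.range M).toSubring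
    (fun b => (p4_int _ _).2 ((he3 (e b)).2 ⟨b, rfl⟩))) ⟨fun a b hab =>
      he1 (congrArg Subtype.val hab), fun z => ?_⟩, fun a => ?_⟩
  · obtain ⟨b, hb⟩ := (he3 z.1).1 ((p4_int _ _).1 z.2)
    exact ⟨b, Subtype.ext hb⟩
  · apply Subtype.ext
    exact he2 a

/-- A point in an affine open set. -/
private theorem p4_point {k : Type} [Field k] {X : Scheme.{0}} (U : X.Opens) (hU : IsAffineOpen U)
    (s : Spec (CommRingCat.of k) ⟶ X) (hx : s (IsLocalRing.closedPoint k) ∈ U) :
    ∃ χ : Γ(X, U) ⟶ CommRingCat.of k, s = Spec.map χ ≫ hU.fromSpec := by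
  have h1 : ⊤ ≤ s ⁻¹ᵁ U := by
    intro x _
    have h2 : x = IsLocalRing.closedPoint k := Subsingleton.elim _ _
    rw [h2]
    exact hx
  refine ⟨s.appLE U ⊤ h1 ≫ (Scheme.ΓSpecIso (CommRingCat.of k)).hom, ?_⟩
  rw [Spec.map_comp, Category.assoc,
    IsAffineOpen.SpecMap_appLE_fromSpec s hU (isAffineOpen_top _) h1]
  rw [IsAffineOpen.fromSpec_top, Scheme.isoSpec_Spec_inv, ← Category.assoc, ← Spec.map_comp]
  simp

theorem W_P4 {k : Type} [Field k] {S : Scheme.{0}} [IsIntegral S] (M : Type) [Field M]
    [Algebra S.functionField M] [FiniteDimensional S.functionField M] (U : S.Opens)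
    (hU : IsAffineOpen U) (hg : genericPoint S ∈ U) (χ : Γ(S, U) ⟶ CommRingCat.of k)
    (s0 : Spec (CommRingCat.of k) ⟶ S) (hs0 : s0 = Spec.map χ ≫ hU.fromSpec)
    (t : Spec (CommRingCat.of k) ⟶ (Pool.Agent.LibK3G.genPt (S := S) M).normalization)
    (ht : t ≫ (Pool.Agent.LibK3G.genPt (S := S) M).fromNormalization = s0) :
    ∃ τ : integralClosure (S.presheaf.germ U (genericPoint S) hg).hom.range M →+* k,
      ∀ b : Γ(S, U), τ (algebraMap (S.presheaf.germ U (genericPoint S) hg).hom.range _
        ⟨(S.presheaf.germ U (genericPoint S) hg).hom b, b, rfl⟩) = χ.hom b := by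
  obtain ⟨γ, hγ⟩ := p4_equiv M U hU hg
  have hV := hU.preimage (genPt (S := S) M).fromNormalization
  have hx : t (IsLocalRing.closedPoint k) ∈ (genPt (S := S) M).fromNormalization ⁻¹ᵁ U := by
    change (genPt (S := S) M).fromNormalization (t (IsLocalRing.closedPoint k)) ∈ U
    rw [← Scheme.Hom.comp_apply, ht, hs0, Scheme.Hom.comp_apply]
    exact hU.range_fromSpec.subset ⟨_, rfl⟩
  obtain ⟨τ0, hτ0⟩ := p4_point _ hV t hx
  have h1 : (genPt (S := S) M).fromNormalization.app U ≫ τ0 = χ := by
    have h2 : Spec.map ((genPt (S := S) M).fromNormalization.app U ≫ τ0) ≫ hU.fromSpec =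
        Spec.map χ ≫ hU.fromSpec := by
      rw [← hs0, ← ht, hτ0, Category.assoc, Spec.map_comp, Category.assoc]
      congr 1
      have h3 := IsAffineOpen.SpecMap_appLE_fromSpec (genPt (S := S) M).fromNormalization hU hV
        le_rfl
      rw [Scheme.Hom.appLE_eq_app] at h3
      exact h3
    exact Spec.map_injective ((cancel_mono _).1 h2)
  refine ⟨τ0.hom.comp (γ.symm : _ →+* _), fun b => ?_⟩
  rw [← hγ]
  change τ0.hom (γ.symm (γ _)) = _
  rw [γ.symm_apply_apply, ← h1]
  rfl

end Pool.Agent.LibHP
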