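import Pool.Agent.LibW64P.SDefs

/-! # Row P7: the point `s` on its fibre

SHORT/MEDIUM. Plan. `s0 := pullback.lift s (𝟙 _)`, `s0 ≫ p = s` (`p := pullback.fst`). `s` maps into `V0`
(it factors through `hV0.fromSpec`), so `s0` maps into `U := p ⁻¹ᵁ V0`, affine: `s0 = Spec.map χ ≫ hU.fromSpec` with
`χ` := pull back of functions by `s0` (`s0.appLE U ⊤ ≫ (Scheme.ΓSpecIso (CommRingCat.of k)).hom`; see
`exists_hom_of_section` in LibK3G or `IsAffineOpen.SpecMap_appLE_fromSpec`). `χ (p.app V0 b)` is the pull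
back of `b` by `s0 ≫ p = s = Spec.map φ ≫ hV0.fromSpec`, i.e. `φ b`. -/

set_option autoImplicit false
open AlgebraicGeometry CategoryTheory

namespace Pool.Agent.LibHP

/-- A point in an affine open set. -/
private theorem p7_point {k : Type} [Field k] {X : Scheme.{0}} (U : X.Opens) (hU : IsAffineOpen U)
    (s : Spec (CommRingCat.of k) ⟶ X) (hx : s (IsLocalRing.closedPoint k) ∈ U) :
    ∃ χ : Γ(X, U) ⟶ CommRingCat.of k, s = Spec.map χ ≫ hU.fromSpec := by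
  have h1 : ⊤ ≤ s ⁻¹ᵁ U := by
    intro x _
    have h2 : x = IsLocalRing.closedPoint k := Subsingleton.elim _ _
    rw [h2]
    exact hx
  refine ⟨s.appLE U ⊤ h1 ≫ (Scheme.ΓSpecIso (CommRingCat.of k)).hom, ?_⟩
  rw [Spec.map_comp, Category.assoc,
    IsAffineOpen.SpecMap_appLE_fromSpec s hU (isAffineOpen_top _) h1]
  rw [IsAffineOpen.fromSpec_top, Scheme.isoSpec_Spec_inv, ← Category.assoc, ← Spec.map_comp]
  simp

private theorem p7_main {k : Type} [Field k] {V : Scheme.{0}} (V0 : V.Opens)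
    (hV0 : IsAffineOpen V0) (φ : Γ(V, V0) ⟶ CommRingCat.of k) (s : Spec (CommRingCat.of k) ⟶ V)
    (hs : s = Spec.map φ ≫ hV0.fromSpec) (Z : Scheme.{0}) (p : Z ⟶ V)
    (s0 : Spec (CommRingCat.of k) ⟶ Z) (h0 : s0 ≫ p = s) (hU : IsAffineOpen (p ⁻¹ᵁ V0)) :
    ∃ χ : Γ(Z, p ⁻¹ᵁ V0) ⟶ CommRingCat.of k, s0 = Spec.map χ ≫ hU.fromSpec ∧
      ∀ b : Γ(V, V0), χ.hom ((p.app V0).hom b) = φ.hom b := by
  have hx : s0 (IsLocalRing.closedPoint k) ∈ p ⁻¹ᵁ V0 := by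
    change p (s0 (IsLocalRing.closedPoint k)) ∈ V0
    rw [← Scheme.Hom.comp_apply, h0, hs, Scheme.Hom.comp_apply]
    exact hV0.range_fromSpec.subset ⟨_, rfl⟩
  obtain ⟨χ, hχ⟩ := p7_point _ hU s0 hx
  refine ⟨χ, hχ, fun b => ?_⟩
  have h1 : p.app V0 ≫ χ = φ := by
    have h2 : Spec.map (p.app V0 ≫ χ) ≫ hV0.fromSpec = Spec.map φ ≫ hV0.fromSpec := by
      rw [← hs, ← h0, hχ, Category.assoc, Spec.map_comp, Category.assoc]
      congr 1
      have h3 := IsAffineOpen.SpecMap_appLE_fromSpec p hV0 hU le_rfl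
      rw [Scheme.Hom.appLE_eq_app] at h3
      exact h3
    exact Spec.map_injective ((cancel_mono _).1 h2)
  rw [← h1]
  rfl

theorem W_P7 {k : Type} [Field k] {V T : Scheme.{0}} (g : V ⟶ T) (V0 : V.Opens)
    (hV0 : IsAffineOpen V0) (φ : Γ(V, V0) ⟶ CommRingCat.of k) (s : Spec (CommRingCat.of k) ⟶ V)
    (hs : s = Spec.map φ ≫ hV0.fromSpec)
    (hU : IsAffineOpen ((Limits.pullback.fst g (s ≫ g)) ⁻¹ᵁ V0)) :
    ∃ χ : Γ(Limits.pullback g (s ≫ g), (Limits.pullback.fst g (s ≫ g)) ⁻¹ᵁ V0) ⟶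
        CommRingCat.of k,
      Limits.pullback.lift s (𝟙 _) (by rw [Category.id_comp]) = Spec.map χ ≫ hU.fromSpec ∧
      ∀ b : Γ(V, V0), χ.hom (((Limits.pullback.fst g (s ≫ g)).app V0).hom b) = φ.hom b := by
  have h0 : Limits.pullback.lift s (𝟙 _) (by rw [Category.id_comp]) ≫
      Limits.pullback.fst g (s ≫ g) = s := Limits.pullback.lift_fst _ _ _
  exact p7_main V0 hV0 φ s hs _ (Limits.pullback.fst g (s ≫ g)) _ h0 hU

end Pool.Agent.LibHP
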