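import Pool.Agent.LibW64P.SDefs
import Pool.Agent.LibW64P.P2
import Pool.Agent.LibW64P.P3
import Pool.Agent.LibW64P.P4
import Pool.Agent.LibW64P.P6
import Pool.Agent.LibW64P.P7
import Pool.Agent.LibW64T.T2e

/-! # Row PA: specialization within the fibre through one point

Plan. `s := Spec.map (CommRingCat.ofHom (φ ∘ chR)) ≫ hV0.fromSpec`; `φ` is `k`-linear, so `W_T2e` (with
`kapU`; `chR (kapU h V0 c) = algebraMap k A c` by `hk`) gives `s ≫ h = 𝟙` and `range s ⊆ V0 ⊆ W`. `H s`: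
`Z := pullback g (s ≫ g)`, `p := pullback.fst`, `q := pullback.snd` (locally of finite type as `g` is, see
`W_T2`), `κ := Z.functionField` with `(toStalk q (genericPoint Z)).toAlgebra`. `W_P6` gives `O, Ψ`. For `V0, A`:
`fibI A A0 φ0 ≠ ⊤`, since `φ` kills it; get `hZ, ψ`, `U := p ⁻¹ᵁ V0` affine, `IsFib A ..`, `ψ ∘ chR = germ ∘ p.app V0`.
`ψ` is `k`-linear (as `W_T2` / `W_T1`, last property: `p ≫ h = q`-compatibility,
`p ≫ h = p ≫ g ≫ t = q ≫ s ≫ g ≫ t = q`). `W_P2` with `s0 := pullback.lift s (𝟙 _)`: `WHil k κ Q`; apply it to the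
algebra `A` (`hMA.fg`), `F := ψ`, `P`. To check: for `g0` irreducible, monic, `g0 ∣ (P i).map ψ`,
`M := AdjoinRoot g0`, `¬ (UnramOver Z M ∧ ∃ t, ..)`. Suppose it holds. `W_P7` gives `χ`, `W_P4` gives `τ` on
`integralClosure (germ range) M`; `ψ.range` = range of the germ map on `U` (`chR` and `p.app V0` are
surjective); so `τ : integralClosure ψ.range M →+* k` with `τ (ψ a) = φ a`. `θM := AdjoinRoot.root g0` is a root of
`(P i).map ψ`. First alternative of `hPφ`: `θM` is integral over `ψ.range` and `τ θM` is a root of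
`(P i).map φ` in `k`. Second alternative: `W_P6` for `V1, A1` gives `ψ1` and `U1 := p ⁻¹ᵁ V1`; `ψ1.range` is the
range of the germ map on `U1`; `W_P3` gives `Algebra.Etale ψ1.range (integralClosure ψ1.range M)`; contradiction. -/

set_option autoImplicit false
open AlgebraicGeometry CategoryTheory

namespace Pool.Agent.LibHP

/-- transport along an equality of subrings -/
private theorem pa_cast {k κ : Type} [Field k] [Field κ] (R R' : Subring κ) (h : R = R')
    (M : Type) [Field M] [Algebra κ M] (τ : integralClosure R' M →+* k) :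
    ∃ τ' : integralClosure R M →+* k, ∀ (x : κ) (hx : x ∈ R) (hx' : x ∈ R'),
      τ' (algebraMap R _ ⟨x, hx⟩) = τ (algebraMap R' _ ⟨x, hx'⟩) := by
  subst h
  exact ⟨τ, fun _ _ _ => rfl⟩

private theorem pa_cast' {κ : Type} [Field κ] (R R' : Subring κ) (h : R = R')
    (M : Type) [Field M] [Algebra κ M] (he : Algebra.Etale R' (integralClosure R' M)) :
    Algebra.Etale R (integralClosure R M) := by
  subst h
  exact he

private theorem pa_root {k κ A : Type} [Field k] [Field κ] [CommRing A] (ψ : A →+* κ)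
    (φ : A →+* k) (M : Type) [Field M] [Algebra κ M] (P : Polynomial A) (hP : P.Monic) (θM : M)
    (hθ : P.eval₂ ((algebraMap κ M).comp ψ) θM = 0) (τ : integralClosure ψ.range M →+* k)
    (hτ : ∀ a : A, τ (algebraMap ψ.range (integralClosure ψ.range M) ⟨ψ a, a, rfl⟩) = φ a) :
    ∃ x : k, (P.map φ).IsRoot x := by
  have hcomp : (algebraMap κ M).comp ψ = (algebraMap ψ.range M).comp ψ.rangeRestrict := by
    ext a
    rfl
  have hint : IsIntegral ψ.range θM := by
    refine ⟨P.map ψ.rangeRestrict, hP.map _, ?_⟩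
    rw [Polynomial.eval₂_map, ← hcomp]
    exact hθ
  have h1 : P.eval₂ ((algebraMap ψ.range (integralClosure ψ.range M)).comp ψ.rangeRestrict)
      (⟨θM, hint⟩ : integralClosure ψ.range M) = 0 := by
    apply Subtype.val_injective
    have h2 := Polynomial.hom_eval₂ P
      ((algebraMap ψ.range (integralClosure ψ.range M)).comp ψ.rangeRestrict)
      (algebraMap (integralClosure ψ.range M) M) (⟨θM, hint⟩ : integralClosure ψ.range M)
    have h3 : (algebraMap (integralClosure ψ.range M) M).comp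
        ((algebraMap ψ.range (integralClosure ψ.range M)).comp ψ.rangeRestrict) =
        (algebraMap κ M).comp ψ := by
      ext a
      rfl
    rw [h3] at h2
    exact h2.trans hθ
  refine ⟨τ ⟨θM, hint⟩, ?_⟩
  have h4 := congrArg τ h1
  rw [map_zero, Polynomial.hom_eval₂] at h4
  have h5 : τ.comp ((algebraMap ψ.range (integralClosure ψ.range M)).comp ψ.rangeRestrict) =
      φ := RingHom.ext hτ
  rw [h5] at h4
  rw [Polynomial.IsRoot.def, Polynomial.eval_map]
  exact h4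

/-- the range of the reduction map -/
private theorem pa_range {A B C κ : Type} [CommRing A] [CommRing B] [CommRing C] [Field κ]
    (c : B →+* A) (hc : Function.Surjective c) (p : B →+* C) (hp : Function.Surjective p)
    (ψ : A →+* κ) (γ : C →+* κ) (h : ∀ b, ψ (c b) = γ (p b)) : ψ.range = γ.range := by
  ext x
  constructor
  · rintro ⟨a, rfl⟩
    obtain ⟨b, rfl⟩ := hc a
    exact ⟨p b, (h b).symm⟩
  · rintro ⟨d, rfl⟩
    obtain ⟨b, rfl⟩ := hp d
    exact ⟨c b, h b⟩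

/-- the chart map is surjective -/
private theorem pa_chR_surj {k : Type} [Field k] {V : Scheme.{0}} [IsIntegral V] {K : Type}
    [Field K] [Algebra k K] (e : V.functionField →+* K) (V1 : V.Opens)
    (hη : genericPoint V ∈ V1) (A1 : Subalgebra k K) (h : IsChart e V1 hη A1) :
    Function.Surjective (chR e V1 hη A1 h) := by
  intro a
  obtain ⟨b, hb⟩ := (h a.1).1 a.2
  exact ⟨b, Subtype.ext hb⟩

theorem W_PA {k : Type} [Field k] [CharZero k] {V T : Scheme.{0}} [IsIntegral V] [IsIntegral T]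
    (h : V ⟶ Spec (CommRingCat.of k)) [LocallyOfFiniteType h]
    (t : T ⟶ Spec (CommRingCat.of k)) [LocallyOfFiniteType t] (g : V ⟶ T) (hg : g ≫ t = h)
    (W : V.Opens)
    (H : ∀ s : Spec (CommRingCat.of k) ⟶ V, s ≫ h = 𝟙 _ → Set.range s.base ⊆ W →
      IsIntegral (Limits.pullback g (s ≫ g)) ∧
      (∀ y : ↥(Limits.pullback g (s ≫ g)),
        IsIntegrallyClosed ((Limits.pullback g (s ≫ g)).presheaf.stalk y)) ∧
      RelWHP (Limits.pullback.snd g (s ≫ g))
        (Limits.pullback.lift s (𝟙 _) (by rw [Category.id_comp])))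
    (K : Type) [Field K] [Algebra k K] (e : V.functionField →+* K) (he : Function.Bijective e)
    (hk : ∀ c : k, algebraMap k K c = e (toStalk h (genericPoint V) c)) (T0 : T.Opens)
    (hT0 : IsAffineOpen T0) (hηT : genericPoint V ∈ g ⁻¹ᵁ T0) (L : Subfield K)
    (A0 : Subalgebra k K) (hA0 : IsBase g e T0 hηT A0) (V0 : V.Opens)
    (hV0 : IsAffineOpen V0) (hle0 : V0 ≤ g ⁻¹ᵁ T0) (hVW : V0 ≤ W) (hη0 : genericPoint V ∈ V0)
    (A : Subalgebra k K) (hA : IsChart e V0 hη0 A) (hMA : IsModel L A A0) (m : ℕ)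
    (P : Fin m → Polynomial A) (hP : ∀ i, (P i).Monic) (φ : A →ₐ[k] k)
    (hPφ : ∀ i, (∀ x : k, ¬ ((P i).map (φ : A →+* k)).IsRoot x) ∨
      ∃ (V1 : V.Opens) (_ : IsAffineOpen V1) (_ : V1 ≤ g ⁻¹ᵁ T0) (hη1 : genericPoint V ∈ V1)
        (A1 : Subalgebra k K) (_ : IsChart e V1 hη1 A1),
        fibI A1 A0 (φ.comp (Subalgebra.inclusion hMA.le)) ≠ ⊤ ∧
        ∀ (κ : Type) [Field κ] (O : Subring K) (Ψ : O →+* κ) (ψ : A →+* κ) (ψ1 : A1 →+* κ),
          IsFib A A0 (φ.comp (Subalgebra.inclusion hMA.le)) O Ψ ψ →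
          IsFib A1 A0 (φ.comp (Subalgebra.inclusion hMA.le)) O Ψ ψ1 →
          ∀ (M : Type) [Field M] [Algebra κ M] (θM : M),
            (P i).eval₂ ((algebraMap κ M).comp ψ) θM = 0 →
            Algebra.Etale ψ1.range (integralClosure ψ1.range M) →
            ∀ τ : integralClosure ψ.range M →+* k,
              (∀ a : A, τ (algebraMap ψ.range (integralClosure ψ.range M) ⟨ψ a, a, rfl⟩) = φ a) →
              False) :
    ∃ ψ' : A →ₐ[k] k, ∀ i, ∀ x : k, ¬ ((P i).map (ψ' : A →+* k)).IsRoot x := by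
  obtain ⟨φ', hφ'⟩ : ∃ φ' : Γ(V, V0) ⟶ CommRingCat.of k,
      φ' = CommRingCat.ofHom ((φ : A →+* k).comp (chR e V0 hη0 A hA)) := ⟨_, rfl⟩
  have hφv : ∀ b, φ'.hom b = φ (chR e V0 hη0 A hA b) := by
    intro b
    rw [hφ']
    rfl
  have hchk : ∀ c : k, chR e V0 hη0 A hA (kapU h V0 c) = algebraMap k A c := by
    intro c
    apply Subtype.ext
    change e (V.presheaf.germ V0 (genericPoint V) hη0 (kapU h V0 c)) = algebraMap k K c
    rw [germ_kapU, hk]
  have hφk : ∀ c : k, φ'.hom (kapU h V0 c) = c := by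
    intro c
    rw [hφv, hchk, AlgHom.commutes]
    rfl
  obtain ⟨hs1, hs2⟩ := W_T2e h V0 hV0 φ' hφk
  obtain ⟨s, hs⟩ : ∃ s : Spec (CommRingCat.of k) ⟶ V, s = Spec.map φ' ≫ hV0.fromSpec :=
    ⟨_, rfl⟩
  rw [← hs] at hs1 hs2
  obtain ⟨hZ, hn, hWHP⟩ := H s hs1 (hs2.trans hVW)
  haveI : LocallyOfFiniteType (g ≫ t) := by rw [hg]; infer_instance
  haveI : LocallyOfFiniteType g := locallyOfFiniteType_of_comp g t
  obtain ⟨O, Ψ, hcharts⟩ := W_P6 h t g hg K e he hk T0 hT0 hηT A0 hA0 V0 hV0 hle0 hη0 A hA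
    hMA.le φ s (by rw [hs, hφ']) hZ
  have hfib0 : fibI A A0 (φ.comp (Subalgebra.inclusion hMA.le)) ≠ ⊤ := by
    intro htop
    have h1 : fibI A A0 (φ.comp (Subalgebra.inclusion hMA.le)) ≤
        RingHom.ker (φ : A →+* k) := by
      refine Ideal.span_le.2 ?_
      rintro a ⟨ha, ha0⟩
      exact ha0
    rw [htop] at h1
    have h2 : (1 : A) ∈ RingHom.ker (φ : A →+* k) := h1 trivial
    rw [RingHom.mem_ker, map_one] at h2
    exact one_ne_zero h2
  obtain ⟨hZ0, ψ, hU, hpsurj, hFib, hψ⟩ := hcharts V0 hV0 hle0 hη0 A hA hfib0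
  set p := Limits.pullback.fst g (s ≫ g) with hp
  set q := Limits.pullback.snd g (s ≫ g) with hq
  have hpq : p ≫ h = q := by
    rw [← hg, hp, ← Category.assoc, Limits.pullback.condition, Category.assoc, Category.assoc,
      hg, hs1, Category.comp_id]
  letI algκ : Algebra k (Limits.pullback g (s ≫ g)).functionField :=
    (toStalk q (genericPoint _)).toAlgebra
  have hkκ : ∀ c : k, algebraMap k (Limits.pullback g (s ≫ g)).functionField c =
      toStalk q (genericPoint _) c := fun _ => rfl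
  have hψk : ∀ c : k, ψ (algebraMap k A c) =
      algebraMap k (Limits.pullback g (s ≫ g)).functionField c := by
    intro c
    rw [← hchk, hψ, hkκ]
    have h1 : (p.app V0).hom (kapU h V0 c) = kapU q (p ⁻¹ᵁ V0) c := by
      have h2 := W_T2f q h p hpq V0 (p ⁻¹ᵁ V0) le_rfl c
      rwa [Scheme.Hom.appLE_eq_app] at h2
    rw [h1]
    exact germ_kapU q (p ⁻¹ᵁ V0) _ hZ0 c
  have hWHil := W_P2 q hkκ hn _ hWHP
  let F : A →ₐ[k] (Limits.pullback g (s ≫ g)).functionField :=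
    { ψ with commutes' := hψk }
  have hFψ : (F : A →+* (Limits.pullback g (s ≫ g)).functionField) = ψ := rfl
  haveI : Algebra.FiniteType k A := (Subalgebra.fg_iff_finiteType A).1 hMA.fg
  refine hWHil A F m P hP ?_
  intro i g0 hg0 hg0m hdvd hQ
  obtain ⟨hun, t', ht'⟩ := hQ
  haveI hfd : FiniteDimensional (Limits.pullback g (s ≫ g)).functionField (AdjoinRoot g0) :=
    hg0m.finite_adjoinRoot
  obtain ⟨χ, hχ1, hχ2⟩ := W_P7 g V0 hV0 φ' s hs hU
  obtain ⟨τ, hτ⟩ := W_P4 (AdjoinRoot g0) (p ⁻¹ᵁ V0) hU hZ0 χ _ hχ1 t' ht'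
  have hrange : ψ.range = ((Limits.pullback g (s ≫ g)).presheaf.germ (p ⁻¹ᵁ V0) _ hZ0).hom.range :=
    pa_range (chR e V0 hη0 A hA) (pa_chR_surj e V0 hη0 A hA) (p.app V0).hom hpsurj ψ _ hψ
  obtain ⟨τ', hτ'⟩ := pa_cast _ _ hrange (AdjoinRoot g0) τ
  have hτφ : ∀ a : A, τ' (algebraMap ψ.range (integralClosure ψ.range (AdjoinRoot g0))
      ⟨ψ a, a, rfl⟩) = φ a := by
    intro a
    obtain ⟨b, rfl⟩ := pa_chR_surj e V0 hη0 A hA a
    refine (hτ' _ ⟨_, rfl⟩ ⟨(p.app V0).hom b, (hψ b).symm⟩).trans ?_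
    have h1 := hτ ((p.app V0).hom b)
    rw [hχ2, hφv] at h1
    refine Eq.trans ?_ h1
    congr 2
    exact Subtype.ext (hψ b)
  have hroot : (P i).eval₂ ((algebraMap _ (AdjoinRoot g0)).comp ψ) (AdjoinRoot.root g0) = 0 := by
    rw [hFψ] at hdvd
    obtain ⟨r, hr⟩ := hdvd
    rw [← Polynomial.eval₂_map, hr, Polynomial.eval₂_mul, AdjoinRoot.algebraMap_eq,
      AdjoinRoot.eval₂_root, zero_mul]
  rcases hPφ i with hno | ⟨V1, hV1, hle1, hη1, A1, hA1, hfib1, hlast⟩
  · obtain ⟨x, hx⟩ := pa_root ψ (φ : A →+* k) (AdjoinRoot g0) (P i) (hP i) _ hroot τ' hτφ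
    exact hno x hx
  · obtain ⟨hZ1, ψ1, hU1, hpsurj1, hFib1, hψ1⟩ := hcharts V1 hV1 hle1 hη1 A1 hA1 hfib1
    have hrange1 : ψ1.range =
        ((Limits.pullback g (s ≫ g)).presheaf.germ (p ⁻¹ᵁ V1) _ hZ1).hom.range :=
      pa_range (chR e V1 hη1 A1 hA1) (pa_chR_surj e V1 hη1 A1 hA1) (p.app V1).hom hpsurj1 ψ1 _
        hψ1
    exact hlast _ O Ψ ψ ψ1 hFib hFib1 (AdjoinRoot g0) (AdjoinRoot.root g0) hroot
      (pa_cast' _ _ hrange1 _ (W_P3 (AdjoinRoot g0) hun (p ⁻¹ᵁ V1) hU1 hZ1)) τ' hτφ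

end Pool.Agent.LibHP
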