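import Pool.Agent.LibW64P.Defs

/-! # Row AK: constants in a cover with a rational point

SHORT. Plan. `j := (algebraMap κ M).comp (ψ.comp (algebraMap k A)) : k →+* M`. `β` is integral over `k`,
so over `ψ.range`, so `β` is (the value of) `β' : integralClosure ψ.range M`. `q := minpoly k β` (for
`j.toAlgebra`), `q ∣ p`; `q.eval₂ (k → integralClosure) β' = 0`, apply `τ` (which is the identity on `k`
by `hτ` and `φ (algebraMap k A c) = c`): `q` has the root `a := τ β'` in `k`, so `q = X - a` (irreducible),
`β = j a`, and `p (a) = 0`. Compare `noNewConst_of_hom` in LibK3G/WH2.lean. -/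

set_option autoImplicit false
open Polynomial

namespace Pool.Agent.LibHP

theorem W_AK {k K κ M : Type} [Field k] [Field K] [Algebra k K] [Field κ] [Field M] [Algebra κ M]
    (A : Subalgebra k K) (ψ : A →+* κ) (φ : A →ₐ[k] k)
    (τ : integralClosure ψ.range M →+* k)
    (hτ : ∀ a : A, τ (algebraMap ψ.range (integralClosure ψ.range M) ⟨ψ a, a, rfl⟩) = φ a)
    (p : k[X]) (hp : p.Monic) (β : M)
    (hβ : p.eval₂ ((algebraMap κ M).comp (ψ.comp (algebraMap k A))) β = 0) :
    ∃ a : k, p.IsRoot a ∧ algebraMap κ M (ψ (algebraMap k A a)) = β := by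
  classical
  obtain ⟨i, hi⟩ : ∃ i : k →+* ψ.range, i = ψ.rangeRestrict.comp (algebraMap k A) := ⟨_, rfl⟩
  have hij : (algebraMap ψ.range M).comp i =
      (algebraMap κ M).comp (ψ.comp (algebraMap k A)) := by
    rw [hi]
    rfl
  let _ : Algebra k M := ((algebraMap κ M).comp (ψ.comp (algebraMap k A))).toAlgebra
  have halg : algebraMap k M = (algebraMap κ M).comp (ψ.comp (algebraMap k A)) := rfl
  have hint : IsIntegral ψ.range β := by
    refine ⟨p.map i, hp.map i, ?_⟩
    rw [Polynomial.eval₂_map, hij]
    exact hβ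
  have hintk : IsIntegral k β := ⟨p, hp, hβ⟩
  obtain ⟨g, hg⟩ : ∃ g : k →+* integralClosure ψ.range M,
      g = (algebraMap ψ.range (integralClosure ψ.range M)).comp i := ⟨_, rfl⟩
  have hgM : ((algebraMap (integralClosure ψ.range M) M)).comp g = algebraMap k M := by
    rw [halg, ← hij, hg]
    rfl
  have hτg : τ.comp g = RingHom.id k := by
    ext c
    show τ (g c) = c
    rw [hg, hi]
    have h1 := hτ (algebraMap k A c)
    rw [AlgHom.commutes] at h1
    exact h1
  have hroot : (minpoly k β).IsRoot (τ ⟨β, hint⟩) := by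
    have h1 : (minpoly k β).eval₂ g ⟨β, hint⟩ = 0 := by
      apply Subtype.val_injective
      have h2 : algebraMap (integralClosure ψ.range M) M
          ((minpoly k β).eval₂ g ⟨β, hint⟩) = 0 := by
        rw [Polynomial.hom_eval₂, hgM]
        exact minpoly.aeval k β
      exact h2
    have h3 := congrArg τ h1
    rw [Polynomial.hom_eval₂, hτg, map_zero] at h3
    exact h3
  have hdeg := Polynomial.degree_eq_one_of_irreducible_of_root (minpoly.irreducible hintk) hroot
  obtain ⟨b, hb⟩ := minpoly.mem_range_of_degree_eq_one k β hdeg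
  refine ⟨b, ?_, hb⟩
  rw [← hb, halg] at hβ
  have h4 : (algebraMap k M) (p.eval b) = 0 := by
    rw [halg, ← Polynomial.eval₂_hom]
    exact hβ
  exact (map_eq_zero_iff _ (algebraMap k M).injective).1 h4

end Pool.Agent.LibHP
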