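import Pool.Agent.LibW64P.Defs
import Pool.Agent.LibW64.B1

/-! # Row I0: irreducibility over the closure of the constants

Plan. `E := geoF L`. `E` contains the coefficients (`ι α` is algebraic over `L`, by `hαL`). Write `K̄` for
`AlgebraicClosure K`, `K' := K⟮ι α⟯`. Claim 1: if `β ∈ ι(N) ∩ E` then `β ∈ K'`: `W_B1` (with `hcl`) gives `λ`
algebraic over `L` with `K⟮λ⟯ = K⟮β⟯`, so `λ ∈ ι(N)`, `λ = ι λ'`, `λ'` algebraic over `L`, so
`λ' ∈ L(α)` by `hmax`, so `β ∈ K'`. Claim 2: let `g' := G (ι α, X)`, of degree `[N : K(α)]` by `hrank`, with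
root `ι θ`; so it is the minimal polynomial of `ι θ` over `K'`. Let `q` be the minimal polynomial of `ι θ`
over `E`, `q ∣ g'`; show `deg q = deg g'` (then `g'` is irreducible over `E`). The coefficients of `q` lie
in finitely many `K⟮β⟯`, `β ∈ E`, so (`W_B1` again, or the definition of `E`) in `K⟮λ⟯` with finitely many
`λ` algebraic over `L`; let `E1` be the subfield generated by `K'` and all the conjugates over `K`
of these `λ` (roots in `K̄` of polynomials over `L`, so in `E`): `E1 / K'` is finite Galois, `E1 ⊆ E`.
`E1 ∩ ι(N) = K'` by Claim 1, so `E1` and `ι(N)` are linearly disjoint over `K'`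
(`IntermediateField.LinearDisjoint.of_inf_eq_bot`), so `1, ι θ, ..., (ι θ) ^ (d - 1)`
(`d = deg g'`) are linearly independent over `E1`, so `deg q ≥ d`. -/

set_option autoImplicit false
open Polynomial

namespace Pool.Agent.LibHP

private theorem I0_key {K : Type} [Field K] [CharZero K]
    (M F : IntermediateField K (AlgebraicClosure K))
    [IsGalois K M] [FiniteDimensional K M] [FiniteDimensional K F] (t : AlgebraicClosure K)
    (ht : F = IntermediateField.adjoin K {t}) (q : (AlgebraicClosure K)[X])
    (hq : ∀ i, q.coeff i ∈ M) (hq0 : q ≠ 0) (hqt : q.eval t = 0) :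
    Module.finrank K F ≤ q.natDegree * Module.finrank K ↥(M ⊓ F) := by
  classical
  let K1 : IntermediateField K (AlgebraicClosure K) := M ⊓ F
  have hM : K1 ≤ M := inf_le_left
  have hF : K1 ≤ F := inf_le_right
  let M1 : IntermediateField K1 (AlgebraicClosure K) := IntermediateField.extendScalars hM
  let F1 : IntermediateField K1 (AlgebraicClosure K) := IntermediateField.extendScalars hF
  have htF : t ∈ F := by
    rw [ht]
    exact IntermediateField.subset_adjoin K {t} (Set.mem_singleton t)
  have hinf : M1 ⊓ F1 = ⊥ := by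
    have h1 : M1 ⊓ F1 = IntermediateField.extendScalars (le_inf hM hF) :=
      IntermediateField.extendScalars_inf hM hF
    rw [h1]
    exact IntermediateField.extendScalars_self (F := K1)
  let _ : Algebra K1 M := (IntermediateField.inclusion hM).toRingHom.toAlgebra
  have _ : IsScalarTower K K1 M := IsScalarTower.of_algebraMap_eq fun x => rfl
  let _ : Algebra K1 F := (IntermediateField.inclusion hF).toRingHom.toAlgebra
  have _ : IsScalarTower K K1 F := IsScalarTower.of_algebraMap_eq fun x => rfl
  let eM : M ≃ₐ[K1] M1 :=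
    { toFun := fun x => ⟨x.1, x.2⟩
      invFun := fun x => ⟨x.1, x.2⟩
      left_inv := fun x => rfl
      right_inv := fun x => rfl
      map_mul' := fun x y => rfl
      map_add' := fun x y => rfl
      commutes' := fun x => rfl }
  let eF : F ≃ₐ[K1] F1 :=
    { toFun := fun x => ⟨x.1, x.2⟩
      invFun := fun x => ⟨x.1, x.2⟩
      left_inv := fun x => rfl
      right_inv := fun x => rfl
      map_mul' := fun x y => rfl
      map_add' := fun x y => rfl
      commutes' := fun x => rfl }
  have _ : IsGalois K1 M := IsGalois.tower_top_of_isGalois K K1 M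
  have _ : IsGalois K1 M1 := IsGalois.of_algEquiv eM
  have _ : FiniteDimensional K1 M := FiniteDimensional.right K K1 M
  have _ : FiniteDimensional K1 F := FiniteDimensional.right K K1 F
  have _ : FiniteDimensional K1 M1 := eM.toLinearEquiv.finiteDimensional
  have _ : FiniteDimensional K1 F1 := eF.toLinearEquiv.finiteDimensional
  have _ : FiniteDimensional K K1 := FiniteDimensional.left K K1 F
  have hdis : M1.LinearDisjoint F1 := IntermediateField.LinearDisjoint.of_inf_eq_bot hinf
  let t1 : F1 := ⟨t, htF⟩
  have hb := linearIndependent_pow (K := K1) t1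
  have hb2 := hdis.linearIndependent_right hb
  have hdeg : (minpoly K1 t1).natDegree = Module.finrank K1 F1 := by
    have hint : IsIntegral K1 t1 := Algebra.IsIntegral.isIntegral t1
    rw [← IntermediateField.adjoin.finrank hint]
    have htop : IntermediateField.adjoin K1 {t1} = ⊤ := by
      rw [eq_top_iff]
      rintro ⟨x, hx⟩ -
      have hx1 : x ∈ IntermediateField.adjoin K {t} := ht ▸ hx
      have h2 : IntermediateField.adjoin K {t} ≤
          ((IntermediateField.adjoin K1 {t1}).map F1.val).restrictScalars K := by
        rw [IntermediateField.adjoin_le_iff, Set.singleton_subset_iff]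
        exact ⟨t1, IntermediateField.subset_adjoin K1 {t1} (Set.mem_singleton t1), rfl⟩
      obtain ⟨y, hy, hyx⟩ := h2 hx1
      have h3 : y = (⟨x, hx⟩ : F1) := Subtype.ext hyx
      rw [← h3]
      exact hy
    rw [htop]
    exact IntermediateField.finrank_top'
  have hle : Module.finrank K1 F1 ≤ q.natDegree := by
    by_contra hlt
    push Not at hlt
    rw [← hdeg] at hlt
    apply hq0
    have hsum : ∑ i : Fin (minpoly K1 t1).natDegree,
        (⟨q.coeff i, hq i⟩ : M1) • ((F1.val ∘ fun i : Fin (minpoly K1 t1).natDegree => t1 ^ (i : ℕ)) i) = 0 := by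
      have h1 := Polynomial.eval_eq_sum_range' hlt t
      rw [hqt] at h1
      rw [Finset.sum_range] at h1
      rw [h1]
      refine Finset.sum_congr rfl fun i _ => ?_
      rfl
    have h4 := Fintype.linearIndependent_iff.1 hb2 _ hsum
    ext i
    rw [Polynomial.coeff_zero]
    by_cases hi : i < (minpoly K1 t1).natDegree
    · have h5 := h4 ⟨i, hi⟩
      exact congrArg Subtype.val h5
    · exact Polynomial.coeff_eq_zero_of_natDegree_lt (lt_of_lt_of_le hlt (not_lt.1 hi))
  have h6 : Module.finrank K1 F1 = Module.finrank K1 F := eF.toLinearEquiv.finrank_eq.symm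
  have h7 := Module.finrank_mul_finrank K K1 F
  rw [← h7, mul_comm]
  exact Nat.mul_le_mul_right _ (h6 ▸ hle)

private theorem I0_geoF_K {K : Type} [Field K] (L : Subfield K) (x : K) :
    algebraMap K (AlgebraicClosure K) x ∈ geoF L :=
  Subfield.subset_closure (Or.inl ⟨x, rfl⟩)

private theorem I0_geoF_alg {K : Type} [Field K] (L : Subfield K) (β : AlgebraicClosure K)
    (h : AlgOver L (algebraMap K (AlgebraicClosure K)) β) : β ∈ geoF L :=
  Subfield.subset_closure (Or.inr h)

private theorem I0_alg_map {K N N' : Type} [Field K] [Field N] [Field N'] [Algebra K N]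
    [Algebra K N'] (L : Subfield K) (f : N →ₐ[K] N') (α : N)
    (h : AlgOver L (algebraMap K N) α) : AlgOver L (algebraMap K N') (f α) := by
  obtain ⟨p, h1, h2, h3⟩ := h
  refine ⟨p, h1, h2, ?_⟩
  have h4 := congrArg f h3
  rw [map_zero] at h4
  rw [← h4]
  have h5 : (f : N →+* N') (p.eval₂ (algebraMap K N) α) =
      p.eval₂ ((f : N →+* N').comp (algebraMap K N)) (f α) := Polynomial.hom_eval₂ _ _ _ _
  have h6 : (f : N →+* N').comp (algebraMap K N) = algebraMap K N' := f.comp_algebraMap
  rw [h6] at h5
  exact h5.symm

private theorem I0_alg_of_map {K N N' : Type} [Field K] [Field N] [Field N'] [Algebra K N]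
    [Algebra K N'] (L : Subfield K) (f : N →ₐ[K] N') (α : N)
    (h : AlgOver L (algebraMap K N') (f α)) : AlgOver L (algebraMap K N) α := by
  obtain ⟨p, h1, h2, h3⟩ := h
  refine ⟨p, h1, h2, ?_⟩
  have h5 : (f : N →+* N') (p.eval₂ (algebraMap K N) α) =
      p.eval₂ ((f : N →+* N').comp (algebraMap K N)) (f α) := Polynomial.hom_eval₂ _ _ _ _
  have h6 : (f : N →+* N').comp (algebraMap K N) = algebraMap K N' := f.comp_algebraMap
  rw [h6, h3] at h5
  exact (map_eq_zero (f : N →+* N')).1 h5

/-- the field `geoF L` as an intermediate field -/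
private noncomputable def I0_E {K : Type} [Field K] (L : Subfield K) :
    IntermediateField K (AlgebraicClosure K) :=
  { geoF L with algebraMap_mem' := I0_geoF_K L }

/-- a polynomial over `geoF L` is defined over a finite Galois extension of `K` in `geoF L` -/
private theorem I0_gal {K : Type} [Field K] [CharZero K] (L : Subfield K) (hcl : ClosedSub L)
    (q : (AlgebraicClosure K)[X]) (hq : ∀ i, q.coeff i ∈ geoF L) :
    ∃ M : IntermediateField K (AlgebraicClosure K), IsGalois K M ∧ FiniteDimensional K M ∧
      (∀ i, q.coeff i ∈ M) ∧ ∀ x ∈ M, x ∈ geoF L := by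
  classical
  let S : Set (AlgebraicClosure K) := ((Finset.range (q.natDegree + 1)).image q.coeff : Finset _)
  have hSfin : S.Finite := Finset.finite_toSet _
  let K2 := IntermediateField.adjoin K S
  have hK2 : K2 ≤ I0_E L := by
    rw [IntermediateField.adjoin_le_iff]
    intro x hx
    obtain ⟨i, -, rfl⟩ := Finset.mem_image.1 (Finset.mem_coe.1 hx)
    exact hq i
  have hcoef : ∀ i, q.coeff i ∈ K2 := by
    intro i
    by_cases hi : i ≤ q.natDegree
    · refine IntermediateField.subset_adjoin K S ?_
      exact Finset.mem_coe.2 (Finset.mem_image.2 ⟨i, Finset.mem_range.2 (by omega), rfl⟩)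
    · rw [Polynomial.coeff_eq_zero_of_natDegree_lt (not_le.1 hi)]
      exact zero_mem _
  have hfd : FiniteDimensional K K2 := by
    have : Finite S := hSfin
    refine IntermediateField.finiteDimensional_adjoin fun x _ => ?_
    exact (Algebra.IsAlgebraic.isAlgebraic x).isIntegral
  obtain ⟨β, hβ⟩ := Field.exists_primitive_element K K2
  have hE : K2 = IntermediateField.adjoin K {(β : AlgebraicClosure K)} := by
    have h1 := congrArg (IntermediateField.map K2.val) hβ
    rw [IntermediateField.adjoin_map, Set.image_singleton] at h1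
    rw [← AlgHom.fieldRange_eq_map, IntermediateField.fieldRange_val] at h1
    exact h1.symm
  obtain ⟨lam, hlam1, hlam2⟩ := W_B1 L hcl (β : AlgebraicClosure K) (hK2 β.2)
  have hlamint : IsIntegral K lam := (Algebra.IsAlgebraic.isAlgebraic lam).isIntegral
  have hfd2 : FiniteDimensional K (IntermediateField.adjoin K {lam}) :=
    IntermediateField.adjoin.finiteDimensional hlamint
  let M := IntermediateField.normalClosure K (IntermediateField.adjoin K {lam}) (AlgebraicClosure K)
  have hN : Normal K (AlgebraicClosure K) := IsAlgClosure.normal K (AlgebraicClosure K)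
  have hMle : K2 ≤ M := by
    rw [hE, ← hlam2]
    exact IntermediateField.le_normalClosure _
  refine ⟨M, ?_, ?_, fun i => hMle (hcoef i), ?_⟩
  · have h1 : Normal K M := normalClosure.normal K _ _
    exact ⟨⟩
  · exact normalClosure.is_finiteDimensional K _ _
  · have hle : M ≤ I0_E L := by
      refine iSup_le fun f => ?_
      intro x hx
      obtain ⟨y, rfl⟩ := hx
      have hy : y ∈ (⊤ : IntermediateField K (IntermediateField.adjoin K {lam})) :=
        IntermediateField.mem_top
      let g : IntermediateField.adjoin K {lam} := IntermediateField.AdjoinSimple.gen K lam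
      have htop : IntermediateField.adjoin K {g} = ⊤ := by
        rw [eq_top_iff]
        rintro ⟨x, hx⟩ -
        have h2 : (IntermediateField.adjoin K {g}).map
            (IntermediateField.adjoin K {lam}).val = IntermediateField.adjoin K {lam} := by
          rw [IntermediateField.adjoin_map, Set.image_singleton]
          rfl
        have h3 : x ∈ (IntermediateField.adjoin K {g}).map
            (IntermediateField.adjoin K {lam}).val := by
          rw [h2]
          exact hx
        obtain ⟨y, hy, hyx⟩ := h3
        have h4 : y = ⟨x, hx⟩ := Subtype.ext hyx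
        rw [← h4]
        exact hy
      rw [← htop] at hy
      have h1 : IntermediateField.adjoin K {g} ≤ (I0_E L).comap f := by
        rw [IntermediateField.adjoin_le_iff, Set.singleton_subset_iff]
        refine I0_geoF_alg L _ ?_
        refine I0_alg_map L f g ?_
        refine I0_alg_of_map L (IntermediateField.adjoin K {lam}).val g ?_
        exact hlam1
      exact h1 hy
    exact fun x hx => hle hx

theorem W_IR0 {K N : Type} [Field K] [CharZero K] [Field N] [Algebra K N] [FiniteDimensional K N]
    (L : Subfield K) (hcl : ClosedSub L) (α θ : N) (hαL : AlgOver L (algebraMap K N) α)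
    (hmax : ∀ β : N, AlgOver L (algebraMap K N) β →
      β ∈ Subfield.closure (algebraMap K N '' (L : Set K) ∪ {α}))
    (hθ : IntermediateField.adjoin K {θ} = ⊤) (G : K[X][X]) (hG : G.Monic)
    (hrank : G.natDegree * (minpoly K α).natDegree = Module.finrank K N)
    (hG0 : ev2 (algebraMap K N) α θ G = 0) (ι : N →ₐ[K] AlgebraicClosure K) :
    ∃ G' : (geoF L)[X], G'.map (geoF L).subtype =
      G.map (Polynomial.eval₂RingHom (algebraMap K (AlgebraicClosure K)) (ι α)) ∧
      Irreducible G' := by
  classical
  -- the polynomial `G'`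
  set ev : K[X] →+* AlgebraicClosure K :=
    Polynomial.eval₂RingHom (algebraMap K (AlgebraicClosure K)) (ι α) with hev
  have hια : ι α ∈ geoF L := I0_geoF_alg L _ (I0_alg_map L ι α hαL)
  have hcoefE : ∀ p : K[X], ev p ∈ geoF L := by
    intro p
    rw [hev, Polynomial.coe_eval₂RingHom, Polynomial.eval₂_eq_sum_range]
    exact sum_mem fun i _ => mul_mem (I0_geoF_K L _) (pow_mem hια i)
  have hlift : G.map ev ∈ Polynomial.lifts (geoF L).subtype := by
    rw [Polynomial.lifts_iff_coeff_lifts]
    intro i
    rw [Polynomial.coeff_map]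
    exact ⟨⟨_, hcoefE _⟩, rfl⟩
  obtain ⟨G', hG'1, hG'2, hG'3⟩ :=
    Polynomial.lifts_and_natDegree_eq_and_monic hlift (hG.map ev)
  refine ⟨G', hG'1, ?_⟩
  have hdG : G'.natDegree = G.natDegree := by
    rw [hG'2]
    exact hG.natDegree_map ev
  -- `ι θ` is a root of `G'`
  have hroot : (G.map ev).eval (ι θ) = 0 := by
    have h1 := congrArg ι hG0
    rw [map_zero] at h1
    rw [← h1, ev2, Polynomial.coe_eval₂RingHom, Polynomial.eval_map]
    have h2 : (ι : N →+* AlgebraicClosure K)
        (Polynomial.eval₂ (Polynomial.eval₂RingHom (algebraMap K N) α) θ G) =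
        Polynomial.eval₂ ((ι : N →+* AlgebraicClosure K).comp
          (Polynomial.eval₂RingHom (algebraMap K N) α)) (ι θ) G := Polynomial.hom_eval₂ _ _ _ _
    have h3 : (ι : N →+* AlgebraicClosure K).comp
          (Polynomial.eval₂RingHom (algebraMap K N) α) = ev := by
      refine Polynomial.ringHom_ext ?_ ?_
      · intro a
        simp [hev]
      · simp [hev]
    rw [h3] at h2
    exact h2.symm
  have hroot' : Polynomial.aeval (ι θ) G' = 0 := by
    rw [Polynomial.aeval_def, ← hroot, ← hG'1, Polynomial.eval_map]
    rfl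
  have hint : IsIntegral (geoF L) (ι θ) := ⟨G', hG'3, hroot'⟩
  let q := minpoly (geoF L) (ι θ)
  have hqdvd : q ∣ G' := minpoly.dvd _ _ hroot'
  have hqm : q.Monic := minpoly.monic hint
  let q' : (AlgebraicClosure K)[X] := q.map (geoF L).subtype
  have hq'm : q'.Monic := hqm.map _
  have hq'deg : q'.natDegree = q.natDegree := hqm.natDegree_map _
  have hq'E : ∀ i, q'.coeff i ∈ geoF L := by
    intro i
    rw [Polynomial.coeff_map]
    exact (q.coeff i).2
  have hq'0 : q'.eval (ι θ) = 0 := by
    have h1 : Polynomial.aeval (ι θ) q = 0 := minpoly.aeval _ _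
    rw [Polynomial.aeval_def] at h1
    rw [Polynomial.eval_map, ← h1]
    rfl
  obtain ⟨M, hM1, hM2, hM3, hM4⟩ := I0_gal L hcl q' hq'E
  have hF : ι.fieldRange = IntermediateField.adjoin K {ι θ} := by
    rw [AlgHom.fieldRange_eq_map, ← hθ, IntermediateField.adjoin_map, Set.image_singleton]
  have hFfd : FiniteDimensional K ι.fieldRange := ι.toLinearMap.finiteDimensional_range
  have hFrank : Module.finrank K ι.fieldRange = Module.finrank K N :=
    (AlgEquiv.ofInjectiveField ι).toLinearEquiv.finrank_eq.symm
  have hkey := I0_key M ι.fieldRange (ι θ) hF q' hM3 hq'm.ne_zero hq'0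
  -- `M ⊓ ι(N) ≤ K(ι α)`
  have hinf : M ⊓ ι.fieldRange ≤ IntermediateField.adjoin K {ι α} := by
    intro z hz
    obtain ⟨lam, hlam1, hlam2⟩ := W_B1 L hcl z (hM4 z hz.1)
    have h1 : lam ∈ ι.fieldRange := by
      have h2 : IntermediateField.adjoin K {z} ≤ ι.fieldRange := by
        rw [IntermediateField.adjoin_le_iff, Set.singleton_subset_iff]
        exact hz.2
      refine h2 ?_
      rw [← hlam2]
      exact IntermediateField.subset_adjoin K {lam} (Set.mem_singleton lam)
    obtain ⟨μ, hμ⟩ := h1
    have hμ' : ι μ = lam := hμ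
    have h3 : AlgOver L (algebraMap K N) μ := by
      refine I0_alg_of_map L ι μ ?_
      rw [hμ']
      exact hlam1
    have h4 := hmax μ h3
    have h5 : Subfield.closure (algebraMap K N '' (L : Set K) ∪ {α}) ≤
        (IntermediateField.adjoin K {α}).toSubfield := by
      rw [Subfield.closure_le]
      rintro x (⟨c, -, rfl⟩ | rfl)
      · exact (IntermediateField.adjoin K {α}).algebraMap_mem c
      · exact IntermediateField.subset_adjoin K {x} (Set.mem_singleton x)
    have h6 : μ ∈ IntermediateField.adjoin K {α} := h5 h4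
    have h7 : lam ∈ IntermediateField.adjoin K {ι α} := by
      have h8 : ι μ ∈ (IntermediateField.adjoin K {α}).map ι := ⟨μ, h6, rfl⟩
      rw [IntermediateField.adjoin_map, Set.image_singleton] at h8
      rw [← hμ']
      exact h8
    have h9 : IntermediateField.adjoin K {lam} ≤ IntermediateField.adjoin K {ι α} := by
      rw [IntermediateField.adjoin_le_iff, Set.singleton_subset_iff]
      exact h7
    refine h9 ?_
    rw [hlam2]
    exact IntermediateField.subset_adjoin K {z} (Set.mem_singleton z)
  have hαint : IsIntegral K α := Algebra.IsIntegral.isIntegral α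
  have hιαint : IsIntegral K (ι α) := hαint.map ι
  have hfd3 : FiniteDimensional K (IntermediateField.adjoin K {ι α}) :=
    IntermediateField.adjoin.finiteDimensional hιαint
  have hle : Module.finrank K ↥(M ⊓ ι.fieldRange) ≤ (minpoly K α).natDegree := by
    have h1 : Module.finrank K ↥(M ⊓ ι.fieldRange) ≤
        Module.finrank K (IntermediateField.adjoin K {ι α}) :=
      LinearMap.finrank_le_finrank_of_injective
        (f := (IntermediateField.inclusion hinf).toLinearMap)
        (IntermediateField.inclusion_injective hinf)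
    rw [IntermediateField.adjoin.finrank hιαint, minpoly.algHom_eq ι ι.injective α] at h1
    exact h1
  have hpos : 0 < (minpoly K α).natDegree := minpoly.natDegree_pos hαint
  have hfinal : G.natDegree ≤ q.natDegree := by
    rw [hFrank, ← hrank, hq'deg] at hkey
    have h1 := hkey.trans (Nat.mul_le_mul_left _ hle)
    exact Nat.le_of_mul_le_mul_right h1 hpos
  have heq : G' = q := by
    refine Polynomial.eq_of_monic_of_dvd_of_natDegree_le hqm hG'3 hqdvd ?_
    rw [hdG]
    exact hfinal
  rw [heq]
  exact minpoly.irreducible hint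

end Pool.Agent.LibHP
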