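import Pool.Agent.LibW64P.Defs

/-! # Row I1: the universal resolvent

Plan. In `(MvPolynomial (Fin n) ℤ)[X]` let `W := ∏_{S, |S| = d} (X - C (∏_{j ∈ S} (C c - X_j)))`. Its
coefficients are symmetric (`MvPolynomial.rename` by a permutation permutes the factors), so they are in the
image of the algebra generated by the elementary symmetric polynomials (`MvPolynomial.esymmAlgEquiv` /
`MvPolynomial.esymmAlgHom_fin_surjective`), and `(∏ j, (X - C (X_j))).coeff i = ± esymm (n - i)`
(`Multiset.prod_X_sub_C_coeff`, `MvPolynomial.prod_C_add_X_eq_sum_esymm`). So `W = U.map (eval₂Hom _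
(fun i => (∏ j, (X - C (X_j))).coeff i))` for some monic `U` (`Polynomial.lifts_and_natDegree_eq_and_monic`;
surjectivity onto the symmetric polynomials: `esymm (n - i)` is `±` the value of the variable `i`).
Then map by `MvPolynomial (Fin n) ℤ → F`, `X_j ↦ θ j`. -/

set_option autoImplicit false
open Polynomial

namespace Pool.Agent.LibHP

/-- the polynomial with the roots `∏_{j ∈ S} (c - X_j)` -/
private noncomputable def i1W (n d : ℕ) (c : ℤ) : (MvPolynomial (Fin n) ℤ)[X] :=
  ∏ S ∈ (Finset.univ : Finset (Fin n)).powersetCard d,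
    (X - C (∏ j ∈ S, ((c : MvPolynomial (Fin n) ℤ) - MvPolynomial.X j)))

/-- the coefficients of the universal polynomial -/
private noncomputable def i1e (n : ℕ) (i : ℕ) : MvPolynomial (Fin n) ℤ :=
  (∏ j : Fin n, (X - C (MvPolynomial.X j : MvPolynomial (Fin n) ℤ))).coeff i

private noncomputable def i1T (n : ℕ) : MvPolynomial (Fin n) ℤ →+* MvPolynomial (Fin n) ℤ :=
  MvPolynomial.eval₂Hom (Int.castRingHom (MvPolynomial (Fin n) ℤ)) (fun i : Fin n => i1e n i)

private theorem i1_monic (n d : ℕ) (c : ℤ) : (i1W n d c).Monic :=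
  monic_prod_of_monic _ _ fun _ _ => monic_X_sub_C _

private theorem i1_sym (n d : ℕ) (c : ℤ) (π : Equiv.Perm (Fin n)) :
    (i1W n d c).map (MvPolynomial.rename π : MvPolynomial (Fin n) ℤ →ₐ[ℤ]
      MvPolynomial (Fin n) ℤ).toRingHom = i1W n d c := by
  classical
  unfold i1W
  rw [Polynomial.map_prod]
  refine Finset.prod_nbij' (fun S => S.map π.toEmbedding) (fun S => S.map π.symm.toEmbedding)
    ?_ ?_ ?_ ?_ ?_
  · intro S hS
    rw [Finset.mem_powersetCard] at hS ⊢
    exact ⟨Finset.subset_univ _, by rw [Finset.card_map]; exact hS.2⟩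
  · intro S hS
    rw [Finset.mem_powersetCard] at hS ⊢
    exact ⟨Finset.subset_univ _, by rw [Finset.card_map]; exact hS.2⟩
  · intro S _
    simp [Finset.map_map]
  · intro S _
    simp [Finset.map_map]
  · intro S _
    rw [Polynomial.map_sub, map_X, map_C, Finset.prod_map, map_prod]
    congr 2
    refine Finset.prod_congr rfl fun j _ => ?_
    simp

private theorem i1_e (n k : ℕ) (hk : k ≤ n) :
    i1e n (n - k) = (-1) ^ k * MvPolynomial.esymm (Fin n) ℤ k := by
  have h1 : i1e n (n - k) = ((Multiset.map (fun t => X - C t)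
      (Multiset.map (fun j : Fin n => (MvPolynomial.X j : MvPolynomial (Fin n) ℤ))
        Finset.univ.val)).prod).coeff (n - k) := by
    rw [Multiset.map_map]
    rfl
  have hc : (Multiset.map (fun j : Fin n => (MvPolynomial.X j : MvPolynomial (Fin n) ℤ))
        Finset.univ.val).card = n := by
    simp
  rw [h1, Multiset.prod_X_sub_C_coeff _ (by rw [hc]; omega), hc]
  have h2 : n - (n - k) = k := by omega
  rw [h2]
  congr 1
  rw [← MvPolynomial.aeval_esymm_eq_multiset_esymm (Fin n) ℤ]
  exact MvPolynomial.aeval_X_left_apply _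

private theorem i1_surj (n : ℕ) (f : MvPolynomial (Fin n) ℤ) (hf : f.IsSymmetric) :
    ∃ g, i1T n g = f := by
  obtain ⟨g, hg⟩ := MvPolynomial.esymmAlgHom_fin_surjective ℤ (le_refl n) ⟨f, hf⟩
  have hg' : MvPolynomial.aeval (fun i : Fin n => MvPolynomial.esymm (Fin n) ℤ (i + 1)) g = f := by
    have h1 := congrArg Subtype.val hg
    rw [MvPolynomial.esymmAlgHom_apply] at h1
    exact h1
  refine ⟨MvPolynomial.aeval (fun i : Fin n => (-1) ^ ((i : ℕ) + 1) *
    MvPolynomial.X (⟨n - (i + 1), by have := i.2; omega⟩ : Fin n)) g, ?_⟩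
  rw [← hg']
  have h2 : ((i1T n).comp (MvPolynomial.aeval (R := ℤ) (fun i : Fin n => (-1) ^ ((i : ℕ) + 1) *
      MvPolynomial.X (R := ℤ) (⟨n - (i + 1), by have := i.2; omega⟩ : Fin n)) :
        MvPolynomial (Fin n) ℤ →ₐ[ℤ] MvPolynomial (Fin n) ℤ).toRingHom) =
      (MvPolynomial.aeval (R := ℤ) (fun i : Fin n => MvPolynomial.esymm (Fin n) ℤ (i + 1)) :
        MvPolynomial (Fin n) ℤ →ₐ[ℤ] MvPolynomial (Fin n) ℤ).toRingHom := by
    refine MvPolynomial.ringHom_ext (fun r => ?_) fun i => ?_
    · simp [i1T]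
    · have h3 := i1_e n (i + 1) i.2
      have h4 : i1T n (MvPolynomial.X (⟨n - (i + 1), by have := i.2; omega⟩ : Fin n)) =
          i1e n (n - (i + 1)) := by
        simp [i1T]
      simp only [RingHom.coe_comp, Function.comp_apply, AlgHom.toRingHom_eq_coe, RingHom.coe_coe,
        MvPolynomial.aeval_X, map_mul, map_pow, map_neg, map_one]
      rw [h4, h3, ← mul_assoc, ← mul_pow]
      simp
  exact congrArg (fun F => F g) h2

theorem W_IR1 (n d : ℕ) (c : ℤ) : ∃ U : (MvPolynomial (Fin n) ℤ)[X], IsRes n d c U := by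
  classical
  have hl : i1W n d c ∈ lifts (i1T n) := by
    rw [lifts_iff_coeff_lifts]
    intro k
    obtain ⟨g, hg⟩ := i1_surj n ((i1W n d c).coeff k) (fun π => by
      have h1 := congrArg (fun P => P.coeff k) (i1_sym n d c π)
      rw [coeff_map] at h1
      exact h1)
    exact ⟨g, hg⟩
  obtain ⟨U, hU, -, hUm⟩ := lifts_and_natDegree_eq_and_monic hl (i1_monic n d c)
  refine ⟨U, hUm, fun F _ θ => ?_⟩
  have h1 : (MvPolynomial.eval₂Hom (Int.castRingHom F)
      (fun i : Fin n => (∏ j, (X - C (θ j))).coeff i)) =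
      (MvPolynomial.eval₂Hom (Int.castRingHom F) θ).comp (i1T n) := by
    refine MvPolynomial.ringHom_ext (fun r => ?_) fun i => ?_
    · simp [i1T]
    · simp only [i1T, RingHom.coe_comp, Function.comp_apply, MvPolynomial.eval₂Hom_X']
      unfold i1e
      rw [← coeff_map, Polynomial.map_prod]
      congr 1
      refine Finset.prod_congr rfl fun j _ => ?_
      simp
  rw [h1, ← Polynomial.map_map, hU]
  unfold i1W
  rw [Polynomial.map_prod]
  refine Finset.prod_congr rfl fun S _ => ?_
  rw [Polynomial.map_sub, map_X, map_C, map_prod]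
  congr 2
  refine Finset.prod_congr rfl fun j _ => ?_
  rw [map_sub, map_intCast, MvPolynomial.eval₂Hom_X']

end Pool.Agent.LibHP
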