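import Mathlib

/-! # Row I2: resolvents of irreducible polynomials have no roots

Plan. `Q_S := ∏_{j ∈ S} (X - C (θ j))`. The `θ j` are distinct (`p` separable: characteristic zero,
irreducible). `B` := the integers `c` with `Q_S (c) = Q_{S'} (c)` for some `S ≠ S'` (a finite set: `Q_S ≠ Q_{S'}`,
finitely many roots, `ℤ → Ω` injective). Let `c ∉ B`, `z ∈ E` with `z = ∏_{j ∈ S} (c - θ j) = Q_S (c)`. Each
`σ ∈ Aut (Ω / E)` permutes the roots of `p`, `σ θ_j = θ_{s j}`, and `Q_{s S} (c) = σ (Q_S (c)) = z = Q_S (c)`,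
so `s S = S`. `Aut (Ω / E)` acts transitively on the roots of the irreducible `p` (`minpoly` and normality of
`Ω / E`: `Normal.exists_algEquiv...`/`IsConjRoot`), so `S = ∅` or `S = univ`, against
`0 < d < n`. -/

set_option autoImplicit false
open Polynomial

namespace Pool.Agent.LibHP

theorem W_IR2 (E Ω : Type) [Field E] [CharZero E] [Field Ω] [IsAlgClosed Ω] [Algebra E Ω]
    [Algebra.IsAlgebraic E Ω] (n : ℕ) (p : E[X]) (hp : Irreducible p) (θ : Fin n → Ω)
    (hθ : p.map (algebraMap E Ω) = ∏ j, (X - C (θ j))) (d : ℕ) (hd0 : 0 < d) (hdn : d < n) :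
    ∃ B : Finset ℤ, ∀ c : ℤ, c ∉ B → ∀ z : E, ∀ S : Finset (Fin n), S.card = d →
      algebraMap E Ω z ≠ ∏ j ∈ S, ((c : Ω) - θ j) := by
  classical
  have hpm : p.Monic := by
    refine monic_of_injective (algebraMap E Ω).injective ?_
    rw [hθ]
    exact monic_prod_of_monic _ _ fun j _ => monic_X_sub_C (θ j)
  have hinj : Function.Injective θ := by
    have h1 : (p.map (algebraMap E Ω)).Separable := hp.separable.map
    rw [hθ] at h1
    exact separable_prod_X_sub_C_iff.1 h1
  have hroot : ∀ j, aeval (θ j) p = 0 := by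
    intro j
    rw [← eval_map_algebraMap, hθ, eval_prod]
    exact Finset.prod_eq_zero (Finset.mem_univ j) (by simp)
  have hrootc : ∀ x : Ω, aeval x p = 0 → ∃ k, x = θ k := by
    intro x hx
    rw [← eval_map_algebraMap, hθ, eval_prod, Finset.prod_eq_zero_iff] at hx
    obtain ⟨k, _, hk⟩ := hx
    refine ⟨k, ?_⟩
    rw [eval_sub, eval_X, eval_C, sub_eq_zero] at hk
    exact hk
  set Q : Finset (Fin n) → Polynomial Ω := fun S => ∏ j ∈ S, (X - C (θ j)) with hQ
  have hQe : ∀ (S : Finset (Fin n)) (x : Ω), (Q S).eval x = ∏ j ∈ S, (x - θ j) := by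
    intro S x
    simp only [hQ, eval_prod, eval_sub, eval_X, eval_C]
  have hQne : ∀ S S' : Finset (Fin n), S ≠ S' → Q S ≠ Q S' := by
    have key : ∀ S S' : Finset (Fin n), Q S = Q S' → S ⊆ S' := by
      intro S S' h j hj
      have h1 : (Q S).eval (θ j) = 0 := by
        rw [hQe]
        exact Finset.prod_eq_zero hj (sub_self _)
      rw [h, hQe, Finset.prod_eq_zero_iff] at h1
      obtain ⟨k, hk, hk2⟩ := h1
      have := hinj (sub_eq_zero.1 hk2)
      rwa [this]
    intro S S' h h2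
    exact h (Finset.Subset.antisymm (key S S' h2) (key S' S h2.symm))
  have hfin : {c : ℤ | ∃ S S' : Finset (Fin n), S ≠ S' ∧ (Q S).eval (c : Ω) = (Q S').eval (c : Ω)}.Finite := by
    have h1 : {c : ℤ | ∃ S S' : Finset (Fin n), S ≠ S' ∧ (Q S).eval (c : Ω) = (Q S').eval (c : Ω)} ⊆
        ⋃ q : Finset (Fin n) × Finset (Fin n), {c : ℤ | q.1 ≠ q.2 ∧ (Q q.1).eval (c : Ω) = (Q q.2).eval (c : Ω)} := by
      rintro c ⟨S, S', h⟩
      exact Set.mem_iUnion.2 ⟨(S, S'), h⟩
    refine Set.Finite.subset (Set.finite_iUnion fun q => ?_) h1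
    by_cases hq : q.1 = q.2
    · refine Set.Finite.subset Set.finite_empty ?_
      rintro c ⟨h, _⟩
      exact h hq
    · have h2 : Q q.1 - Q q.2 ≠ 0 := sub_ne_zero.2 (hQne _ _ hq)
      have h3 : ((Q q.1 - Q q.2).roots.toFinset : Set Ω).Finite := Finset.finite_toSet _
      have : CharZero Ω := charZero_of_injective_algebraMap (algebraMap E Ω).injective
      have h4 : Function.Injective (fun c : ℤ => (c : Ω)) := Int.cast_injective
      refine Set.Finite.subset (h3.preimage (f := fun c : ℤ => (c : Ω)) h4.injOn) ?_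
      rintro c ⟨_, hc⟩
      simp only [Set.mem_preimage, Finset.mem_coe, Multiset.mem_toFinset]
      rw [mem_roots h2, IsRoot.def, eval_sub, hc, sub_self]
  refine ⟨hfin.toFinset, fun c hc z S hS hz => ?_⟩
  have hc' : ∀ S S' : Finset (Fin n), (Q S).eval (c : Ω) = (Q S').eval (c : Ω) → S = S' := by
    intro S₁ S₂ h
    by_contra hne
    exact hc (hfin.mem_toFinset.2 ⟨S₁, S₂, hne, h⟩)
  obtain ⟨j0, hj0⟩ : S.Nonempty := by
    rw [← Finset.card_pos]
    omega
  obtain ⟨j1, hj1⟩ : ∃ j, j ∉ S := by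
    by_contra hcon
    push Not at hcon
    have h1 : S = Finset.univ := Finset.eq_univ_iff_forall.2 hcon
    rw [h1, Finset.card_univ, Fintype.card_fin] at hS
    omega
  have hcl : IsAlgClosure E Ω := ⟨inferInstance, inferInstance⟩
  have hN : Normal E Ω := IsAlgClosure.normal E Ω
  obtain ⟨σ, hσ⟩ : ∃ σ : Ω ≃ₐ[E] Ω, σ (θ j0) = θ j1 := by
    refine (isConjRoot_iff_exists_algEquiv (K := E) (L := Ω) (x := θ j1) (y := θ j0)).1 ?_
    change minpoly E (θ j1) = minpoly E (θ j0)
    rw [← minpoly.eq_of_irreducible_of_monic hp (hroot j0) hpm,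
      ← minpoly.eq_of_irreducible_of_monic hp (hroot j1) hpm]
  have hs : ∀ j, ∃ k, σ (θ j) = θ k := by
    intro j
    refine hrootc _ ?_
    have h1 : aeval (σ (θ j)) p = σ (aeval (θ j) p) := by
      rw [← aeval_algHom_apply]
    rw [h1, hroot j, map_zero]
  choose s hs using hs
  have hsinj : Function.Injective s := by
    intro a b hab
    have h1 : σ (θ a) = σ (θ b) := by rw [hs, hs, hab]
    exact hinj (σ.injective h1)
  have h1 : (Q (S.image s)).eval (c : Ω) = (Q S).eval (c : Ω) := by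
    rw [hQe, hQe, Finset.prod_image fun a _ b _ h => hsinj h, ← hz]
    have h2 : σ (algebraMap E Ω z) = algebraMap E Ω z := σ.commutes z
    rw [← h2, hz, map_prod]
    refine Finset.prod_congr rfl fun j _ => ?_
    rw [map_sub, hs j, map_intCast]
  have h2 := hc' _ _ h1
  have h3 : s j0 = j1 := by
    refine hinj ?_
    rw [← hs j0, hσ]
  have h4 : s j0 ∈ S := by
    rw [← h2]
    exact Finset.mem_image_of_mem s hj0
  rw [h3] at h4
  exact hj1 h4

end Pool.Agent.LibHP
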