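import Mathlib

/-! # Row I3: the value of a factor is a root of the resolvent

SHORT. Plan. The roots of `Q` in `Ω` (with multiplicities) form a sub-multiset of the roots of `p`, which is
the multiset of the `θ j`. `Q.map = ∏ (X - root)` over its roots (`Ω` algebraically closed, `Q` monic).
Choose `S` with `S.val.map θ = roots of Q` (`Multiset.map` and sub-multisets: for `s ≤ m.map f` there is
`t ≤ m` with `t.map f = s`, `Multiset.exists_le_of_...`/`Multiset.le_map_iff`-like; `univ.val` has no
duplicates). Evaluate at `c`. -/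

set_option autoImplicit false
open Polynomial

namespace Pool.Agent.LibHP

private theorem I3_le {α β : Type} (f : α → β) (m : Multiset α) (s : Multiset β)
    (h : s ≤ m.map f) : ∃ t ≤ m, t.map f = s := by
  induction m using Quotient.inductionOn with
  | _ l =>
    induction s using Quotient.inductionOn with
    | _ l' =>
      have h1 : (l' : Multiset β) ≤ ((l.map f : List β) : Multiset β) := h
      rw [Multiset.coe_le] at h1
      obtain ⟨l2, hperm, hsub⟩ := h1
      obtain ⟨l3, h3, rfl⟩ := List.sublist_map_iff.1 hsub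
      exact ⟨(l3 : Multiset α), Multiset.coe_le.2 h3.subperm, Multiset.coe_eq_coe.2 hperm⟩

theorem W_IR3 (κ Ω : Type) [Field κ] [Field Ω] [IsAlgClosed Ω] [Algebra κ Ω] (p Q : κ[X])
    (hp : p.Monic) (hQ : Q.Monic) (hdvd : Q ∣ p) (n : ℕ) (θ : Fin n → Ω)
    (hθ : p.map (algebraMap κ Ω) = ∏ j, (X - C (θ j))) :
    ∃ S : Finset (Fin n), S.card = Q.natDegree ∧
      ∀ c : κ, algebraMap κ Ω (Q.eval c) = ∏ j ∈ S, (algebraMap κ Ω c - θ j) := by
  classical
  have hroots : (p.map (algebraMap κ Ω)).roots = (Finset.univ : Finset (Fin n)).val.map θ := by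
    rw [hθ]
    have h1 : (∏ j, (X - C (θ j)) : Polynomial Ω) =
        (((Finset.univ : Finset (Fin n)).val.map θ).map fun a => X - C a).prod := by
      rw [Multiset.map_map]
      rfl
    rw [h1, roots_multiset_prod_X_sub_C]
  have hle : (Q.map (algebraMap κ Ω)).roots ≤ (Finset.univ : Finset (Fin n)).val.map θ := by
    rw [← hroots]
    exact roots.le_of_dvd (hp.map _).ne_zero (Polynomial.map_dvd _ hdvd)
  obtain ⟨t, ht, htθ⟩ := I3_le θ _ _ hle
  have hsp : (Q.map (algebraMap κ Ω)).Splits := IsAlgClosed.splits _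
  refine ⟨⟨t, Multiset.nodup_of_le ht Finset.univ.nodup⟩, ?_, fun c => ?_⟩
  · show Multiset.card t = Q.natDegree
    rw [← hQ.natDegree_map (algebraMap κ Ω), hsp.natDegree_eq_card_roots, ← htθ,
      Multiset.card_map]
  · have h1 : algebraMap κ Ω (Q.eval c) = (Q.map (algebraMap κ Ω)).eval (algebraMap κ Ω c) := by
      rw [Polynomial.eval_map, Polynomial.eval₂_at_apply]
    rw [h1, hsp.eval_eq_prod_roots_of_monic (hQ.map _), ← htθ, Multiset.map_map]
    rfl

end Pool.Agent.LibHP
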