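import Pool.Agent.LibW64P.Defs

/-! # Row I5: the norm of a polynomial over `R[Y] / (h)`

Plan. `e := h.natDegree`, `M` the companion matrix of `h` (or the matrix of multiplication by the root in
the basis of `AdjoinRoot h`, `AdjoinRoot.powerBasis'`), `T = Σ_i T_i (Y) X ^ i`, and
`Tt := det (Σ_i X ^ i • T_i (M)) ∈ R[X]` (a determinant of an `e × e` matrix over `R[X]`; equivalently
`Algebra.norm R[X]` of `T` in `R[X][Y]/(h)`). Monic: the leading coefficient of `T` is `1`
(`Matrix.det` of `X ^ m • 1 +` lower terms; e.g. reduce to `Matrix.charpoly`-type lemmas, or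
`Polynomial.det` degree lemmas `Polynomial.leadingCoeff_det_X_one_add_C`-like; or choose `Tt` as the product
formula over a splitting ring: alternative: `Polynomial.resultant`). Value at `z` over an algebraically closed
`Ω`: `Tt (z) = det (q (M^σ))` with `q := Σ_i T_i^σ (Y) z ^ i ∈ Ω[Y]`; it is zero iff `q` and `h^σ` (the
minimal polynomial = characteristic polynomial of the companion matrix `M^σ`) have a common root:
`q (M)` is invertible iff `q` is coprime to `h^σ` (`Matrix.companion`/`IsCoprime`, Cayley-Hamilton for one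
direction; for the other, the vector `(1, a, ..., a ^ (e-1))` is an eigenvector of (the transpose
of) `M^σ` with eigenvalue `a` if `h^σ (a) = 0`). In the resultant version:
`Polynomial.resultant_eq_zero_iff`-like lemmas. -/

set_option autoImplicit false
open Polynomial

namespace Pool.Agent.LibHP

/-- The matrix of polynomials `Σ_i X ^ i • T_i (M)`. -/
private noncomputable def I5_N {R n : Type} [CommRing R] [Fintype n] [DecidableEq n] (M : Matrix n n R) :
    R[X][X] →+* Matrix n n R[X] :=
  ((matPolyEquiv (R := R) (n := n)).symm.toRingEquiv.toRingHom).comp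
    (mapRingHom (aeval M : R[X] →ₐ[R] Matrix n n R).toRingHom)

private lemma I5_coeff {R n : Type} [CommRing R] [Fintype n] [DecidableEq n] (M : Matrix n n R) (T : R[X][X])
    (i j : n) (k : ℕ) : (I5_N M T i j).coeff k = aeval M (T.coeff k) i j := by
  have h1 : matPolyEquiv (I5_N M T) = T.map (aeval M : R[X] →ₐ[R] Matrix n n R).toRingHom := by
    change matPolyEquiv (matPolyEquiv.symm _) = _
    rw [AlgEquiv.apply_symm_apply]
    rfl
  rw [← matPolyEquiv_coeff_apply, h1, coeff_map]
  rfl

private lemma I5_monic {R n : Type} [CommRing R] [Fintype n] [DecidableEq n] (M : Matrix n n R) (T : R[X][X])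
    (hT : T.Monic) : (I5_N M T).det.Monic := by
  have hdeg : ∀ i j, (I5_N M T i j).natDegree ≤ T.natDegree := by
    intro i j
    rw [natDegree_le_iff_coeff_eq_zero]
    intro k hk
    rw [I5_coeff, coeff_eq_zero_of_natDegree_lt hk, map_zero]
    rfl
  have hprod : ∀ σ : Equiv.Perm n, (∏ i, I5_N M T (σ i) i).natDegree ≤ Fintype.card n * T.natDegree := by
    intro σ
    refine (natDegree_prod_le _ _).trans ?_
    refine (Finset.sum_le_sum (fun i _ => hdeg (σ i) i)).trans ?_
    rw [Finset.sum_const, smul_eq_mul, Finset.card_univ]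
  refine monic_of_natDegree_le_of_coeff_eq_one (Fintype.card n * T.natDegree) ?_ ?_
  · rw [Matrix.det_apply]
    refine natDegree_sum_le_of_forall_le _ _ ?_
    intro σ _
    exact (natDegree_smul_le _ _).trans (hprod σ)
  · rw [Matrix.det_apply, finsetSum_coeff]
    have h1 : ∀ σ : Equiv.Perm n, (Equiv.Perm.sign σ • ∏ i, I5_N M T (σ i) i).coeff (Fintype.card n * T.natDegree) =
        Equiv.Perm.sign σ • ∏ i, (1 : Matrix n n R) (σ i) i := by
      intro σ
      rw [coeff_smul]
      congr 1
      rw [← Finset.card_univ, coeff_prod_of_natDegree_le _ _ _ (fun i _ => hdeg (σ i) i)]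
      refine Finset.prod_congr rfl fun i _ => ?_
      rw [I5_coeff, hT.coeff_natDegree, map_one]
    rw [Finset.sum_congr rfl (fun σ _ => h1 σ), ← Matrix.det_apply, Matrix.det_one]

/-- The polynomial in `Y` obtained by `X = z`. -/
private noncomputable def I5_q {R Ω : Type} [CommRing R] [CommRing Ω] (σ : R →+* Ω) (z : Ω) :
    R[X][X] →+* Polynomial Ω :=
  eval₂RingHom (mapRingHom σ) (C z)

private lemma I5_q_eval {R Ω : Type} [CommRing R] [CommRing Ω] (σ : R →+* Ω) (a z : Ω) (T : R[X][X]) :
    (I5_q σ z T).eval a = ev2 σ a z T := by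
  have h : (evalRingHom a).comp (I5_q σ z) = ev2 σ a z := by
    refine ringHom_ext' (ringHom_ext' ?_ ?_) ?_
    · ext r
      simp [I5_q, ev2]
    · simp [I5_q, ev2]
    · simp [I5_q, ev2]
  exact DFunLike.congr_fun h T

private lemma I5_val {R Ω n : Type} [CommRing R] [CommRing Ω] [Fintype n] [DecidableEq n] (M : Matrix n n R)
    (σ : R →+* Ω) (z : Ω) (T : R[X][X]) :
    (eval₂RingHom σ z).mapMatrix (I5_N M T) = aeval (σ.mapMatrix M) (I5_q σ z T) := by
  have h : ((eval₂RingHom σ z).mapMatrix (m := n)).comp (I5_N M) =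
      ((aeval (σ.mapMatrix M) : Polynomial Ω →ₐ[Ω] Matrix n n Ω) : Polynomial Ω →+* Matrix n n Ω).comp (I5_q σ z) := by
    refine ringHom_ext' (ringHom_ext' ?_ ?_) ?_
    · refine RingHom.ext fun r => ?_
      ext i j
      have h1 : I5_N M (C (C r)) i j = C ((algebraMap R (Matrix n n R) r) i j) := by
        ext k
        rw [I5_coeff, coeff_C, coeff_C]
        by_cases hk : k = 0
        · rw [if_pos hk, if_pos hk, aeval_C]
        · rw [if_neg hk, if_neg hk, map_zero]
          rfl
      change eval₂ σ z (I5_N M (C (C r)) i j) = (aeval (σ.mapMatrix M) (I5_q σ z (C (C r)))) i j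
      rw [h1, eval₂_C]
      have h2 : I5_q σ z (C (C r)) = C (σ r) := by simp [I5_q]
      rw [h2, aeval_C]
      by_cases hij : i = j
      · simp [Matrix.algebraMap_matrix_apply, hij]
      · simp [Matrix.algebraMap_matrix_apply, hij]
    · ext i j
      have h1 : I5_N M (C X) i j = C (M i j) := by
        ext k
        rw [I5_coeff, coeff_C, coeff_C]
        by_cases hk : k = 0
        · rw [if_pos hk, if_pos hk, aeval_X]
        · rw [if_neg hk, if_neg hk, map_zero]
          rfl
      change eval₂ σ z (I5_N M (C X) i j) = (aeval (σ.mapMatrix M) (I5_q σ z (C X))) i j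
      rw [h1, eval₂_C]
      have h2 : I5_q σ z (C X) = X := by simp [I5_q]
      rw [h2, aeval_X]
      rfl
    · ext i j
      have h1 : I5_N M X i j = C ((1 : Matrix n n R) i j) * X := by
        ext k
        rw [I5_coeff, coeff_C_mul, coeff_X, coeff_X]
        by_cases hk : 1 = k
        · rw [if_pos hk, if_pos hk, map_one, mul_one]
        · rw [if_neg hk, if_neg hk, map_zero, mul_zero]
          rfl
      change eval₂ σ z (I5_N M X i j) = (aeval (σ.mapMatrix M) (I5_q σ z X)) i j
      rw [h1, eval₂_mul, eval₂_C, eval₂_X]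
      have h2 : I5_q σ z X = C z := by simp [I5_q]
      rw [h2, aeval_C]
      by_cases hij : i = j
      · subst hij
        simp [Matrix.algebraMap_matrix_apply]
      · simp [Matrix.algebraMap_matrix_apply, hij]
  exact DFunLike.congr_fun h T

private lemma I5_gen {R n : Type} [CommRing R] [Fintype n] [DecidableEq n] (M : Matrix n n R) (T : R[X][X])
    (Ω : Type) [Field Ω] [IsAlgClosed Ω] (σ : R →+* Ω) (z : Ω) :
    (I5_N M T).det.eval₂ σ z = 0 ↔ ∃ a : Ω, M.charpoly.eval₂ σ a = 0 ∧ ev2 σ a z T = 0 := by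
  have e1 : (I5_N M T).det.eval₂ σ z = (aeval (σ.mapMatrix M) (I5_q σ z T)).det := by
    rw [← I5_val, ← RingHom.map_det]
    rfl
  rw [e1]
  have hch : ∀ a : Ω, M.charpoly.eval₂ σ a = 0 ↔ a ∈ spectrum Ω (σ.mapMatrix M) := by
    intro a
    rw [Matrix.mem_spectrum_iff_isRoot_charpoly]
    have : (σ.mapMatrix M).charpoly = M.charpoly.map σ := by
      rw [RingHom.mapMatrix_apply, Matrix.charpoly_map]
    rw [this, IsRoot.def, eval_map]
  rcases isEmpty_or_nonempty n with hn | hn
  · rw [Matrix.det_isEmpty]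
    refine ⟨fun h => absurd h one_ne_zero, ?_⟩
    rintro ⟨a, ha, -⟩
    rw [Matrix.charpoly, Matrix.det_isEmpty, eval₂_one] at ha
    exact absurd ha one_ne_zero
  · have h0 : (aeval (σ.mapMatrix M) (I5_q σ z T)).det = 0 ↔
        (0 : Ω) ∈ spectrum Ω (aeval (σ.mapMatrix M) (I5_q σ z T)) := by
      rw [spectrum.zero_mem_iff, Matrix.isUnit_iff_isUnit_det, isUnit_iff_ne_zero, not_not]
    rw [h0, spectrum.map_polynomial_aeval_of_nonempty _ _
      (spectrum.nonempty_of_isAlgClosed_of_finiteDimensional Ω (σ.mapMatrix M))]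
    constructor
    · rintro ⟨a, ha, ha'⟩
      refine ⟨a, (hch a).mpr ha, ?_⟩
      rw [← I5_q_eval]
      exact ha'
    · rintro ⟨a, ha, ha'⟩
      refine ⟨a, (hch a).mp ha, ?_⟩
      rw [← I5_q_eval] at ha'
      exact ha'

private lemma I5_minpoly {R : Type} [CommRing R] [Nontrivial R] (h : R[X]) (hh : h.Monic) :
    h = minpoly R (AdjoinRoot.root h) := by
  refine minpoly.unique' R _ hh ?_ ?_
  · rw [AdjoinRoot.aeval_eq, AdjoinRoot.mk_self]
  · intro q hq
    by_cases h0 : aeval (AdjoinRoot.root h) q = 0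
    · left
      rw [AdjoinRoot.aeval_eq, AdjoinRoot.mk_eq_zero] at h0
      have h1 : q %ₘ h = q := (modByMonic_eq_self_iff hh).mpr hq
      rw [← h1]
      exact (modByMonic_eq_zero_iff_dvd hh).mpr h0
    · exact Or.inr h0

theorem W_IR5 (R : Type) [CommRing R] (h : R[X]) (hh : h.Monic) (T : R[X][X]) (hT : T.Monic) :
    ∃ Tt : R[X], Tt.Monic ∧ ∀ (Ω : Type) [Field Ω] [IsAlgClosed Ω] (σ : R →+* Ω) (z : Ω),
      Tt.eval₂ σ z = 0 ↔ ∃ a : Ω, h.eval₂ σ a = 0 ∧ ev2 σ a z T = 0 := by
  rcases subsingleton_or_nontrivial R with hR | hR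
  · refine ⟨1, monic_one, ?_⟩
    intro Ω _ _ σ z
    have h1 : (1 : Ω) = 0 := by
      rw [← map_one σ, Subsingleton.elim (1 : R) 0, map_zero]
    exact absurd h1 one_ne_zero
  · have pb := AdjoinRoot.powerBasis' hh
    obtain ⟨M, hM⟩ : ∃ M : Matrix (Fin (AdjoinRoot.powerBasis' hh).dim) (Fin (AdjoinRoot.powerBasis' hh).dim) R,
        M.charpoly = h := by
      refine ⟨Algebra.leftMulMatrix (AdjoinRoot.powerBasis' hh).basis (AdjoinRoot.powerBasis' hh).gen, ?_⟩
      rw [charpoly_leftMulMatrix, AdjoinRoot.powerBasis'_gen]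
      exact (I5_minpoly h hh).symm
    refine ⟨(I5_N M T).det, I5_monic M T hT, ?_⟩
    intro Ω _ _ σ z
    rw [I5_gen, hM]

end Pool.Agent.LibHP
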