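import Pool.Agent.LibW64P.Defs
import Pool.Agent.LibW64P.I0
import Pool.Agent.LibW64P.I1
import Pool.Agent.LibW64P.I2
import Pool.Agent.LibW64P.I3
import Pool.Agent.LibW64P.I5

/-! # Row I7: the resolvent of a tower

Plan. `n := T.G.natDegree`, `G' := T.G.map (mapRingHom val) : K[X][X]` (so that
`ev2 (algebraMap K N) α θ G' = 0`, by `T.hG0`), `AlgOver L α` from `T.hmin`, `T.hh` (coefficients in `A0 ⊆ L`).
For every `ι : N →ₐ[K] AlgebraicClosure K` (finitely many) let `θ_ι : Fin n → AlgebraicClosure K` be the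
roots of `G' (ι α, X)` (monic of degree `n` over an algebraically closed field). `W_IR0` and `W_IR2` (with
`E := geoF L`, `Ω := AlgebraicClosure K`, which is algebraic over `geoF L ⊇ K`) give finite sets `B_ι`; choose
`c ∉ ⋃ B_ι`. `W_IR1` gives `U` for `(n, d, c)`; `T2 := U.map (MvPolynomial.eval₂Hom (Int.castRingHom A[X])
(fun i => T.G.coeff i)) : A[X][X]`, monic. `W_IR5` with `R := A`, `h.map (A0 → A)`, `T2` gives `Tt`.
For `σ : A →+* Ω`, `a : Ω` with roots `θ : Fin n → Ω` of the monic polynomial `T.G.map (eval₂RingHom σ a)` of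
degree `n`: `ev2 σ a z T2 = ∏_S (z - ∏_{j ∈ S} (c - θ j))` (`IsRes` with `F := Ω`; the coefficients of
`T.G.map (eval₂RingHom σ a)` are the images of `T.G.coeff i`).
`NoConstRoot`: if `z ∈ geoF L` (this is the subfield in `NoConstRoot`) is a root of `Tt.map val`, then `W_IR5`
gives `a : AlgebraicClosure K`, a root of `h`, i.e. of `minpoly K α`, so `a = ι α` for some `ι`
(`IntermediateField.exists_algHom_adjoin_of_splits`-like, or `N / K` algebraic and lifting), and
`ev2 .. a z T2 = 0`, so `z = ∏_{j ∈ S} (c - θ_ι j)` for some `S` with `d` elements, against `W_IR2`.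
Last property: `Ω := AlgebraicClosure κ`, `σ := (algebraMap κ Ω).comp ψ`; `W_IR3` for
`Q ∣ p := T.G.map (eval₂RingHom ψ a)` gives `S` with `Q (c) = ∏_{j ∈ S} (c - θ j)`, so
`ev2 σ a (Q (c)) T2 = 0`, and `Tt.eval₂ σ (Q (c)) = 0` by `W_IR5`, so `Tt.eval₂ ψ (Q.eval c) = 0` by
injectivity of `κ → Ω`. -/

set_option autoImplicit false
open Polynomial

namespace Pool.Agent.LibHP

private theorem I7_roots {F : Type} [Field F] [IsAlgClosed F] (n : ℕ) (p : F[X]) (hp : p.Monic)
    (hn : p.natDegree = n) : ∃ θ : Fin n → F, p = ∏ j, (X - C (θ j)) := by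
  have h1 : (p.roots.map (fun a => X - C a)).prod = p := by
    have := (IsAlgClosed.splits p).eq_prod_roots_of_monic hp
    exact this.symm
  have h2 : Multiset.card p.roots = n := by
    rw [← hn]
    exact (IsAlgClosed.splits p).natDegree_eq_card_roots.symm
  obtain ⟨l, hl⟩ := Quot.exists_rep p.roots
  have hl' : p.roots = (l : Multiset F) := hl.symm
  rw [hl', Multiset.coe_card] at h2
  subst h2
  refine ⟨fun j => l.get j, ?_⟩
  rw [← h1, hl', Multiset.map_coe, Multiset.prod_coe]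
  rw [← List.prod_ofFn]
  congr 1
  conv_lhs => rw [← List.ofFn_get l, List.map_ofFn]
  rfl

private theorem I7_ev2_map {R R' S : Type} [CommRing R] [CommRing R'] [CommRing S] (f : R →+* R')
    (σ : R' →+* S) (y w : S) (G : R[X][X]) :
    ev2 σ y w (G.map (mapRingHom f)) = ev2 (σ.comp f) y w G := by
  unfold ev2
  simp only [coe_eval₂RingHom, eval₂_map]
  congr 1
  apply RingHom.ext
  intro q
  simp [eval₂_map]

private theorem I7_res {A F : Type} [CommRing A] [Field F] (n d : ℕ) (c : ℤ)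
    (U : (MvPolynomial (Fin n) ℤ)[X]) (hU : IsRes n d c U) (G : A[X][X]) (σ : A →+* F) (a : F)
    (θ : Fin n → F) (hθ : G.map (Polynomial.eval₂RingHom σ a) = ∏ j, (X - C (θ j))) (z : F) :
    ev2 σ a z (U.map (MvPolynomial.eval₂Hom (Int.castRingHom A[X]) (fun i : Fin n => G.coeff i))) =
      ∏ S ∈ (Finset.univ : Finset (Fin n)).powersetCard d, (z - ∏ j ∈ S, ((c : F) - θ j)) := by
  have h1 : (Polynomial.eval₂RingHom σ a).comp
      (MvPolynomial.eval₂Hom (Int.castRingHom A[X]) (fun i : Fin n => G.coeff i)) =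
      MvPolynomial.eval₂Hom (Int.castRingHom F)
        (fun i : Fin n => (∏ j, (X - C (θ j)) : F[X]).coeff i) := by
    apply MvPolynomial.ringHom_ext
    · intro r
      simp
    · intro i
      rw [RingHom.comp_apply, MvPolynomial.eval₂Hom_X', MvPolynomial.eval₂Hom_X', ← hθ, coeff_map]
  have h2 : ev2 σ a z (U.map (MvPolynomial.eval₂Hom (Int.castRingHom A[X])
      (fun i : Fin n => G.coeff i))) = eval z (U.map ((Polynomial.eval₂RingHom σ a).comp
      (MvPolynomial.eval₂Hom (Int.castRingHom A[X]) (fun i : Fin n => G.coeff i)))) := by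
    unfold ev2
    rw [coe_eval₂RingHom, eval₂_map, eval_map]
  rw [h2, h1, hU.2 F θ, eval_prod]
  apply Finset.prod_congr rfl
  intro S _
  rw [eval_sub, eval_X, eval_C]

theorem W_IR7 {k K N : Type} [Field k] [CharZero k] [Field K] [Algebra k K] [Field N] [Algebra K N]
    [FiniteDimensional K N] (L : Subfield K) (hcl : ClosedSub L) (A A0 : Subalgebra k K)
    (hle : A0 ≤ A) (hA0L : ∀ c ∈ A0, c ∈ L) (h : A0[X]) (α θ : N) (T : Tow A A0 h α θ)
    (hmax : ∀ β : N, AlgOver L (algebraMap K N) β →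
      β ∈ Subfield.closure (algebraMap K N '' (L : Set K) ∪ {α}))
    (hθ : IntermediateField.adjoin K {θ} = ⊤) (d : ℕ) (hd0 : 0 < d) (hdn : d < T.G.natDegree) :
    ∃ (c : ℤ) (Tt : A[X]), Tt.Monic ∧ NoConstRoot L (Tt.map (A.val : A →+* K)) ∧
      ∀ (κ : Type) [Field κ] (ψ : A →+* κ) (a : κ),
        h.eval₂ (ψ.comp (Subalgebra.inclusion hle : A0 →+* A)) a = 0 →
        ∀ Q : κ[X], Q.Monic → Q.natDegree = d →
          Q ∣ T.G.map (Polynomial.eval₂RingHom ψ a) → Tt.eval₂ ψ (Q.eval (c : κ)) = 0 := by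
  have hcharK : CharZero K := charZero_of_injective_algebraMap (algebraMap k K).injective
  obtain ⟨n, hn⟩ : ∃ n : ℕ, n = T.G.natDegree := ⟨_, rfl⟩
  rw [← hn] at hdn
  have hαL : AlgOver L (algebraMap K N) α := by
    refine ⟨h.map (A0.val : A0 →+* K), T.hh.map _, ?_, ?_⟩
    · intro i
      rw [coeff_map]
      exact hA0L _ (h.coeff i).2
    · rw [T.hmin]
      exact minpoly.aeval K α
  obtain ⟨G', hG'⟩ : ∃ G' : K[X][X], G' = T.G.map (mapRingHom (A.val : A →+* K)) := ⟨_, rfl⟩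
  have hG'm : G'.Monic := by rw [hG']; exact T.hG.map _
  have hG'd : G'.natDegree = n := by rw [hG', T.hG.natDegree_map, hn]
  have hmd : (minpoly K α).natDegree = h.natDegree := by rw [← T.hmin, T.hh.natDegree_map]
  have hrank : G'.natDegree * (minpoly K α).natDegree = Module.finrank K N := by
    rw [hG'd, hmd, hn, T.rank]
  have hG'0 : ev2 (algebraMap K N) α θ G' = 0 := by
    rw [hG', I7_ev2_map]
    exact T.hG0
  -- the closure
  have hK : ∀ x : K, algebraMap K (AlgebraicClosure K) x ∈ geoF L := fun x =>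
    Subfield.subset_closure (Or.inl ⟨x, rfl⟩)
  obtain ⟨e, he⟩ : ∃ e : K →+* geoF L, (geoF L).subtype.comp e = algebraMap K (AlgebraicClosure K) :=
    ⟨(algebraMap K (AlgebraicClosure K)).codRestrict (geoF L) hK, by ext x; rfl⟩
  have halg : Algebra.IsAlgebraic (geoF L) (AlgebraicClosure K) := by
    constructor
    intro x
    obtain ⟨p, hp0, hp⟩ := (AlgebraicClosure.isAlgebraic K).isAlgebraic x
    refine ⟨p.map e, ?_, ?_⟩
    · rwa [Ne, Polynomial.map_eq_zero_iff e.injective]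
    · rw [aeval_def, eval₂_map]
      have : (algebraMap (geoF L) (AlgebraicClosure K)).comp e = algebraMap K (AlgebraicClosure K) := he
      rw [this]
      exact hp
  have hcharE : CharZero (geoF L) := charZero_of_injective_ringHom e.injective
  have hι : ∀ ι : N →ₐ[K] AlgebraicClosure K, ∃ (θι : Fin n → AlgebraicClosure K) (B : Finset ℤ),
      G'.map (Polynomial.eval₂RingHom (algebraMap K (AlgebraicClosure K)) (ι α)) =
        ∏ j, (X - C (θι j)) ∧
      ∀ c : ℤ, c ∉ B → ∀ z : geoF L, ∀ S : Finset (Fin n), S.card = d →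
        (z : AlgebraicClosure K) ≠ ∏ j ∈ S, ((c : AlgebraicClosure K) - θι j) := by
    intro ι
    obtain ⟨p, hp1, hp2⟩ := W_IR0 L hcl α θ hαL hmax hθ G' hG'm hrank hG'0 ι
    obtain ⟨θι, hθι⟩ := I7_roots n (G'.map (Polynomial.eval₂RingHom
      (algebraMap K (AlgebraicClosure K)) (ι α))) (hG'm.map _) (by rw [hG'm.natDegree_map, hG'd])
    obtain ⟨B, hB⟩ := W_IR2 (geoF L) (AlgebraicClosure K) n p hp2 θι (by
      rw [← hθι, ← hp1]; rfl) d hd0 hdn
    exact ⟨θι, B, hθι, fun c hc z S hS => hB c hc z S hS⟩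
  choose θι B hθι hB using hι
  have hfin : Finite (N →ₐ[K] AlgebraicClosure K) := inferInstance
  cases nonempty_fintype (N →ₐ[K] AlgebraicClosure K)
  obtain ⟨c, hc⟩ := Infinite.exists_notMem_finset
    ((Finset.univ : Finset (N →ₐ[K] AlgebraicClosure K)).biUnion B)
  obtain ⟨U, hU⟩ := W_IR1 n d c
  obtain ⟨T2, hT2⟩ : ∃ T2 : A[X][X], T2 = U.map (MvPolynomial.eval₂Hom (Int.castRingHom A[X])
    (fun i : Fin n => T.G.coeff i)) := ⟨_, rfl⟩
  have hT2m : T2.Monic := by rw [hT2]; exact hU.1.map _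
  obtain ⟨h', hh'⟩ : ∃ h' : A[X], h' = h.map (Subalgebra.inclusion hle : A0 →+* A) := ⟨_, rfl⟩
  have hh'm : h'.Monic := by rw [hh']; exact T.hh.map _
  obtain ⟨Tt, hTtm, hTt⟩ := W_IR5 A h' hh'm T2 hT2m
  refine ⟨c, Tt, hTtm, ?_, ?_⟩
  · intro z hz hmem
    rw [eval₂_map] at hz
    obtain ⟨a, ha1, ha2⟩ := (hTt (AlgebraicClosure K) _ z).1 hz
    have ha3 : a ∈ (minpoly K α).rootSet (AlgebraicClosure K) := by
      rw [mem_rootSet_of_ne (minpoly.ne_zero (Algebra.IsIntegral.isIntegral α)), aeval_def,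
        ← T.hmin, eval₂_map]
      rw [hh', eval₂_map] at ha1
      exact ha1
    rw [← Algebra.IsAlgebraic.range_eval_eq_rootSet_minpoly] at ha3
    obtain ⟨ι, hι⟩ := ha3
    simp only at hι
    have h1 : T.G.map (Polynomial.eval₂RingHom ((algebraMap K (AlgebraicClosure K)).comp
        (A.val : A →+* K)) a) = ∏ j, (X - C (θι ι j)) := by
      rw [← hθι ι, hG', Polynomial.map_map, hι]
      congr 1
      apply RingHom.ext
      intro q
      simp [eval₂_map]
    rw [hT2, I7_res n d c U hU T.G _ a (θι ι) h1 z, Finset.prod_eq_zero_iff] at ha2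
    obtain ⟨S, hS, hSz⟩ := ha2
    rw [Finset.mem_powersetCard] at hS
    have hcι : c ∉ B ι := fun hcB => hc (Finset.mem_biUnion.2 ⟨ι, Finset.mem_univ _, hcB⟩)
    exact hB ι c hcι ⟨z, hmem⟩ S hS.2 (sub_eq_zero.1 hSz)
  · intro κ _ ψ a ha Q hQm hQd hQ
    obtain ⟨p, hp⟩ : ∃ p : κ[X], p = T.G.map (Polynomial.eval₂RingHom ψ a) := ⟨_, rfl⟩
    have hpm : p.Monic := by rw [hp]; exact T.hG.map _
    have hpd : p.natDegree = n := by rw [hp, T.hG.natDegree_map, hn]
    obtain ⟨θ', hθ'⟩ := I7_roots n (p.map (algebraMap κ (AlgebraicClosure κ))) (hpm.map _)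
      (by rw [hpm.natDegree_map, hpd])
    rw [← hp] at hQ
    obtain ⟨S, hS1, hS2⟩ := W_IR3 κ (AlgebraicClosure κ) p Q hpm hQm hQ n θ' hθ'
    have h1 : T.G.map (Polynomial.eval₂RingHom ((algebraMap κ (AlgebraicClosure κ)).comp ψ)
        (algebraMap κ (AlgebraicClosure κ) a)) = ∏ j, (X - C (θ' j)) := by
      rw [← hθ', hp, Polynomial.map_map]
      congr 1
      apply RingHom.ext
      intro q
      simp only [coe_eval₂RingHom, RingHom.comp_apply]
      rw [hom_eval₂]
    have h2 : ev2 ((algebraMap κ (AlgebraicClosure κ)).comp ψ) (algebraMap κ (AlgebraicClosure κ) a)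
        (algebraMap κ (AlgebraicClosure κ) (Q.eval (c : κ))) T2 = 0 := by
      rw [hT2, I7_res n d c U hU T.G _ _ θ' h1]
      apply Finset.prod_eq_zero (i := S)
      · rw [Finset.mem_powersetCard]
        exact ⟨Finset.subset_univ _, by rw [hS1, hQd]⟩
      · rw [hS2, map_intCast, sub_self]
    have h3 : h'.eval₂ ((algebraMap κ (AlgebraicClosure κ)).comp ψ)
        (algebraMap κ (AlgebraicClosure κ) a) = 0 := by
      rw [hh', eval₂_map]
      have h4 : ((algebraMap κ (AlgebraicClosure κ)).comp ψ).comp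
          (Subalgebra.inclusion hle : A0 →+* A) = (algebraMap κ (AlgebraicClosure κ)).comp
          (ψ.comp (Subalgebra.inclusion hle : A0 →+* A)) := RingHom.comp_assoc _ _ _
      rw [h4, ← hom_eval₂, ha, map_zero]
    have h5 := (hTt (AlgebraicClosure κ) _ _).2 ⟨_, h3, h2⟩
    rw [← hom_eval₂] at h5
    exact (map_eq_zero (algebraMap κ (AlgebraicClosure κ))).1 h5

end Pool.Agent.LibHP
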