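import Pool.Agent.LibW64P.I6
import Pool.Agent.LibW64P.I7

/-! # Row IR: irreducibility on general fibres

SHORT/MEDIUM. Plan. For every `0 < d < T.G.natDegree` take `c_d, Tt_d` from `W_IR7` and `ρ_d` from
`W_IR6` for `Tt_d`; `ρ := ∏ ρ_d`. Given `φ` with `φ ρ ≠ 0`, the fibre and a root `a` of `h^φ0`:
`ψ c = ψ (algebraMap k A (φ0 c))` for `c ∈ A0` (as `c - φ0 (c) ∈ fibI`, `IsFib.ker`), so `h.eval₂ .. = 0` at
`ψ (algebraMap k A a)`. If the monic polynomial `g := T.G.map (eval₂RingHom ψ _)`, of degree `T.G.natDegree ≥ 1`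
(`T.rank`, `finrank K N > 0`), is not irreducible, it has a monic divisor `Q` with
`0 < Q.natDegree < g.natDegree` (`Polynomial.Monic.irreducible_iff_natDegree'`), so
`Tt_d.eval₂ ψ (Q.eval c_d) = 0`, against `W_IR6`. -/

set_option autoImplicit false
open Polynomial

namespace Pool.Agent.LibHP

theorem W_IR {k K N : Type} [Field k] [CharZero k] [Field K] [Algebra k K] [Field N] [Algebra K N]
    [FiniteDimensional K N] (L : Subfield K) (hcl : ClosedSub L) (hne : ∃ c : K, c ∉ L)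
    (A A0 : Subalgebra k K) (hM : IsModel L A A0) (h : A0[X]) (α θ : N) (T : Tow A A0 h α θ)
    (hmax : ∀ β : N, AlgOver L (algebraMap K N) β →
      β ∈ Subfield.closure (algebraMap K N '' (L : Set K) ∪ {α}))
    (hθ : IntermediateField.adjoin K {θ} = ⊤) :
    ∃ ρ : A0, ρ ≠ 0 ∧ ∀ φ : A →ₐ[k] k, φ (Subalgebra.inclusion hM.le ρ) ≠ 0 →
      ∀ (κ : Type) [Field κ] (O : Subring K) (Ψ : O →+* κ) (ψ : A →+* κ),
        IsFib A A0 (φ.comp (Subalgebra.inclusion hM.le)) O Ψ ψ →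
        ∀ a : k, (h.map ((φ.comp (Subalgebra.inclusion hM.le) : A0 →ₐ[k] k) : A0 →+* k)).IsRoot a →
          Irreducible (T.G.map (Polynomial.eval₂RingHom ψ (ψ (algebraMap k A a)))) := by
  classical
  have hA0L : ∀ c ∈ A0, c ∈ L := fun c hc =>
    (hM.fracL c).2 ⟨c, 1, hc, A0.one_mem, one_ne_zero, mul_one c⟩
  have key : ∀ d : ℕ, ∃ ρ : A0, ρ ≠ 0 ∧ (0 < d → d < T.G.natDegree →
      ∀ φ : A →ₐ[k] k, φ (Subalgebra.inclusion hM.le ρ) ≠ 0 →
      ∀ (κ : Type) [Field κ] (O : Subring K) (Ψ : O →+* κ) (ψ : A →+* κ),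
        IsFib A A0 (φ.comp (Subalgebra.inclusion hM.le)) O Ψ ψ →
        ∀ b : κ, h.eval₂ (ψ.comp (Subalgebra.inclusion hM.le : A0 →+* A)) b = 0 →
        ∀ Q : κ[X], Q.Monic → Q.natDegree = d →
          Q ∣ T.G.map (Polynomial.eval₂RingHom ψ b) → False) := by
    intro d
    by_cases hd : 0 < d ∧ d < T.G.natDegree
    · obtain ⟨c, Tt, hTm, hTn, hT⟩ := W_IR7 L hcl A A0 hM.le hA0L h α θ T hmax hθ d hd.1 hd.2
      obtain ⟨ρ, hρ0, hρ⟩ := W_IR6 L hcl hne A A0 hM Tt hTm hTn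
      refine ⟨ρ, hρ0, fun _ _ φ hφ κ _ O Ψ ψ hF b hb Q hQm hQd hQ => ?_⟩
      exact hρ φ hφ κ O Ψ ψ hF _ (hT κ ψ b hb Q hQm hQd hQ)
    · exact ⟨1, one_ne_zero, fun h1 h2 => absurd ⟨h1, h2⟩ hd⟩
  choose ρ hρ0 hρ using key
  refine ⟨∏ d ∈ Finset.range T.G.natDegree, ρ d, Finset.prod_ne_zero_iff.2 fun d _ => hρ0 d, ?_⟩
  intro φ hφ κ _ O Ψ ψ hF a ha
  have hφd : ∀ d, d < T.G.natDegree → φ (Subalgebra.inclusion hM.le (ρ d)) ≠ 0 := by
    intro d hd h0
    apply hφ
    rw [map_prod, map_prod]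
    exact Finset.prod_eq_zero (Finset.mem_range.2 hd) h0
  have hcst : ψ.comp (Subalgebra.inclusion hM.le : A0 →+* A) =
      (ψ.comp (algebraMap k A)).comp
        ((φ.comp (Subalgebra.inclusion hM.le) : A0 →ₐ[k] k) : A0 →+* k) := by
    ext c
    have h1 : ψ (Subalgebra.inclusion hM.le c - algebraMap k A (φ (Subalgebra.inclusion hM.le c))) = 0 := by
      rw [hF.ker]
      refine Ideal.subset_span ⟨?_, ?_⟩
      · have h2 : ((Subalgebra.inclusion hM.le c - algebraMap k A (φ (Subalgebra.inclusion hM.le c)) : A) : K)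
            = (c : K) - algebraMap k K (φ (Subalgebra.inclusion hM.le c)) := rfl
        rw [h2]
        exact A0.sub_mem c.2 (A0.algebraMap_mem _)
      · have h3 : ∀ hh, (⟨((Subalgebra.inclusion hM.le c -
            algebraMap k A (φ (Subalgebra.inclusion hM.le c)) : A) : K), hh⟩ : A0)
            = c - algebraMap k A0 (φ (Subalgebra.inclusion hM.le c)) := fun _ => rfl
        rw [h3, map_sub, AlgHom.commutes]
        simp
    rw [map_sub, sub_eq_zero] at h1
    exact h1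
  have hev : h.eval₂ (ψ.comp (Subalgebra.inclusion hM.le : A0 →+* A)) (ψ (algebraMap k A a)) = 0 := by
    rw [hcst]
    have h4 : h.eval₂ ((φ.comp (Subalgebra.inclusion hM.le) : A0 →ₐ[k] k) : A0 →+* k) a = 0 := by
      rw [← Polynomial.eval_map]
      exact ha
    have h5 := Polynomial.hom_eval₂ h ((φ.comp (Subalgebra.inclusion hM.le) : A0 →ₐ[k] k) : A0 →+* k)
      (ψ.comp (algebraMap k A)) a
    rw [h4, map_zero] at h5
    exact h5.symm
  have hGm := T.hG.map (Polynomial.eval₂RingHom ψ (ψ (algebraMap k A a)))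
  have hnd : (T.G.map (Polynomial.eval₂RingHom ψ (ψ (algebraMap k A a)))).natDegree = T.G.natDegree :=
    T.hG.natDegree_map _
  have hpos : 0 < T.G.natDegree := by
    have h6 := T.rank
    have h7 : 0 < Module.finrank K N := Module.finrank_pos
    rw [← h6] at h7
    exact Nat.pos_of_mul_pos_right h7
  rw [hGm.irreducible_iff_natDegree']
  refine ⟨?_, ?_⟩
  · intro h1
    rw [h1, natDegree_one] at hnd
    omega
  · intro f g hf hg hfg hmem
    rw [hnd, Finset.mem_Ioc] at hmem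
    have hlt : g.natDegree < T.G.natDegree := by omega
    exact hρ g.natDegree hmem.1 hlt φ (hφd _ hlt) κ O Ψ ψ hF _ hev g hg rfl ⟨f, by rw [← hfg, mul_comm]⟩

end Pool.Agent.LibHP
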