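import Pool.Agent.LibW64P.Defs

/-! # Row RA: specialization of the cover

Plan. `ιA := (algebraMap K N).comp (A.val)`, `ψM := (algebraMap κ M).comp ψ`, injective `ιA`.
(i) If `p : A[X]`, `p.eval₂ ιA θ = 0`, then `P ∣ p` over `K` (`Z.hP`, `minpoly.dvd`), so over `A` (`Z.P`
monic: division with remainder), so `p.eval₂ ψM θM = 0` by `hroot`. (ii) `αM := Z.Q0.eval₂ ψM θM`. By (i)
for `h(Q0(X))` (`h` mapped to `A[X]`, `Polynomial.comp`): `h.eval₂ .. αM = 0`; for `c ∈ A0`,
`ψ c = ψ (algebraMap k A (φ0 c))` (`c - φ0 (c) ∈ fibI`, `IsFib.ker`), so `αM` is a root of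
`h.map φ0 : k[X]`; `hAK` gives `a`. (iii) For `H : A[X][X]` with `H (α, θ) = 0`: `p := H (Q0 (X), X) : A[X]`,
i.e. `p := H.eval₂ (eval₂RingHom C Q0) X`, has `p.eval₂ ιA θ = ev2 ιA α θ H = 0`, so
`p.eval₂ ψM θM = ev2 ψM αM θM H = 0`. -/

set_option autoImplicit false
open Polynomial

namespace Pool.Agent.LibHP

private theorem ra_sub {A S : Type} [CommRing A] [CommRing S] (τ : A →+* S) (w : S) (Q0 : A[X])
    (H : A[X][X]) :
    (H.eval₂ (Polynomial.eval₂RingHom C Q0) X).eval₂ τ w = ev2 τ (Q0.eval₂ τ w) w H := by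
  have h1 : (H.eval₂ (Polynomial.eval₂RingHom C Q0) X).eval₂ τ w =
      (Polynomial.eval₂RingHom τ w) (H.eval₂ (Polynomial.eval₂RingHom C Q0) X) := rfl
  rw [h1, Polynomial.hom_eval₂]
  have h2 : (Polynomial.eval₂RingHom τ w).comp (Polynomial.eval₂RingHom C Q0) =
      Polynomial.eval₂RingHom τ (Q0.eval₂ τ w) := by
    apply Polynomial.ringHom_ext
    · intro a
      simp
    · simp
  rw [h2]
  simp [ev2]

theorem W_RA {k K N κ M : Type} [Field k] [Field K] [Algebra k K] [Field N] [Algebra K N]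
    [Algebra k N] [Field κ] [Field M] [Algebra κ M] (A A1 A0 : Subalgebra k K) (hle : A0 ≤ A)
    (h : A0[X]) (α θ : N) (S : Spr A1 A0 N) (Z : Sta A A1 A0 h α θ S) (φ0 : A0 →ₐ[k] k)
    (O : Subring K) (Ψ : O →+* κ) (ψ : A →+* κ) (hfib : IsFib A A0 φ0 O Ψ ψ) (θM : M)
    (hroot : Z.P.eval₂ ((algebraMap κ M).comp ψ) θM = 0)
    (hAK : ∀ β : M, (h.map (φ0 : A0 →+* k)).eval₂
      ((algebraMap κ M).comp (ψ.comp (algebraMap k A))) β = 0 →
      ∃ a : k, (h.map (φ0 : A0 →+* k)).IsRoot a ∧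
        algebraMap κ M (ψ (algebraMap k A a)) = β) :
    ∃ a : k, (h.map (φ0 : A0 →+* k)).IsRoot a ∧
      ∀ H : A[X][X], ev2 ((algebraMap K N).comp (A.val : A →+* K)) α θ H = 0 →
        ev2 ((algebraMap κ M).comp ψ) (algebraMap κ M (ψ (algebraMap k A a))) θM H = 0 := by
  have key : ∀ p : A[X], p.eval₂ ((algebraMap K N).comp (A.val : A →+* K)) θ = 0 →
      p.eval₂ ((algebraMap κ M).comp ψ) θM = 0 := by
    intro p hp
    have h1 : aeval θ (p.map (A.val : A →+* K)) = 0 := by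
      rw [aeval_def, eval₂_map]
      exact hp
    have h2 : Z.P.map (A.val : A →+* K) ∣ p.map (A.val : A →+* K) := by
      rw [Z.hP]
      exact minpoly.dvd K θ h1
    have h3 : Z.P ∣ p := by
      rwa [Polynomial.map_dvd_map (A.val : A →+* K) Subtype.val_injective Z.hPm] at h2
    obtain ⟨q, rfl⟩ := h3
    rw [eval₂_mul, hroot, zero_mul]
  set αM : M := Z.Q0.eval₂ ((algebraMap κ M).comp ψ) θM with hαM
  have hc : ∀ c : A0, ψ (Subalgebra.inclusion hle c) = ψ (algebraMap k A (φ0 c)) := by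
    intro c
    have h1 : ψ (Subalgebra.inclusion hle c - algebraMap k A (φ0 c)) = 0 := by
      rw [hfib.ker]
      apply Ideal.subset_span
      refine ⟨?_, ?_⟩
      · exact A0.sub_mem c.2 (A0.algebraMap_mem (φ0 c))
      · have h2 : (⟨((Subalgebra.inclusion hle c - algebraMap k A (φ0 c) : A) : K),
            A0.sub_mem c.2 (A0.algebraMap_mem (φ0 c))⟩ : A0) = c - algebraMap k A0 (φ0 c) := by
          apply Subtype.ext
          rfl
        rw [h2, map_sub, AlgHom.commutes]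
        simp
    rwa [map_sub, sub_eq_zero] at h1
  have hroot2 : (h.map (φ0 : A0 →+* k)).eval₂
      ((algebraMap κ M).comp (ψ.comp (algebraMap k A))) αM = 0 := by
    have h1 := key ((h.map (Subalgebra.inclusion hle : A0 →+* A)).comp Z.Q0) (by
      rw [eval₂_comp, Z.hQ0, eval₂_map]
      have h2 : ((algebraMap K N).comp (A.val : A →+* K)).comp
          (Subalgebra.inclusion hle : A0 →+* A) = (algebraMap K N).comp (A0.val : A0 →+* K) := by
        ext x
        rfl
      rw [h2, ← eval₂_map, Z.T.hmin]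
      exact minpoly.aeval K α)
    rw [eval₂_comp, eval₂_map] at h1
    rw [eval₂_map]
    have h3 : ((algebraMap κ M).comp (ψ.comp (algebraMap k A))).comp (φ0 : A0 →+* k) =
        ((algebraMap κ M).comp ψ).comp (Subalgebra.inclusion hle : A0 →+* A) := by
      ext x
      simp only [RingHom.comp_apply]
      exact congrArg (algebraMap κ M) (hc x).symm
    rw [h3]
    exact h1
  obtain ⟨a, ha, haM⟩ := hAK αM hroot2
  refine ⟨a, ha, ?_⟩
  intro H hH
  rw [haM, hαM, ← ra_sub]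
  apply key
  rw [ra_sub, Z.hQ0]
  exact hH

end Pool.Agent.LibHP
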