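import Pool.Agent.LibW64P.Defs

/-! # Row KE: the kernel of the specialization of a tower

SHORT/MEDIUM. Plan. `g := G.map (eval₂RingHom ψ a)` is monic irreducible of degree `G.natDegree`, and
`aeval θM g = ev2 .. θM G = 0`, so `g = minpoly κ θM`. `H1 := H.map (eval₂RingHom ψ a)` has degree
`< G.natDegree` and root `θM`, so `H1 = 0`: for every `i`, `(H.coeff i)` maps to a polynomial over `κ` with
root `a`, so divisible by `X - C a`: `(H.coeff i).map ψ = (X - C a) * q_i`. Division with remainder by the
monic `h`: `h1 * H.coeff i = H'_i + h * Q_i`. Applying `ψ`: `H'_i.map ψ = h1.map ψ * (X - C a) * q_i -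
h.map ψ * Q_i.map ψ` is a multiple of `h.map ψ` of smaller degree, so zero. `H' := Σ C (H'_i) X ^ i`. The
degree of `h` is at least one, by `hfac` (`h.map ψ` is monic). -/

set_option autoImplicit false
open Polynomial

namespace Pool.Agent.LibHP

theorem W_KE {R κ M : Type} [CommRing R] [Field κ] [Field M] [Algebra κ M] (ψ : R →+* κ)
    (h h1 : R[X]) (hh : h.Monic) (a : κ) (hfac : h.map ψ = (X - C a) * h1.map ψ) (G : R[X][X])
    (hG : G.Monic) (hirr : Irreducible (G.map (Polynomial.eval₂RingHom ψ a))) (θM : M)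
    (hroot : ev2 ((algebraMap κ M).comp ψ) (algebraMap κ M a) θM G = 0) (H : R[X][X])
    (hHd : H.natDegree < G.natDegree)
    (h0 : ev2 ((algebraMap κ M).comp ψ) (algebraMap κ M a) θM H = 0) :
    ∃ H' Q : R[X][X], C h1 * H = H' + C h * Q ∧ (∀ i, (H'.coeff i).natDegree < h.natDegree) ∧
      H'.natDegree < G.natDegree ∧ ∀ i j, ψ ((H'.coeff i).coeff j) = 0 := by
  have hcomp : (algebraMap κ M).comp (Polynomial.eval₂RingHom ψ a) =
      Polynomial.eval₂RingHom ((algebraMap κ M).comp ψ) (algebraMap κ M a) := by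
    apply Polynomial.ringHom_ext
    · intro r
      simp
    · simp
  have hev : ∀ F : R[X][X], ev2 ((algebraMap κ M).comp ψ) (algebraMap κ M a) θM F =
      aeval θM (F.map (Polynomial.eval₂RingHom ψ a)) := by
    intro F
    rw [Polynomial.aeval_def, Polynomial.eval₂_map, hcomp]
    rfl
  have hGm : (G.map (Polynomial.eval₂RingHom ψ a)).Monic := hG.map _
  have hmin : G.map (Polynomial.eval₂RingHom ψ a) = minpoly κ θM :=
    minpoly.eq_of_irreducible_of_monic hirr (by rw [← hev, hroot]) hGm
  have hdeg : (G.map (Polynomial.eval₂RingHom ψ a)).natDegree = G.natDegree :=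
    hG.natDegree_map _
  have hH1 : H.map (Polynomial.eval₂RingHom ψ a) = 0 := by
    apply Polynomial.eq_zero_of_dvd_of_natDegree_lt (p := G.map (Polynomial.eval₂RingHom ψ a))
    · rw [hmin]
      exact minpoly.dvd κ θM (by rw [← hev, h0])
    · rw [hdeg]
      exact lt_of_le_of_lt Polynomial.natDegree_map_le hHd
  have hmonh : (h.map ψ).Monic := hh.map _
  have hdegh : 1 ≤ h.natDegree := by
    rw [← hh.natDegree_map ψ, hfac]
    have hne : h1.map ψ ≠ 0 := by
      intro h2
      rw [h2, mul_zero] at hfac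
      exact hmonh.ne_zero hfac
    rw [Polynomial.natDegree_mul (Polynomial.X_sub_C_ne_zero a) hne, Polynomial.natDegree_X_sub_C]
    omega
  have hh1 : h ≠ 1 := by
    rintro rfl
    simp at hdegh
  have hc : ∀ i, ((h1 * H.coeff i) %ₘ h).map ψ = 0 := by
    intro i
    rw [Polynomial.map_modByMonic _ hh, Polynomial.modByMonic_eq_zero_iff_dvd hmonh,
      Polynomial.map_mul]
    have h2 : (H.coeff i).eval₂ ψ a = 0 := by
      have h3 := congrArg (fun p : κ[X] => p.coeff i) hH1
      simp only [Polynomial.coeff_map, Polynomial.coeff_zero] at h3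
      exact h3
    have h3 : (X - C a) ∣ (H.coeff i).map ψ := by
      rw [Polynomial.dvd_iff_isRoot, Polynomial.IsRoot.def, Polynomial.eval_map, h2]
    obtain ⟨q, hq⟩ := h3
    exact ⟨q, by rw [hq, hfac]; ring⟩
  have hHc : ∀ i, G.natDegree ≤ i → H.coeff i = 0 := fun i hi =>
    Polynomial.coeff_eq_zero_of_natDegree_lt (lt_of_lt_of_le hHd hi)
  have hcoeff : ∀ (u : ℕ → R[X]), (∀ i, G.natDegree ≤ i → u i = 0) → ∀ i,
      (∑ j ∈ Finset.range G.natDegree, Polynomial.monomial j (u j)).coeff i = u i := by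
    intro u hu i
    rw [Polynomial.finsetSum_coeff]
    simp only [Polynomial.coeff_monomial]
    rw [Finset.sum_ite_eq']
    split_ifs with h2
    · rfl
    · rw [hu i (by simpa using h2)]
  have hA := hcoeff (fun i => (h1 * H.coeff i) %ₘ h) (fun i hi => by
    simp only [hHc i hi, mul_zero, Polynomial.zero_modByMonic])
  have hB := hcoeff (fun i => (h1 * H.coeff i) /ₘ h) (fun i hi => by
    simp only [hHc i hi, mul_zero, Polynomial.zero_divByMonic])
  refine ⟨∑ j ∈ Finset.range G.natDegree, Polynomial.monomial j ((h1 * H.coeff j) %ₘ h),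
    ∑ j ∈ Finset.range G.natDegree, Polynomial.monomial j ((h1 * H.coeff j) /ₘ h), ?_, ?_, ?_, ?_⟩
  · ext1 i
    rw [Polynomial.coeff_add, Polynomial.coeff_C_mul, Polynomial.coeff_C_mul, hA, hB]
    exact (Polynomial.modByMonic_add_div _ h).symm
  · intro i
    rw [hA]
    exact Polynomial.natDegree_modByMonic_lt _ hh hh1
  · have h2 : (∑ j ∈ Finset.range G.natDegree,
        Polynomial.monomial j ((h1 * H.coeff j) %ₘ h)).natDegree ≤ G.natDegree - 1 := by
      rw [Polynomial.natDegree_le_iff_coeff_eq_zero]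
      intro N hN
      rw [hA, hHc N (by omega), mul_zero, Polynomial.zero_modByMonic]
    omega
  · intro i j
    rw [hA]
    have h2 := congrArg (fun p : κ[X] => p.coeff j) (hc i)
    simp only [Polynomial.coeff_map, Polynomial.coeff_zero] at h2
    exact h2

end Pool.Agent.LibHP
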