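import Pool.Agent.LibW64P.Defs
import Pool.Agent.LibW64P.EX
import Pool.Agent.LibW64P.KE

/-! # Row RB: elements of the cover vanishing on the component

Plan. Notation: `ιA := (algebraMap K N).comp (A.val)`, `ψM := (algebraMap κ M).comp ψ`,
`aκ := ψ (algebraMap k A a)`, `h_A := h.map (Subalgebra.inclusion hle)`. `x := ev2 ιA α θ H ∈ S.C`.
1. WLOG `H.natDegree < T.G.natDegree`: divide by the monic `T.G`; `ev2 .. T.G = 0` in `N` (`T.hG0`) and in
`M` (`hΘ`).
2. `h^φ0 = (Y - a) h1'` in `k[Y]`, `h1'(a) ≠ 0` by `hsep`; `h1 := h1'.map (algebraMap k A)`. `h_A.map ψ =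
(h^φ0).map (ψ ∘ algebraMap k A)` (`ψ c = ψ (φ0 c)` for `c ∈ A0`, as `c - φ0 (c) ∈ fibI`), so `hfac` of `W_KE`
holds. `W_KE` (with `hirr`, `hroot` from `hΘ` applied to `T.G`): `C h1 * H = H' + C h_A * Q`, so in `N`:
`h1 (α) x = ev2 ιA α θ H'` (as `h (α) = 0` by `T.hmin`), the coefficients of `H'` being in `ker ψ`,
with bounded degrees.
3. `y := h1 (α) x ∈ S.C` (`α, x ∈ S.C`, `k ⊆ S.C`). `S.f.repr y l = Σ_{i, j} H'_ij * S.f.repr (α ^ j θ ^ i) l`,
by `Z.hco` in `A` and in the kernel of `ψ`; and it is in `A2 := locA A1 S.b` (`S.hC`), `A2 ≤ A`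
(`Z.h1A`, `Z.hb`). `W_EX6` for `A1` (`ψ1 S.b ≠ 0`: `ψ` and `ψ1` are both restrictions of `Ψ` by `IsFib.comp`,
and `b⁻¹ ∈ A`): `IsFib A2 A0 φ0 O Ψ ψ2`, `ψ2 = ψ = Ψ` on `A2`. So `S.f.repr y l ∈ fibI A2 A0 φ0`.
4. `A2 → S.C` (`S.hC`: coordinates of `z · 1`), and `χ` kills the image of `fibI A2 A0 φ0` (generators `c ∈ A0`,
`φ0 c = 0`: `hχ0`). `f_l ∈ S.C` (`S.hC`), `y = Σ_l (repr y l) f_l`, so `χ y = 0`; `χ (h1 (α)) = h1' (a) ≠ 0`,
so `χ x = 0`. -/

set_option autoImplicit false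
open Polynomial

namespace Pool.Agent.LibHP

/-- Two reduction maps which are restrictions of the same map agree on common elements. -/
private theorem W_RB_eq {k K κ : Type} [Field k] [Field K] [Algebra k K] [Field κ] {A A1 A0 : Subalgebra k K}
    {φ0 : A0 →ₐ[k] k} {O : Subring K} {Ψ : O →+* κ} {ψ : A →+* κ} {ψ1 : A1 →+* κ}
    (h : IsFib A A0 φ0 O Ψ ψ) (h1 : IsFib A1 A0 φ0 O Ψ ψ1) (x : A) (y : A1)
    (hxy : (x : K) = y) : ψ x = ψ1 y := by
  obtain ⟨hx, hx'⟩ := h.comp x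
  obtain ⟨hy, hy'⟩ := h1.comp y
  rw [← hx', ← hy']
  congr 1
  exact Subtype.ext hxy

/-- A function with an inverse in `A` does not reduce to zero. -/
private theorem W_RB_ne {k K κ : Type} [Field k] [Field K] [Algebra k K] [Field κ] {A A1 A0 : Subalgebra k K}
    {φ0 : A0 →ₐ[k] k} {O : Subring K} {Ψ : O →+* κ} {ψ : A →+* κ} {ψ1 : A1 →+* κ}
    (h : IsFib A A0 φ0 O Ψ ψ) (h1 : IsFib A1 A0 φ0 O Ψ ψ1) (h1A : A1 ≤ A) (y : A1)
    (hy0 : y ≠ 0) (hy : ((y : K))⁻¹ ∈ A) : ψ1 y ≠ 0 := by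
  intro h0
  have hK : (y : K) ≠ 0 := fun hc => hy0 (Subtype.ext hc)
  have e1 : ψ (Subalgebra.inclusion h1A y) = ψ1 y := W_RB_eq h h1 _ _ rfl
  have e2 : (Subalgebra.inclusion h1A y) * (⟨((y : K))⁻¹, hy⟩ : A) = 1 := by
    apply Subtype.ext
    change (y : K) * ((y : K))⁻¹ = 1
    exact mul_inv_cancel₀ hK
  have e3 := congrArg ψ e2
  rw [map_mul, e1, h0, zero_mul, map_one] at e3
  exact zero_ne_one e3

/-- `locA A1 b ≤ A`. -/
private theorem W_RB_le {k K : Type} [Field k] [Field K] [Algebra k K] {A A1 : Subalgebra k K}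
    (h1A : A1 ≤ A) (b : A1) (hb0 : b ≠ 0) (hb : ((b : K))⁻¹ ∈ A) : locA A1 b ≤ A := by
  rintro x ⟨n, hn⟩
  have hK : (b : K) ≠ 0 := fun hc => hb0 (Subtype.ext hc)
  have h1 := A.mul_mem (h1A hn) (A.pow_mem hb n)
  have h2 : x * (b : K) ^ n * (((b : K))⁻¹) ^ n = x := by
    rw [mul_assoc, ← mul_pow, mul_inv_cancel₀ hK, one_pow, mul_one]
  rwa [h2] at h1

/-- Functions on the base reduce to their value at `φ0`. -/
private theorem W_RB_base {k K κ : Type} [Field k] [Field K] [Algebra k K] [Field κ]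
    {A A0 : Subalgebra k K} (hle : A0 ≤ A)
    {φ0 : A0 →ₐ[k] k} {O : Subring K} {Ψ : O →+* κ} {ψ : A →+* κ}
    (h : IsFib A A0 φ0 O Ψ ψ) (c : A0) :
    ψ (Subalgebra.inclusion hle c) = ψ (algebraMap k A (φ0 c)) := by
  have h1 : ψ (Subalgebra.inclusion hle c - algebraMap k A (φ0 c)) = 0 := by
    rw [h.ker]
    apply Ideal.subset_span
    refine ⟨?_, ?_⟩
    · change (c : K) - algebraMap k K (φ0 c) ∈ A0
      exact A0.sub_mem c.2 (A0.algebraMap_mem _)
    · have h2 : (⟨((Subalgebra.inclusion hle c - algebraMap k A (φ0 c) : A) : K),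
          A0.sub_mem c.2 (A0.algebraMap_mem _)⟩ : A0) = c - algebraMap k A0 (φ0 c) :=
        Subtype.ext rfl
      rw [h2, map_sub, AlgHom.commutes]
      simp
  rw [map_sub] at h1
  exact sub_eq_zero.1 h1

/-- The functions on the open set `b ≠ 0` are in `S.C`. -/
private theorem W_RB_incl {k K N : Type} [Field k] [Field K] [Algebra k K] [Field N] [Algebra K N]
    [Algebra k N] {A1 A0 : Subalgebra k K} (S : Spr A1 A0 N) (z : K) (hz : z ∈ locA A1 S.b) :
    algebraMap K N z ∈ S.C := by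
  rw [S.hC]
  intro i
  have h1 : algebraMap K N z = z • (1 : N) := by
    rw [Algebra.smul_def, mul_one]
  rw [h1, map_smul, Finsupp.smul_apply, smul_eq_mul]
  exact (locA A1 S.b).mul_mem hz ((S.hC 1).1 S.C.one_mem i)

/-- The basis is in `S.C`. -/
private theorem W_RB_basis {k K N : Type} [Field k] [Field K] [Algebra k K] [Field N] [Algebra K N]
    [Algebra k N] {A1 A0 : Subalgebra k K} (S : Spr A1 A0 N) (l : Fin S.n) : S.f l ∈ S.C := by
  rw [S.hC]
  intro i
  rw [Module.Basis.repr_self, Finsupp.single_apply]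
  split_ifs
  · exact (locA A1 S.b).one_mem
  · exact (locA A1 S.b).zero_mem

/-- Coordinates of the value of a polynomial with coefficients in the kernel of `ψ`. -/
private theorem W_RB_coord {k K N κ : Type} [Field k] [Field K] [Algebra k K] [Field N] [Algebra K N]
    [Algebra k N] [Field κ] (A : Subalgebra k K) (α θ : N) (n : ℕ)
    (f : Module.Basis (Fin n) K N) (ψ : A →+* κ) (m d : ℕ) (l : Fin n)
    (hco : ∀ i j : ℕ, i < m → j < d → f.repr (α ^ j * θ ^ i) l ∈ A) (H : A[X][X])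
    (hm : H.natDegree < m) (hd : ∀ i, (H.coeff i).natDegree < d)
    (hψ : ∀ i j, ψ ((H.coeff i).coeff j) = 0) :
    ∃ z : A, (z : K) = f.repr (ev2 ((algebraMap K N).comp (A.val : A →+* K)) α θ H) l ∧
      ψ z = 0 := by
  classical
  have hco' : ∀ i j : ℕ, ∃ c : A, i < m → j < d → (c : K) = f.repr (α ^ j * θ ^ i) l := by
    intro i j
    by_cases h1 : i < m
    · by_cases h2 : j < d
      · exact ⟨⟨_, hco i j h1 h2⟩, fun _ _ => rfl⟩
      · exact ⟨0, fun _ h => absurd h h2⟩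
    · exact ⟨0, fun h _ => absurd h h1⟩
  choose c hc using hco'
  refine ⟨∑ i ∈ Finset.range m, ∑ j ∈ Finset.range d, (H.coeff i).coeff j * c i j, ?_, ?_⟩
  · have e1 : ev2 ((algebraMap K N).comp (A.val : A →+* K)) α θ H =
        ∑ i ∈ Finset.range m, ∑ j ∈ Finset.range d,
          ((((H.coeff i).coeff j : A) : K)) • (α ^ j * θ ^ i) := by
      change Polynomial.eval₂ _ θ H = _
      rw [Polynomial.eval₂_eq_sum_range' _ hm]
      refine Finset.sum_congr rfl fun i _ => ?_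
      change Polynomial.eval₂ _ α (H.coeff i) * θ ^ i = _
      rw [Polynomial.eval₂_eq_sum_range' _ (hd i), Finset.sum_mul]
      refine Finset.sum_congr rfl fun j _ => ?_
      rw [Algebra.smul_def, mul_assoc]
      rfl
    rw [e1, map_sum, Finsupp.finsetSum_apply]
    push_cast
    refine Finset.sum_congr rfl fun i hi => ?_
    rw [map_sum, Finsupp.finsetSum_apply]
    refine Finset.sum_congr rfl fun j hj => ?_
    rw [map_smul, Finsupp.smul_apply, smul_eq_mul,
      hc i j (Finset.mem_range.1 hi) (Finset.mem_range.1 hj)]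
  · rw [map_sum]
    refine Finset.sum_eq_zero fun i _ => ?_
    rw [map_sum]
    refine Finset.sum_eq_zero fun j _ => ?_
    rw [map_mul, hψ, zero_mul]

theorem W_RB {k K N κ M : Type} [Field k] [Field K] [Algebra k K] [Field N] [Algebra K N]
    [Algebra k N] [IsScalarTower k K N] [Field κ] [Field M] [Algebra κ M]
    (A A1 A0 : Subalgebra k K) (hle : A0 ≤ A) (hle1 : A0 ≤ A1)
    (h : A0[X]) (α θ : N) (S : Spr A1 A0 N) (Z : Sta A A1 A0 h α θ S) (φ0 : A0 →ₐ[k] k)
    (O : Subring K) (Ψ : O →+* κ) (ψ : A →+* κ) (ψ1 : A1 →+* κ) (hfib : IsFib A A0 φ0 O Ψ ψ)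
    (hfib1 : IsFib A1 A0 φ0 O Ψ ψ1) (θM : M) (a : k) (ha : (h.map (φ0 : A0 →+* k)).IsRoot a)
    (hsep : (h.map (φ0 : A0 →+* k)).derivative.eval a ≠ 0)
    (hirr : Irreducible (Z.T.G.map (Polynomial.eval₂RingHom ψ (ψ (algebraMap k A a)))))
    (hΘ : ∀ H : A[X][X], ev2 ((algebraMap K N).comp (A.val : A →+* K)) α θ H = 0 →
      ev2 ((algebraMap κ M).comp ψ) (algebraMap κ M (ψ (algebraMap k A a))) θM H = 0)
    (χ : S.C →ₐ[k] AlgebraicClosure k)
    (hχ0 : ∀ (c : A0) (hc : algebraMap K N c ∈ S.C),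
      χ ⟨algebraMap K N c, hc⟩ = algebraMap k (AlgebraicClosure k) (φ0 c))
    (hχα : ∀ hα : α ∈ S.C, χ ⟨α, hα⟩ = algebraMap k (AlgebraicClosure k) a)
    (H : A[X][X]) (hx : ev2 ((algebraMap K N).comp (A.val : A →+* K)) α θ H ∈ S.C)
    (h0 : ev2 ((algebraMap κ M).comp ψ) (algebraMap κ M (ψ (algebraMap k A a))) θM H = 0) :
    χ ⟨ev2 ((algebraMap K N).comp (A.val : A →+* K)) α θ H, hx⟩ = 0 := by
  classical
  set E := ev2 ((algebraMap K N).comp (A.val : A →+* K)) α θ with hE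
  set F := ev2 ((algebraMap κ M).comp ψ) (algebraMap κ M (ψ (algebraMap k A a))) θM with hF
  have hGE : E Z.T.G = 0 := Z.T.hG0
  have hGF : F Z.T.G = 0 := hΘ _ hGE
  have hG1 : Z.T.G ≠ 1 := by
    intro hG
    rw [hG, Polynomial.map_one] at hirr
    exact hirr.not_isUnit isUnit_one
  -- division by the monic polynomial `G`
  set H2 := H %ₘ Z.T.G with hH2
  have hdiv : H2 + Z.T.G * (H /ₘ Z.T.G) = H := Polynomial.modByMonic_add_div H Z.T.G
  have hEH : E H = E H2 := by
    conv_lhs => rw [← hdiv]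
    rw [map_add, map_mul, hGE, zero_mul, add_zero]
  have hFH : F H2 = 0 := by
    have h2 : F H = F H2 := by
      conv_lhs => rw [← hdiv]
      rw [map_add, map_mul, hGF, zero_mul, add_zero]
    rw [← h2]
    exact h0
  have hH2d : H2.natDegree < Z.T.G.natDegree := Polynomial.natDegree_modByMonic_lt H Z.T.hG hG1
  -- the factorization of `h` at `φ0`
  obtain ⟨h1', hh1'⟩ := Polynomial.dvd_iff_isRoot.2 ha
  have hh1a : h1'.eval a ≠ 0 := by
    intro hc
    apply hsep
    rw [hh1', Polynomial.derivative_mul, Polynomial.derivative_sub, Polynomial.derivative_X,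
      Polynomial.derivative_C, sub_zero, one_mul, Polynomial.eval_add, Polynomial.eval_mul,
      Polynomial.eval_sub, Polynomial.eval_X, Polynomial.eval_C, sub_self, zero_mul, add_zero]
    exact hc
  have hfac : (h.map (Subalgebra.inclusion hle : A0 →+* A)).map ψ =
      (X - C (ψ (algebraMap k A a))) * (h1'.map (algebraMap k A)).map ψ := by
    have e1 : (h.map (Subalgebra.inclusion hle : A0 →+* A)).map ψ =
        (h.map (φ0 : A0 →+* k)).map (ψ.comp (algebraMap k A)) := by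
      rw [Polynomial.map_map, Polynomial.map_map]
      congr 1
      ext c
      exact W_RB_base hle hfib c
    rw [e1, hh1', Polynomial.map_mul, Polynomial.map_sub, Polynomial.map_X, Polynomial.map_C,
      Polynomial.map_map]
    rfl
  obtain ⟨H', Q, hHQ, hd, hm, hψ⟩ := W_KE ψ (h.map (Subalgebra.inclusion hle : A0 →+* A))
    (h1'.map (algebraMap k A)) (Z.T.hh.map _) (ψ (algebraMap k A a)) hfac Z.T.G Z.T.hG hirr θM
    hGF H2 hH2d hFH
  have hdeg : (h.map (Subalgebra.inclusion hle : A0 →+* A)).natDegree = h.natDegree :=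
    Z.T.hh.natDegree_map _
  -- the value of `h` at `α`
  have hhα : E (C (h.map (Subalgebra.inclusion hle : A0 →+* A))) = 0 := by
    have e1 : E (C (h.map (Subalgebra.inclusion hle : A0 →+* A))) =
        Polynomial.eval₂ ((algebraMap K N).comp (A.val : A →+* K)) α
          (h.map (Subalgebra.inclusion hle : A0 →+* A)) := by
      rw [hE]
      simp [ev2]
    rw [e1, Polynomial.eval₂_map]
    have e2 : Polynomial.eval₂ (algebraMap K N) α (h.map (A0.val : A0 →+* K)) = 0 := by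
      rw [Z.T.hmin]
      exact minpoly.aeval K α
    rw [Polynomial.eval₂_map] at e2
    exact e2
  -- the value of `h1` at `α`
  set αC : S.C := ⟨α, Z.hα⟩ with hαC
  set eC : S.C := Polynomial.aeval αC h1' with heC
  have he1 : E (C (h1'.map (algebraMap k A))) = (eC : N) := by
    have e1 : E (C (h1'.map (algebraMap k A))) =
        Polynomial.eval₂ ((algebraMap K N).comp (A.val : A →+* K)) α
          (h1'.map (algebraMap k A)) := by
      rw [hE]
      simp [ev2]
    rw [e1, Polynomial.eval₂_map]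
    have e2 : (eC : N) = S.C.val (Polynomial.aeval αC h1') := rfl
    rw [e2, ← Polynomial.aeval_algHom_apply]
    change _ = Polynomial.eval₂ (algebraMap k N) α h1'
    congr 1
    ext c
    change algebraMap K N (algebraMap k K c) = algebraMap k N c
    exact (IsScalarTower.algebraMap_apply k K N c).symm
  have hχe : χ eC ≠ 0 := by
    rw [heC, ← Polynomial.aeval_algHom_apply, hχα Z.hα, Polynomial.aeval_algebraMap_apply]
    intro hc
    apply hh1a
    exact (algebraMap k (AlgebraicClosure k)).injective (by rw [map_zero]; exact hc)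
  -- the element `y`
  set xC : S.C := ⟨E H, hx⟩ with hxC
  have hy : ((eC * xC : S.C) : N) = E H' := by
    change (eC : N) * E H = E H'
    rw [hEH, ← he1, ← map_mul, hHQ, map_add, map_mul, hhα, zero_mul, add_zero]
  -- the coordinates of `y`
  have hb0 : S.b ≠ 0 := by
    intro hc
    apply S.hb
    rw [hc]
    exact S.𝔭.zero_mem
  have hψ1b : ψ1 S.b ≠ 0 := W_RB_ne hfib hfib1 Z.h1A S.b hb0 Z.hb
  obtain ⟨ψ2, hψ2, hfib2⟩ := W_EX6 A1 A0 hle1 φ0 O Ψ ψ1 hfib1 S.b hψ1b
  have hmem : ∀ l, S.f.repr ((eC * xC : S.C) : N) l ∈ locA A1 S.b :=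
    (S.hC _).1 (eC * xC).2
  have hfibI : ∀ l, (⟨S.f.repr ((eC * xC : S.C) : N) l, hmem l⟩ : locA A1 S.b) ∈
      fibI (locA A1 S.b) A0 φ0 := by
    intro l
    obtain ⟨z, hz, hz0⟩ := W_RB_coord A α θ S.n S.f ψ Z.T.G.natDegree h.natDegree l
      (fun i j hi hj => Z.hco i j l hi hj) H' hm (fun i => by rw [← hdeg]; exact hd i) hψ
    rw [← hfib2.ker]
    have e1 : ψ z = ψ2 ⟨S.f.repr ((eC * xC : S.C) : N) l, hmem l⟩ := by
      apply W_RB_eq hfib hfib2
      rw [hz]
      change _ = S.f.repr ((eC * xC : S.C) : N) l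
      rw [hy]
    rw [← e1]
    exact hz0
  -- the map from `A2` to `S.C`
  let j : locA A1 S.b →+* S.C :=
    ((algebraMap K N).comp ((locA A1 S.b).val : locA A1 S.b →+* K)).codRestrict S.C
      (fun z => W_RB_incl S z z.2)
  have hjker : ∀ z ∈ fibI (locA A1 S.b) A0 φ0, χ (j z) = 0 := by
    have h1 : fibI (locA A1 S.b) A0 φ0 ≤ RingHom.ker ((χ : S.C →+* AlgebraicClosure k).comp j) := by
      rw [fibI, Ideal.span_le]
      rintro z ⟨hz, hz0⟩
      change χ (j z) = 0
      have h2 := hχ0 ⟨z, hz⟩ (W_RB_incl S z z.2)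
      rw [hz0, map_zero] at h2
      exact h2
    intro z hz
    exact h1 hz
  have hsum : (eC * xC : S.C) = ∑ l, j ⟨S.f.repr ((eC * xC : S.C) : N) l, hmem l⟩ *
      (⟨S.f l, W_RB_basis S l⟩ : S.C) := by
    apply Subtype.ext
    rw [AddSubmonoidClass.coe_finsetSum]
    conv_lhs => rw [← S.f.sum_repr ((eC * xC : S.C) : N)]
    refine Finset.sum_congr rfl fun l _ => ?_
    rw [Algebra.smul_def]
    rfl
  have hχy : χ (eC * xC) = 0 := by
    rw [hsum, map_sum]
    refine Finset.sum_eq_zero fun l _ => ?_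
    rw [map_mul, hjker _ (hfibI l), zero_mul]
  rw [map_mul] at hχy
  rcases mul_eq_zero.1 hχy with h3 | h3
  · exact absurd h3 hχe
  · exact h3

end Pool.Agent.LibHP
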