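import Mathlib

/-! # Row N3: etale algebras over reduced Noetherian rings are reduced

Plan. `R` is Noetherian and reduced, so it embeds in the product `F` of the finitely many residue fields
`(FractionRing (R ⧸ 𝔭))` at its minimal primes `𝔭` (`minimalPrimes.finite_of_isNoetherianRing`,
the intersection of the minimal primes is the nilradical). `S` is flat over `R`
(`Algebra.FormallyEtale`/`Algebra.Smooth` flatness: `Algebra.Etale` implies `Module.Flat R S`), so
`S = S ⊗ R → S ⊗ F = Π S ⊗ F_𝔭` is injective (finite product). Each `F_𝔭 ⊗[R] S` is etale over the field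
`F_𝔭`, so it is reduced (`Algebra.FormallyUnramified.isReduced_of_field`). -/

set_option autoImplicit false

namespace Pool.Agent.LibHP

open TensorProduct in
theorem W_N3 (R S : Type) [CommRing R] [IsNoetherianRing R] [IsReduced R] [CommRing S] [Algebra R S]
    [Algebra.Etale R S] : IsReduced S := by
  classical
  have hfin : Finite (minimalPrimes R) :=
    (minimalPrimes.finite_of_isNoetherianRing R).to_subtype
  have : Fintype (minimalPrimes R) := Fintype.ofFinite _
  have hpr : ∀ p : minimalPrimes R, (p : Ideal R).IsPrime := fun p =>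
    Ideal.IsMinimalPrime.isPrime p.2
  let F : minimalPrimes R → Type := fun p => FractionRing (R ⧸ (p : Ideal R))
  have hinj : Function.Injective (Algebra.linearMap R (∀ p, F p)) := by
    rw [injective_iff_map_eq_zero]
    intro r hr
    have h1 : ∀ p : minimalPrimes R, r ∈ (p : Ideal R) := by
      intro p
      have h2 : algebraMap R (F p) r = 0 := congrFun hr p
      have h3 : algebraMap R (F p) r =
          algebraMap (R ⧸ (p : Ideal R)) (F p) (algebraMap R (R ⧸ (p : Ideal R)) r) :=
        IsScalarTower.algebraMap_apply R (R ⧸ (p : Ideal R)) (F p) r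
      rw [h3] at h2
      have h4 : algebraMap R (R ⧸ (p : Ideal R)) r = 0 :=
        IsFractionRing.injective (R ⧸ (p : Ideal R)) (F p) (by rw [h2, map_zero])
      exact Ideal.Quotient.eq_zero_iff_mem.1 h4
    have h5 : r ∈ sInf (⊥ : Ideal R).minimalPrimes := by
      rw [Ideal.mem_sInf]
      intro I hI
      exact h1 ⟨I, hI⟩
    rw [Ideal.sInf_minimalPrimes] at h5
    have h6 : (⊥ : Ideal R).radical = ⊥ := nilradical_eq_zero R
    rw [h6] at h5
    exact h5
  have hfl : Function.Injective (LinearMap.lTensor S (Algebra.linearMap R (∀ p, F p))) :=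
    Module.Flat.lTensor_preserves_injective_linearMap _ hinj
  constructor
  intro x hx
  have h1 : ∀ p : minimalPrimes R, x ⊗ₜ[R] (1 : F p) = 0 := by
    intro p
    have : IsReduced (F p ⊗[R] S) :=
      Algebra.FormallyUnramified.isReduced_of_field (F p) (F p ⊗[R] S)
    have h2 : (1 : F p) ⊗ₜ[R] x = 0 := by
      have h3 : IsNilpotent ((Algebra.TensorProduct.includeRight : S →ₐ[R] F p ⊗[R] S) x) :=
        hx.map _
      exact h3.eq_zero
    have h4 := congrArg (TensorProduct.comm R (F p) S) h2
    rw [TensorProduct.comm_tmul, map_zero] at h4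
    exact h4
  have h2 : LinearMap.lTensor S (Algebra.linearMap R (∀ p, F p)) (x ⊗ₜ[R] (1 : R)) = 0 := by
    refine (TensorProduct.piRight R R S F).injective ?_
    rw [map_zero]
    funext p
    rw [LinearMap.lTensor_tmul, TensorProduct.piRight_apply, TensorProduct.piRightHom_tmul]
    have h3 : (Algebra.linearMap R (∀ p, F p)) 1 = 1 := by
      rw [Algebra.linearMap_apply, map_one]
    rw [h3]
    exact h1 p
  have h3 : x ⊗ₜ[R] (1 : R) = 0 := hfl (by rw [h2, map_zero])
  have h4 := congrArg (TensorProduct.rid R S) h3
  rw [TensorProduct.rid_tmul, one_smul, map_zero] at h4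
  exact h4

end Pool.Agent.LibHP
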