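import Mathlib
import Pool.Agent.LibW64P.N3

/-! # Row N6: an element whose square divides a reduced divisor is a unit

SHORT. Plan. `C ⧸ (π)` is the base change `(B ⧸ (π)) ⊗[B] C`, etale over the ring `B ⧸ (π)`, which is
reduced (`hred`) and Noetherian; so it is reduced (`W_N3`). `(ϖ c) ^ 2 = π c`, so the class of `ϖ c` in
`C ⧸ (π)` is nilpotent, so zero: `ϖ c = π y = ϖ ^ 2 c y`; `ϖ c ≠ 0` (as `π ≠ 0` in the domain `C`), so
`ϖ y = 1`. -/

set_option autoImplicit false

namespace Pool.Agent.LibHP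

open scoped TensorProduct

theorem W_N6 (B C : Type) [CommRing B] [IsNoetherianRing B] [CommRing C] [IsDomain C] [Algebra B C]
    [Algebra.Etale B C] (π : B)
    (hred : ∀ (x : B) (n : ℕ), x ^ n ∈ Ideal.span {π} → x ∈ Ideal.span {π})
    (ϖ c : C) (h : algebraMap B C π = ϖ ^ 2 * c) (h0 : algebraMap B C π ≠ 0) : IsUnit ϖ := by
  have hR : IsReduced (B ⧸ Ideal.span {π}) := by
    refine (Ideal.isRadical_iff_quotient_reduced _).1 fun x hx => ?_
    obtain ⟨n, hn⟩ := hx
    exact hred x n hn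
  have hT : IsReduced ((B ⧸ Ideal.span {π}) ⊗[B] C) := W_N3 (B ⧸ Ideal.span {π}) _
  let e : (C ⧸ (Ideal.span {π}).map (algebraMap B C)) ≃+* ((B ⧸ Ideal.span {π}) ⊗[B] C) :=
    (Algebra.TensorProduct.quotIdealMapEquivTensorQuot C (Ideal.span {π})).toRingEquiv.trans
      (Algebra.TensorProduct.comm B C (B ⧸ Ideal.span {π})).toRingEquiv
  have hQ : IsReduced (C ⧸ (Ideal.span {π}).map (algebraMap B C)) :=
    isReduced_of_injective e e.injective
  have hrad := (Ideal.isRadical_iff_quotient_reduced _).2 hQ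
  have hmem : ϖ * c ∈ (Ideal.span {π}).map (algebraMap B C) := by
    refine hrad ⟨2, ?_⟩
    rw [Ideal.map_span, Set.image_singleton, Ideal.mem_span_singleton]
    exact ⟨c, by rw [h]; ring⟩
  rw [Ideal.map_span, Set.image_singleton, Ideal.mem_span_singleton] at hmem
  obtain ⟨y, hy⟩ := hmem
  have h1 : ϖ * c ≠ 0 := by
    intro h2
    apply h0
    rw [h]
    calc ϖ ^ 2 * c = ϖ * (ϖ * c) := by ring
      _ = 0 := by rw [h2, mul_zero]
  have h3 : ϖ * c * (ϖ * y) = ϖ * c * 1 := by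
    rw [mul_one]
    conv_rhs => rw [hy, h]
    ring
  exact IsUnit.of_mul_eq_one y (mul_left_cancel₀ h1 h3)

end Pool.Agent.LibHP
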