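import Mathlib

/-! # Row N7: etale integral closures localize

Plan. `C1 := integralClosure B1 M`, `C2 := integralClosure B2 M`. `C1 → C2` (elements integral over `B1`
are integral over `B2`, `IsIntegral.tower_top`), and `C2` is the localization of `C1` at the powers of (the
image of) `b`: an element of `M` integral over `B2` is, after multiplication by a power of `b`, integral
over `B1` (`IsLocalization.Away`, `IsIntegral` clearing denominators: e.g.
`IsIntegral.exists_multiple_integral_of_isLocalization`). So `C2 = B2 ⊗[B1] C1` (`IsLocalization` and
pushout: `Algebra.IsPushout` of localizations) and `Algebra.Etale` is stable under base change; or: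
`Algebra.Etale B1 C1`, `Algebra.Etale C1 C2` (`Algebra.Etale.of_isLocalization_Away`), so
`Algebra.Etale B1 C2`, and then `Algebra.Etale B2 C2` since `B1 → B2` is an epimorphism / formally
unramified (`Algebra.FormallyEtale.of_restrictScalars`-like, finite presentation from
`Algebra.FinitePresentation.of_restrict_scalars_finitePresentation`). -/

set_option autoImplicit false

namespace Pool.Agent.LibHP

theorem W_N7 (B1 B2 M : Type) [CommRing B1] [CommRing B2] [Field M] [Algebra B1 B2] [Algebra B1 M]
    [Algebra B2 M] [IsScalarTower B1 B2 M] (b : B1) [IsLocalization.Away b B2]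
    (h : Algebra.Etale B1 (integralClosure B1 M)) :
    Algebra.Etale B2 (integralClosure B2 M) := by
  have hu : IsUnit (algebraMap B1 M b) := by
    rw [IsScalarTower.algebraMap_apply B1 B2 M]
    exact (IsLocalization.Away.algebraMap_isUnit b).map _
  have : IsLocalization.Away (algebraMap B1 M b) M :=
    IsLocalization.away_of_isUnit_of_bijective M hu Function.bijective_id
  let : Algebra (integralClosure B1 M) (integralClosure B2 M) :=
    ((algebraMap (integralClosure B1 M) M).codRestrict (integralClosure B2 M)
      fun x => IsIntegral.tower_top x.2).toAlgebra
  have h1 : IsScalarTower (integralClosure B1 M) (integralClosure B2 M) M :=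
    .of_algebraMap_eq fun _ => rfl
  have h2 : IsScalarTower B1 (integralClosure B1 M) (integralClosure B2 M) :=
    .of_algebraMap_eq fun x => Subtype.ext rfl
  have h3 : IsLocalization.Away (algebraMap B1 (integralClosure B1 M) b) (integralClosure B2 M) :=
    IsLocalization.Away.integralClosure (S := M) (Sf := M) (Rf := B2) b
  have h4 : IsLocalization
      (Algebra.algebraMapSubmonoid (integralClosure B1 M) (Submonoid.powers b))
      (integralClosure B2 M) := by
    convert! h3
    simp
  have h5 : Algebra.IsPushout B1 (integralClosure B1 M) B2 (integralClosure B2 M) :=
    Algebra.isPushout_of_isLocalization (Submonoid.powers b) B2 _ _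
  have h6 : Algebra.IsPushout B1 B2 (integralClosure B1 M) (integralClosure B2 M) := h5.symm
  exact Algebra.Etale.of_equiv
    (Algebra.IsPushout.equiv B1 B2 (integralClosure B1 M) (integralClosure B2 M))

end Pool.Agent.LibHP
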