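import Pool.Agent.LibW64P.Defs
import Pool.Agent.LibW64P.EX

/-! # Row RD: the divisor is reduced on the fibre

SHORT. Plan. `A2 := locA A1 S.b`. Multiply by powers of `b` (units in `A2`): write `x = x1 / b ^ r`,
`y = y1 / b ^ r` with `x1, y1 ∈ A1` and the same `r` large. From `ψ2 x ^ n = ψ2 π * ψ2 y` get
`ψ1 (b ^ s x1 ^ n - π b ^ t y1) = 0`, so `b ^ s x1 ^ n ∈ fibI A1 A0 φ0 ⊔ 𝔭`, so
`(b ^ s x1) ^ n ∈ fibI ⊔ 𝔭` (multiply by `b ^ (s n - s)`; the case `n = 0`: `1 ^ ..`, directly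
`b ^ s ∈ fibI ⊔ 𝔭` and use `x' := b ^ s x1` with exponent `1`), `hred`: `b ^ m x1 ∈ fibI ⊔ 𝔭`:
`b ^ m x1 = u + v`, `u ∈ fibI`, `v ∈ 𝔭`, `b ^ m' v = π w` (`S.hgen`). So
`ψ1 (b ^ (m + m') x1) = ψ1 (π w)`, and `y' := w / b ^ (m + m' + r)`. -/

set_option autoImplicit false
open Polynomial

namespace Pool.Agent.LibHP

theorem W_RD {k K N κ : Type} [Field k] [Field K] [Algebra k K] [Field N] [Algebra K N]
    [Algebra k N] [Field κ] (A1 A0 : Subalgebra k K) (S : Spr A1 A0 N) (φ0 : A0 →ₐ[k] k)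
    (O : Subring K) (Ψ : O →+* κ) (ψ1 : A1 →+* κ) (hfib1 : IsFib A1 A0 φ0 O Ψ ψ1)
    (hred : RedAt S φ0) (ψ2 : locA A1 S.b →+* κ)
    (hψ2 : ∀ c : A1, ψ2 (Subalgebra.inclusion (W_EX1 A1 S.b) c) = ψ1 c) (hb : ψ1 S.b ≠ 0)
    (x y : locA A1 S.b) (n : ℕ)
    (hxy : ψ2 x ^ n = ψ1 S.π * ψ2 y) : ∃ y' : locA A1 S.b, ψ2 x = ψ1 S.π * ψ2 y' := by
  have hb0 : (S.b : K) ≠ 0 := by
    intro h1
    apply hb
    have h2 : S.b = 0 := Subtype.ext h1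
    rw [h2, map_zero]
  -- clearing denominators
  have hclear : ∀ (z : locA A1 S.b) (z1 : A1) (r : ℕ), (z : K) * (S.b : K) ^ r = z1 →
      ψ2 z * ψ1 S.b ^ r = ψ1 z1 := by
    intro z z1 r hz
    rw [← hψ2, ← hψ2, ← map_pow, ← map_mul]
    congr 1
    apply Subtype.ext
    exact hz
  obtain ⟨r, hr⟩ := x.2
  obtain ⟨r', hr'⟩ := y.2
  have hx1 : (x : K) * (S.b : K) ^ (r + r') ∈ A1 := by
    rw [pow_add, ← mul_assoc]
    exact A1.mul_mem hr (A1.pow_mem S.b.2 _)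
  have hy1 : (y : K) * (S.b : K) ^ (r + r') ∈ A1 := by
    rw [add_comm, pow_add, ← mul_assoc]
    exact A1.mul_mem hr' (A1.pow_mem S.b.2 _)
  set R := r + r' with hR
  set x1 : A1 := ⟨_, hx1⟩ with hx1d
  set y1 : A1 := ⟨_, hy1⟩ with hy1d
  have hX : ψ2 x * ψ1 S.b ^ R = ψ1 x1 := hclear x x1 R rfl
  have hY : ψ2 y * ψ1 S.b ^ R = ψ1 y1 := hclear y y1 R rfl
  have h1 : S.b ^ R * x1 ^ n - S.π * (y1 * S.b ^ (R * n)) ∈ fibI A1 A0 φ0 := by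
    rw [← hfib1.ker]
    simp only [map_sub, map_mul, map_pow]
    rw [← hX, ← hY, mul_pow, hxy]
    ring
  have h2 : S.b ^ R * x1 ^ n ∈ fibI A1 A0 φ0 ⊔ S.𝔭 := by
    have h3 := Submodule.add_mem_sup h1 (S.𝔭.mul_mem_right (y1 * S.b ^ (R * n)) S.hπ)
    rwa [sub_add_cancel] at h3
  have h3 : (S.b ^ R * x1) ^ (n + 1) ∈ fibI A1 A0 φ0 ⊔ S.𝔭 := by
    have h4 : (S.b ^ R * x1) ^ (n + 1) = (S.b ^ (R * n) * x1) * (S.b ^ R * x1 ^ n) := by ring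
    rw [h4]
    exact Ideal.mul_mem_left _ _ h2
  obtain ⟨m, hm⟩ := hred _ _ h3
  obtain ⟨u, hu, v, hv, huv⟩ := Submodule.mem_sup.1 hm
  obtain ⟨m', w, hw⟩ := S.hgen v hv
  have hu0 : ψ1 u = 0 := (hfib1.ker u).2 hu
  have h5 : ψ1 S.b ^ (m' + m + R) * ψ1 x1 = ψ1 S.π * ψ1 w := by
    have h6 : S.b ^ (m' + m + R) * x1 = S.b ^ m' * u + S.π * w := by
      rw [← hw, ← mul_add, huv]
      ring
    have h7 := congrArg ψ1 h6
    simp only [map_mul, map_pow, map_add, hu0, mul_zero, zero_add] at h7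
    exact h7
  set N := m' + m + R + R with hN
  have hy' : (w : K) * ((S.b : K)⁻¹) ^ N * (S.b : K) ^ N = w := by
    rw [inv_pow, inv_mul_cancel_right₀ (pow_ne_zero _ hb0)]
  refine ⟨⟨(w : K) * ((S.b : K)⁻¹) ^ N, N, by rw [hy']; exact w.2⟩, ?_⟩
  have h8 := hclear ⟨(w : K) * ((S.b : K)⁻¹) ^ N, N, by rw [hy']; exact w.2⟩ w N hy'
  have h9 : ψ1 S.b ^ N ≠ 0 := pow_ne_zero _ hb
  apply mul_right_cancel₀ h9
  rw [mul_assoc, h8, ← h5, ← hX, hN]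
  ring

end Pool.Agent.LibHP
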