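import Pool.Agent.LibW64P.Defs
import Pool.Agent.LibW64P.EX
import Pool.Agent.LibW64P.N6
import Pool.Agent.LibW64P.N7
import Pool.Agent.LibW64P.RD

/-! # Row RC: the cover is ramified on the fibre

Plan. Notation as in row RB: `ιA`, `ψM`, `aκ`. `A2 := locA A1 S.b`; `W_EX6` for `A1` gives `ψ2` with
`IsFib A2 A0 φ0 O Ψ ψ2` (`ψ1 S.b ≠ 0`, `ψ1 S.π ≠ 0`: `b⁻¹, π⁻¹ ∈ A` and `ψ`, `ψ1` are restrictions of `Ψ`).
1. `Θ : S.C →+* M`: every `x ∈ S.C` is `ev2 ιA α θ H` for some `H : A[X][X]` (`x = Σ (repr x l) f_l`, coordinates in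
`A2 ≤ A`, `Z.hH`); `Θ x := ev2 ψM aκ θM H`, well defined by `hΘ`, a ring homomorphism. On (the image
of) `A2`: `Θ z = ψ2 z`. `hker`: `Θ x = 0 → χ x = 0`.
2. `B1 := ψ1.range`, `B2 := ψ2.range` (subrings of `κ`), `B2` is the localization of `B1` away from `ψ1 S.b`
(algebra by inclusion). `W_N7`: `Algebra.Etale B2 (integralClosure B2 M)`. `B2` is Noetherian (image of
the finitely generated `k`-algebra `A2`, `W_EX3`).
3. Elements of `S.C` are integral over `A2` (`S.C` is a ring and a finite `A2`-module with basis `f`), so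
`Θ x ∈ integralClosure B2 M`. `W_N6` with `B := B2`, `C := integralClosure B2 M`, `π := ψ1 S.π`
(`hred` from `W_RD`), `ϖ := Θ S.ϖ`, `c := Θ S.c` (`S.heq`): `Θ S.ϖ` is a unit of `integralClosure B2 M`.
4. Its inverse `u` is integral over `B2 ⊆ Θ (S.C)`: `u ^ n + b_1 u ^ (n-1) + ... + b_n = 0`; multiply by
`(Θ ϖ) ^ (n - 1)`: `u = - (b_1 + b_2 Θ ϖ + ...) ∈ Θ (S.C)`, so `u = Θ y`, `Θ (ϖ y - 1) = 0`, so
`χ ϖ χ y = 1`, but `χ ϖ = 0` (`S.hϖ`, `hχζ`). -/

set_option autoImplicit false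
open Polynomial

namespace Pool.Agent.LibHP

/-- Two reduction maps which are restrictions of the same map agree on common elements. -/
private theorem W_RC_eq {k K κ : Type} [Field k] [Field K] [Algebra k K] [Field κ]
    {A A1 A0 : Subalgebra k K}
    {φ0 : A0 →ₐ[k] k} {O : Subring K} {Ψ : O →+* κ} {ψ : A →+* κ} {ψ1 : A1 →+* κ}
    (h : IsFib A A0 φ0 O Ψ ψ) (h1 : IsFib A1 A0 φ0 O Ψ ψ1) (x : A) (y : A1)
    (hxy : (x : K) = y) : ψ x = ψ1 y := by
  obtain ⟨hx, hx'⟩ := h.comp x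
  obtain ⟨hy, hy'⟩ := h1.comp y
  rw [← hx', ← hy']
  congr 1
  exact Subtype.ext hxy

/-- A function with an inverse in `A` does not reduce to zero. -/
private theorem W_RC_ne {k K κ : Type} [Field k] [Field K] [Algebra k K] [Field κ]
    {A A1 A0 : Subalgebra k K}
    {φ0 : A0 →ₐ[k] k} {O : Subring K} {Ψ : O →+* κ} {ψ : A →+* κ} {ψ1 : A1 →+* κ}
    (h : IsFib A A0 φ0 O Ψ ψ) (h1 : IsFib A1 A0 φ0 O Ψ ψ1) (h1A : A1 ≤ A) (y : A1)
    (hy0 : y ≠ 0) (hy : ((y : K))⁻¹ ∈ A) : ψ1 y ≠ 0 := by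
  intro h0
  have hK : (y : K) ≠ 0 := fun hc => hy0 (Subtype.ext hc)
  have e1 : ψ (Subalgebra.inclusion h1A y) = ψ1 y := W_RC_eq h h1 _ _ rfl
  have e2 : (Subalgebra.inclusion h1A y) * (⟨((y : K))⁻¹, hy⟩ : A) = 1 := by
    apply Subtype.ext
    change (y : K) * ((y : K))⁻¹ = 1
    exact mul_inv_cancel₀ hK
  have e3 := congrArg ψ e2
  rw [map_mul, e1, h0, zero_mul, map_one] at e3
  exact zero_ne_one e3

/-- `locA A1 b ≤ A`. -/
private theorem W_RC_le {k K : Type} [Field k] [Field K] [Algebra k K] {A A1 : Subalgebra k K}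
    (h1A : A1 ≤ A) (b : A1) (hb0 : b ≠ 0) (hb : ((b : K))⁻¹ ∈ A) : locA A1 b ≤ A := by
  rintro x ⟨n, hn⟩
  have hK : (b : K) ≠ 0 := fun hc => hb0 (Subtype.ext hc)
  have h1 := A.mul_mem (h1A hn) (A.pow_mem hb n)
  have h2 : x * (b : K) ^ n * (((b : K))⁻¹) ^ n = x := by
    rw [mul_assoc, ← mul_pow, mul_inv_cancel₀ hK, one_pow, mul_one]
  rwa [h2] at h1

/-- The functions on the open set `b ≠ 0` are in `S.C`. -/
private theorem W_RC_incl {k K N : Type} [Field k] [Field K] [Algebra k K] [Field N] [Algebra K N]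
    [Algebra k N] {A1 A0 : Subalgebra k K} (S : Spr A1 A0 N) (z : K) (hz : z ∈ locA A1 S.b) :
    algebraMap K N z ∈ S.C := by
  rw [S.hC]
  intro i
  have h1 : algebraMap K N z = z • (1 : N) := by
    rw [Algebra.smul_def, mul_one]
  rw [h1, map_smul, Finsupp.smul_apply, smul_eq_mul]
  exact (locA A1 S.b).mul_mem hz ((S.hC 1).1 S.C.one_mem i)

/-- The basis is in `S.C`. -/
private theorem W_RC_basis {k K N : Type} [Field k] [Field K] [Algebra k K] [Field N]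
    [Algebra K N] [Algebra k N] {A1 A0 : Subalgebra k K} (S : Spr A1 A0 N) (l : Fin S.n) :
    S.f l ∈ S.C := by
  rw [S.hC]
  intro i
  rw [Module.Basis.repr_self, Finsupp.single_apply]
  split_ifs
  · exact (locA A1 S.b).one_mem
  · exact (locA A1 S.b).zero_mem

/-- The inverse of an element of a ring `D ⊇ B`, if it is integral over `B`, is in `D`. -/
private theorem W_RC_inv {B M : Type} [CommRing B] [Field M] [Algebra B M] (D : Subring M)
    (hD : ∀ b : B, algebraMap B M b ∈ D) (w u : M) (hw : w ∈ D) (hwu : w * u = 1)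
    (hu : IsIntegral B u) : u ∈ D := by
  obtain ⟨p, hp, hpu⟩ := hu
  rw [Polynomial.eval₂_eq_sum_range, Finset.sum_range_succ, hp.coeff_natDegree, map_one,
    one_mul] at hpu
  rcases Nat.eq_zero_or_eq_succ_pred p.natDegree with h0 | h0
  · rw [h0] at hpu
    simp at hpu
  · obtain ⟨m, hm⟩ : ∃ m, p.natDegree = m + 1 := ⟨_, h0⟩
    rw [hm] at hpu
    have hwi : ∀ i, i ≤ m → w ^ m * u ^ i = w ^ (m - i) := by
      intro i hi
      have h1 : w ^ m = w ^ (m - i) * w ^ i := by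
        rw [← pow_add, Nat.sub_add_cancel hi]
      rw [h1, mul_assoc, ← mul_pow, hwu, one_pow, mul_one]
    have h2 : u = -∑ i ∈ Finset.range (m + 1), algebraMap B M (p.coeff i) * w ^ (m - i) := by
      have h3 : w ^ m * u ^ (m + 1) = u := by
        rw [pow_succ, ← mul_assoc, hwi m le_rfl, Nat.sub_self, pow_zero, one_mul]
      have h4 : w ^ m * (∑ i ∈ Finset.range (m + 1), algebraMap B M (p.coeff i) * u ^ i) =
          ∑ i ∈ Finset.range (m + 1), algebraMap B M (p.coeff i) * w ^ (m - i) := by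
        rw [Finset.mul_sum]
        refine Finset.sum_congr rfl fun i hi => ?_
        rw [← hwi i (Nat.lt_succ_iff.1 (Finset.mem_range.1 hi))]
        ring
      have h5 := congrArg (fun t => w ^ m * t) hpu
      simp only [mul_add, mul_zero] at h5
      rw [h4, h3] at h5
      rw [eq_neg_iff_add_eq_zero, add_comm]
      exact h5
    rw [h2]
    refine D.neg_mem (D.sum_mem fun i _ => D.mul_mem (hD _) (D.pow_mem hw _))

theorem W_RC {k K N κ M : Type} [Field k] [Field K] [Algebra k K] [Field N] [Algebra K N]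
    [Algebra k N] [IsScalarTower k K N] [Field κ] [Field M] [Algebra κ M]
    (A A1 A0 : Subalgebra k K) (hle : A0 ≤ A) (hle1 : A0 ≤ A1) (hfg1 : A1.FG)
    (h : A0[X]) (α θ : N) (S : Spr A1 A0 N) (Z : Sta A A1 A0 h α θ S) (φ0 : A0 →ₐ[k] k)
    (O : Subring K) (Ψ : O →+* κ) (ψ : A →+* κ) (ψ1 : A1 →+* κ) (hfib : IsFib A A0 φ0 O Ψ ψ)
    (hfib1 : IsFib A1 A0 φ0 O Ψ ψ1) (hred : RedAt S φ0) (θM : M) (a : k)
    (hΘ : ∀ H : A[X][X], ev2 ((algebraMap K N).comp (A.val : A →+* K)) α θ H = 0 →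
      ev2 ((algebraMap κ M).comp ψ) (algebraMap κ M (ψ (algebraMap k A a))) θM H = 0)
    (χ : S.C →ₐ[k] AlgebraicClosure k) (hχζ : ∀ z ∈ S.ζ, χ z = 0)
    (hker : ∀ (H : A[X][X]) (hx : ev2 ((algebraMap K N).comp (A.val : A →+* K)) α θ H ∈ S.C),
      ev2 ((algebraMap κ M).comp ψ) (algebraMap κ M (ψ (algebraMap k A a))) θM H = 0 →
      χ ⟨ev2 ((algebraMap K N).comp (A.val : A →+* K)) α θ H, hx⟩ = 0)
    (het : Algebra.Etale ψ1.range (integralClosure ψ1.range M)) : False := by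
  classical
  set E := ev2 ((algebraMap K N).comp (A.val : A →+* K)) α θ with hE
  set F := ev2 ((algebraMap κ M).comp ψ) (algebraMap κ M (ψ (algebraMap k A a))) θM with hF
  have hb0 : S.b ≠ 0 := by
    intro hc
    apply S.hb
    rw [hc]
    exact S.𝔭.zero_mem
  have hψ1b : ψ1 S.b ≠ 0 := W_RC_ne hfib hfib1 Z.h1A S.b hb0 Z.hb
  have hψ1π : ψ1 S.π ≠ 0 := W_RC_ne hfib hfib1 Z.h1A S.π S.hπ0 Z.hπ
  obtain ⟨ψ2, hψ2, hfib2⟩ := W_EX6 A1 A0 hle1 φ0 O Ψ ψ1 hfib1 S.b hψ1b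
  have hA2 : locA A1 S.b ≤ A := W_RC_le Z.h1A S.b hb0 Z.hb
  -- the ring homomorphism `Θ`
  have hEC : ∀ z : A, E (C (C z)) = algebraMap K N (z : K) := by
    intro z
    rw [hE]
    simp [ev2]
  have hFC : ∀ z : A, F (C (C z)) = algebraMap κ M (ψ z) := by
    intro z
    rw [hF]
    simp [ev2]
  have hrange : ∀ x : S.C, (x : N) ∈ E.range := by
    intro x
    have h1 : (x : N) = ∑ l, algebraMap K N (S.f.repr (x : N) l) * S.f l := by
      conv_lhs => rw [← S.f.sum_repr (x : N)]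
      exact Finset.sum_congr rfl fun l _ => by rw [Algebra.smul_def]
    rw [h1]
    refine E.range.sum_mem fun l _ => E.range.mul_mem ?_ ?_
    · refine ⟨C (C ⟨S.f.repr (x : N) l, hA2 ((S.hC _).1 x.2 l)⟩), ?_⟩
      rw [hEC]
    · obtain ⟨H, hH⟩ := Z.hH l
      exact ⟨H, hH.symm⟩
  have hE'ker : RingHom.ker E.rangeRestrict ≤ RingHom.ker F := by
    intro H hH
    rw [RingHom.mem_ker] at hH ⊢
    exact hΘ H (congrArg Subtype.val hH)
  let Θ0 : E.range →+* M :=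
    (E.rangeRestrict.liftOfSurjective E.rangeRestrict_surjective) ⟨F, hE'ker⟩
  have hΘ0 : ∀ H, Θ0 (E.rangeRestrict H) = F H := fun H =>
    RingHom.liftOfRightInverse_comp_apply _ _ _ ⟨F, hE'ker⟩ H
  let Θ : S.C →+* M := Θ0.comp ((S.C.val : S.C →+* N).codRestrict E.range hrange)
  have hΘE : ∀ (x : S.C) (H : A[X][X]), E H = (x : N) → Θ x = F H := by
    intro x H hH
    rw [← hΘ0 H]
    change Θ0 _ = Θ0 _
    congr 1
    exact Subtype.ext hH.symm
  have hΘz : ∀ (z : K) (hz : z ∈ locA A1 S.b),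
      Θ ⟨algebraMap K N z, W_RC_incl S z hz⟩ = algebraMap κ M (ψ2 ⟨z, hz⟩) := by
    intro z hz
    rw [hΘE _ (C (C ⟨z, hA2 hz⟩)) (hEC _), hFC]
    congr 1
    exact W_RC_eq hfib hfib2 _ _ rfl
  have hχker : ∀ x : S.C, Θ x = 0 → χ x = 0 := by
    intro x hx
    obtain ⟨H, hH⟩ := hrange x
    have h1 : F H = 0 := by rw [← hΘE x H hH]; exact hx
    have h2 : E H ∈ S.C := by rw [hH]; exact x.2
    have h3 := hker H h2 h1
    have h4 : (⟨E H, h2⟩ : S.C) = x := Subtype.ext hH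
    rw [h4] at h3
    exact h3
  -- the rings `B1 ⊆ B2`
  have hB : ψ1.range ≤ ψ2.range := by
    rintro _ ⟨c, rfl⟩
    exact ⟨_, hψ2 c⟩
  letI algB : Algebra ψ1.range ψ2.range := (Subring.inclusion hB).toAlgebra
  haveI tow : IsScalarTower ψ1.range ψ2.range M := IsScalarTower.of_algebraMap_eq (fun x => rfl)
  let b1 : ψ1.range := ⟨ψ1 S.b, S.b, rfl⟩
  haveI hloc : IsLocalization.Away b1 ψ2.range := by
    have hinj : Function.Injective (algebraMap ψ1.range ψ2.range) := Subring.inclusion_injective hB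
    have hK : (S.b : K) ≠ 0 := fun hc => hb0 (Subtype.ext hc)
    have hbinv : ((S.b : A1) : K)⁻¹ ∈ locA A1 S.b :=
      ⟨1, by rw [pow_one, inv_mul_cancel₀ hK]; exact A1.one_mem⟩
    refine IsLocalization.Away.mk (R := ψ1.range) (S := ψ2.range) b1 ?_ ?_ ?_
    · refine ⟨⟨algebraMap ψ1.range ψ2.range b1, ⟨ψ2 ⟨_, hbinv⟩, _, rfl⟩, ?_, ?_⟩, rfl⟩
      · apply Subtype.ext
        change ψ1 S.b * ψ2 ⟨_, hbinv⟩ = 1
        rw [← hψ2, ← map_mul, ← map_one ψ2]
        congr 1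
        apply Subtype.ext
        change (S.b : K) * ((S.b : A1) : K)⁻¹ = 1
        exact mul_inv_cancel₀ hK
      · apply Subtype.ext
        change ψ2 ⟨_, hbinv⟩ * ψ1 S.b = 1
        rw [← hψ2, ← map_mul, ← map_one ψ2]
        congr 1
        apply Subtype.ext
        change ((S.b : A1) : K)⁻¹ * (S.b : K) = 1
        exact inv_mul_cancel₀ hK
    · rintro ⟨_, ⟨x, hx⟩, rfl⟩
      obtain ⟨n, hn⟩ := hx
      refine ⟨n, ⟨ψ1 ⟨_, hn⟩, _, rfl⟩, ?_⟩
      apply Subtype.ext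
      change ψ2 ⟨x, _⟩ * ((algebraMap ψ1.range ψ2.range b1 ^ n : ψ2.range) : κ) = ψ1 ⟨_, hn⟩
      have h1 : ((algebraMap ψ1.range ψ2.range b1 ^ n : ψ2.range) : κ) = (ψ1 S.b) ^ n := rfl
      rw [h1, ← hψ2, ← hψ2, ← map_pow, ← map_mul]
      congr 1
    · intro x y hxy
      exact ⟨0, by rw [hinj hxy]⟩
  have het2 : Algebra.Etale ψ2.range (integralClosure ψ2.range M) :=
    W_N7 ψ1.range ψ2.range M b1 het
  have hA2fg : (locA A1 S.b).FG := W_EX3 A1 S.b hb0 hfg1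
  haveI : Algebra.FiniteType k (locA A1 S.b) := (locA A1 S.b).fg_iff_finiteType.1 hA2fg
  haveI : IsNoetherianRing (locA A1 S.b) := Algebra.FiniteType.isNoetherianRing k _
  haveI : IsNoetherianRing ψ2.range :=
    isNoetherianRing_of_surjective _ _ ψ2.rangeRestrict ψ2.rangeRestrict_surjective
  -- the elements of `Θ (S.C)` are integral
  have hD : ∀ b : ψ2.range, algebraMap ψ2.range M b ∈ Θ.range := by
    rintro ⟨_, ⟨x, hx⟩, rfl⟩
    exact ⟨_, hΘz x hx⟩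
  let D : Subalgebra ψ2.range M := { Θ.range with algebraMap_mem' := hD }
  have hDfg : D.toSubmodule.FG := by
    refine ⟨Finset.univ.image (fun l => Θ ⟨S.f l, W_RC_basis S l⟩), le_antisymm ?_ ?_⟩
    · rw [Submodule.span_le]
      intro x hx
      rw [Finset.coe_image] at hx
      obtain ⟨l, _, rfl⟩ := hx
      exact ⟨_, rfl⟩
    · rintro _ ⟨x, rfl⟩
      have h1 : x = ∑ l, (⟨algebraMap K N (S.f.repr (x : N) l),
          W_RC_incl S _ ((S.hC _).1 x.2 l)⟩ : S.C) * ⟨S.f l, W_RC_basis S l⟩ := by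
        apply Subtype.ext
        rw [AddSubmonoidClass.coe_finsetSum]
        conv_lhs => rw [← S.f.sum_repr (x : N)]
        refine Finset.sum_congr rfl fun l _ => ?_
        rw [Algebra.smul_def]
        rfl
      have h2 : Θ x = ∑ l, (⟨ψ2 ⟨S.f.repr (x : N) l, (S.hC _).1 x.2 l⟩, _, rfl⟩ : ψ2.range) •
          Θ ⟨S.f l, W_RC_basis S l⟩ := by
        conv_lhs => rw [h1]
        rw [map_sum]
        refine Finset.sum_congr rfl fun l _ => ?_
        rw [map_mul, hΘz, Algebra.smul_def]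
        rfl
      change Θ x ∈ _
      rw [h2]
      refine Submodule.sum_mem _ fun l _ => Submodule.smul_mem _ _ (Submodule.subset_span ?_)
      rw [Finset.coe_image]
      exact ⟨l, by simp, rfl⟩
  have hint : ∀ x : S.C, IsIntegral ψ2.range (Θ x) := fun x =>
    IsIntegral.of_mem_of_fg D hDfg _ ⟨x, rfl⟩
  -- `ϖ` is a unit
  let πB : ψ2.range := ⟨ψ1 S.π, Subalgebra.inclusion (W_EX1 A1 S.b) S.π, hψ2 _⟩
  have hredB : ∀ (x : ψ2.range) (n : ℕ), x ^ n ∈ Ideal.span {πB} → x ∈ Ideal.span {πB} := by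
    rintro ⟨_, x, rfl⟩ n hx
    rw [Ideal.mem_span_singleton'] at hx ⊢
    obtain ⟨⟨_, y, rfl⟩, hy⟩ := hx
    have h1 : ψ2 x ^ n = ψ1 S.π * ψ2 y := by
      have h2 := congrArg Subtype.val hy
      rw [mul_comm]
      exact h2.symm
    obtain ⟨y', hy'⟩ := W_RD A1 A0 S φ0 O Ψ ψ1 hfib1 hred ψ2 hψ2 hψ1b x y n h1
    refine ⟨⟨ψ2 y', _, rfl⟩, ?_⟩
    apply Subtype.ext
    change ψ2 y' * ψ1 S.π = ψ2 x
    rw [hy', mul_comm]
  have hπ2 : algebraMap ψ2.range M πB = (Θ S.ϖ) ^ 2 * Θ S.c := by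
    have hz : (S.π : K) ∈ locA A1 S.b := W_EX1 A1 S.b S.π.2
    have h1 := hΘz (S.π : K) hz
    have h2 : (⟨algebraMap K N S.π, W_RC_incl S _ hz⟩ : S.C) = S.ϖ ^ 2 * S.c :=
      Subtype.ext S.heq
    rw [h2, map_mul, map_pow] at h1
    rw [h1]
    change algebraMap κ M (ψ1 S.π) = algebraMap κ M (ψ2 ⟨(S.π : K), hz⟩)
    rw [← hψ2]
    rfl
  haveI := het2
  have hunit : IsUnit (⟨Θ S.ϖ, hint S.ϖ⟩ : integralClosure ψ2.range M) := by
    refine W_N6 ψ2.range (integralClosure ψ2.range M) πB hredB _ ⟨Θ S.c, hint S.c⟩ ?_ ?_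
    · exact Subtype.ext hπ2
    · intro hc
      have h1 : algebraMap κ M (ψ1 S.π) = 0 := congrArg Subtype.val hc
      rw [map_eq_zero] at h1
      exact hψ1π h1
  obtain ⟨⟨u, v, huv, hvu⟩, hu⟩ := hunit
  have hv1 : Θ S.ϖ * (v : M) = 1 := by
    have h1 := congrArg Subtype.val huv
    have h2 : (u : M) = Θ S.ϖ := congrArg Subtype.val hu
    rw [← h2]
    exact h1
  obtain ⟨y, hy⟩ := W_RC_inv Θ.range hD (Θ S.ϖ) v ⟨_, rfl⟩ hv1 v.2
  have h5 : Θ (S.ϖ * y - 1) = 0 := by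
    rw [map_sub, map_mul, hy, hv1, map_one, sub_self]
  have h6 := hχker _ h5
  rw [map_sub, map_mul, hχζ _ S.hϖ, zero_mul, map_one, zero_sub, neg_eq_zero] at h6
  exact one_ne_zero h6

end Pool.Agent.LibHP
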