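import Pool.Agent.LibW64P.Defs
import Pool.Agent.LibHPF.P3a

/-! # Row AL: a generator of the algebraic closure of `L` in `N`

Plan. For `β ∈ N` algebraic over `L` the minimal polynomial of `β` over `K` has coefficients in `L`
(they are algebraic over `L` and `L` is closed in `K`; see LibW64/A2b.lean, B1.lean, B2.lean for this
argument). Choose `α ∈ N` algebraic over `L` with `(minpoly K α).natDegree` maximal (bounded by
`finrank K N`). Let `β ∈ N` be algebraic over `L`; `L(α, β) / L` is finite separable, so `= L(γ)`, `γ`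
algebraic over `L`; `deg_K γ = deg_L γ ≥ deg_L α = deg_K α`, so by maximality equality, `L(α) = L(γ)`
(inclusion and equal degrees over `L`), so `β ∈ L(α)`. Work e.g. with the subfield
`(algebraMap K N) '' L` of `N` as base field, or with `Algebra L N`. Finally multiply `α` by a nonzero
element of `A0` (this does not change `L(α)`) so that its minimal polynomial over `K`, which has
coefficients in `L = Frac A0`, has coefficients in `A0` (`Polynomial.scaleRoots`, common denominator). -/

set_option autoImplicit false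
open Polynomial

namespace Pool.Agent.LibHP

private theorem AL_cl {K : Type} [Field K] (L : Subfield K) (hcl : ClosedSub L) :
    ∀ e : K, (∃ P : L[X], P ≠ 0 ∧ P.eval₂ (algebraMap L K) e = 0) →
      ∃ a, algebraMap L K a = e := by
  rintro e ⟨P, hP, he⟩
  have hlc : P.leadingCoeff ≠ 0 := leadingCoeff_ne_zero.2 hP
  refine ⟨⟨e, hcl e ⟨(P * C P.leadingCoeff⁻¹).map (algebraMap L K), ?_, ?_, ?_⟩⟩, rfl⟩
  · exact (monic_mul_leadingCoeff_inv hP).map _
  · intro i
    rw [coeff_map]
    exact Subtype.coe_prop _
  · rw [eval₂_map, RingHom.id_comp, eval₂_mul, he, zero_mul]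

private theorem AL_int {K N : Type} [Field K] [Field N] [Algebra K N] (L : Subfield K) {β : N} :
    AlgOver L (algebraMap K N) β ↔ IsIntegral L β := by
  constructor
  · rintro ⟨h, hm, hc, h0⟩
    have hl : h ∈ lifts (algebraMap L K) := by
      rw [lifts_iff_coeff_lifts]
      intro i
      exact ⟨⟨_, hc i⟩, rfl⟩
    obtain ⟨g, hg, -, hgm⟩ := lifts_and_natDegree_eq_and_monic hl hm
    refine ⟨g, hgm, ?_⟩
    rw [← hg, eval₂_map, ← IsScalarTower.algebraMap_eq L K N] at h0
    exact h0
  · rintro ⟨g, hgm, h0⟩
    refine ⟨g.map (algebraMap L K), hgm.map _, fun i => ?_, ?_⟩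
    · rw [coeff_map]
      exact Subtype.coe_prop _
    · rw [eval₂_map, ← IsScalarTower.algebraMap_eq L K N]
      exact h0

private theorem AL_min {K N : Type} [Field K] [Field N] [Algebra K N] (L : Subfield K)
    (hcl : ClosedSub L) {β : N} (hβ : IsIntegral L β) :
    (minpoly L β).map (algebraMap L K) = minpoly K β := by
  refine minpoly.eq_of_irreducible_of_monic ?_ ?_ ((minpoly.monic hβ).map _)
  · exact irreducible_map_of_closed (algebraMap L K) (AL_cl L hcl) _ (minpoly.monic hβ)
      (minpoly.irreducible hβ)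
  · rw [aeval_map_algebraMap, minpoly.aeval]

private theorem AL_den {k K : Type} [Field k] [Field K] [Algebra k K] (L : Subfield K)
    (A0 : Subalgebra k K) (hL : ∀ c : K, c ∈ L ↔ ∃ u w : K, u ∈ A0 ∧ w ∈ A0 ∧ w ≠ 0 ∧ c * w = u)
    (P : K[X]) (hP : ∀ i, P.coeff i ∈ L) (n : ℕ) :
    ∃ w : K, w ∈ A0 ∧ w ≠ 0 ∧ ∀ i < n, P.coeff i * w ∈ A0 := by
  induction n with
  | zero => exact ⟨1, A0.one_mem, one_ne_zero, fun i hi => absurd hi (Nat.not_lt_zero i)⟩
  | succ n ih =>
    obtain ⟨w, hw, hw0, h⟩ := ih
    obtain ⟨u, v, hu, hv, hv0, huv⟩ := (hL _).1 (hP n)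
    refine ⟨w * v, A0.mul_mem hw hv, mul_ne_zero hw0 hv0, fun i hi => ?_⟩
    rcases Nat.lt_succ_iff_lt_or_eq.1 hi with h1 | h1
    · rw [← mul_assoc]
      exact A0.mul_mem (h i h1) hv
    · rw [h1, mul_comm w v, ← mul_assoc, huv]
      exact A0.mul_mem hu hw

theorem W_AL {k K N : Type} [Field k] [CharZero k] [Field K] [Algebra k K] [Field N] [Algebra K N]
    [FiniteDimensional K N] (L : Subfield K) (hcl : ClosedSub L) (A0 : Subalgebra k K)
    (hL : ∀ c : K, c ∈ L ↔ ∃ u w : K, u ∈ A0 ∧ w ∈ A0 ∧ w ≠ 0 ∧ c * w = u) :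
    ∃ (α : N) (h : A0[X]), h.Monic ∧ h.map (A0.val : A0 →+* K) = minpoly K α ∧
      ∀ β : N, AlgOver L (algebraMap K N) β →
        β ∈ Subfield.closure (algebraMap K N '' (L : Set K) ∪ {α}) := by
  classical
  have hK0 : CharZero K := charZero_of_injective_algebraMap (algebraMap k K).injective
  have hdeg : ∀ β : N, IsIntegral L β → (minpoly L β).natDegree ≤ Module.finrank K N := by
    intro β hβ
    have h1 := minpoly.natDegree_le (A := K) β
    rwa [← AL_min L hcl hβ, natDegree_map] at h1
  set S : Set ℕ := {d | ∃ β : N, IsIntegral L β ∧ (minpoly L β).natDegree = d} with hS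
  have hne : S.Nonempty := ⟨_, 0, isIntegral_zero, rfl⟩
  have hbd : BddAbove S := ⟨Module.finrank K N, by rintro d ⟨β, hβ, rfl⟩; exact hdeg β hβ⟩
  obtain ⟨α, hα, hαd⟩ := Nat.sSup_mem hne hbd
  have hmax : ∀ β : N, IsIntegral L β → (minpoly L β).natDegree ≤ (minpoly L α).natDegree :=
    fun β hβ => (le_csSup hbd ⟨β, hβ, rfl⟩).trans hαd.ge
  -- every integral element is in `L(α)`
  have hmem : ∀ β : N, IsIntegral L β → β ∈ IntermediateField.adjoin L {α} := by
    intro β hβ
    have hfin : FiniteDimensional L (IntermediateField.adjoin L ({α, β} : Set N)) := by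
      apply IntermediateField.finiteDimensional_adjoin
      rintro x (rfl | rfl)
      · exact hα
      · exact hβ
    obtain ⟨γ, hγ⟩ := Field.exists_primitive_element L
      (IntermediateField.adjoin L ({α, β} : Set N))
    have hγi : IsIntegral L γ := IsIntegral.of_finite L γ
    have h1 : Module.finrank L (IntermediateField.adjoin L ({α, β} : Set N)) =
        (minpoly L γ).natDegree := by
      rw [← IntermediateField.adjoin.finrank hγi, hγ]
      exact (IntermediateField.finrank_top').symm
    have h2 : minpoly L γ = minpoly L (γ : N) :=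
      (minpoly.algebraMap_eq (B' := N) Subtype.val_injective γ).symm
    have hle : IntermediateField.adjoin L {α} ≤ IntermediateField.adjoin L ({α, β} : Set N) :=
      IntermediateField.adjoin.mono L _ _ (by simp)
    have h3 : Module.finrank L (IntermediateField.adjoin L ({α, β} : Set N)) ≤
        Module.finrank L (IntermediateField.adjoin L {α}) := by
      rw [h1, h2, IntermediateField.adjoin.finrank hα]
      exact hmax _ (by
        have := hγi.map (IntermediateField.adjoin L ({α, β} : Set N)).val
        exact this)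
    rw [IntermediateField.eq_of_le_of_finrank_le hle h3]
    exact IntermediateField.subset_adjoin L _ (by simp)
  -- clear the denominators
  obtain ⟨w, hw, hw0, hwc⟩ := AL_den L A0 hL (minpoly K α) (fun i => by
    rw [← AL_min L hcl hα, coeff_map]
    exact Subtype.coe_prop _) (minpoly K α).natDegree
  have hαK : IsIntegral K α := IsIntegral.of_finite K α
  set α' : N := algebraMap K N w * α with hα'
  have hw' : algebraMap K N w ≠ 0 := (_root_.map_ne_zero _).2 hw0
  have hα'K : IsIntegral K α' := IsIntegral.of_finite K α'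
  have hadj : IntermediateField.adjoin K {α'} = IntermediateField.adjoin K {α} := by
    apply le_antisymm
    · rw [IntermediateField.adjoin_simple_le_iff]
      exact mul_mem (IntermediateField.algebraMap_mem _ w)
        (IntermediateField.mem_adjoin_simple_self K α)
    · rw [IntermediateField.adjoin_simple_le_iff]
      have h1 : α = algebraMap K N w⁻¹ * α' := by
        rw [hα', ← mul_assoc, ← map_mul, inv_mul_cancel₀ hw0, map_one, one_mul]
      rw [h1]
      exact mul_mem (IntermediateField.algebraMap_mem _ w⁻¹)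
        (IntermediateField.mem_adjoin_simple_self K α')
  have hsc : (minpoly K α).scaleRoots w = minpoly K α' := by
    have hm : ((minpoly K α).scaleRoots w).Monic := (monic_scaleRoots_iff w).2 (minpoly.monic hαK)
    have hdvd : minpoly K α' ∣ (minpoly K α).scaleRoots w :=
      minpoly.dvd K α' (scaleRoots_aeval_eq_zero (minpoly.aeval K α))
    have hd : (minpoly K α').natDegree = (minpoly K α).natDegree := by
      rw [← IntermediateField.adjoin.finrank hα'K, ← IntermediateField.adjoin.finrank hαK, hadj]
    refine (eq_of_monic_of_dvd_of_natDegree_le (minpoly.monic hα'K) hm hdvd ?_)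
    rw [natDegree_scaleRoots, hd]
  have hco : ∀ i, ((minpoly K α).scaleRoots w).coeff i ∈ A0 := by
    intro i
    rw [coeff_scaleRoots]
    rcases lt_trichotomy i (minpoly K α).natDegree with h | h | h
    · obtain ⟨m, hm⟩ := Nat.exists_eq_add_of_lt h
      have h1 : (minpoly K α).natDegree - i = m + 1 := by omega
      rw [h1, pow_succ', ← mul_assoc]
      exact A0.mul_mem (hwc i h) (A0.pow_mem hw m)
    · rw [h, Nat.sub_self, pow_zero, mul_one, coeff_natDegree, (minpoly.monic hαK).leadingCoeff]
      exact A0.one_mem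
    · rw [coeff_eq_zero_of_natDegree_lt h, zero_mul]
      exact A0.zero_mem
  have hlift : (minpoly K α).scaleRoots w ∈ lifts (A0.val : A0 →+* K) := by
    rw [lifts_iff_coeff_lifts]
    intro i
    exact ⟨⟨_, hco i⟩, rfl⟩
  obtain ⟨h, hh, -, hhm⟩ := lifts_and_natDegree_eq_and_monic hlift
    ((monic_scaleRoots_iff w).2 (minpoly.monic hαK))
  refine ⟨α', h, hhm, hh.trans hsc, fun β hβ => ?_⟩
  have hβ' := hmem β ((AL_int L).1 hβ)
  have hwL : w ∈ L := (hL w).2 ⟨w, 1, hw, A0.one_mem, one_ne_zero, mul_one w⟩
  have hle : Subfield.closure (Set.range (algebraMap L N) ∪ {α}) ≤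
      Subfield.closure (algebraMap K N '' (L : Set K) ∪ {α'}) := by
    rw [Subfield.closure_le]
    rintro x (⟨c, rfl⟩ | rfl)
    · exact Subfield.subset_closure (Or.inl ⟨c, c.2, rfl⟩)
    · have h1 : x = (algebraMap K N w)⁻¹ * α' := by
        rw [hα', ← mul_assoc, inv_mul_cancel₀ hw', one_mul]
      rw [h1]
      exact mul_mem (inv_mem (Subfield.subset_closure (Or.inl ⟨w, hwL, rfl⟩)))
        (Subfield.subset_closure (Or.inr rfl))
  exact hle hβ'

end Pool.Agent.LibHP
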