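import Mathlib

/-! # Row N1: extension of homomorphisms to finitely generated domains

Atiyah-Macdonald, Proposition 5.23. Plan. Induction on the number of generators
(`Algebra.FiniteType`: `D` is a quotient of a polynomial ring in `n` variables; induct on generators
`D = R[x_1, ..., x_n]`, one generator at a time), or Noether normalization over the field of fractions of
`R` with a common denominator, or Chevalley's theorem (constructible image) from Mathlib. One generator `x`
over `R`: if `x` is transcendental over `R`, `b = Σ b_i x ^ i`, take `ρ` a nonzero coefficient and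
`χ x` any element of the infinite field `Ω` with `Σ φ(b_i) χ(x) ^ i ≠ 0`; if `x` is algebraic, so is
`b⁻¹` (in the fraction field), `ρ` := product of the leading coefficients `a`, `a'` of equations of `x`
and `b⁻¹` over `R`; extend `φ` to `R[1/ρ]` and then to the integral extension `R[1/ρ][x, b⁻¹]`
(`IsIntegral`, `RingHom` lifting to algebraically closed fields: e.g.
`Ideal.exists_ideal_over_prime_of_isIntegral` and `IsAlgClosed.lift` for the residue fields).
The repository may contain such a statement: grep for 5.23 or `exists_hom_extend`. -/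

set_option autoImplicit false
open Polynomial

namespace Pool.Agent.LibHP

private theorem N1_lift {P B Ω : Type} [CommRing P] [CommRing B] [CommRing Ω] (ev : P →+* B)
    (hs : Function.Surjective ev) (g : P →+* Ω) (hk : ∀ p, ev p = 0 → g p = 0) :
    ∃ χ : B →+* Ω, ∀ p, χ (ev p) = g p := by
  obtain ⟨inv, hinv⟩ := hs.hasRightInverse
  exact ⟨ev.liftOfRightInverse inv hinv ⟨g, fun p hp => hk p hp⟩,
    fun p => ev.liftOfRightInverse_comp_apply inv hinv ⟨g, fun p hp => hk p hp⟩ p⟩

/-- one generator -/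
private theorem N1_step {A B : Type} [CommRing A] [CommRing B] [IsDomain B] (ι : A →+* B)
    (hι : Function.Injective ι) (x : B)
    (hs : Function.Surjective (Polynomial.eval₂RingHom ι x)) (b : B) (hb : b ≠ 0) :
    ∃ ρ : A, ρ ≠ 0 ∧ ∀ (Ω : Type) [Field Ω] [IsAlgClosed Ω] (φ : A →+* Ω), φ ρ ≠ 0 →
      ∃ χ : B →+* Ω, χ.comp ι = φ ∧ χ b ≠ 0 := by
  classical
  have : IsDomain A := hι.isDomain ι
  by_cases hI : ∀ p : A[X], p.eval₂ ι x = 0 → p = 0
  · -- transcendental
    obtain ⟨p, hp⟩ := hs b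
    have hp0 : p ≠ 0 := by
      rintro rfl
      rw [map_zero] at hp
      exact hb hp.symm
    refine ⟨p.leadingCoeff, leadingCoeff_ne_zero.2 hp0, ?_⟩
    intro Ω _ _ φ hφ
    have hpφ : p.map φ ≠ 0 := by
      intro h
      have h1 := congrArg (fun q : Polynomial Ω => q.coeff p.natDegree) h
      simp only [coeff_map, coeff_zero] at h1
      exact hφ h1
    have : Infinite Ω := IsAlgClosed.instInfinite
    obtain ⟨α, hα⟩ : ∃ α : Ω, (p.map φ).eval α ≠ 0 := by
      by_contra hcon
      push Not at hcon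
      exact hpφ (Polynomial.funext fun r => by rw [hcon r, eval_zero])
    obtain ⟨χ, hχ⟩ := N1_lift (Polynomial.eval₂RingHom ι x) hs (Polynomial.eval₂RingHom φ α)
      (fun q hq => by rw [hI q hq, map_zero])
    refine ⟨χ, ?_, ?_⟩
    · ext a
      have h1 := hχ (C a)
      simpa using h1
    · rw [← hp, hχ p, coe_eval₂RingHom, eval₂_eq_eval_map]
      exact hα
  · -- algebraic
    push Not at hI
    obtain ⟨f₀, hf₀, hf₀0⟩ := hI
    have hex : ∃ n : ℕ, ∃ f : A[X], f.eval₂ ι x = 0 ∧ f ≠ 0 ∧ f.natDegree = n :=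
      ⟨_, f₀, hf₀, hf₀0, rfl⟩
    obtain ⟨f, hf, hf0, hfn⟩ := Nat.find_spec hex
    have hmin : ∀ g : A[X], g.eval₂ ι x = 0 → g ≠ 0 → f.natDegree ≤ g.natDegree := by
      intro g hg hg0
      rw [hfn]
      exact Nat.find_min' hex ⟨g, hg, hg0, rfl⟩
    letI : Algebra A B := ι.toAlgebra
    have halg : ∀ y : B, IsAlgebraic A y := by
      have hx : IsAlgebraic A x := ⟨f, hf0, hf⟩
      have h1 := Algebra.isAlgebraic_adjoin_singleton_iff.mpr hx
      intro y
      obtain ⟨p, rfl⟩ := hs y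
      refine h1 _ ?_
      have h2 : (Polynomial.eval₂RingHom ι x) p = aeval x p := rfl
      rw [h2]
      exact aeval_mem_adjoin_singleton A x
    obtain ⟨r, hr, hdvd⟩ := (halg b).exists_nonzero_dvd (mem_nonZeroDivisors_of_ne_zero hb)
    refine ⟨f.leadingCoeff * r, mul_ne_zero (leadingCoeff_ne_zero.2 hf0) hr, ?_⟩
    intro Ω _ _ φ hφ
    rw [map_mul] at hφ
    have ha := left_ne_zero_of_mul hφ
    have hrφ := right_ne_zero_of_mul hφ
    -- the degree of `f`
    have hfdeg : f.natDegree ≠ 0 := by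
      intro h0
      rw [eq_C_of_natDegree_eq_zero h0] at hf hf0
      rw [eval₂_C] at hf
      have h1 : f.coeff 0 = 0 := hι (by rw [hf, map_zero])
      rw [h1, C_0] at hf0
      exact hf0 rfl
    have hdeg : (f.map φ).natDegree = f.natDegree := natDegree_map_of_leadingCoeff_ne_zero φ ha
    obtain ⟨α, hα⟩ := IsAlgClosed.exists_root (f.map φ) (by
      intro h0
      rw [degree_eq_natDegree (by
        intro h1
        rw [h1, natDegree_zero] at hdeg
        exact hfdeg hdeg.symm), hdeg] at h0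
      exact hfdeg (by exact_mod_cast h0))
    rw [IsRoot.def] at hα
    have hker : ∀ (n : ℕ) (g : A[X]), g.natDegree < n → g.eval₂ ι x = 0 → (g.map φ).eval α = 0 := by
      intro n
      induction n with
      | zero => intro g hg; exact absurd hg (Nat.not_lt_zero _)
      | succ n ih =>
        intro g hgn hg
        by_cases hg0 : g = 0
        · rw [hg0, Polynomial.map_zero, eval_zero]
        have hle := hmin g hg hg0
        set u : A[X] := C f.leadingCoeff * g with hu
        set v : A[X] := C g.leadingCoeff * X ^ (g.natDegree - f.natDegree) * f with hv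
        have hlf : f.leadingCoeff ≠ 0 := leadingCoeff_ne_zero.2 hf0
        have hlg : g.leadingCoeff ≠ 0 := leadingCoeff_ne_zero.2 hg0
        have hu0 : u ≠ 0 := mul_ne_zero (C_ne_zero.2 hlf) hg0
        have hud : u.natDegree = g.natDegree := natDegree_C_mul hlf
        have hvd : v.natDegree = g.natDegree := by
          rw [hv, natDegree_mul (mul_ne_zero (C_ne_zero.2 hlg) (pow_ne_zero _ X_ne_zero)) hf0,
            natDegree_C_mul_X_pow _ _ hlg]
          omega
        have hv0 : v ≠ 0 :=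
          mul_ne_zero (mul_ne_zero (C_ne_zero.2 hlg) (pow_ne_zero _ X_ne_zero)) hf0
        have hlead : u.leadingCoeff = v.leadingCoeff := by
          rw [hu, hv, leadingCoeff_mul, leadingCoeff_mul, leadingCoeff_mul, leadingCoeff_C,
            leadingCoeff_C, leadingCoeff_X_pow, mul_one, mul_comm]
        have hlt := degree_sub_lt (p := u) (q := v)
          (by rw [degree_eq_natDegree hu0, degree_eq_natDegree hv0, hud, hvd]) hu0 hlead
        have hsub : (u - v).eval₂ ι x = 0 := by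
          rw [eval₂_sub, hu, hv, eval₂_mul, eval₂_mul, hg, hf, mul_zero, mul_zero, sub_zero]
        have hsub2 : ((u - v).map φ).eval α = 0 := by
          by_cases h0 : u - v = 0
          · rw [h0, Polynomial.map_zero, eval_zero]
          · refine ih (u - v) ?_ hsub
            have h1 : (u - v).natDegree < u.natDegree := natDegree_lt_natDegree h0 hlt
            omega
        rw [Polynomial.map_sub, eval_sub, hu, hv, Polynomial.map_mul, Polynomial.map_mul, eval_mul,
          eval_mul, hα, mul_zero, sub_zero, map_C, eval_C] at hsub2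
        exact (mul_eq_zero.1 hsub2).resolve_left ha
    obtain ⟨χ, hχ⟩ := N1_lift (Polynomial.eval₂RingHom ι x) hs (Polynomial.eval₂RingHom φ α)
      (fun q hq => by
        have h1 := hker _ q (Nat.lt_succ_self _) hq
        rw [coe_eval₂RingHom, eval₂_eq_eval_map]
        exact h1)
    have hχι : ∀ a, χ (ι a) = φ a := by
      intro a
      have h1 := hχ (C a)
      simpa using h1
    refine ⟨χ, RingHom.ext hχι, ?_⟩
    intro h0
    obtain ⟨y, hy⟩ := hdvd
    have h1 : χ (ι r) = χ b * χ y := by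
      rw [← map_mul, ← hy]
      rfl
    rw [hχι, h0, zero_mul] at h1
    exact hrφ h1

private theorem N1_surj {R D : Type} [CommRing R] [CommRing D] [Algebra R D] (S T : Subalgebra R D)
    (hST : S ≤ T) (x : D) (hx : x ∈ T) (hT : T ≤ Algebra.adjoin R (insert x (S : Set D))) :
    Function.Surjective (Polynomial.eval₂RingHom
      ((Subalgebra.inclusion hST : S →ₐ[R] T) : S →+* T) (⟨x, hx⟩ : T)) := by
  have key : ∀ y : D, y ∈ Algebra.adjoin R (insert x (S : Set D)) →
      ∃ p : Polynomial S, p.eval₂ (S.val : S →+* D) x = y := by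
    intro y hy
    induction hy using Algebra.adjoin_induction with
    | mem y hy =>
      rcases hy with rfl | hy
      · exact ⟨X, by rw [eval₂_X]⟩
      · refine ⟨C ⟨y, hy⟩, ?_⟩
        rw [eval₂_C]
        rfl
    | algebraMap r =>
      refine ⟨C ⟨algebraMap R D r, S.algebraMap_mem r⟩, ?_⟩
      rw [eval₂_C]
      rfl
    | add y z _ _ hy hz =>
      obtain ⟨p, rfl⟩ := hy
      obtain ⟨q, rfl⟩ := hz
      exact ⟨p + q, by rw [eval₂_add]⟩
    | mul y z _ _ hy hz =>
      obtain ⟨p, rfl⟩ := hy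
      obtain ⟨q, rfl⟩ := hz
      exact ⟨p * q, by rw [eval₂_mul]⟩
  rintro ⟨y, hy⟩
  obtain ⟨p, hp⟩ := key y (hT hy)
  refine ⟨p, Subtype.ext ?_⟩
  rw [coe_eval₂RingHom]
  have h1 := Polynomial.hom_eval₂ p ((Subalgebra.inclusion hST : S →ₐ[R] T) : S →+* T)
    (T.val : T →+* D) (⟨x, hx⟩ : T)
  have h2 : (T.val : T →+* D).comp ((Subalgebra.inclusion hST : S →ₐ[R] T) : S →+* T) =
      (S.val : S →+* D) := RingHom.ext fun _ => rfl
  rw [h2] at h1
  exact h1.trans hp

private theorem N1_bot {R D : Type} [CommRing R] [CommRing D] [IsDomain D] [Algebra R D]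
    (hinj : Function.Injective (algebraMap R D)) (S : Subalgebra R D) (hS : S = ⊥) :
    ∀ b : S, b ≠ 0 →
      ∃ ρ : R, ρ ≠ 0 ∧ ∀ (Ω : Type) [Field Ω] [IsAlgClosed Ω] (φ : R →+* Ω), φ ρ ≠ 0 →
        ∃ χ : S →+* Ω, χ.comp (algebraMap R S) = φ ∧ χ b ≠ 0 := by
  intro b hb
  have hb1 : (b : D) ∈ (⊥ : Subalgebra R D) := hS.le b.2
  obtain ⟨ρ, hρ⟩ := Algebra.mem_bot.1 hb1
  have hsurj : Function.Surjective (algebraMap R S) := by
    intro y
    have h1 : (y : D) ∈ (⊥ : Subalgebra R D) := hS.le y.2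
    obtain ⟨z, hz⟩ := Algebra.mem_bot.1 h1
    exact ⟨z, Subtype.ext hz⟩
  have hρb : algebraMap R S ρ = b := Subtype.ext hρ
  refine ⟨ρ, ?_, ?_⟩
  · intro h0
    rw [h0, map_zero] at hρb
    exact hb hρb.symm
  · intro Ω _ _ φ hφ
    obtain ⟨χ, hχ⟩ := N1_lift (algebraMap R S) hsurj φ (fun p hp => by
      have h1 : algebraMap R D p = 0 := congrArg Subtype.val hp
      have h2 : p = 0 := hinj (by rw [h1, map_zero])
      rw [h2, map_zero])
    refine ⟨χ, RingHom.ext hχ, ?_⟩
    rw [← hρb, hχ]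
    exact hφ

private theorem N1_next {R D : Type} [CommRing R] [CommRing D] [IsDomain D] [Algebra R D]
    (S T : Subalgebra R D) (hST : S ≤ T) (x : D) (hx : x ∈ T)
    (hT : T ≤ Algebra.adjoin R (insert x (S : Set D)))
    (ih : ∀ b : S, b ≠ 0 →
      ∃ ρ : R, ρ ≠ 0 ∧ ∀ (Ω : Type) [Field Ω] [IsAlgClosed Ω] (φ : R →+* Ω), φ ρ ≠ 0 →
        ∃ χ : S →+* Ω, χ.comp (algebraMap R S) = φ ∧ χ b ≠ 0) :
    ∀ b : T, b ≠ 0 →
      ∃ ρ : R, ρ ≠ 0 ∧ ∀ (Ω : Type) [Field Ω] [IsAlgClosed Ω] (φ : R →+* Ω), φ ρ ≠ 0 →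
        ∃ χ : T →+* Ω, χ.comp (algebraMap R T) = φ ∧ χ b ≠ 0 := by
  intro b hb
  have hι : Function.Injective ((Subalgebra.inclusion hST : S →ₐ[R] T) : S →+* T) :=
    Subalgebra.inclusion_injective hST
  obtain ⟨ρ', hρ', h'⟩ := N1_step ((Subalgebra.inclusion hST : S →ₐ[R] T) : S →+* T) hι _
    (N1_surj S T hST x hx hT) b hb
  obtain ⟨ρ, hρ, h⟩ := ih ρ' hρ'
  refine ⟨ρ, hρ, ?_⟩
  intro Ω _ _ φ hφ
  obtain ⟨χ', hχ'1, hχ'2⟩ := h Ω φ hφ
  obtain ⟨χ, hχ1, hχ2⟩ := h' Ω χ' hχ'2
  refine ⟨χ, ?_, hχ2⟩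
  rw [← hχ'1, ← hχ1, RingHom.comp_assoc]
  congr 1

/-- subalgebras generated by finite sets -/
private theorem N1_adjoin {R D : Type} [CommRing R] [CommRing D] [IsDomain D] [Algebra R D]
    (hinj : Function.Injective (algebraMap R D)) (s : Finset D) :
    ∀ S : Subalgebra R D, S = Algebra.adjoin R (s : Set D) → ∀ b : S, b ≠ 0 →
      ∃ ρ : R, ρ ≠ 0 ∧ ∀ (Ω : Type) [Field Ω] [IsAlgClosed Ω] (φ : R →+* Ω), φ ρ ≠ 0 →
        ∃ χ : S →+* Ω, χ.comp (algebraMap R S) = φ ∧ χ b ≠ 0 := by
  classical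
  induction s using Finset.induction_on with
  | empty =>
    intro S hS
    rw [Finset.coe_empty, Algebra.adjoin_empty] at hS
    exact N1_bot hinj S hS
  | insert x s hx ih =>
    intro T hT
    rw [Finset.coe_insert] at hT
    have hST : Algebra.adjoin R (s : Set D) ≤ T := by
      rw [hT]
      exact Algebra.adjoin_mono (Set.subset_insert _ _)
    have hxT : x ∈ T := by
      rw [hT]
      exact Algebra.subset_adjoin (Set.mem_insert _ _)
    refine N1_next (Algebra.adjoin R (s : Set D)) T hST x hxT ?_ (ih _ rfl)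
    rw [hT]
    exact Algebra.adjoin_mono (Set.insert_subset_insert Algebra.subset_adjoin)

theorem W_N1 (R D : Type) [CommRing R] [CommRing D] [IsDomain D] [Algebra R D]
    [Algebra.FiniteType R D] (hinj : Function.Injective (algebraMap R D)) (b : D) (hb : b ≠ 0) :
    ∃ ρ : R, ρ ≠ 0 ∧ ∀ (Ω : Type) [Field Ω] [IsAlgClosed Ω] (φ : R →+* Ω), φ ρ ≠ 0 →
      ∃ χ : D →+* Ω, χ.comp (algebraMap R D) = φ ∧ χ b ≠ 0 := by
  obtain ⟨s, hs⟩ := Algebra.FiniteType.out (R := R) (A := D)
  obtain ⟨ρ, hρ, h⟩ := N1_adjoin hinj s ⊤ hs.symm ⟨b, Algebra.mem_top⟩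
    (fun h0 => hb (congrArg Subtype.val h0))
  refine ⟨ρ, hρ, ?_⟩
  intro Ω _ _ φ hφ
  obtain ⟨χ, hχ1, hχ2⟩ := h Ω φ hφ
  let j : D →+* (⊤ : Subalgebra R D) :=
    { toFun := fun d => ⟨d, Algebra.mem_top⟩
      map_one' := rfl
      map_mul' := fun _ _ => rfl
      map_zero' := rfl
      map_add' := fun _ _ => rfl }
  refine ⟨χ.comp j, ?_, hχ2⟩
  rw [← hχ1, RingHom.comp_assoc]
  congr 1

end Pool.Agent.LibHP
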