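import Pool.Agent.LibW64P.Defs
import Pool.Agent.LibW64P.N1

/-! # Row CH: geometric points of the ramification divisor above general points

Plan. `R3 := Algebra.adjoin A0 {α} ⊆ N` (or the range of `A0[Y] → N`, `Y ↦ α`), `D3 := S.C ⧸ S.ζ`, a
domain, finitely generated over `k` (`S.fg`), so over `R3`; `R3 → S.C → D3` is injective: its kernel `I`
is an ideal of the domain `R3`, integral over `A0`, with `I ∩ A0 = 0` (`S.hζA`, `S.h0`; `A0 ≤ A1`), and a
nonzero element of `I` would have a nonzero multiple in `A0` (constant term of an integral equation of minimal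
degree). `W_N1` with `b := 1` gives `ρ3 ∈ R3`, `ρ3 ≠ 0`; a multiple `ρ` of `ρ3` in `R3` is a nonzero
element of `A0`. Given `φ0` with `φ0 ρ ≠ 0` and a root `a`: `R3 ≅ A0[Y] ⧸ (h)`, since `h` is monic and is
the minimal polynomial of `α` over `K`; so there is `φ : R3 →+* AlgebraicClosure k` with `φ c = φ0 c` for
`c ∈ A0` and `φ α = a`; `φ ρ3 ≠ 0` as `φ ρ ≠ 0`. The extension `D3 → AlgebraicClosure k` is
`k`-linear, since `k ⊆ A0`. -/

set_option autoImplicit false
open Polynomial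

namespace Pool.Agent.LibHP

private theorem CH_inj {k K N : Type} [Field k] [Field K] [Algebra k K] [Field N] [Algebra K N]
    [FiniteDimensional K N] (A0 : Subalgebra k K) (α : N) (h : A0[X]) (hh : h.Monic)
    (hmin : h.map (A0.val : A0 →+* K) = minpoly K α)
    (f : AdjoinRoot h →+* N) (hf : ∀ g : A0[X], f (AdjoinRoot.mk h g) =
      g.eval₂ ((algebraMap K N).comp (A0.val : A0 →+* K)) α) : Function.Injective f := by
  rw [injective_iff_map_eq_zero]
  intro x hx
  obtain ⟨g, rfl⟩ := AdjoinRoot.mk_surjective x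
  have h1 : AdjoinRoot.mk h g = AdjoinRoot.mk h (g %ₘ h) := by
    rw [AdjoinRoot.mk_eq_mk]
    have h0 := modByMonic_add_div g h
    exact ⟨g /ₘ h, by linear_combination -h0⟩
  rw [h1] at hx ⊢
  rw [hf, ← eval₂_map, ← aeval_def] at hx
  have h2 := minpoly.dvd K α hx
  have hinj : Function.Injective (A0.val : A0 →+* K) := Subtype.val_injective
  have h3 : (g %ₘ h).map (A0.val : A0 →+* K) = 0 := by
    apply eq_zero_of_dvd_of_degree_lt h2
    rw [← hmin, degree_map_eq_of_injective hinj, degree_map_eq_of_injective hinj]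
    exact degree_modByMonic_lt g hh
  rw [Polynomial.map_eq_zero_iff hinj] at h3
  rw [h3, map_zero]

theorem W_CH {k K N : Type} [Field k] [Field K] [Algebra k K] [Field N] [Algebra K N]
    [Algebra k N] [IsScalarTower k K N] [FiniteDimensional K N] (A1 A0 : Subalgebra k K)
    (hle : A0 ≤ A1) (S : Spr A1 A0 N) (α : N) (hα : α ∈ S.C) (h : A0[X]) (hh : h.Monic)
    (hmin : h.map (A0.val : A0 →+* K) = minpoly K α) :
    ∃ ρ : A0, ρ ≠ 0 ∧ ∀ φ0 : A0 →ₐ[k] k, φ0 ρ ≠ 0 → ChiAt S α h φ0 := by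
  have hA0C : ∀ c : A0, algebraMap K N c ∈ S.C := by
    intro c
    have h1 := (S.hC 1).1 S.C.one_mem
    rw [S.hC]
    intro i
    have h2 : algebraMap K N (c : K) = (c : K) • (1 : N) := by rw [Algebra.smul_def, mul_one]
    rw [h2, map_smul, Finsupp.smul_apply, smul_eq_mul]
    refine (locA A1 S.b).mul_mem ?_ (h1 i)
    exact ⟨0, by rw [pow_zero, mul_one]; exact hle c.2⟩
  obtain ⟨i, hi⟩ : ∃ i : A0 →+* S.C, ∀ c : A0, i c = ⟨algebraMap K N c, hA0C c⟩ :=
    ⟨{ toFun := fun c => ⟨algebraMap K N c, hA0C c⟩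
       map_one' := by apply Subtype.ext; simp
       map_mul' := fun x y => by apply Subtype.ext; simp
       map_zero' := by apply Subtype.ext; simp
       map_add' := fun x y => by apply Subtype.ext; simp }, fun c => rfl⟩
  have hic : (S.C.val : S.C →+* N).comp i = (algebraMap K N).comp (A0.val : A0 →+* K) := by
    ext c
    simp [hi]
  have hiα : h.eval₂ i (⟨α, hα⟩ : S.C) = 0 := by
    apply Subtype.ext
    have h1 : ((S.C.val : S.C →+* N) (h.eval₂ i (⟨α, hα⟩ : S.C))) = 0 := by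
      rw [hom_eval₂, hic, ← eval₂_map, hmin]
      exact minpoly.aeval K α
    exact h1
  obtain ⟨j, hj⟩ : ∃ j : AdjoinRoot h →+* S.C, j = AdjoinRoot.lift i ⟨α, hα⟩ hiα := ⟨_, rfl⟩
  have hjmk : ∀ g : A0[X], j (AdjoinRoot.mk h g) = g.eval₂ i ⟨α, hα⟩ := by
    intro g; rw [hj, AdjoinRoot.lift_mk]
  have hjof : ∀ c : A0, j (AdjoinRoot.of h c) = ⟨algebraMap K N c, hA0C c⟩ := by
    intro c; rw [hj, AdjoinRoot.lift_of, hi]
  have hjroot : j (AdjoinRoot.root h) = ⟨α, hα⟩ := by rw [hj, AdjoinRoot.lift_root]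
  have hinjN : Function.Injective ((S.C.val : S.C →+* N).comp j) := by
    apply CH_inj A0 α h hh hmin
    intro g
    rw [RingHom.comp_apply, hjmk, hom_eval₂, hic]
    rfl
  have hdom : IsDomain (AdjoinRoot h) := hinjN.isDomain _
  have hint : ∀ x : AdjoinRoot h, IsIntegral A0 x := by
    intro x
    have := hh.finite_adjoinRoot
    exact Algebra.IsIntegral.isIntegral x
  have hA0inj : ∀ c : A0, c ≠ 0 → (j (AdjoinRoot.of h c)) ∉ S.ζ := by
    intro c hc hz
    rw [hjof] at hz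
    have h1 := S.hζA ⟨c, hle c.2⟩ (hA0C c) hz
    have h2 := S.h0 ⟨c, hle c.2⟩ c.2 h1
    apply hc
    apply Subtype.ext
    have h3 : ((⟨c, hle c.2⟩ : A1) : K) = ((0 : A1) : K) := congrArg Subtype.val h2
    exact h3
  have hI : (S.ζ.comap j) = ⊥ := by
    rw [eq_bot_iff]
    intro x hx
    by_contra hx0
    have h1 := Ideal.comap_ne_bot_of_integral_mem (R := A0) (I := S.ζ.comap j) hx0 hx (hint x)
    obtain ⟨c, hc, hc0⟩ := Submodule.exists_mem_ne_zero_of_ne_bot h1
    exact hA0inj c hc0 hc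
  obtain ⟨D, hD⟩ : ∃ D : AdjoinRoot h →+* (S.C ⧸ S.ζ), D = (Ideal.Quotient.mk S.ζ).comp j := ⟨_, rfl⟩
  have hDinj : Function.Injective D := by
    rw [injective_iff_map_eq_zero]
    intro x hx
    rw [hD, RingHom.comp_apply, Ideal.Quotient.eq_zero_iff_mem] at hx
    have : x ∈ S.ζ.comap j := hx
    rw [hI] at this
    exact this
  have hprime : S.ζ.IsPrime := S.hζ
  letI algD : Algebra (AdjoinRoot h) (S.C ⧸ S.ζ) := D.toAlgebra
  have hft0 : Algebra.FiniteType k S.C := S.C.fg_iff_finiteType.1 S.fg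
  have hft1 : Algebra.FiniteType k (S.C ⧸ S.ζ) :=
    hft0.of_surjective (Ideal.Quotient.mkₐ k S.ζ) (Ideal.Quotient.mkₐ_surjective k S.ζ)
  have hkj : ∀ r : k, j (AdjoinRoot.of h (algebraMap k A0 r)) = algebraMap k S.C r := by
    intro r
    rw [hjof]
    apply Subtype.ext
    exact (IsScalarTower.algebraMap_apply k K N r).symm
  have hst : IsScalarTower k (AdjoinRoot h) (S.C ⧸ S.ζ) := by
    apply IsScalarTower.of_algebraMap_eq
    intro r
    have h1 : algebraMap (AdjoinRoot h) (S.C ⧸ S.ζ) = D := rfl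
    have h2 : algebraMap k (AdjoinRoot h) r = AdjoinRoot.of h (algebraMap k A0 r) := rfl
    rw [h1, h2, hD, RingHom.comp_apply, hkj]
    rfl
  have hft : Algebra.FiniteType (AdjoinRoot h) (S.C ⧸ S.ζ) :=
    Algebra.FiniteType.of_restrictScalars_finiteType k (AdjoinRoot h) (S.C ⧸ S.ζ)
  obtain ⟨ρ3, hρ3, hext⟩ := W_N1 (AdjoinRoot h) (S.C ⧸ S.ζ) hDinj 1 one_ne_zero
  have h5 := Ideal.comap_ne_bot_of_integral_mem (R := A0) (I := Ideal.span {ρ3}) hρ3
    (Ideal.mem_span_singleton_self ρ3) (hint ρ3)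
  obtain ⟨ρ, hρ, hρ0⟩ := Submodule.exists_mem_ne_zero_of_ne_bot h5
  rw [Ideal.mem_comap, Ideal.mem_span_singleton] at hρ
  obtain ⟨t, ht⟩ := hρ
  refine ⟨ρ, hρ0, fun φ0 hφ a ha => ?_⟩
  have hev : h.eval₂ ((algebraMap k (AlgebraicClosure k)).comp (φ0 : A0 →+* k))
      (algebraMap k (AlgebraicClosure k) a) = 0 := by
    rw [← hom_eval₂, ← eval_map]
    rw [IsRoot.def] at ha
    rw [ha, map_zero]
  obtain ⟨φ, hφd⟩ : ∃ φ : AdjoinRoot h →+* AlgebraicClosure k,
      φ = AdjoinRoot.lift ((algebraMap k (AlgebraicClosure k)).comp (φ0 : A0 →+* k))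
        (algebraMap k (AlgebraicClosure k) a) hev := ⟨_, rfl⟩
  have hφof : ∀ c : A0, φ (AdjoinRoot.of h c) = algebraMap k (AlgebraicClosure k) (φ0 c) := by
    intro c; rw [hφd, AdjoinRoot.lift_of]; rfl
  have hφroot : φ (AdjoinRoot.root h) = algebraMap k (AlgebraicClosure k) a := by
    rw [hφd, AdjoinRoot.lift_root]
  have hφρ : φ ρ3 ≠ 0 := by
    intro h0
    have h1 : φ (AdjoinRoot.of h ρ) = 0 := by
      have h2 : AdjoinRoot.of h ρ = ρ3 * t := ht
      rw [h2, map_mul, h0, zero_mul]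
    rw [hφof] at h1
    exact hφ ((map_eq_zero (algebraMap k (AlgebraicClosure k))).1 h1)
  obtain ⟨χ', hχ', -⟩ := hext (AlgebraicClosure k) φ hφρ
  have hχj : ∀ x : AdjoinRoot h, χ' (Ideal.Quotient.mk S.ζ (j x)) = φ x := by
    intro x
    rw [← hχ', RingHom.comp_apply]
    congr 1
    have h1 : algebraMap (AdjoinRoot h) (S.C ⧸ S.ζ) = D := rfl
    rw [h1, hD]
    rfl
  refine ⟨{ χ'.comp (Ideal.Quotient.mk S.ζ) with
    commutes' := fun r => ?_ }, ?_, ?_, ?_⟩
  · change χ' (Ideal.Quotient.mk S.ζ (algebraMap k S.C r)) = _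
    rw [← hkj, hχj, hφof, AlgHom.commutes]
    rfl
  · intro c hc
    change χ' (Ideal.Quotient.mk S.ζ _) = _
    have := hχj (AdjoinRoot.of h c)
    rw [hjof, hφof] at this
    exact this
  · intro hα'
    change χ' (Ideal.Quotient.mk S.ζ _) = _
    have := hχj (AdjoinRoot.root h)
    rw [hjroot, hφroot] at this
    exact this
  · intro z hz
    change χ' (Ideal.Quotient.mk S.ζ z) = 0
    rw [Ideal.Quotient.eq_zero_iff_mem.2 hz, map_zero]

end Pool.Agent.LibHP
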