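import Pool.Agent.LibHPF.V7

/-! # Row N4: ramification over a discrete valuation ring

Plan. By contradiction, as in `etale_of_div'` (LibHPF/V7.lean): assume that there is no such `ϖ`, show
`Algebra.Etale O (integralClosure O N)`. The only point which changes is the proof of `e = 1` there
(`he1`): for a maximal ideal `q` of `C := integralClosure O N` let `e` be the exponent with
`π ∈ q ^ e`, `∉ q ^ (e + 1)`. `C` is a Dedekind domain with finitely many maximal ideals (all above the
maximal ideal of `O`), so it is a principal ideal ring (`IsPrincipalIdealRing.of_finite_maximals` or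
`IsDedekindDomain` + finite spectrum); let `q = (ϖ)`. If `e ≥ 2`, `ϖ ^ 2 ∣ π` and `ϖ` is not a unit,
against the assumption. -/

set_option autoImplicit false
open Polynomial

namespace Pool.Agent.LibHP

theorem W_N4 (O K N : Type) [CommRing O] [IsDomain O] [IsDiscreteValuationRing O]
    [Field K] [CharZero K] (hQ : ∀ n : ℕ, n ≠ 0 → IsUnit (n : O))
    [Algebra O K] [IsFractionRing O K] [Field N] [Algebra K N] [Algebra O N]
    [IsScalarTower O K N] [FiniteDimensional K N]
    (h : ¬ Algebra.Etale O (integralClosure O N)) (π : O) (hπ : Irreducible π) :
    ∃ ϖ c : integralClosure O N, ¬ IsUnit ϖ ∧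
      algebraMap O (integralClosure O N) π = ϖ ^ 2 * c := by
  by_contra hcon
  apply h
  have hfin : Module.Finite O (integralClosure O N) :=
    IsIntegralClosure.finite O K N (integralClosure O N)
  have hded : IsDedekindDomain (integralClosure O N) := integralClosure.isDedekindDomain O K N
  have hinjOL : Function.Injective (algebraMap O N) := by
    rw [IsScalarTower.algebraMap_eq O K N]
    exact (algebraMap K N).injective.comp (IsFractionRing.injective O K)
  have hinj : Function.Injective (algebraMap O (integralClosure O N)) := fun x y h =>
    hinjOL (congrArg (fun z : integralClosure O N => (z : N)) h)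
  have hfs : FaithfulSMul O (integralClosure O N) :=
    (faithfulSMul_iff_algebraMap_injective _ _).2 hinj
  have hfree : Module.Free O (integralClosure O N) := inferInstance
  have hfp : Algebra.FinitePresentation O (integralClosure O N) :=
    (Algebra.FinitePresentation.of_finiteType (R := O)).1 inferInstance
  have hchar : CharZero O :=
    ⟨fun a b h => by
      have h' := congrArg (algebraMap O K) h
      simpa using h'⟩
  have hunder : ∀ q : Ideal (integralClosure O N), q.IsMaximal →
      q.under O = IsLocalRing.maximalIdeal O := by
    intro q hq
    have h1 : (q.under O).IsMaximal := inferInstance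
    exact IsLocalRing.eq_maximalIdeal h1
  have hfinmax : {I : Ideal (integralClosure O N) | I.IsMaximal}.Finite := by
    refine (IsDedekindDomain.primesOver_finite (B := integralClosure O N)
      (IsLocalRing.maximalIdeal O)).subset ?_
    intro I hI
    exact ⟨hI.isPrime, ⟨(hunder I hI).symm⟩⟩
  have hpid : IsPrincipalIdealRing (integralClosure O N) :=
    IsPrincipalIdealRing.of_finite_maximals hfinmax
  have hunr : Algebra.FormallyUnramified O (integralClosure O N) := by
    rw [Algebra.formallyUnramified_iff_forall]
    rintro ⟨q, hq⟩
    rcases eq_or_ne q ⊥ with rfl | hq0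
    · exact Algebra.isUnramifiedAt_bot
    have hqm : q.IsMaximal := hq.isMaximal hq0
    have hcz : CharZero (q.under O).ResidueField := by
      refine charZero_of_inj_zero fun n hn => ?_
      by_contra hn0
      have h1 : IsUnit (algebraMap O (q.under O).ResidueField (n : O)) := (hQ n hn0).map _
      rw [map_natCast, hn] at h1
      exact not_isUnit_zero h1
    have hperf : PerfectField (q.under O).ResidueField := inferInstance
    obtain ⟨ϖ, hϖ⟩ := (IsPrincipalIdealRing.principal q).principal
    have hϖ' : q = Ideal.span {ϖ} := hϖ
    have hmem : algebraMap O (integralClosure O N) π ∈ q := by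
      have h1 : π ∈ q.under O := by
        rw [hunder q hqm]
        rw [hπ.maximalIdeal_eq]
        exact Ideal.mem_span_singleton_self π
      exact h1
    have hdvd : ϖ ∣ algebraMap O (integralClosure O N) π := by
      rw [hϖ'] at hmem
      exact Ideal.mem_span_singleton.1 hmem
    obtain ⟨b, hb⟩ := hdvd
    have hbq : b ∉ q := by
      intro hbq
      rw [hϖ'] at hbq
      obtain ⟨c, hc⟩ := Ideal.mem_span_singleton.1 hbq
      refine hcon ⟨ϖ, c, ?_, ?_⟩
      · intro hu
        apply hq.ne_top
        rw [hϖ']
        exact Ideal.span_singleton_eq_top.2 hu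
      · rw [hb, hc]
        ring
    have hunit : IsUnit (algebraMap (integralClosure O N) (Localization.AtPrime q) b) :=
      IsLocalization.map_units (Localization.AtPrime q) (⟨b, hbq⟩ : q.primeCompl)
    rw [← Ideal.ramificationIdx_eq_one_iff, Ideal.ramificationIdx_def,
      ENat.toNat_eq_iff_eq_natCast, Nat.cast_one, Module.length_eq_one_iff,
      isSimpleModule_iff_isCoatom, ← Ideal.isMaximal_def, IsLocalRing.isMaximal_iff,
      hunder q hqm, hπ.maximalIdeal_eq, Ideal.map_span, Set.image_singleton,
      IsScalarTower.algebraMap_apply O (integralClosure O N) (Localization.AtPrime q), hb, map_mul,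
      Ideal.span_singleton_mul_right_unit hunit, ← Localization.AtPrime.map_eq_maximalIdeal (I := q)]
    have h5 := congrArg (Ideal.map (algebraMap (integralClosure O N) (Localization.AtPrime q))) hϖ'
    rw [h5, Ideal.map_span, Set.image_singleton]
  exact Algebra.Etale.of_formallyUnramified_of_flat

end Pool.Agent.LibHP
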