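import Pool.Agent.LibW64P.Defs
import Pool.Agent.LibW64P.N4

/-! # Row N5: spreading out a ramified point

Plan. Unpack `RamHor`: `𝔭`, `O`. `O` is the localization of `A1` at `𝔭` (in `K`). The maximal ideal of `O`
is generated by (the image of) some `π ∈ 𝔭` (`O` is a discrete valuation ring; multiply a uniformizer by
an element of `A1` outside `𝔭`), `π ≠ 0`. `hQ` of `W_N4`: `k ⊆ A1`, the integers are units in `k`.
`Cl := integralClosure O N` is a free `O`-module of finite rank (`IsIntegralClosure.finite`, torsion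
free over a principal ideal domain), with a basis `f_1, ..., f_n` which is also a `K`-basis of `N`
(localization: `Module.Basis.ofIsLocalizedModule` or `IsIntegralClosure` results; `n = finrank K N`).
`W_N4`: `ϖ, c ∈ Cl`, `π = ϖ ^ 2 c`, `ϖ` not a unit, so `ϖ` is in a maximal ideal `Z` of `Cl`; `Z`
lies over the maximal ideal of `O`.
Finitely many elements of `O`: the coordinates of `1`, `f_i f_j`, `ϖ`, `c`, `x`, and for the
generators `a_l` of the ideal `𝔭` (`A1` is Noetherian) the quotients `a_l / π`. Choose `b' ∈ A1`,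
`b' ∉ 𝔭` with `b' z ∈ A1` for all of them, `b := g b'`, `C := {z | all coordinates of z are in A1[1/b]}`,
a `k`-subalgebra of `N` (contains `1`; products `f_i f_j`), `ζ := Z ∩ C` (`C ⊆ Cl`: `locA A1 b ⊆ O`
as `b ∉ 𝔭`). `hgen`: `b ^ m a = π y`. `fg`: `C` is generated by (the images of) generators of `A1`,
`b⁻¹` and the `f_i`. `hζA`: `a ∈ Z ∩ A1` is in the maximal ideal of `O`, so in `𝔭`. -/

set_option autoImplicit false
open Polynomial

namespace Pool.Agent.LibHP

private theorem N5_denoms {k K : Type} [Field k] [Field K] [Algebra k K] (A1 : Subalgebra k K)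
    (𝔭 : Ideal A1) (h𝔭 : 𝔭.IsPrime) (t : Finset K)
    (ht : ∀ z ∈ t, ∃ a b : A1, b ∉ 𝔭 ∧ z * b = a) :
    ∃ b : A1, b ∉ 𝔭 ∧ ∀ z ∈ t, z * (b : K) ∈ A1 := by
  classical
  induction t using Finset.induction_on with
  | empty =>
    exact ⟨1, fun h => h𝔭.ne_top ((Ideal.eq_top_iff_one _).2 h), fun z hz => by simp at hz⟩
  | insert z t hz ih =>
    obtain ⟨b, hb, hbt⟩ := ih (fun z hz => ht z (Finset.mem_insert_of_mem hz))
    obtain ⟨a, b', hb', hab⟩ := ht z (Finset.mem_insert_self _ _)
    refine ⟨b' * b, fun h => (h𝔭.mem_or_mem h).elim hb' hb, fun w hw => ?_⟩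
    rcases Finset.mem_insert.1 hw with rfl | hw
    · have : w * ((b' * b : A1) : K) = ((a * b : A1) : K) := by
        push_cast
        rw [← hab]
        ring
      rw [this]
      exact (a * b).2
    · have : w * ((b' * b : A1) : K) = (b' : K) * (w * (b : K)) := by
        push_cast
        ring
      rw [this]
      exact A1.mul_mem b'.2 (hbt w hw)

private theorem N5_locA_mul {k K : Type} [Field k] [Field K] [Algebra k K] (A : Subalgebra k K)
    (b : A) {z : K} (h : z * (b : K) ∈ A) : z ∈ locA A b := ⟨1, by rw [pow_one]; exact h⟩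

private theorem N5_locA_of_mem {k K : Type} [Field k] [Field K] [Algebra k K] (A : Subalgebra k K)
    (b : A) {z : K} (h : z ∈ A) : z ∈ locA A b := ⟨0, by rw [pow_zero, mul_one]; exact h⟩

theorem W_N5 {k K N : Type} [Field k] [CharZero k] [Field K] [Algebra k K] [Field N] [Algebra K N]
    [Algebra k N] [IsScalarTower k K N] [FiniteDimensional K N] (A1 A0 : Subalgebra k K)
    (hfg : A1.FG) (hfr : ∀ c : K, ∃ u w : K, u ∈ A1 ∧ w ∈ A1 ∧ w ≠ 0 ∧ c * w = u)
    (hram : RamHor A1 A0 N) :
    ∃ 𝔭 : Ideal A1, 𝔭.IsPrime ∧ (∀ a : A1, (a : K) ∈ A0 → a ∈ 𝔭 → a = 0) ∧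
      ∀ g : A1, g ∉ 𝔭 → ∀ x : N, (∃ p : A1[X], p.Monic ∧
        p.eval₂ ((algebraMap K N).comp (A1.val : A1 →+* K)) x = 0) →
        ∃ S : Spr A1 A0 N, S.𝔭 = 𝔭 ∧ (∃ g' : A1, S.b = g * g') ∧ x ∈ S.C := by
  classical
  obtain ⟨𝔭, O, i1, i2, i3, i4, h𝔭, h0, hdvr, hfrac, htow, hO, hne⟩ := hram
  refine ⟨𝔭, h𝔭, h0, ?_⟩
  intro g hg x hx
  have hcK : CharZero K := charZero_of_injective_algebraMap (algebraMap k K).injective
  have hinjK : Function.Injective (algebraMap O K) := IsFractionRing.injective O K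
  have h1𝔭 : (1 : A1) ∉ 𝔭 := fun h => h𝔭.ne_top ((Ideal.eq_top_iff_one _).2 h)
  -- the map from `A1` to `O`
  have hA1O : ∀ a : A1, (a : K) ∈ (algebraMap O K).range := by
    intro a
    have := (hO (a : K)).2 ⟨a, 1, h1𝔭, by rw [OneMemClass.coe_one, mul_one]⟩
    exact this
  obtain ⟨j, hj⟩ : ∃ j : A1 →+* O, ∀ a : A1, algebraMap O K (j a) = a := by
    let e : O ≃+* (algebraMap O K).range :=
      RingEquiv.ofBijective (algebraMap O K).rangeRestrict
        ⟨fun x y h => hinjK (congrArg Subtype.val h), (algebraMap O K).rangeRestrict_surjective⟩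
    refine ⟨(e.symm : (algebraMap O K).range →+* O).comp
      ((A1.val : A1 →+* K).codRestrict (algebraMap O K).range hA1O), fun a => ?_⟩
    have h1 := e.apply_symm_apply ⟨(a : K), hA1O a⟩
    exact congrArg Subtype.val h1
  have hjunit : ∀ b : A1, b ∉ 𝔭 → IsUnit (j b) := by
    intro b hb
    have hb0 : (b : K) ≠ 0 := by
      intro h
      apply hb
      have : b = 0 := Subtype.ext h
      rw [this]
      exact 𝔭.zero_mem
    obtain ⟨u, hu⟩ := (hO ((b : K)⁻¹)).2 ⟨1, b, hb, by
      rw [inv_mul_cancel₀ hb0, OneMemClass.coe_one]⟩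
    refine IsUnit.of_mul_eq_one u (hinjK ?_)
    rw [map_mul, hj, hu, mul_inv_cancel₀ hb0, map_one]
  have hjnon : ∀ a : A1, a ∈ 𝔭 → ¬ IsUnit (j a) := by
    intro a ha hu
    obtain ⟨z, hz⟩ := hu.exists_right_inv
    obtain ⟨a', b', hb', hab⟩ := (hO (algebraMap O K z)).1 ⟨z, rfl⟩
    apply hb'
    have h1 := congrArg (algebraMap O K) hz
    rw [map_mul, hj, map_one] at h1
    have h2 : b' = a * a' := by
      apply Subtype.ext
      push_cast
      rw [← hab, ← mul_assoc, h1, one_mul]
    rw [h2]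
    exact 𝔭.mul_mem_right _ ha
  -- the uniformizer
  obtain ⟨π00, hπ00⟩ := IsDiscreteValuationRing.exists_irreducible O
  obtain ⟨π, bπ, hbπ, hπb⟩ := (hO (algebraMap O K π00)).1 ⟨π00, rfl⟩
  have hjπ : j π = π00 * j bπ := by
    apply hinjK
    rw [map_mul, hj, hj, hπb]
  have hirr : Irreducible (j π) := by
    rw [hjπ]
    exact (irreducible_mul_isUnit (hjunit bπ hbπ)).2 hπ00
  have hπ : π ∈ 𝔭 := by
    by_contra h
    exact hirr.not_isUnit (hjunit π h)
  have hπ0 : π ≠ 0 := by
    intro h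
    apply hirr.ne_zero
    rw [h, map_zero]
  have hπ0K : (π : K) ≠ 0 := fun h => hπ0 (Subtype.ext h)
  -- integers are units
  have hQ : ∀ n : ℕ, n ≠ 0 → IsUnit (n : O) := by
    intro n hn
    have hnk : (n : k) ≠ 0 := Nat.cast_ne_zero.2 hn
    have h1 : j (algebraMap k A1 (n : k)) = (n : O) := by
      rw [map_natCast, map_natCast]
    rw [← h1]
    apply hjunit
    intro h
    apply h1𝔭
    have h2 : (1 : A1) = algebraMap k A1 ((n : k)⁻¹) * algebraMap k A1 (n : k) := by
      rw [← map_mul, inv_mul_cancel₀ hnk, map_one]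
    rw [h2]
    exact 𝔭.mul_mem_left _ h
  obtain ⟨ϖ, c, hϖu, hϖc⟩ := W_N4 O K N hQ hne (j π) hirr
  -- the integral closure
  have hfin : Module.Finite O (integralClosure O N) :=
    IsIntegralClosure.finite O K N (integralClosure O N)
  have hinjON : Function.Injective (algebraMap O N) := by
    rw [IsScalarTower.algebraMap_eq O K N]
    exact (algebraMap K N).injective.comp hinjK
  have hinj : Function.Injective (algebraMap O (integralClosure O N)) := fun x y h =>
    hinjON (congrArg (fun z : integralClosure O N => (z : N)) h)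
  have hfs : FaithfulSMul O (integralClosure O N) :=
    (faithfulSMul_iff_algebraMap_injective _ _).2 hinj
  have hfree : Module.Free O (integralClosure O N) := inferInstance
  have hloc : IsLocalization (Algebra.algebraMapSubmonoid (integralClosure O N) (nonZeroDivisors O)) N :=
    IsIntegralClosure.isLocalization O K N (integralClosure O N)
  obtain ⟨n, ⟨f0⟩⟩ : ∃ n : ℕ, Nonempty (Module.Basis (Fin n) O (integralClosure O N)) :=
    ⟨_, ⟨Module.finBasis O (integralClosure O N)⟩⟩
  obtain ⟨f, hf⟩ : ∃ f : Module.Basis (Fin n) K N, f = f0.localizationLocalization K (nonZeroDivisors O) N :=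
    ⟨_, rfl⟩
  have hfapp : ∀ i, f i = ((f0 i : integralClosure O N) : N) := by
    intro i
    rw [hf, Module.Basis.localizationLocalization_apply]
    rfl
  have hfrepr : ∀ (y : integralClosure O N) i, f.repr (y : N) i = algebraMap O K (f0.repr y i) := by
    intro y i
    rw [hf]
    exact Module.Basis.localizationLocalization_repr_algebraMap K (nonZeroDivisors O) N f0 y i
  have hfO : ∀ y : N, y ∈ integralClosure O N → ∀ i, ∃ a b : A1, b ∉ 𝔭 ∧ f.repr y i * b = a := by
    intro y hy i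
    have h1 := hfrepr ⟨y, hy⟩ i
    have h2 : f.repr y i ∈ Set.range (algebraMap O K) := ⟨_, h1.symm⟩
    exact (hO _).1 h2
  -- `x` is integral
  have hxO : x ∈ integralClosure O N := by
    obtain ⟨p, hpm, hp⟩ := hx
    refine ⟨p.map j, hpm.map _, ?_⟩
    rw [Polynomial.eval₂_map]
    have h1 : (algebraMap O N).comp j = (algebraMap K N).comp (A1.val : A1 →+* K) := by
      ext a
      simp only [RingHom.comp_apply]
      rw [IsScalarTower.algebraMap_apply O K N, hj]
      rfl
    rw [h1]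
    exact hp
  -- generators of `𝔭`
  have hNoe : IsNoetherianRing A1 := by
    have : Algebra.FiniteType k A1 := A1.fg_iff_finiteType.1 hfg
    exact Algebra.FiniteType.isNoetherianRing k A1
  obtain ⟨gen, hgen⟩ := (isNoetherianRing_iff_ideal_fg A1).1 hNoe 𝔭
  have hgenO : ∀ a ∈ 𝔭, ∃ a' b : A1, b ∉ 𝔭 ∧ ((a : K) / (π : K)) * b = a' := by
    intro a ha
    have h1 : j a ∈ IsLocalRing.maximalIdeal O :=
      (IsLocalRing.mem_maximalIdeal _).2 (hjnon a ha)
    rw [hirr.maximalIdeal_eq, Ideal.mem_span_singleton] at h1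
    obtain ⟨z, hz⟩ := h1
    have h2 : (a : K) / (π : K) = algebraMap O K z := by
      rw [div_eq_iff hπ0K, ← hj a, hz, map_mul, hj]
      ring
    rw [h2]
    exact (hO _).1 ⟨z, rfl⟩
  -- the finite set
  obtain ⟨t, ht⟩ : ∃ t : Finset K, t =
      (Finset.univ.image fun i : Fin n => f.repr (1 : N) i) ∪
      (Finset.univ.image fun p : Fin n × Fin n × Fin n => f.repr (f p.1 * f p.2.1) p.2.2) ∪
      (Finset.univ.image fun i : Fin n => f.repr (ϖ : N) i) ∪
      (Finset.univ.image fun i : Fin n => f.repr (c : N) i) ∪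
      (Finset.univ.image fun i : Fin n => f.repr x i) ∪
      (gen.image fun a : A1 => (a : K) / (π : K)) := ⟨_, rfl⟩
  have hfmem : ∀ i, f i ∈ integralClosure O N := fun i => by rw [hfapp]; exact (f0 i).2
  obtain ⟨b', hb', hb't⟩ := N5_denoms A1 𝔭 h𝔭 t (by
    intro z hz
    rw [ht] at hz
    simp only [Finset.mem_union, Finset.mem_image, Finset.mem_univ, true_and] at hz
    rcases hz with ((((⟨i, rfl⟩ | ⟨p, rfl⟩) | ⟨i, rfl⟩) | ⟨i, rfl⟩) | ⟨i, rfl⟩) | ⟨a, ha, rfl⟩
    · exact hfO 1 (Subalgebra.one_mem _) i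
    · exact hfO _ (Subalgebra.mul_mem _ (hfmem _) (hfmem _)) _
    · exact hfO _ ϖ.2 i
    · exact hfO _ c.2 i
    · exact hfO _ hxO i
    · exact hgenO a (by rw [← hgen]; exact Ideal.subset_span ha))
  obtain ⟨b, hbdef⟩ : ∃ b : A1, b = g * b' := ⟨_, rfl⟩
  have hb : b ∉ 𝔭 := by
    rw [hbdef]
    exact fun h => (h𝔭.mem_or_mem h).elim hg hb'
  have hb0K : (b : K) ≠ 0 := by
    intro h
    apply hb
    have : b = 0 := Subtype.ext h
    rw [this]
    exact 𝔭.zero_mem
  have hbt : ∀ z ∈ t, z * (b : K) ∈ A1 := by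
    intro z hz
    have : z * (b : K) = (g : K) * (z * (b' : K)) := by
      rw [hbdef]
      push_cast
      ring
    rw [this]
    exact A1.mul_mem g.2 (hb't z hz)
  have hloct : ∀ z ∈ t, z ∈ locA A1 b := fun z hz => N5_locA_mul A1 b (hbt z hz)
  have h1loc : ∀ i, f.repr (1 : N) i ∈ locA A1 b := fun i => hloct _ (by
    rw [ht]
    simp only [Finset.mem_union, Finset.mem_image, Finset.mem_univ, true_and]
    exact Or.inl (Or.inl (Or.inl (Or.inl (Or.inl ⟨i, rfl⟩)))))
  have hmloc : ∀ i i' l, f.repr (f i * f i') l ∈ locA A1 b := fun i i' l => hloct _ (by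
    rw [ht]
    simp only [Finset.mem_union, Finset.mem_image, Finset.mem_univ, true_and]
    exact Or.inl (Or.inl (Or.inl (Or.inl (Or.inr ⟨(i, i', l), rfl⟩)))))
  have hϖloc : ∀ i, f.repr (ϖ : N) i ∈ locA A1 b := fun i => hloct _ (by
    rw [ht]
    simp only [Finset.mem_union, Finset.mem_image, Finset.mem_univ, true_and]
    exact Or.inl (Or.inl (Or.inl (Or.inr ⟨i, rfl⟩))))
  have hcloc : ∀ i, f.repr (c : N) i ∈ locA A1 b := fun i => hloct _ (by
    rw [ht]
    simp only [Finset.mem_union, Finset.mem_image, Finset.mem_univ, true_and]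
    exact Or.inl (Or.inl (Or.inr ⟨i, rfl⟩)))
  have hxloc : ∀ i, f.repr x i ∈ locA A1 b := fun i => hloct _ (by
    rw [ht]
    simp only [Finset.mem_union, Finset.mem_image, Finset.mem_univ, true_and]
    exact Or.inl (Or.inr ⟨i, rfl⟩))
  have hgloc : ∀ a ∈ gen, (a : K) / (π : K) * (b : K) ∈ A1 := fun a ha => hbt _ (by
    rw [ht]
    simp only [Finset.mem_union, Finset.mem_image, Finset.mem_univ, true_and]
    exact Or.inr ⟨a, ha, rfl⟩)
  -- the algebra `C`
  have hCone : ∀ z : K, z ∈ locA A1 b → ∀ i, f.repr (algebraMap K N z) i ∈ locA A1 b := by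
    intro z hz i
    have h1 : algebraMap K N z = z • (1 : N) := by rw [Algebra.smul_def, mul_one]
    rw [h1, map_smul, Finsupp.smul_apply, smul_eq_mul]
    exact (locA A1 b).mul_mem hz (h1loc i)
  obtain ⟨C, hC⟩ : ∃ C : Subalgebra k N, ∀ z : N, z ∈ C ↔ ∀ i, f.repr z i ∈ locA A1 b := by
    refine ⟨{ carrier := {z | ∀ i, f.repr z i ∈ locA A1 b}
              mul_mem' := ?_
              add_mem' := ?_
              algebraMap_mem' := ?_ }, fun z => Iff.rfl⟩
    · intro z w hz hw l
      have h1 : z * w = ∑ i, ∑ i', (f.repr z i * f.repr w i') • (f i * f i') := by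
        conv_lhs => rw [← f.sum_repr z, ← f.sum_repr w]
        rw [Finset.sum_mul_sum]
        refine Finset.sum_congr rfl fun i _ => Finset.sum_congr rfl fun i' _ => ?_
        rw [smul_mul_smul_comm]
      rw [h1]
      simp only [map_sum, map_smul, Finsupp.coe_finset_sum, Finset.sum_apply, Finsupp.smul_apply,
        smul_eq_mul]
      exact (locA A1 b).sum_mem fun i _ => (locA A1 b).sum_mem fun i' _ =>
        (locA A1 b).mul_mem ((locA A1 b).mul_mem (hz i) (hw i')) (hmloc i i' l)
    · intro z w hz hw l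
      rw [map_add, Finsupp.add_apply]
      exact (locA A1 b).add_mem (hz l) (hw l)
    · intro r i
      rw [IsScalarTower.algebraMap_apply k K N]
      exact hCone _ ((locA A1 b).algebraMap_mem r) i
  have hCK : ∀ z : K, z ∈ locA A1 b → algebraMap K N z ∈ C := fun z hz => (hC _).2 (hCone z hz)
  have hfC : ∀ i, f i ∈ C := by
    intro i
    rw [hC]
    intro l
    rw [f.repr_self]
    by_cases h : i = l
    · subst h
      rw [Finsupp.single_eq_same]
      exact (locA A1 b).one_mem
    · rw [Finsupp.single_eq_of_ne (Ne.symm h)]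
      exact (locA A1 b).zero_mem
  -- `C` is contained in the integral closure
  have hlocO : ∀ z ∈ locA A1 b, ∃ o : O, algebraMap O K o = z := by
    rintro z ⟨m, hm⟩
    have hbm : b ^ m ∉ 𝔭 := fun h => hb (h𝔭.mem_of_pow_mem m h)
    have := (hO z).2 ⟨⟨_, hm⟩, b ^ m, hbm, by push_cast; rfl⟩
    exact this
  have hCO : ∀ z : C, (z : N) ∈ integralClosure O N := by
    intro z
    rw [← f.sum_repr (z : N)]
    refine Subalgebra.sum_mem _ fun i _ => ?_
    obtain ⟨o, ho⟩ := hlocO _ ((hC _).1 z.2 i)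
    rw [← ho, algebraMap_smul, Algebra.smul_def]
    exact Subalgebra.mul_mem _ (Subalgebra.algebraMap_mem _ o) (hfmem i)
  obtain ⟨ι, hι⟩ : ∃ ι : C →+* integralClosure O N, ∀ z : C, ((ι z : integralClosure O N) : N) = z :=
    ⟨(C.val : C →+* N).codRestrict (integralClosure O N) hCO, fun z => rfl⟩
  obtain ⟨Z, hZ, hϖZ⟩ := exists_max_ideal_of_mem_nonunits hϖu
  have hZp : Z.IsPrime := hZ.isPrime
  have hϖC : (ϖ : N) ∈ C := (hC _).2 hϖloc
  have hcC : (c : N) ∈ C := (hC _).2 hcloc
  refine ⟨{ 𝔭 := 𝔭, b := b, π := π, C := C, n := n, f := f, ϖ := ⟨ϖ, hϖC⟩, c := ⟨c, hcC⟩,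
            ζ := Z.comap ι, h𝔭 := h𝔭, h0 := h0, hb := hb, hπ := hπ, hπ0 := hπ0, hgen := ?_,
            hC := hC, fg := ?_, heq := ?_, hζ := Ideal.comap_isPrime _ _, hϖ := ?_, hζA := ?_ },
    rfl, ⟨b', hbdef⟩, (hC _).2 hxloc⟩
  · intro a ha
    refine ⟨1, ?_⟩
    rw [← hgen] at ha
    induction ha using Submodule.span_induction with
    | mem a ha =>
      refine ⟨⟨_, hgloc a ha⟩, ?_⟩
      apply Subtype.ext
      push_cast
      field_simp
    | zero => exact ⟨0, by simp⟩
    | add u v _ _ hu hv =>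
      obtain ⟨y1, hy1⟩ := hu
      obtain ⟨y2, hy2⟩ := hv
      exact ⟨y1 + y2, by rw [mul_add, mul_add, hy1, hy2]⟩
    | smul r u _ hu =>
      obtain ⟨y, hy⟩ := hu
      refine ⟨r * y, ?_⟩
      rw [smul_eq_mul]
      linear_combination r * hy
  · obtain ⟨t0, ht0⟩ := hfg
    refine ⟨(t0.image (algebraMap K N)) ∪ {algebraMap K N (b : K)⁻¹} ∪
      (Finset.univ.image fun i : Fin n => f i), ?_⟩
    obtain ⟨E, hE⟩ : ∃ E : Subalgebra k N, E = Algebra.adjoin k
      (((t0.image (algebraMap K N)) ∪ {algebraMap K N (b : K)⁻¹} ∪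
      (Finset.univ.image fun i : Fin n => f i) : Finset N) : Set N) := ⟨_, rfl⟩
    rw [← hE]
    have hEA : ∀ a : K, a ∈ A1 → algebraMap K N a ∈ E := by
      intro a ha
      rw [← ht0] at ha
      have h1 : Algebra.adjoin k (t0 : Set K) ≤ E.comap (IsScalarTower.toAlgHom k K N) := by
        rw [Algebra.adjoin_le_iff]
        intro z hz
        show algebraMap K N z ∈ E
        rw [hE]
        apply Algebra.subset_adjoin
        simp only [Finset.coe_union, Finset.coe_image, Set.mem_union]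
        exact Or.inl (Or.inl ⟨z, hz, rfl⟩)
      exact h1 ha
    have hEb : algebraMap K N (b : K)⁻¹ ∈ E := by
      rw [hE]
      apply Algebra.subset_adjoin
      simp
    have hEf : ∀ i, f i ∈ E := by
      intro i
      rw [hE]
      apply Algebra.subset_adjoin
      simp
    apply le_antisymm
    · rw [hE, Algebra.adjoin_le_iff]
      intro z hz
      simp only [Finset.coe_union, Finset.coe_image, Set.mem_union, Finset.coe_singleton,
        Set.mem_singleton_iff, Finset.coe_univ, Set.image_univ, Set.mem_range] at hz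
      rcases hz with (⟨w, hw, rfl⟩ | rfl) | ⟨i, rfl⟩
      · apply hCK
        apply N5_locA_of_mem
        rw [← ht0]
        exact Algebra.subset_adjoin hw
      · apply hCK
        apply N5_locA_mul
        rw [inv_mul_cancel₀ hb0K]
        exact A1.one_mem
      · exact hfC i
    · intro z hz
      rw [← f.sum_repr z]
      refine E.sum_mem fun i _ => ?_
      obtain ⟨m, hm⟩ := (hC z).1 hz i
      have h1 : f.repr z i = (f.repr z i * (b : K) ^ m) * ((b : K)⁻¹) ^ m := by
        rw [mul_assoc, ← mul_pow, mul_inv_cancel₀ hb0K, one_pow, mul_one]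
      rw [Algebra.smul_def, h1, map_mul, map_pow]
      exact E.mul_mem (E.mul_mem (hEA _ hm) (E.pow_mem hEb m)) (hEf i)
  · have h1 := congrArg (fun z : integralClosure O N => (z : N)) hϖc
    have h2 : algebraMap O N (j π) = (ϖ : N) ^ 2 * c := h1
    rw [IsScalarTower.algebraMap_apply O K N, hj] at h2
    exact h2
  · show ι ⟨ϖ, hϖC⟩ ∈ Z
    have h1 : ι ⟨ϖ, hϖC⟩ = ϖ := Subtype.ext (hι _)
    rw [h1]
    exact hϖZ
  · intro a h ha
    by_contra hap
    have h1 : ι ⟨algebraMap K N a, h⟩ = algebraMap O (integralClosure O N) (j a) := by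
      apply Subtype.ext
      rw [hι]
      show algebraMap K N a = algebraMap O N (j a)
      rw [IsScalarTower.algebraMap_apply O K N, hj]
    have h2 : ι ⟨algebraMap K N a, h⟩ ∈ Z := ha
    rw [h1] at h2
    exact hZp.ne_top (Ideal.eq_top_of_isUnit_mem _ h2 ((hjunit a hap).map _))

end Pool.Agent.LibHP
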