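import Mathlib

/-! # Row N2: the fibres of a domain are generically reduced

Plan. Let `E` be the fraction field of `D` and `F0` that of `R`. Noether normalization over `F0`
(or over `R` after inverting an element): there are `x_1, ..., x_m ∈ D` algebraically independent over
`R` and `0 ≠ ρ0 ∈ R` such that every element of `D` becomes integral over `R[x]` after
multiplication by a power of `ρ0`. Primitive element: `ξ ∈ D`, integral over `R[x]`, generating `E`
over `F0(x)`, whose minimal polynomial `M` over `F0(x)` has coefficients in `R[x]` (multiply `ξ` by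
elements of `R[x]`; here denominators in `R[x]` are allowed everywhere). There is `0 ≠ c ∈ R[x]` with
`c ^ n * d ∈ R[x][ξ]` for every `d ∈ D` (some `n`), and, `M` being separable (characteristic zero),
`u M + v M' = c'`, `0 ≠ c' ∈ R[x]`, `u, v` over `R[x]`. (See rows U1 in `Pool/Agent/LibW64T/U1.lean` and
F1 in `Pool/Agent/LibW64/F1.lean`, which construct such presentations; `W_U1` can be applied with
`K := FractionRing D`, if you first give `D` the structure of an algebra over a field; otherwise copy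
its proof.)
`g := c c'` (in `D`), `ρ` := a nonzero coefficient of `c c'`. Let `φ` be given, `k[x]` the polynomial
ring, `M^φ`, `c^φ`, `c'^φ ≠ 0`, `F := Frac k[x]`. `Θ : D → F[Y]/(M^φ)`, `d ↦ (Q^φ (Y)) / (c^φ) ^ n` if
`c ^ n d = Q(ξ)`: well defined, since `Q(ξ) = 0` implies `M ∣ Q` (over `R[x]`, `M` monic and minimal);
it is a ring homomorphism and kills `𝔪 D`, `𝔪 = ker φ`. Kernel: if `Θ d = 0`, `c ^ n d = Q(ξ)` with
`deg Q < deg M` (division by the monic `M`), so `Q^φ = 0`, so the coefficients of `Q` are in `𝔪[x]` (as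
`φ` is surjective with kernel `𝔪`), so `c ^ n d ∈ 𝔪 D`. `F[Y]/(M^φ)` is reduced: `M^φ` is separable over
`F` as `u^φ M^φ + v^φ M'^φ = c'^φ ≠ 0`. So `x ^ n ∈ 𝔪 D` implies `Θ x` nilpotent, `Θ x = 0`,
`g ^ m x ∈ 𝔪 D`. -/

set_option autoImplicit false
open Polynomial
open scoped IntermediateField

namespace Pool.Agent.LibHP

/-- denominators of the elements of the algebra generated over the fraction field -/
private theorem N2_den {R F K : Type} [CommRing R] [IsDomain R] [Field F] [Algebra R F]
    [IsFractionRing R F] [Field K] [Algebra R K] [Algebra F K] [IsScalarTower R F K] (S : Set K)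
    (x : K) (hx : x ∈ Algebra.adjoin F S) :
    ∃ d : R, d ≠ 0 ∧ algebraMap R K d * x ∈ Algebra.adjoin R S := by
  induction hx using Algebra.adjoin_induction with
  | mem x hx =>
    exact ⟨1, one_ne_zero, by rw [map_one, one_mul]; exact Algebra.subset_adjoin hx⟩
  | algebraMap f =>
    obtain ⟨a, b, hb, rfl⟩ := IsFractionRing.div_surjective (A := R) f
    have hb0 : b ≠ 0 := nonZeroDivisors.ne_zero hb
    refine ⟨b, hb0, ?_⟩
    have h1 : algebraMap R K b * algebraMap F K (algebraMap R F a / algebraMap R F b) =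
        algebraMap R K a := by
      have h2 : algebraMap R F b ≠ 0 := IsFractionRing.to_map_ne_zero_of_mem_nonZeroDivisors hb
      rw [IsScalarTower.algebraMap_apply R F K b, IsScalarTower.algebraMap_apply R F K a,
        ← map_mul, mul_div_cancel₀ _ h2]
    rw [h1]
    exact Subalgebra.algebraMap_mem _ a
  | add x y _ _ hx hy =>
    obtain ⟨a, ha, hax⟩ := hx
    obtain ⟨b, hb, hby⟩ := hy
    refine ⟨a * b, mul_ne_zero ha hb, ?_⟩
    have h1 : algebraMap R K (a * b) * (x + y) =
        algebraMap R K b * (algebraMap R K a * x) + algebraMap R K a * (algebraMap R K b * y) := by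
      rw [map_mul]; ring
    rw [h1]
    exact add_mem (mul_mem (Subalgebra.algebraMap_mem _ b) hax)
      (mul_mem (Subalgebra.algebraMap_mem _ a) hby)
  | mul x y _ _ hx hy =>
    obtain ⟨a, ha, hax⟩ := hx
    obtain ⟨b, hb, hby⟩ := hy
    refine ⟨a * b, mul_ne_zero ha hb, ?_⟩
    have h1 : algebraMap R K (a * b) * (x * y) =
        (algebraMap R K a * x) * (algebraMap R K b * y) := by
      rw [map_mul]; ring
    rw [h1]
    exact mul_mem hax hby

open scoped Classical in
private theorem N2_gen {R K : Type} [CommRing R] [IsDomain R] [Field K] [CharZero K] [Algebra R K]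
    (hinj : Function.Injective (algebraMap R K)) (halg : Algebra.IsAlgebraic R K)
    (S : Set K) (hS : S.Finite)
    (hfr : ∀ c : K, ∃ u w : K, u ∈ Algebra.adjoin R S ∧ w ∈ Algebra.adjoin R S ∧ w ≠ 0 ∧
      c * w = u) :
    ∃ (w : K) (m : R[X]) (c : R), w ∈ Algebra.adjoin R S ∧ m.Monic ∧ c ≠ 0 ∧ aeval w m = 0 ∧
      (∀ p : R[X], p.natDegree < m.natDegree → aeval w p = 0 → p = 0) ∧
      ∀ b ∈ Algebra.adjoin R S, ∃ (n : ℕ) (p : R[X]), b * (algebraMap R K c) ^ n = aeval w p := by
  have hfs : FaithfulSMul R K := (faithfulSMul_iff_algebraMap_injective _ _).2 hinj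
  let F := FractionRing R
  let _ : Algebra F K := FractionRing.liftAlgebra R K
  have : IsScalarTower R F K := FractionRing.isScalarTower_liftAlgebra R K
  have halgF : Algebra.IsAlgebraic F K := Algebra.IsAlgebraic.extendScalars (IsFractionRing.injective R F)
  have : CharZero F := (algebraMap F K).charZero
  -- the algebra generated over `F`
  have htop : Algebra.adjoin F S = ⊤ := by
    rw [eq_top_iff]
    intro z _
    obtain ⟨u, w, hu, hw, hw0, h⟩ := hfr z
    have hle : ∀ t ∈ Algebra.adjoin R S, t ∈ Algebra.adjoin F S := by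
      intro t ht
      induction ht using Algebra.adjoin_induction with
      | mem x hx => exact Algebra.subset_adjoin hx
      | algebraMap r =>
        rw [IsScalarTower.algebraMap_apply R F K]
        exact Subalgebra.algebraMap_mem _ _
      | add x y _ _ hx hy => exact add_mem hx hy
      | mul x y _ _ hx hy => exact mul_mem hx hy
    have hinv : (w⁻¹ : K) ∈ Algebra.adjoin F S :=
      Subalgebra.inv_mem_of_algebraic (Algebra.adjoin F S) (x := ⟨w, hle w hw⟩)
        (Algebra.IsAlgebraic.isAlgebraic w)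
    have h1 : z = u * w⁻¹ := by
      rw [← h, mul_assoc, mul_inv_cancel₀ hw0, mul_one]
    rw [h1]
    exact mul_mem (hle u hu) hinv
  have hft : Algebra.FiniteType F K := ⟨⟨hS.toFinset, by rw [hS.coe_toFinset, htop]⟩⟩
  have hint : Algebra.IsIntegral F K := halgF.isIntegral
  have hfin : FiniteDimensional F K := Algebra.IsIntegral.finite
  obtain ⟨w0, hw0⟩ := Field.exists_primitive_element F K
  obtain ⟨d, hd, hdw⟩ := N2_den (R := R) (F := F) S w0 (by rw [htop]; trivial)
  -- primitive elements
  have hprim : ∀ (t : K) (a : R), a ≠ 0 → F⟮t⟯ = ⊤ → F⟮algebraMap R K a * t⟯ = ⊤ := by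
    intro t a ha ht
    rw [eq_top_iff, ← ht, IntermediateField.adjoin_simple_le_iff]
    have h1 : t = algebraMap F K (algebraMap R F a)⁻¹ * (algebraMap R K a * t) := by
      rw [map_inv₀, ← IsScalarTower.algebraMap_apply R F K, ← mul_assoc, inv_mul_cancel₀, one_mul]
      exact fun h => ha (hinj (by rw [h, map_zero]))
    have h2 := mul_mem (IntermediateField.algebraMap_mem (F⟮algebraMap R K a * t⟯)
      (algebraMap R F a)⁻¹) (IntermediateField.mem_adjoin_simple_self F (algebraMap R K a * t))
    rwa [← h1] at h2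
  set w1 : K := algebraMap R K d * w0 with hw1
  have hw1p : F⟮w1⟯ = ⊤ := hprim w0 d hd hw0
  obtain ⟨b, hb, hbq⟩ := IsLocalization.integerNormalization_spec (nonZeroDivisors R)
    (minpoly F w1)
  set q : R[X] := IsLocalization.integerNormalization (nonZeroDivisors R) (minpoly F w1) with hq
  have hintw : ∀ t : K, IsIntegral F t := fun t => Algebra.IsIntegral.isIntegral t
  have hq0 : q ≠ 0 := by
    rw [hq, Ne, IsFractionRing.integerNormalization_eq_zero_iff]
    exact minpoly.ne_zero (hintw w1)
  have hqw : aeval w1 q = 0 := by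
    apply IsLocalization.integerNormalization_aeval_eq_zero
    exact minpoly.aeval F w1
  have hqdeg : q.natDegree = (minpoly F w1).natDegree := by
    have h1 : (q.map (algebraMap R F)).natDegree = q.natDegree :=
      natDegree_map_eq_of_injective (IsFractionRing.injective R F) q
    rw [← h1, hbq, natDegree_smul]
    exact nonZeroDivisors.ne_zero hb
  set w : K := algebraMap R K q.leadingCoeff * w1 with hw
  have hwp : F⟮w⟯ = ⊤ := hprim w1 _ (leadingCoeff_ne_zero.2 hq0) hw1p
  have hfr' : ∀ t : K, F⟮t⟯ = ⊤ → (minpoly F t).natDegree = Module.finrank F K := by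
    intro t ht
    rw [← IntermediateField.adjoin.finrank (hintw t), ht, IntermediateField.finrank_top']
  have hmw : aeval w (integralNormalization q) = 0 :=
    integralNormalization_aeval_eq_zero hqw fun x hx => hinj (by rw [hx, map_zero])
  have hmdeg : (integralNormalization q).natDegree = (minpoly F w).natDegree := by
    rw [natDegree_integralNormalization, hqdeg, hfr' w1 hw1p, hfr' w hwp]
  -- denominators
  have hden : ∀ z : K, ∃ (e : R) (p : R[X]), e ≠ 0 ∧ algebraMap R K e * z = aeval w p := by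
    intro z
    have hz : z ∈ Algebra.adjoin F {w} := by
      have h1 : z ∈ F⟮w⟯ := by rw [hwp]; trivial
      rw [← IntermediateField.mem_toSubalgebra,
        IntermediateField.adjoin_simple_toSubalgebra_of_isAlgebraic (hintw w).isAlgebraic] at h1
      exact h1
    obtain ⟨e, he, hez⟩ := N2_den (R := R) (F := F) {w} z hz
    rw [Algebra.adjoin_singleton_eq_range_aeval] at hez
    obtain ⟨p, hp⟩ := hez
    exact ⟨e, p, he, hp.symm⟩
  choose e p he hp using hden
  let c : R := ∏ s ∈ hS.toFinset, e s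
  refine ⟨w, integralNormalization q, c, ?_, monic_integralNormalization hq0, ?_, hmw, ?_, ?_⟩
  · exact mul_mem (Subalgebra.algebraMap_mem _ _) hdw
  · exact Finset.prod_ne_zero_iff.2 fun s _ => he s
  · intro g hg hgw
    by_contra hg0
    have h1 : aeval w (g.map (algebraMap R F)) = 0 := by rwa [aeval_map_algebraMap]
    have h2 : g.map (algebraMap R F) ≠ 0 :=
      (Polynomial.map_ne_zero_iff (IsFractionRing.injective R F)).2 hg0
    have h4 := minpoly.degree_le_of_ne_zero F w h2 h1
    have h5 := natDegree_le_natDegree h4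
    rw [natDegree_map_eq_of_injective (IsFractionRing.injective R F)] at h5
    omega
  · intro z hz
    induction hz using Algebra.adjoin_induction with
    | mem x hx =>
      have hx' : x ∈ hS.toFinset := hS.mem_toFinset.2 hx
      refine ⟨1, C (∏ s ∈ hS.toFinset.erase x, e s) * p x, ?_⟩
      have h1 : c = e x * ∏ s ∈ hS.toFinset.erase x, e s :=
        (Finset.mul_prod_erase _ _ hx').symm
      rw [pow_one, map_mul, aeval_C, ← hp x, h1, map_mul]
      ring
    | algebraMap r =>
      exact ⟨0, C r, by rw [pow_zero, mul_one, aeval_C]⟩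
    | add x y _ _ hx hy =>
      obtain ⟨n, g, hn⟩ := hx
      obtain ⟨m, g', hm⟩ := hy
      refine ⟨n + m, g * C c ^ m + g' * C c ^ n, ?_⟩
      simp only [map_add, map_mul, map_pow, aeval_C]
      rw [← hn, ← hm, pow_add]
      ring
    | mul x y _ _ hx hy =>
      obtain ⟨n, g, hn⟩ := hx
      obtain ⟨m, g', hm⟩ := hy
      refine ⟨n + m, g * g', ?_⟩
      rw [map_mul, ← hn, ← hm, pow_add]
      ring


private theorem N2_pres (R D : Type) [CommRing R] [CommRing D] [IsDomain D] [CharZero D]
    [Algebra R D] [Algebra.FiniteType R D] (hinj : Function.Injective (algebraMap R D)) :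
    ∃ (r : ℕ) (y : Fin r → D) (w : D) (m : (MvPolynomial (Fin r) R)[X])
      (c : MvPolynomial (Fin r) R), m.Monic ∧ c ≠ 0 ∧
      eval₂RingHom (MvPolynomial.eval₂Hom (algebraMap R D) y) w m = 0 ∧
      (∀ p : (MvPolynomial (Fin r) R)[X], p.natDegree < m.natDegree →
        eval₂RingHom (MvPolynomial.eval₂Hom (algebraMap R D) y) w p = 0 → p = 0) ∧
      (∀ b : D, ∃ (n : ℕ) (p : (MvPolynomial (Fin r) R)[X]),
        b * eval₂RingHom (MvPolynomial.eval₂Hom (algebraMap R D) y) w (C c) ^ n =
          eval₂RingHom (MvPolynomial.eval₂Hom (algebraMap R D) y) w p) ∧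
      (∀ b : D, b ≠ 0 → ∃ (b' : D) (q : MvPolynomial (Fin r) R), q ≠ 0 ∧
        b' * b = eval₂RingHom (MvPolynomial.eval₂Hom (algebraMap R D) y) w (C q)) := by
  classical
  have : IsDomain R := hinj.isDomain (algebraMap R D)
  let K := FractionRing D
  have hDK : Function.Injective (algebraMap D K) := IsFractionRing.injective D K
  have : CharZero K := charZero_of_injective_algebraMap hDK
  obtain ⟨S, hS⟩ := (inferInstance : Algebra.FiniteType R D).out
  let S' : Finset K := S.image (algebraMap D K)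
  have hRK : Function.Injective (algebraMap R K) := by
    rw [IsScalarTower.algebraMap_eq R D K]
    exact hDK.comp hinj
  have hfs : FaithfulSMul R K := (faithfulSMul_iff_algebraMap_injective _ _).2 hRK
  have hA : ∀ d : D, algebraMap D K d ∈ Algebra.adjoin R (S' : Set K) := by
    intro d
    have hd : d ∈ Algebra.adjoin R (S : Set D) := by rw [hS]; trivial
    induction hd using Algebra.adjoin_induction with
    | mem x hx =>
      apply Algebra.subset_adjoin
      exact Finset.mem_coe.2 (Finset.mem_image_of_mem _ hx)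
    | algebraMap r =>
      rw [← IsScalarTower.algebraMap_apply R D K]
      exact Subalgebra.algebraMap_mem _ _
    | add x y _ _ hx hy => rw [map_add]; exact add_mem hx hy
    | mul x y _ _ hx hy => rw [map_mul]; exact mul_mem hx hy
  have hfrac : ∀ z : K, ∃ u w : D, w ≠ 0 ∧ z * algebraMap D K w = algebraMap D K u := by
    intro z
    obtain ⟨a, b, hb, rfl⟩ := IsFractionRing.div_surjective (A := D) z
    refine ⟨a, b, nonZeroDivisors.ne_zero hb, ?_⟩
    rw [div_mul_cancel₀]
    exact IsFractionRing.to_map_ne_zero_of_mem_nonZeroDivisors hb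
  have halg : Algebra.IsAlgebraic (Algebra.adjoin R (S' : Set K)) K := by
    constructor
    intro z
    obtain ⟨u, w, hw0, h⟩ := hfrac z
    refine ⟨C ⟨algebraMap D K w, hA w⟩ * X - C ⟨algebraMap D K u, hA u⟩, ?_, ?_⟩
    · intro h0
      have h1 := congrArg (fun P => Polynomial.coeff P 1) h0
      simp only [coeff_sub, coeff_C_mul, coeff_X_one, mul_one, coeff_C_succ, sub_zero,
        coeff_zero] at h1
      have h2 : algebraMap D K w = 0 := congrArg Subtype.val h1
      exact hw0 (hDK (by rw [h2, map_zero]))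
    · rw [map_sub, map_mul, aeval_C, aeval_C, aeval_X]
      change algebraMap D K w * z - algebraMap D K u = 0
      rw [← h]
      ring
  obtain ⟨t, htS, ht⟩ := exists_isTranscendenceBasis_subset (R := R) (S' : Set K)
  have htf : t.Finite := S'.finite_toSet.subset htS
  have := htf.to_subtype
  obtain ⟨r, ⟨e⟩⟩ := Finite.exists_equiv_fin t
  have hpre : ∀ i : Fin r, ∃ d : D, algebraMap D K d = (e.symm i : K) := by
    intro i
    have h1 : (e.symm i : K) ∈ S' := Finset.mem_coe.1 (htS (e.symm i).2)
    obtain ⟨d, _, hd⟩ := Finset.mem_image.1 h1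
    exact ⟨d, hd⟩
  choose y' hy' using hpre
  let y : Fin r → K := fun i => (e.symm i : K)
  have hy : IsTranscendenceBasis R y := (isTranscendenceBasis_equiv e.symm).2 ht
  let _ : Algebra (MvPolynomial (Fin r) R) K :=
    ((MvPolynomial.aeval y : MvPolynomial (Fin r) R →ₐ[R] K) :
      MvPolynomial (Fin r) R →+* K).toAlgebra
  have hmap : ∀ q : MvPolynomial (Fin r) R, algebraMap (MvPolynomial (Fin r) R) K q =
      MvPolynomial.aeval y q := fun q => rfl
  have hinjB : Function.Injective (algebraMap (MvPolynomial (Fin r) R) K) := hy.1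
  have halgR : Algebra.IsAlgebraic (MvPolynomial (Fin r) R) K := by
    constructor
    intro z
    obtain ⟨p, hp0, hpz⟩ := hy.isAlgebraic.isAlgebraic z
    refine ⟨p.map (hy.1.aevalEquiv.symm : Algebra.adjoin R (Set.range y) →+*
      MvPolynomial (Fin r) R), ?_, ?_⟩
    · exact (Polynomial.map_ne_zero_iff hy.1.aevalEquiv.symm.injective).2 hp0
    · rw [aeval_def, eval₂_map]
      rw [aeval_def] at hpz
      rw [← hpz]
      congr 1
      ext q
      change MvPolynomial.aeval y (hy.1.aevalEquiv.symm q) = (q : K)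
      rw [← hy.1.algebraMap_aevalEquiv, AlgEquiv.apply_symm_apply]
      rfl
  have hAR : ∀ a ∈ Algebra.adjoin R (S' : Set K),
      a ∈ Algebra.adjoin (MvPolynomial (Fin r) R) (S' : Set K) := by
    intro a ha
    induction ha using Algebra.adjoin_induction with
    | mem x hx => exact Algebra.subset_adjoin hx
    | algebraMap r' =>
      have h1 := Subalgebra.algebraMap_mem
        (Algebra.adjoin (MvPolynomial (Fin r) R) (S' : Set K)) (MvPolynomial.C r')
      rw [hmap, MvPolynomial.aeval_C] at h1
      exact h1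
    | add x y _ _ hx hy => exact add_mem hx hy
    | mul x y _ _ hx hy => exact mul_mem hx hy
  have hcomp : ∀ q : MvPolynomial (Fin r) R,
      algebraMap D K (MvPolynomial.eval₂Hom (algebraMap R D) y' q) = MvPolynomial.aeval y q := by
    have h3 : (algebraMap D K).comp (MvPolynomial.eval₂Hom (algebraMap R D) y') =
        ((MvPolynomial.aeval y : MvPolynomial (Fin r) R →ₐ[R] K) :
          MvPolynomial (Fin r) R →+* K) := by
      apply MvPolynomial.ringHom_ext
      · intro a
        rw [RingHom.comp_apply, MvPolynomial.eval₂Hom_C, ← IsScalarTower.algebraMap_apply R D K]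
        exact (MvPolynomial.aeval_C y a).symm
      · intro i
        rw [RingHom.comp_apply, MvPolynomial.eval₂Hom_X', hy' i]
        exact (MvPolynomial.aeval_X y i).symm
    intro q
    exact congrArg (fun φ => φ q) h3
  have hRA : ∀ a ∈ Algebra.adjoin (MvPolynomial (Fin r) R) (S' : Set K),
      ∃ d : D, algebraMap D K d = a := by
    intro a ha
    induction ha using Algebra.adjoin_induction with
    | mem x hx =>
      obtain ⟨d, _, hd⟩ := Finset.mem_image.1 (Finset.mem_coe.1 hx)
      exact ⟨d, hd⟩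
    | algebraMap q => exact ⟨_, hcomp q⟩
    | add x y _ _ hx hy =>
      obtain ⟨a, rfl⟩ := hx
      obtain ⟨b, rfl⟩ := hy
      exact ⟨a + b, map_add _ _ _⟩
    | mul x y _ _ hx hy =>
      obtain ⟨a, rfl⟩ := hx
      obtain ⟨b, rfl⟩ := hy
      exact ⟨a * b, map_mul _ _ _⟩
  obtain ⟨w, m, c, hw, hm, hc, hmw, hmin, hgen⟩ := N2_gen hinjB halgR (S' : Set K)
    S'.finite_toSet
    (fun z => by
      obtain ⟨u, w, hw0, h⟩ := hfrac z
      exact ⟨_, _, hAR _ (hA u), hAR _ (hA w), fun h0 => hw0 (hDK (by rw [h0, map_zero])), h⟩)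
  obtain ⟨w', hw'⟩ := hRA w hw
  have key : ∀ p : (MvPolynomial (Fin r) R)[X],
      algebraMap D K (eval₂RingHom (MvPolynomial.eval₂Hom (algebraMap R D) y') w' p) =
        aeval w p := by
    have h1 : (algebraMap D K).comp
        (eval₂RingHom (MvPolynomial.eval₂Hom (algebraMap R D) y') w') =
        (aeval w : (MvPolynomial (Fin r) R)[X] →ₐ[MvPolynomial (Fin r) R] K).toRingHom := by
      apply Polynomial.ringHom_ext
      · intro q
        change algebraMap D K (eval₂RingHom (MvPolynomial.eval₂Hom (algebraMap R D) y') w' (C q))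
          = aeval w (C q)
        rw [aeval_C, hmap, coe_eval₂RingHom, eval₂_C]
        exact hcomp q
      · change algebraMap D K (eval₂RingHom (MvPolynomial.eval₂Hom (algebraMap R D) y') w' X)
          = aeval w X
        rw [aeval_X, coe_eval₂RingHom, eval₂_X, hw']
    intro p
    exact congrArg (fun φ => φ p) h1
  refine ⟨r, y', w', m, c, hm, hc, ?_, ?_, ?_, ?_⟩
  · apply hDK
    rw [key, hmw, map_zero]
  · intro p hp h0
    apply hmin p hp
    rw [← key, h0, map_zero]
  · intro b
    obtain ⟨n, p, hp⟩ := hgen (algebraMap D K b) (hAR _ (hA b))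
    refine ⟨n, p, ?_⟩
    apply hDK
    rw [key, ← hp, map_mul, map_pow, key, aeval_C]
  · intro b hb
    let _ : Algebra (MvPolynomial (Fin r) R) D :=
      (MvPolynomial.eval₂Hom (algebraMap R D) y').toAlgebra
    have h1 : IsAlgebraic (MvPolynomial (Fin r) R) b := by
      obtain ⟨P, hP0, hP⟩ := halgR.isAlgebraic (algebraMap D K b)
      refine ⟨P, hP0, ?_⟩
      apply hDK
      rw [map_zero, aeval_def, hom_eval₂]
      rw [aeval_def] at hP
      rw [← hP]
      congr 1
      exact RingHom.ext fun q => hcomp q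
    obtain ⟨q, hq, b', hb'⟩ := h1.exists_nonzero_dvd (mem_nonZeroDivisors_of_ne_zero hb)
    refine ⟨b', q, hq, ?_⟩
    rw [mul_comm, ← hb', coe_eval₂RingHom, eval₂_C]
    rfl

theorem W_N2 (R D : Type) [CommRing R] [CommRing D] [IsDomain D] [CharZero D] [Algebra R D]
    [Algebra.FiniteType R D] (hinj : Function.Injective (algebraMap R D)) :
    ∃ g : D, g ≠ 0 ∧ ∃ ρ : R, ρ ≠ 0 ∧ ∀ (k : Type) [Field k] (φ : R →+* k),
      Function.Surjective φ → φ ρ ≠ 0 → ∀ (x : D) (n : ℕ),
        x ^ n ∈ Ideal.map (algebraMap R D) (RingHom.ker φ) →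
          ∃ m : ℕ, g ^ m * x ∈ Ideal.map (algebraMap R D) (RingHom.ker φ) := by
  classical
  have : IsDomain R := hinj.isDomain (algebraMap R D)
  obtain ⟨r, y, w, M, c, hM, hc, hM0, hmin, hgen, halg⟩ := N2_pres R D hinj
  set ev : (MvPolynomial (Fin r) R)[X] →+* D :=
    eval₂RingHom (MvPolynomial.eval₂Hom (algebraMap R D) y) w with hev
  have hMdeg : 0 < M.natDegree := by
    rcases Nat.eq_zero_or_pos M.natDegree with h | h
    · exfalso
      have h1 : M = 1 := hM.natDegree_eq_zero.1 h
      rw [h1, map_one] at hM0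
      exact one_ne_zero hM0
    · exact h
  have hevC : ∀ q : MvPolynomial (Fin r) R, q ≠ 0 → ev (C q) ≠ 0 := by
    intro q hq h0
    have h1 := hmin (C q) (by rw [natDegree_C]; exact hMdeg) h0
    exact hq (C_eq_zero.1 h1)
  -- elements of the kernel are multiples of `M`
  have hdvd : ∀ p : (MvPolynomial (Fin r) R)[X], ev p = 0 → M ∣ p := by
    intro p hp
    rw [← modByMonic_eq_zero_iff_dvd hM]
    apply hmin
    · exact natDegree_modByMonic_lt p hM (by
        intro h1
        rw [h1, natDegree_one] at hMdeg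
        exact lt_irrefl _ hMdeg)
    · have h1 := congrArg ev (modByMonic_add_div p M)
      rw [map_add, map_mul, hM0, zero_mul, add_zero, hp] at h1
      exact h1
  -- the derivative
  have hB0 : CharZero (MvPolynomial (Fin r) R) := by
    have : CharZero R := by
      refine ⟨fun a b h => ?_⟩
      have h1 := congrArg (algebraMap R D) h
      simpa using h1
    infer_instance
  have hder : ev (derivative M) ≠ 0 := by
    intro h0
    have h1 := hmin (derivative M) (natDegree_derivative_lt hMdeg.ne') h0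
    have h2 := derivative_eq_zero.1 h1
    exact hMdeg.ne' h2
  obtain ⟨b', q', hq', hbq⟩ := halg _ hder
  obtain ⟨n', p', hp'⟩ := hgen b'
  -- Bezout
  have hbez : M ∣ p' * derivative M - C (q' * c ^ n') := by
    apply hdvd
    rw [map_sub, map_mul, ← hp', C_mul, C_pow, map_mul, map_pow, ← hbq]
    ring
  have hqc : q' * c ^ n' * c ≠ 0 := mul_ne_zero (mul_ne_zero hq' (pow_ne_zero _ hc)) hc
  obtain ⟨d, hd⟩ := MvPolynomial.ne_zero_iff.1 hqc
  refine ⟨ev (C c), hevC c hc, MvPolynomial.coeff d (q' * c ^ n' * c), hd, ?_⟩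
  intro k _ φ hφ hρ x n hx
  -- specialization
  let Φ : MvPolynomial (Fin r) R →+* MvPolynomial (Fin r) k := MvPolynomial.map φ
  have hΦ : Φ (q' * c ^ n' * c) ≠ 0 := by
    intro h0
    apply hρ
    rw [← MvPolynomial.coeff_map, show MvPolynomial.map φ (q' * c ^ n' * c) = 0 from h0,
      MvPolynomial.coeff_zero]
  have hΦc : Φ c ≠ 0 := by
    intro h0
    apply hΦ
    rw [map_mul, h0, mul_zero]
  have hΦq : Φ (q' * c ^ n') ≠ 0 := by
    intro h0
    apply hΦ
    rw [map_mul, h0, zero_mul]
  let F := FractionRing (MvPolynomial (Fin r) k)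
  have hiF : Function.Injective (algebraMap (MvPolynomial (Fin r) k) F) :=
    IsFractionRing.injective _ _
  let Ψ : MvPolynomial (Fin r) R →+* F := (algebraMap (MvPolynomial (Fin r) k) F).comp Φ
  have hΨ : ∀ a, Φ a ≠ 0 → Ψ a ≠ 0 := fun a ha h0 => ha (hiF (by
    rw [map_zero]; exact h0))
  have hMΨ : (M.map Ψ).Monic := hM.map Ψ
  have hsep : (M.map Ψ).Separable := by
    obtain ⟨u, hu⟩ := hbez
    have h1 := congrArg (Polynomial.map Ψ) hu
    rw [Polynomial.map_sub, Polynomial.map_mul, Polynomial.map_mul, map_C, ← derivative_map] at h1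
    have h2 : Ψ (q' * c ^ n') ≠ 0 := hΨ _ hΦq
    refine ⟨- (C (Ψ (q' * c ^ n'))⁻¹ * u.map Ψ), C (Ψ (q' * c ^ n'))⁻¹ * p'.map Ψ, ?_⟩
    have h3 : C (Ψ (q' * c ^ n'))⁻¹ * C (Ψ (q' * c ^ n')) = (1 : F[X]) := by
      rw [← C_mul, inv_mul_cancel₀ h2, C_1]
    calc -(C (Ψ (q' * c ^ n'))⁻¹ * u.map Ψ) * M.map Ψ +
          C (Ψ (q' * c ^ n'))⁻¹ * p'.map Ψ * derivative (M.map Ψ)
        = C (Ψ (q' * c ^ n'))⁻¹ * (p'.map Ψ * derivative (M.map Ψ) - M.map Ψ * u.map Ψ) := by
          ring
      _ = C (Ψ (q' * c ^ n'))⁻¹ * C (Ψ (q' * c ^ n')) := by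
          rw [← h1]
          ring
      _ = 1 := h3
  -- polynomials with coefficients in the kernel
  have hker : ∀ p : (MvPolynomial (Fin r) R)[X], p.map Φ = 0 →
      ev p ∈ Ideal.map (algebraMap R D) (RingHom.ker φ) := by
    intro p hp
    rw [hev, coe_eval₂RingHom, eval₂_eq_sum_range]
    apply Ideal.sum_mem
    intro i _
    apply Ideal.mul_mem_right
    have h1 : Φ (p.coeff i) = 0 := by
      rw [← coeff_map, hp, coeff_zero]
    rw [MvPolynomial.coe_eval₂Hom, MvPolynomial.eval₂_eq]
    apply Ideal.sum_mem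
    intro e _
    apply Ideal.mul_mem_right
    apply Ideal.mem_map_of_mem
    rw [RingHom.mem_ker, ← MvPolynomial.coeff_map, show MvPolynomial.map φ (p.coeff i) = 0 from h1,
      MvPolynomial.coeff_zero]
  -- elements of the ideal
  have hmem : ∀ z ∈ Ideal.map (algebraMap R D) (RingHom.ker φ),
      ∃ (N : ℕ) (q : (MvPolynomial (Fin r) R)[X]), q.map Φ = 0 ∧ z * ev (C c) ^ N = ev q := by
    intro z hz
    refine Submodule.span_induction (p := fun z _ => ∃ (N : ℕ) (q : (MvPolynomial (Fin r) R)[X]),
      q.map Φ = 0 ∧ z * ev (C c) ^ N = ev q) ?_ ?_ ?_ ?_ hz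
    · rintro _ ⟨a, ha, rfl⟩
      refine ⟨0, C (MvPolynomial.C a), ?_, ?_⟩
      · rw [map_C]
        have h1 : φ a = 0 := ha
        have h2 : Φ (MvPolynomial.C a) = 0 := by
          rw [show Φ (MvPolynomial.C a) = MvPolynomial.C (φ a) from MvPolynomial.map_C φ a, h1,
            map_zero]
        rw [h2, C_0]
      · rw [pow_zero, mul_one, hev, coe_eval₂RingHom, eval₂_C, MvPolynomial.eval₂Hom_C]
    · exact ⟨0, 0, Polynomial.map_zero _, by rw [map_zero, zero_mul]⟩
    · rintro a b _ _ ⟨N, q, hq, hq2⟩ ⟨N2, q2, hq3, hq4⟩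
      refine ⟨N + N2, q * C c ^ N2 + q2 * C c ^ N, ?_, ?_⟩
      · rw [Polynomial.map_add, Polynomial.map_mul, Polynomial.map_mul, hq, hq3, zero_mul,
          zero_mul, add_zero]
      · rw [map_add, map_mul, map_mul, map_pow, map_pow, ← hq2, ← hq4, pow_add]
        ring
    · rintro a b _ ⟨N, q, hq, hq2⟩
      obtain ⟨N2, q2, hq3⟩ := hgen a
      refine ⟨N + N2, q * q2, ?_, ?_⟩
      · rw [Polynomial.map_mul, hq, zero_mul]
      · rw [map_mul, ← hq2, ← hq3, smul_eq_mul, pow_add]
        ring
  obtain ⟨a, p, hap⟩ := hgen x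
  -- reduce
  have hp1 : ev (p %ₘ M) = ev p := by
    have h1 := congrArg ev (modByMonic_add_div p M)
    rw [map_add, map_mul, hM0, zero_mul, add_zero] at h1
    exact h1
  obtain ⟨N, q, hq0, hq⟩ := hmem _ hx
  have hdiv : M ∣ (p %ₘ M) ^ n * C c ^ N - q * C c ^ (a * n) := by
    apply hdvd
    rw [map_sub, map_mul, map_mul, map_pow, map_pow, map_pow, hp1, ← hap, ← hq, mul_pow, ← pow_mul]
    ring
  have hdivΨ : M.map Ψ ∣ ((p %ₘ M).map Ψ) ^ n := by
    have h1 := Polynomial.map_dvd Ψ hdiv
    have hqΨ : q.map Ψ = 0 := by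
      rw [← Polynomial.map_map, hq0, Polynomial.map_zero]
    rw [Polynomial.map_sub, Polynomial.map_mul, Polynomial.map_mul, hqΨ, zero_mul, sub_zero,
      Polynomial.map_pow, Polynomial.map_pow, map_C] at h1
    have h2 : IsUnit ((C (Ψ c) : F[X]) ^ N) :=
      (isUnit_C.2 (isUnit_iff_ne_zero.2 (hΨ c hΦc))).pow N
    exact (h2.dvd_mul_right).1 h1
  have hdiv1 : M.map Ψ ∣ (p %ₘ M).map Ψ :=
    hsep.squarefree.isRadical n _ hdivΨ
  have hz : (p %ₘ M).map Ψ = 0 := by
    apply eq_zero_of_dvd_of_natDegree_lt hdiv1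
    rw [hM.natDegree_map Ψ]
    refine lt_of_le_of_lt natDegree_map_le (natDegree_modByMonic_lt p hM ?_)
    intro h1
    rw [h1, natDegree_one] at hMdeg
    exact lt_irrefl _ hMdeg
  have hz' : (p %ₘ M).map Φ = 0 := by
    rw [← Polynomial.map_map] at hz
    exact (Polynomial.map_eq_zero_iff hiF).1 hz
  refine ⟨a, ?_⟩
  rw [mul_comm, hap, ← hp1]
  exact hker _ hz'

end Pool.Agent.LibHP
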