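import Pool.Agent.LibW64P.Defs
import Pool.Agent.LibW64P.N2

/-! # Row RE: generic reducedness of a horizontal divisor in the fibres

SHORT/MEDIUM. Plan. `W_N2` with `R := A0`, `D := A1 ⧸ 𝔭` (an algebra over `A0` by
`(Ideal.Quotient.mk 𝔭).comp (Subalgebra.inclusion hle)`, of finite type since `A1` is of finite type over
`k`; injective by `h0`; characteristic zero: `k → A1 ⧸ 𝔭`). `g` := a preimage of the `g` of `W_N2`.
`φ0 : A0 →ₐ[k] k` is surjective. The preimage in `A1` of `Ideal.map (algebraMap A0 D) (ker φ0)` is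
`fibI A1 A0 φ0 ⊔ 𝔭` (`Ideal.map` of spans, `Ideal.comap_map_of_surjective`). -/

set_option autoImplicit false
open Polynomial

namespace Pool.Agent.LibHP

theorem W_RE {k K : Type} [Field k] [CharZero k] [Field K] [Algebra k K] (A1 A0 : Subalgebra k K)
    (hfg : A1.FG) (hle : A0 ≤ A1) (𝔭 : Ideal A1) (h𝔭 : 𝔭.IsPrime)
    (h0 : ∀ a : A1, (a : K) ∈ A0 → a ∈ 𝔭 → a = 0) :
    ∃ g : A1, g ∉ 𝔭 ∧ ∃ ρ : A0, ρ ≠ 0 ∧ ∀ φ0 : A0 →ₐ[k] k, φ0 ρ ≠ 0 →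
      ∀ (x : A1) (n : ℕ), x ^ n ∈ fibI A1 A0 φ0 ⊔ 𝔭 → ∃ m : ℕ, g ^ m * x ∈ fibI A1 A0 φ0 ⊔ 𝔭 := by
  have hpr : 𝔭.IsPrime := h𝔭
  letI algD : Algebra A0 (A1 ⧸ 𝔭) :=
    ((Ideal.Quotient.mk 𝔭).comp (Subalgebra.inclusion hle : A0 →+* A1)).toAlgebra
  have halg : ∀ a : A0, algebraMap A0 (A1 ⧸ 𝔭) a = Ideal.Quotient.mk 𝔭 ⟨(a : K), hle a.2⟩ :=
    fun a => rfl
  have tow : IsScalarTower k A0 (A1 ⧸ 𝔭) := by
    refine IsScalarTower.of_algebraMap_eq fun c => ?_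
    rw [halg]
    rfl
  have hft1 : Algebra.FiniteType k A1 := A1.fg_iff_finiteType.1 hfg
  have hft2 : Algebra.FiniteType k (A1 ⧸ 𝔭) := inferInstance
  have hft : Algebra.FiniteType A0 (A1 ⧸ 𝔭) :=
    Algebra.FiniteType.of_restrictScalars_finiteType k A0 (A1 ⧸ 𝔭)
  have hdom : IsDomain (A1 ⧸ 𝔭) := Ideal.Quotient.isDomain 𝔭
  have hcz : CharZero (A1 ⧸ 𝔭) :=
    charZero_of_injective_algebraMap (algebraMap k (A1 ⧸ 𝔭)).injective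
  have hinj : Function.Injective (algebraMap A0 (A1 ⧸ 𝔭)) := by
    rw [injective_iff_map_eq_zero]
    intro a ha
    rw [halg, Ideal.Quotient.eq_zero_iff_mem] at ha
    have h1 := h0 ⟨(a : K), hle a.2⟩ a.2 ha
    have h2 : (a : K) = 0 := congrArg (fun z : A1 => (z : K)) h1
    exact Subtype.ext h2
  obtain ⟨g', hg', ρ, hρ, H⟩ := W_N2 A0 (A1 ⧸ 𝔭) hinj
  obtain ⟨g, rfl⟩ := Ideal.Quotient.mk_surjective g'
  have hmap : ∀ φ0 : A0 →ₐ[k] k,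
      Ideal.map (algebraMap A0 (A1 ⧸ 𝔭)) (RingHom.ker (φ0 : A0 →+* k)) =
        Ideal.map (Ideal.Quotient.mk 𝔭) (fibI A1 A0 φ0) := by
    intro φ0
    apply le_antisymm
    · rw [Ideal.map_le_iff_le_comap]
      intro r hr
      rw [Ideal.mem_comap, halg]
      apply Ideal.mem_map_of_mem
      exact Ideal.subset_span ⟨r.2, hr⟩
    · rw [fibI, Ideal.map_span, Ideal.span_le]
      rintro _ ⟨a, ⟨ha, ha0⟩, rfl⟩
      have h1 : Ideal.Quotient.mk 𝔭 a = algebraMap A0 (A1 ⧸ 𝔭) ⟨(a : K), ha⟩ := rfl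
      rw [h1]
      exact Ideal.mem_map_of_mem _ ha0
  have hmem : ∀ (φ0 : A0 →ₐ[k] k) (y : A1), y ∈ fibI A1 A0 φ0 ⊔ 𝔭 ↔
      Ideal.Quotient.mk 𝔭 y ∈
        Ideal.map (algebraMap A0 (A1 ⧸ 𝔭)) (RingHom.ker (φ0 : A0 →+* k)) := by
    intro φ0 y
    rw [hmap, ← Ideal.mem_comap,
      Ideal.comap_map_of_surjective _ Ideal.Quotient.mk_surjective, ← RingHom.ker_eq_comap_bot,
      Ideal.mk_ker]
  refine ⟨g, ?_, ρ, hρ, ?_⟩
  · intro hg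
    exact hg' (Ideal.Quotient.eq_zero_iff_mem.2 hg)
  · intro φ0 hφ x n hx
    have hsurj : Function.Surjective (φ0 : A0 →+* k) := by
      intro c
      exact ⟨algebraMap k A0 c, φ0.commutes c⟩
    rw [hmem, map_pow] at hx
    obtain ⟨m, hm⟩ := H k (φ0 : A0 →+* k) hsurj hφ (Ideal.Quotient.mk 𝔭 x) n hx
    refine ⟨m, ?_⟩
    rw [hmem, map_mul, map_pow]
    exact hm

end Pool.Agent.LibHP
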