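import Pool.Agent.LibW64P.Defs
import Pool.Agent.LibW64P.N5
import Pool.Agent.LibW64P.RE
import Pool.Agent.LibW64P.CH
import Pool.Agent.LibW64P.AL

/-! # Row S1: static data: the ramified point

SHORT/MEDIUM. Plan. `W_AL`: `α, h`. `W_N5`: `𝔭`. `W_RE` for `𝔭`: `g`, `ρ1`. `W_N5` (second part) with `g`
and `x := α` (root of `h`, coefficients in `A0 ≤ A1`): `S`, `S.𝔭 = 𝔭` (`subst`), `S.b = g * g'`, `α ∈ S.C`.
`RedAt S φ0` for `φ0 ρ1 ≠ 0`: multiply by `g' ^ m`. `W_CH`: `ρ2`. Separability: `h` over `K` is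
`minpoly K α`, separable (characteristic zero), so `u h + v h' = 1` over `K`; the resultant of `h` and `h'`, or:
`h` is irreducible over `L = Frac A0` too (`h.map = minpoly`), so `u h + v h' = 1` over `L`, clear denominators:
`u' h + v' h' = ρ3`, `0 ≠ ρ3 ∈ A0`, `u', v' ∈ A0[X]`; if `φ0 ρ3 ≠ 0` and `a` is a root of `h^φ0`, then
`v'^φ0 (a) h'^φ0 (a) = φ0 ρ3 ≠ 0`. `ρ := ρ1 ρ2 ρ3`. -/

set_option autoImplicit false
open Polynomial

namespace Pool.Agent.LibHP

private theorem s1_sep {k K : Type} [Field k] [CharZero k] [Field K] [Algebra k K]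
    (A0 : Subalgebra k K) (h : A0[X]) (hirr : Irreducible (h.map (A0.val : A0 →+* K))) :
    ∃ (ρ : A0) (u v : A0[X]), ρ ≠ 0 ∧ u * h + v * derivative h = C ρ := by
  haveI : CharZero K := charZero_of_injective_algebraMap (algebraMap k K).injective
  have hinj : Function.Injective (A0.val : A0 →+* K) := Subtype.val_injective
  let j : FractionRing A0 →+* K := IsFractionRing.lift (g := (A0.val : A0 →+* K)) hinj
  have hj : j.comp (algebraMap A0 (FractionRing A0)) = (A0.val : A0 →+* K) := by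
    ext x
    exact IsFractionRing.lift_algebraMap hinj x
  have h1 : ((h.map (algebraMap A0 (FractionRing A0))).map j).Separable := by
    rw [Polynomial.map_map, hj]
    exact hirr.separable
  rw [Polynomial.separable_map] at h1
  obtain ⟨a, b, hab⟩ := h1
  obtain ⟨b1, hb1⟩ := IsLocalization.integerNormalization_map_to_map
    (nonZeroDivisors A0) (S := FractionRing A0) a
  obtain ⟨b2, hb2⟩ := IsLocalization.integerNormalization_map_to_map
    (nonZeroDivisors A0) (S := FractionRing A0) b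
  refine ⟨b1 * b2, C (b2 : A0) * IsLocalization.integerNormalization (nonZeroDivisors A0) a,
    C (b1 : A0) * IsLocalization.integerNormalization (nonZeroDivisors A0) b, ?_, ?_⟩
  · exact mul_ne_zero (nonZeroDivisors.ne_zero b1.2) (nonZeroDivisors.ne_zero b2.2)
  · apply Polynomial.map_injective (algebraMap A0 (FractionRing A0))
      (IsFractionRing.injective A0 (FractionRing A0))
    rw [Polynomial.map_add, Polynomial.map_mul, Polynomial.map_mul, Polynomial.map_mul,
      Polynomial.map_mul, hb1, hb2, Polynomial.map_C, Polynomial.map_C, Polynomial.map_C,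
      ← Polynomial.derivative_map]
    have e1 : ((b1 : A0) • a : (FractionRing A0)[X]) =
        C (algebraMap A0 (FractionRing A0) (b1 : A0)) * a := by
      rw [← Polynomial.smul_eq_C_mul, algebraMap_smul]
    have e2 : ((b2 : A0) • b : (FractionRing A0)[X]) =
        C (algebraMap A0 (FractionRing A0) (b2 : A0)) * b := by
      rw [← Polynomial.smul_eq_C_mul, algebraMap_smul]
    rw [e1, e2, map_mul, map_mul]
    linear_combination (C (algebraMap A0 (FractionRing A0) (b1 : A0)) *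
      C (algebraMap A0 (FractionRing A0) (b2 : A0))) * hab

theorem W_S1 {k K N : Type} [Field k] [CharZero k] [Field K] [Algebra k K] [Field N] [Algebra K N]
    [Algebra k N] [IsScalarTower k K N] [FiniteDimensional K N] (L : Subfield K)
    (hcl : ClosedSub L) (A1 A0 : Subalgebra k K) (hA1 : IsModel L A1 A0)
    (hram : RamHor A1 A0 N) :
    ∃ (α : N) (h : A0[X]) (S : Spr A1 A0 N) (ρ : A0), ρ ≠ 0 ∧ h.Monic ∧
      h.map (A0.val : A0 →+* K) = minpoly K α ∧
      (∀ β : N, AlgOver L (algebraMap K N) β →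
        β ∈ Subfield.closure (algebraMap K N '' (L : Set K) ∪ {α})) ∧ α ∈ S.C ∧
      ∀ φ0 : A0 →ₐ[k] k, φ0 ρ ≠ 0 → RedAt S φ0 ∧ ChiAt S α h φ0 ∧
        ∀ a : k, (h.map (φ0 : A0 →+* k)).IsRoot a →
          (h.map (φ0 : A0 →+* k)).derivative.eval a ≠ 0 := by
  obtain ⟨α, h, hh, hmin, hgenα⟩ := W_AL (k := k) (N := N) L hcl A0 hA1.fracL
  obtain ⟨𝔭, h𝔭, h0, hN5⟩ := W_N5 (N := N) A1 A0 hA1.fg hA1.fracK hram
  obtain ⟨g, hg, ρ1, hρ1, hRE⟩ := W_RE A1 A0 hA1.fg hA1.le 𝔭 h𝔭 h0
  obtain ⟨S, hS, ⟨g', hg'⟩, hαC⟩ := hN5 g hg α ⟨h.map (Subalgebra.inclusion hA1.le : A0 →+* A1),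
    hh.map _, by
      rw [eval₂_map]
      have h2 : ((algebraMap K N).comp (A1.val : A1 →+* K)).comp
          (Subalgebra.inclusion hA1.le : A0 →+* A1) =
            (algebraMap K N).comp (A0.val : A0 →+* K) := by
        ext x
        rfl
      rw [h2, ← eval₂_map, hmin]
      exact minpoly.aeval K α⟩
  obtain ⟨ρ2, hρ2, hCH⟩ := W_CH A1 A0 hA1.le S α hαC h hh hmin
  have hint : IsIntegral K α := IsIntegral.of_finite K α
  obtain ⟨ρ3, u, v, hρ3, huv⟩ := s1_sep A0 h (by
    rw [hmin]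
    exact minpoly.irreducible hint)
  refine ⟨α, h, S, ρ1 * ρ2 * ρ3, mul_ne_zero (mul_ne_zero hρ1 hρ2) hρ3, hh, hmin, hgenα, hαC, ?_⟩
  intro φ0 hφ
  rw [map_mul, map_mul] at hφ
  have hφ3 : φ0 ρ3 ≠ 0 := right_ne_zero_of_mul hφ
  have hφ1 : φ0 ρ1 ≠ 0 := left_ne_zero_of_mul (left_ne_zero_of_mul hφ)
  have hφ2 : φ0 ρ2 ≠ 0 := right_ne_zero_of_mul (left_ne_zero_of_mul hφ)
  refine ⟨?_, hCH φ0 hφ2, ?_⟩
  · intro x n hx
    rw [hS] at hx ⊢
    obtain ⟨m, hm⟩ := hRE φ0 hφ1 x n hx
    refine ⟨m, ?_⟩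
    have e : S.b ^ m * x = g' ^ m * (g ^ m * x) := by
      rw [hg', mul_pow]
      ring
    rw [e]
    exact Ideal.mul_mem_left _ _ hm
  · intro a ha hd
    have h1 := congrArg (fun p : A0[X] => (p.map (φ0 : A0 →+* k)).eval a) huv
    simp only [Polynomial.map_add, Polynomial.map_mul, eval_add, eval_mul, Polynomial.map_C,
      eval_C] at h1
    rw [IsRoot.def] at ha
    rw [Polynomial.derivative_map] at hd
    rw [ha, hd, mul_zero, mul_zero, add_zero] at h1
    exact hφ3 h1.symm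

end Pool.Agent.LibHP
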