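import Pool.Agent.LibW64P.Defs

/-! # Row TW: towers of two simple extensions

Plan. `K' := K⟮α⟯` (`IntermediateField.adjoin K {α}`), `e := (minpoly K α).natDegree = finrank K K'`,
`N = K'⟮θ⟯`, `d := (minpoly K' θ).natDegree = finrank K' N`, `d e = finrank K N`
(`Module.finrank_mul_finrank`). Every element of `K'` is `p(α)` for a unique `p : K[X]` of degree `< e`
(power basis `IntermediateField.adjoin.powerBasis`). `G` := `X ^ d` plus lifts of degree `< e` of the
lower coefficients of `minpoly K' θ` (`0 < e`). `free`: `H (α, θ) = 0` with `deg < d` gives a polynomial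
over `K'` of degree `< d` with root `θ`, so it is zero; so all coefficients `H_i (α) = 0`,
`deg H_i < e`, so `H_i = 0`. `span`: power bases of `N / K'` and `K' / K`. -/

set_option autoImplicit false
open Polynomial

namespace Pool.Agent.LibHP

/-- every element of `F⟮θ⟯` is a polynomial of small degree in `θ` -/
private theorem TW_rep {F N : Type} [Field F] [Field N] [Algebra F N] {θ : N} (hθ : IsIntegral F θ) (x : N)
    (hx : x ∈ IntermediateField.adjoin F {θ}) :
    ∃ p : F[X], p.natDegree < (minpoly F θ).natDegree ∧ aeval θ p = x := by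
  have h1 : x ∈ (IntermediateField.adjoin F {θ}).toSubalgebra := hx
  rw [IntermediateField.adjoin_simple_toSubalgebra_of_isAlgebraic hθ.isAlgebraic,
    Algebra.adjoin_singleton_eq_range_aeval] at h1
  obtain ⟨p, hp⟩ := h1
  refine ⟨p %ₘ minpoly F θ, natDegree_modByMonic_lt p (minpoly.monic hθ) (minpoly.ne_one F θ), ?_⟩
  rw [Polynomial.aeval_modByMonic_eq_self_of_root (minpoly.aeval F θ)]
  exact hp

/-- polynomials of small degree with root `θ` are zero -/
private theorem TW_uniq {F N : Type} [Field F] [Field N] [Algebra F N] {θ : N} (p : F[X])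
    (h1 : p.natDegree < (minpoly F θ).natDegree) (h2 : aeval θ p = 0) : p = 0 := by
  by_contra h
  have h3 := natDegree_le_natDegree (minpoly.degree_le_of_ne_zero F θ h h2)
  omega

/-- the value of a sum of monomials -/
private theorem TW_ev {K N : Type} [Field K] [Field N] [Algebra K N] (α θ : N) (d : ℕ) (f : ℕ → K[X]) :
    ev2 (algebraMap K N) α θ (∑ i ∈ Finset.range d, C (f i) * X ^ i) =
      ∑ i ∈ Finset.range d, aeval α (f i) * θ ^ i := by
  rw [map_sum]
  refine Finset.sum_congr rfl fun i _ => ?_
  unfold ev2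
  rw [map_mul, map_pow, coe_eval₂RingHom, eval₂_C, eval₂_X, coe_eval₂RingHom]
  rfl

private theorem TW_coeff {R : Type} [CommRing R] (d : ℕ) (f : ℕ → R) (i : ℕ) :
    (∑ j ∈ Finset.range d, C (f j) * X ^ j : R[X]).coeff i = if i < d then f i else 0 := by
  rw [finsetSum_coeff]
  simp only [coeff_C_mul_X_pow]
  rw [Finset.sum_ite_eq]
  simp only [Finset.mem_range]

private theorem TW_deg {R : Type} [CommRing R] (d : ℕ) (f : ℕ → R) :
    (∑ j ∈ Finset.range d, C (f j) * X ^ j : R[X]).degree < d := by
  rw [degree_lt_iff_coeff_zero]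
  intro m hm
  rw [TW_coeff, if_neg (by omega)]

private theorem TW_natDeg {R : Type} [CommRing R] (d : ℕ) (hd : 0 < d) (f : ℕ → R) :
    (∑ j ∈ Finset.range d, C (f j) * X ^ j : R[X]).natDegree < d := by
  by_cases h : (∑ j ∈ Finset.range d, C (f j) * X ^ j : R[X]) = 0
  · rw [h, natDegree_zero]
    exact hd
  · exact (natDegree_lt_iff_degree_lt h).2 (TW_deg d f)

private theorem TW_nd {R : Type} [CommRing R] [Nontrivial R] {d : ℕ} {q : R[X]} (h : q.degree < d) :
    (X ^ d + q).natDegree = d := by
  rw [natDegree_add_eq_left_of_degree_lt (by rwa [degree_X_pow]), natDegree_X_pow]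

private theorem TW_sum {R : Type} [CommRing R] (d : ℕ) (H : R[X]) (h : H.natDegree < d) :
    H = ∑ j ∈ Finset.range d, C (H.coeff j) * X ^ j := by
  ext i
  rw [TW_coeff]
  split_ifs with hi
  · rfl
  · exact coeff_eq_zero_of_natDegree_lt (by omega)

theorem W_TW {K N : Type} [Field K] [Field N] [Algebra K N] [FiniteDimensional K N] (α θ : N)
    (hθ : IntermediateField.adjoin K {θ} = ⊤) :
    ∃ G : K[X][X], G.Monic ∧ (∀ i, (G.coeff i).natDegree < (minpoly K α).natDegree) ∧
      ev2 (algebraMap K N) α θ G = 0 ∧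
      G.natDegree * (minpoly K α).natDegree = Module.finrank K N ∧
      (∀ H : K[X][X], (∀ i, (H.coeff i).natDegree < (minpoly K α).natDegree) →
        H.natDegree < G.natDegree → ev2 (algebraMap K N) α θ H = 0 → H = 0) ∧
      ∀ x : N, ∃ H : K[X][X], (∀ i, (H.coeff i).natDegree < (minpoly K α).natDegree) ∧
        H.natDegree < G.natDegree ∧ ev2 (algebraMap K N) α θ H = x := by
  classical
  have hα : IsIntegral K α := Algebra.IsIntegral.isIntegral α
  set K' : IntermediateField K N := IntermediateField.adjoin K {α} with hK'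
  have hθ' : IsIntegral K' θ := Algebra.IsIntegral.isIntegral θ
  have hαm : α ∈ K' := IntermediateField.mem_adjoin_simple_self K α
  have htop : IntermediateField.adjoin K' {θ} = ⊤ := by
    rw [eq_top_iff]
    intro x _
    have h1 : x ∈ IntermediateField.adjoin K {θ} := by rw [hθ]; trivial
    have h2 : IntermediateField.adjoin K {θ} ≤ (IntermediateField.adjoin K' {θ}).restrictScalars K := by
      rw [IntermediateField.adjoin_le_iff]
      intro y hy
      exact IntermediateField.subset_adjoin K' {θ} hy
    exact h2 h1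
  have he : 0 < (minpoly K α).natDegree := minpoly.natDegree_pos hα
  have hd : 0 < (minpoly K' θ).natDegree := minpoly.natDegree_pos hθ'
  set e := (minpoly K α).natDegree with hedef
  set m := minpoly K' θ with hm
  set d := m.natDegree with hddef
  have hfin : d * e = Module.finrank K N := by
    have h1 : Module.finrank K K' = e := IntermediateField.adjoin.finrank hα
    have h2 : Module.finrank K' N = d := by
      have h3 : Module.finrank K' (IntermediateField.adjoin K' {θ}) = d := IntermediateField.adjoin.finrank hθ'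
      rw [htop, IntermediateField.finrank_top'] at h3
      exact h3
    rw [← Module.finrank_mul_finrank K K' N, h1, h2, mul_comm]
  -- the lifts
  have hlift : ∀ x : K', ∃ p : K[X], p.natDegree < e ∧ aeval α p = (x : N) := fun x =>
    TW_rep hα x x.2
  choose L hL1 hL2 using hlift
  -- lifting of polynomials over `K'`
  have hev : ∀ q : K'[X], ev2 (algebraMap K N) α θ (∑ i ∈ Finset.range d, C (L (q.coeff i)) * X ^ i) =
      aeval θ (∑ i ∈ Finset.range d, C (q.coeff i) * X ^ i : K'[X]) := by
    intro q
    rw [TW_ev, map_sum]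
    refine Finset.sum_congr rfl fun i _ => ?_
    rw [hL2, map_mul, map_pow, aeval_C, aeval_X]
    rfl
  have hmon : m.Monic := minpoly.monic hθ'
  refine ⟨X ^ d + ∑ i ∈ Finset.range d, C (L (m.coeff i)) * X ^ i, ?_, ?_, ?_, ?_, ?_, ?_⟩
  · exact monic_X_pow_add (TW_deg d _)
  · intro i
    rw [coeff_add, coeff_X_pow, TW_coeff]
    by_cases hi : i < d
    · rw [if_neg (by omega), zero_add, if_pos hi]
      exact hL1 _
    · rw [if_neg hi, add_zero]
      split_ifs
      · rw [natDegree_one]; exact he
      · rw [natDegree_zero]; exact he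
  · rw [map_add, hev, map_pow]
    have h1 : ev2 (algebraMap K N) α θ X = aeval θ (X : K'[X]) := by
      unfold ev2
      rw [coe_eval₂RingHom, eval₂_X, aeval_X]
    rw [h1, ← map_pow, ← map_add, ← hmon.as_sum]
    exact minpoly.aeval K' θ
  · rw [TW_nd (TW_deg d _)]
    exact hfin
  · rw [TW_nd (TW_deg d _)]
    intro H h1 h2 h3
    have hgen : ∀ p : K[X], ((aeval (⟨α, hαm⟩ : K') p : K') : N) = aeval α p := by
      intro p
      have := aeval_algebraMap_apply N (⟨α, hαm⟩ : K') p
      exact this.symm
    set q : K'[X] := ∑ i ∈ Finset.range d, C (aeval (⟨α, hαm⟩ : K') (H.coeff i)) * X ^ i with hq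
    have hq0 : q = 0 := by
      apply TW_uniq q (TW_natDeg d hd _)
      rw [TW_sum d H h2, TW_ev] at h3
      rw [hq, map_sum, ← h3]
      refine Finset.sum_congr rfl fun i _ => ?_
      rw [map_mul, map_pow, aeval_C, aeval_X, ← hgen]
      rfl
    ext1 i
    rw [coeff_zero]
    by_cases hi : i < d
    · apply TW_uniq (θ := α) (H.coeff i) (h1 i)
      have h4 : q.coeff i = 0 := by rw [hq0, coeff_zero]
      rw [hq, TW_coeff, if_pos hi] at h4
      rw [← hgen, h4]
      rfl
    · exact coeff_eq_zero_of_natDegree_lt (by omega)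
  · rw [TW_nd (TW_deg d _)]
    intro x
    obtain ⟨q, hq1, hq2⟩ := TW_rep hθ' x (by rw [htop]; trivial)
    refine ⟨∑ i ∈ Finset.range d, C (L (q.coeff i)) * X ^ i, ?_, TW_natDeg d hd _, ?_⟩
    · intro i
      rw [TW_coeff]
      split_ifs
      · exact hL1 _
      · rw [natDegree_zero]; exact he
    · rw [hev, ← TW_sum d q hq1]
      exact hq2

end Pool.Agent.LibHP
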