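import Pool.Agent.LibW64P.Defs
import Pool.Agent.LibW64P.TW
import Pool.Agent.LibW64P.EX
import Pool.Agent.LibW64.F6a

/-! # Row S2: static data over a small chart

SHORT/MEDIUM. Plan. `W_TW` gives `G : K[X][X]`. Finitely many elements of `K`: the coefficients of `G`;
`b⁻¹`, `π⁻¹`; generators of `A1`; the coefficients of `Q0 : K[X]` with `Q0 (θ) = α` and of `minpoly K θ`;
for each `l` the coefficients of `H_l : K[X][X]` with `S.f l = ev2 .. H_l` (last property of `W_TW`);
the coordinates `S.f.repr (α ^ j θ ^ i) l`, `i < G.natDegree`, `j < h.natDegree`. Let `R` be the (finitely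
generated) subalgebra generated by `A` and all these elements, `W_F6b` gives `a ∈ A`, `a ≠ 0` with
`R ≤ locA A a`. Lift the polynomials to `locA A a` (coefficients in it). -/

set_option autoImplicit false
open Polynomial

namespace Pool.Agent.LibHP

private theorem S2_fin {R : Type} [Semiring R] (p : R[X]) : (Set.range p.coeff).Finite := by
  classical
  refine ((p.support.image p.coeff).finite_toSet.union (Set.finite_singleton (0 : R))).subset ?_
  rintro _ ⟨i, rfl⟩
  by_cases h : i ∈ p.support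
  · exact Or.inl (by
      rw [Finset.coe_image]
      exact ⟨i, h, rfl⟩)
  · exact Or.inr (by simpa using h)

private theorem S2_fin2 {R : Type} [Semiring R] (p : R[X][X]) :
    {x | ∃ i j, (p.coeff i).coeff j = x}.Finite := by
  refine ((S2_fin p).biUnion (t := fun q => Set.range q.coeff) fun q _ => S2_fin q).subset ?_
  rintro _ ⟨i, j, rfl⟩
  exact Set.mem_biUnion (Set.mem_range_self i) (Set.mem_range_self j)

private theorem S2_lift {k K : Type} [Field k] [Field K] [Algebra k K] (B : Subalgebra k K)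
    (p : K[X]) (h : ∀ i, p.coeff i ∈ B) : ∃ q : B[X], q.map (B.val : B →+* K) = p := by
  have := (Polynomial.lifts_iff_coeff_lifts (f := (B.val : B →+* K)) p).2
    (fun n => ⟨⟨_, h n⟩, rfl⟩)
  exact (Polynomial.mem_lifts p).1 this

private theorem S2_lift2 {k K : Type} [Field k] [Field K] [Algebra k K] (B : Subalgebra k K)
    (p : K[X][X]) (h : ∀ i j, (p.coeff i).coeff j ∈ B) :
    ∃ q : B[X][X], q.map (mapRingHom (B.val : B →+* K)) = p := by
  have := (Polynomial.lifts_iff_coeff_lifts (f := mapRingHom (B.val : B →+* K)) p).2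
    (fun n => by
      obtain ⟨q, hq⟩ := S2_lift B (p.coeff n) (h n)
      exact ⟨q, hq⟩)
  exact (Polynomial.mem_lifts p).1 this

private theorem S2_ev2 {R S T : Type} [CommRing R] [CommRing S] [CommRing T] (τ : R →+* S)
    (σ : S →+* T) (y w : T) (G : R[X][X]) :
    ev2 σ y w (G.map (mapRingHom τ)) = ev2 (σ.comp τ) y w G := by
  unfold ev2
  simp only [coe_eval₂RingHom]
  rw [eval₂_map]
  congr 1
  apply Polynomial.ringHom_ext
  · intro a
    simp
  · simp

private theorem S2_loc {k K : Type} [Field k] [Field K] [Algebra k K] (A : Subalgebra k K)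
    (hK : ∀ c : K, ∃ u w : K, u ∈ A ∧ w ∈ A ∧ w ≠ 0 ∧ c * w = u) (s : Set K) (hs : s.Finite) :
    ∃ a : A, a ≠ 0 ∧ Algebra.adjoin k s ≤ locA A a := by
  have hfg : (Algebra.adjoin k s).FG := ⟨hs.toFinset, by rw [hs.coe_toFinset]⟩
  obtain ⟨a, ha0, ha⟩ := W_F6b A _ hfg hK
  exact ⟨a, ha0, fun c hc => ha c hc⟩

private theorem S2_inj {k K : Type} [Field k] [Field K] [Algebra k K] (B : Subalgebra k K) :
    Function.Injective (B.val : B →+* K) := Subtype.val_injective

theorem W_S2 {k K N : Type} [Field k] [CharZero k] [Field K] [Algebra k K] [Field N] [Algebra K N]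
    [Algebra k N] [IsScalarTower k K N] [FiniteDimensional K N] (L : Subfield K)
    (A A1 A0 : Subalgebra k K) (hA : IsModel L A A0) (hA1 : IsModel L A1 A0)
    (θ : N) (hθ : IntermediateField.adjoin K {θ} = ⊤) (α : N) (h : A0[X]) (hh : h.Monic)
    (hmin : h.map (A0.val : A0 →+* K) = minpoly K α) (S : Spr A1 A0 N) (hα : α ∈ S.C) :
    ∃ a : A, a ≠ 0 ∧ Nonempty (Sta (locA A a) A1 A0 h α θ S) := by
  classical
  obtain ⟨GK, hGm, hGd, hG0, hrk, hfree, hspan⟩ := W_TW (K := K) α θ hθ
  have hdeg : (minpoly K α).natDegree = h.natDegree := by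
    rw [← hmin, natDegree_map_eq_of_injective (S2_inj A0)]
  rw [hdeg] at hGd hrk hfree hspan
  -- `Q0`
  obtain ⟨QK, hQK⟩ : ∃ Q : K[X], Polynomial.aeval θ Q = α := by
    have h1 : α ∈ (IntermediateField.adjoin K {θ}).toSubalgebra := by
      rw [IntermediateField.mem_toSubalgebra, hθ]
      exact IntermediateField.mem_top
    rw [IntermediateField.adjoin_simple_toSubalgebra_of_isAlgebraic
      (Algebra.IsAlgebraic.isAlgebraic θ),
      Algebra.adjoin_singleton_eq_range_aeval] at h1
      
    exact h1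
  choose HK hHK using fun l => hspan (S.f l)
  obtain ⟨s1, hs1⟩ := hA1.fg
  -- the finite set
  let s : Set K := (s1 : Set K) ∪ {((S.b : A1) : K)⁻¹, ((S.π : A1) : K)⁻¹} ∪
    Set.range QK.coeff ∪ Set.range (minpoly K θ).coeff ∪ {x | ∃ i j, (GK.coeff i).coeff j = x} ∪
    (⋃ l, {x | ∃ i j, ((HK l).coeff i).coeff j = x}) ∪
    (fun t : ℕ × ℕ × Fin S.n => S.f.repr (α ^ t.2.1 * θ ^ t.1) t.2.2) ''
      ((Finset.range GK.natDegree ×ˢ Finset.range h.natDegree ×ˢ Finset.univ :
        Finset (ℕ × ℕ × Fin S.n)) : Set (ℕ × ℕ × Fin S.n))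
  have hsfin : s.Finite := by
    refine Set.Finite.union (Set.Finite.union (Set.Finite.union (Set.Finite.union
      (Set.Finite.union (Set.Finite.union ?_ ?_) ?_) ?_) ?_) ?_) ?_
    · exact s1.finite_toSet
    · exact (Set.finite_singleton _).insert _
    · exact S2_fin _
    · exact S2_fin _
    · exact S2_fin2 _
    · exact Set.finite_iUnion fun l => S2_fin2 _
    · exact (Finset.finite_toSet _).image _
  obtain ⟨a, ha0, ha⟩ := S2_loc A hA.fracK s hsfin
  have hs : ∀ x ∈ s, x ∈ locA A a := fun x hx => ha (Algebra.subset_adjoin hx)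
  refine ⟨a, ha0, ?_⟩
  obtain ⟨G, hG⟩ := S2_lift2 (locA A a) GK (fun i j => hs _
    (Or.inl (Or.inl (Or.inr ⟨i, j, rfl⟩))))
  obtain ⟨Q, hQ⟩ := S2_lift (locA A a) QK (fun i => hs _
    (Or.inl (Or.inl (Or.inl (Or.inl (Or.inr ⟨i, rfl⟩))))))
  obtain ⟨P, hP⟩ := S2_lift (locA A a) (minpoly K θ) (fun i => hs _
    (Or.inl (Or.inl (Or.inl (Or.inr ⟨i, rfl⟩)))))
  have hinj := S2_inj (locA A a)
  have hinj2 : Function.Injective (mapRingHom ((locA A a).val : locA A a →+* K)) :=
    Polynomial.map_injective _ hinj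
  have hGn : G.natDegree = GK.natDegree := by
    rw [← hG, natDegree_map_eq_of_injective hinj2]
  refine ⟨{
    T := {
      G := G
      hh := hh
      hmin := hmin
      hG := monic_of_injective hinj2 (by rw [hG]; exact hGm)
      hGd := fun i => by
        have h1 := hGd i
        rw [← hG, coeff_map] at h1
        rwa [coe_mapRingHom, natDegree_map_eq_of_injective hinj] at h1
      hG0 := by
        rw [← S2_ev2, hG]
        exact hG0
      rank := by rw [hGn]; exact hrk
      free := fun H h1 h2 h3 => hfree H h1 (by rwa [← hGn]) h3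
      span := fun x => by
        rw [hGn]
        exact hspan x }
    hα := hα
    h1A := by
      rw [← hs1]
      refine Algebra.adjoin_le fun x hx => hs x ?_
      exact Or.inl (Or.inl (Or.inl (Or.inl (Or.inl (Or.inl hx)))))
    hb := hs _ (Or.inl (Or.inl (Or.inl (Or.inl (Or.inl (Or.inr (Or.inl rfl)))))))
    hπ := hs _ (Or.inl (Or.inl (Or.inl (Or.inl (Or.inl (Or.inr (Or.inr rfl)))))))
    Q0 := Q
    hQ0 := by
      rw [← eval₂_map, hQ]
      exact hQK
    P := P
    hPm := monic_of_injective hinj (by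
      rw [hP]
      exact minpoly.monic (Algebra.IsIntegral.isIntegral θ))
    hP := hP
    hH := fun l => by
      obtain ⟨H, hH⟩ := S2_lift2 (locA A a) (HK l) (fun i j => hs _
        (Or.inl (Or.inr (Set.mem_iUnion.2 ⟨l, i, j, rfl⟩))))
      refine ⟨H, ?_⟩
      rw [← S2_ev2, hH]
      exact (hHK l).2.2.symm
    hco := fun i j l hi hj => hs _ (Or.inr ⟨(i, j, l), by
      rw [hGn] at hi
      simp [hi, hj], rfl⟩) }⟩

end Pool.Agent.LibHP
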