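import Pool.Agent.LibW64P.Defs
import Pool.Agent.LibW64P.EX
import Pool.Agent.LibW64P.AK
import Pool.Agent.LibW64P.RA
import Pool.Agent.LibW64P.RB
import Pool.Agent.LibW64P.RC
import Pool.Agent.LibW64P.S1
import Pool.Agent.LibW64P.S2
import Pool.Agent.LibW64P.IR

/-! # Row R: horizontal ramification is visible on general fibres

Plan. `W_S1` (for `A1`): `α, h, S, ρ1`. `W_S2`: `a0 ∈ A`, `Z : Sta A' A1 A0 h α θ S`, `A' := locA A a0`.
`W_EX4`: `IsModel L A' A0`; `W_IR` for `A'`, `Z.T`: `ρ2`. `ρ := a0 * ρ1 * ρ2` (`A0 ≤ A`). Let `φ ρ ≠ 0`,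
`φ0 := φ.comp (inclusion)`. `W_EX7`: `φ' : A' →ₐ[k] k` extending `φ`. (i) `fibI A1 A0 φ0 ≠ ⊤`: the restriction of
`φ'` to `A1 ≤ A'` kills it. (ii) Let the fibre be given. `W_EX5`, `W_EX6`: `ψ' : A' →+* κ` extending `ψ`,
`IsFib A' A0 φ0 O Ψ ψ'`. `Z.P` is the image of `P` (both map to `minpoly K θ`), so `hroot` of `W_RA`. `hAK`
from `W_AK` with `ψ, φ, τ` (`ψ' (algebraMap k A' a) = ψ (algebraMap k A a)`), `p := h.map φ0`. `W_RA` gives
`a`; `W_IR` (for `φ'`, `ψ'`) irreducibility; `W_S1`: `RedAt`, `ChiAt` (gives `χ`), separability; `W_RB` for all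
`H`, then `W_RC`. -/

set_option autoImplicit false
open Polynomial

namespace Pool.Agent.LibHP

theorem W_R {k K N : Type} [Field k] [CharZero k] [Field K] [Algebra k K] [Field N] [Algebra K N]
    [Algebra k N] [IsScalarTower k K N] [FiniteDimensional K N] (L : Subfield K)
    (hcl : ClosedSub L) (hne : ∃ c : K, c ∉ L) (A A1 A0 : Subalgebra k K)
    (hA : IsModel L A A0) (hA1 : IsModel L A1 A0) (hram : RamHor A1 A0 N) (θ : N)
    (hθ : IntermediateField.adjoin K {θ} = ⊤) (P : A[X]) (hP : P.Monic)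
    (hPθ : P.map (A.val : A →+* K) = minpoly K θ) :
    ∃ ρ : A, ρ ≠ 0 ∧ ∀ φ : A →ₐ[k] k, φ ρ ≠ 0 →
      fibI A1 A0 (φ.comp (Subalgebra.inclusion hA.le)) ≠ ⊤ ∧
      ∀ (κ : Type) [Field κ] (O : Subring K) (Ψ : O →+* κ) (ψ : A →+* κ) (ψ1 : A1 →+* κ),
        IsFib A A0 (φ.comp (Subalgebra.inclusion hA.le)) O Ψ ψ →
        IsFib A1 A0 (φ.comp (Subalgebra.inclusion hA.le)) O Ψ ψ1 →
        ∀ (M : Type) [Field M] [Algebra κ M] (θM : M),
          P.eval₂ ((algebraMap κ M).comp ψ) θM = 0 →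
          Algebra.Etale ψ1.range (integralClosure ψ1.range M) →
          ∀ τ : integralClosure ψ.range M →+* k,
            (∀ a : A, τ (algebraMap ψ.range (integralClosure ψ.range M) ⟨ψ a, a, rfl⟩) = φ a) →
            False := by
  classical
  obtain ⟨α, h, S, ρ1, hρ1, hh, hmin, hmax, hα, hS1⟩ := W_S1 L hcl A1 A0 hA1 hram
  obtain ⟨a0, ha0, ⟨Z⟩⟩ := W_S2 L A A1 A0 hA hA1 θ hθ α h hh hmin S hα
  have hA' : IsModel L (locA A a0) A0 := W_EX4 L A A0 hA a0 ha0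
  obtain ⟨ρ2, hρ2, hIR⟩ := W_IR L hcl hne (locA A a0) A0 hA' h α θ Z.T hmax hθ
  have hinj : Function.Injective (Subalgebra.inclusion hA.le) := Subalgebra.inclusion_injective _
  refine ⟨a0 * Subalgebra.inclusion hA.le ρ1 * Subalgebra.inclusion hA.le ρ2,
    mul_ne_zero (mul_ne_zero ha0 ((map_ne_zero_iff _ hinj).2 hρ1))
      ((map_ne_zero_iff _ hinj).2 hρ2), fun φ hφ => ?_⟩
  rw [map_mul, map_mul] at hφ
  have hφa : φ a0 ≠ 0 := left_ne_zero_of_mul (left_ne_zero_of_mul hφ)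
  have hφ1 : φ (Subalgebra.inclusion hA.le ρ1) ≠ 0 := right_ne_zero_of_mul (left_ne_zero_of_mul hφ)
  have hφ2 : φ (Subalgebra.inclusion hA.le ρ2) ≠ 0 := right_ne_zero_of_mul hφ
  obtain ⟨φ', hφ'⟩ := W_EX7 A a0 φ hφa
  have hcomp : φ'.comp (Subalgebra.inclusion hA'.le) = φ.comp (Subalgebra.inclusion hA.le) := by
    ext c
    have := hφ' (Subalgebra.inclusion hA.le c)
    exact this
  refine ⟨fun htop => ?_, ?_⟩
  · have hle : fibI A1 A0 (φ.comp (Subalgebra.inclusion hA.le)) ≤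
        RingHom.ker ((φ'.comp (Subalgebra.inclusion Z.h1A) : A1 →ₐ[k] k) : A1 →+* k) := by
      unfold fibI
      rw [Ideal.span_le]
      rintro a ⟨h1, h2⟩
      rw [SetLike.mem_coe, RingHom.mem_ker]
      rw [← hcomp] at h2
      exact h2
    rw [htop] at hle
    have h1 : (1 : A1) ∈ RingHom.ker ((φ'.comp (Subalgebra.inclusion Z.h1A) : A1 →ₐ[k] k) :
        A1 →+* k) := hle Submodule.mem_top
    rw [RingHom.mem_ker, map_one] at h1
    exact one_ne_zero h1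
  · intro κ _ O Ψ ψ ψ1 hfib hfib1 M _ _ θM hθM het τ hτ
    have hψa : ψ a0 ≠ 0 := W_EX5 A A0 hA.le φ O Ψ ψ hfib a0 hφa
    obtain ⟨ψ', hψ', hfib'⟩ := W_EX6 A A0 hA.le _ O Ψ ψ hfib a0 hψa
    have hψk : ψ'.comp (algebraMap k (locA A a0)) = ψ.comp (algebraMap k A) := by
      ext c
      exact hψ' (algebraMap k A c)
    have hZP : Z.P = P.map (Subalgebra.inclusion (W_EX1 A a0) : A →+* locA A a0) := by
      apply Polynomial.map_injective ((locA A a0).val : locA A a0 →+* K)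
        Subtype.val_injective
      rw [Z.hP, Polynomial.map_map, ← hPθ]
      rfl
    have hroot : Z.P.eval₂ ((algebraMap κ M).comp ψ') θM = 0 := by
      rw [hZP, Polynomial.eval₂_map]
      rw [← hθM]
      congr 1
      ext c
      show algebraMap κ M (ψ' (Subalgebra.inclusion (W_EX1 A a0) c)) = algebraMap κ M (ψ c)
      rw [hψ']
    have hAK : ∀ β : M, (h.map ((φ.comp (Subalgebra.inclusion hA.le) : A0 →ₐ[k] k) :
        A0 →+* k)).eval₂ ((algebraMap κ M).comp (ψ'.comp (algebraMap k (locA A a0)))) β = 0 →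
        ∃ a : k, (h.map ((φ.comp (Subalgebra.inclusion hA.le) : A0 →ₐ[k] k) :
          A0 →+* k)).IsRoot a ∧
          algebraMap κ M (ψ' (algebraMap k (locA A a0) a)) = β := by
      intro β hβ
      rw [hψk] at hβ
      obtain ⟨a, ha, hβa⟩ := W_AK A ψ φ τ hτ _ (hh.map _) β hβ
      refine ⟨a, ha, ?_⟩
      rw [← hβa]
      congr 1
      exact RingHom.congr_fun hψk a
    obtain ⟨a, ha, hΘ⟩ := W_RA (locA A a0) A1 A0 hA'.le h α θ S Z
      (φ.comp (Subalgebra.inclusion hA.le)) O Ψ ψ' hfib' θM hroot hAK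
    have hirr := hIR φ' (by
      have := hφ' (Subalgebra.inclusion hA.le ρ2)
      have h3 : φ' (Subalgebra.inclusion hA'.le ρ2) = φ (Subalgebra.inclusion hA.le ρ2) := this
      rw [h3]
      exact hφ2) κ O Ψ ψ' (by rw [hcomp]; exact hfib') a (by rw [hcomp]; exact ha)
    obtain ⟨hred, hchi, hsep⟩ := hS1 (φ.comp (Subalgebra.inclusion hA.le)) hφ1
    obtain ⟨χ, hχ0, hχα, hχζ⟩ := hchi a ha
    exact W_RC (locA A a0) A1 A0 hA'.le hA1.le hA1.fg h α θ S Z
      (φ.comp (Subalgebra.inclusion hA.le)) O Ψ ψ' ψ1 hfib' hfib1 hred θM a hΘ χ hχζ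
      (fun H hx h0 => W_RB (locA A a0) A1 A0 hA'.le hA1.le h α θ S Z
        (φ.comp (Subalgebra.inclusion hA.le)) O Ψ ψ' ψ1 hfib' hfib1 θM a ha (hsep a ha) hirr hΘ
        χ hχ0 hχα H hx h0) het

end Pool.Agent.LibHP
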