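import Pool.Agent.LibW64P.SDefs
import Pool.Agent.LibW64P.R
import Pool.Agent.LibW64P.P9
import Pool.Agent.LibW64P.PA
import Pool.Agent.LibW64P.EX

/-! # Row PS: the induction step

Plan. Let `R` be finitely generated; `R1 := R ⊔` (the algebra generated by the coefficients of all `T' i`, `S j`).
`W_P9` with `W' := W ⊓ g ⁻¹ᵁ T0` (contains the generic point: `W` is nonempty) and `R1`: `V0`; `hch`: `A` with
`IsChart`, `IsModel L A A0`; `R1 ≤ A`. Lift `T' i`, `S j` to `P i`, `Q j` in `A[X]`, monic. For every `i` let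
`V1, A1` be as in `hT' i` (`IsModel L A1 A0` by `hch` and since a chart is determined by `V1`); `W_R` with
`N := AdjoinRoot (T' i)`, `θ := root`, `P := P i` (`minpoly K θ = T' i`) gives `ρ_i ∈ A`. `a := ∏ ρ_i ≠ 0`.
`hav` for `R2 := locA A a` (`W_EX3`): `R' ≥ R2`, lifts `Q' j` of `S j`, `φ' : R' →ₐ[k] k`; `φ` := restriction to `A`;
`φ (ρ_i) ≠ 0`, since `ρ_i` divides `a`, a unit in `R'` (`W_EX2`); `(Q j).map φ = (Q' j).map φ'` (the lift over `R'` is
unique) has no root. `W_PA` (for the family `Sum.elim P Q`, indexed by `Fin m ≃ ι ⊕ κ`): second alternative for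
the `P i` (from `W_R`), first alternative for the `Q j`. Take `R' := A` and `ψ'` in `Avoid`. -/

set_option autoImplicit false
open AlgebraicGeometry CategoryTheory

namespace Pool.Agent.LibHP

private theorem ps_lift {k K : Type} [Field k] [Field K] [Algebra k K] (R : Subalgebra k K)
    (p : Polynomial K) (hp : ∀ n, p.coeff n ∈ R) :
    ∃ P : Polynomial R, P.map (R.val : R →+* K) = p := by
  have h1 : p ∈ Polynomial.lifts (R.val : R →+* K) := by
    rw [Polynomial.lifts_iff_coeff_lifts]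
    intro n
    exact ⟨⟨p.coeff n, hp n⟩, rfl⟩
  exact (Polynomial.mem_lifts p).1 h1

private theorem ps_coeffs {k K ι : Type} [Field k] [Field K] [Algebra k K] [Finite ι]
    (T : ι → Polynomial K) : ∃ R : Subalgebra k K, R.FG ∧ ∀ i n, (T i).coeff n ∈ R := by
  classical
  have := Fintype.ofFinite ι
  refine ⟨Algebra.adjoin k ((Finset.univ.biUnion fun i => (T i).coeffs : Finset K) : Set K),
    ⟨_, rfl⟩, ?_⟩
  intro i n
  by_cases h : (T i).coeff n = 0
  · rw [h]
    exact Subalgebra.zero_mem _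
  · apply Algebra.subset_adjoin
    rw [Finset.mem_coe, Finset.mem_biUnion]
    exact ⟨i, Finset.mem_univ i, Polynomial.coeff_mem_coeffs h⟩

theorem W_PS {k : Type} [Field k] [CharZero k] {V T : Scheme.{0}} [IsIntegral V] [IsIntegral T]
    (h : V ⟶ Spec (CommRingCat.of k)) [LocallyOfFiniteType h]
    (t : T ⟶ Spec (CommRingCat.of k)) [LocallyOfFiniteType t] (g : V ⟶ T) (hg : g ≫ t = h)
    (W : V.Opens)
    (H : ∀ s : Spec (CommRingCat.of k) ⟶ V, s ≫ h = 𝟙 _ → Set.range s.base ⊆ W →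
      IsIntegral (Limits.pullback g (s ≫ g)) ∧
      (∀ y : ↥(Limits.pullback g (s ≫ g)),
        IsIntegrallyClosed ((Limits.pullback g (s ≫ g)).presheaf.stalk y)) ∧
      RelWHP (Limits.pullback.snd g (s ≫ g))
        (Limits.pullback.lift s (𝟙 _) (by rw [Category.id_comp])))
    (K : Type) [Field K] [Algebra k K] (e : V.functionField →+* K) (he : Function.Bijective e)
    (hk : ∀ c : k, algebraMap k K c = e (toStalk h (genericPoint V) c)) (T0 : T.Opens)
    (hT0 : IsAffineOpen T0) (hηT : genericPoint V ∈ g ⁻¹ᵁ T0) (L : Subfield K)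
    (A0 : Subalgebra k K) (hA0 : IsBase g e T0 hηT A0)
    (hW : (W : Set V).Nonempty) (hcl : ClosedSub L) (hne : ∃ c : K, c ∉ L)
    (hch : ∀ (V1 : V.Opens) (_ : IsAffineOpen V1) (_ : V1 ≤ g ⁻¹ᵁ T0)
      (hη1 : genericPoint V ∈ V1), ∃ A1 : Subalgebra k K, IsChart e V1 hη1 A1 ∧ IsModel L A1 A0)
    (ι κ : Type) [Finite ι] [Finite κ] (T' : ι → Polynomial K) (S : κ → Polynomial K)
    (hT'm : ∀ i, (T' i).Monic)
    (hT' : ∀ i, ∃ (_ : Fact (Irreducible (T' i))) (V1 : V.Opens) (_ : IsAffineOpen V1)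
      (_ : V1 ≤ g ⁻¹ᵁ T0) (hη1 : genericPoint V ∈ V1) (A1 : Subalgebra k K),
      IsChart e V1 hη1 A1 ∧ RamHor A1 A0 (AdjoinRoot (T' i)))
    (hS : ∀ j, (S j).Monic) (hav : Avoid k S) : Avoid k (Sum.elim T' S) := by
  classical
  intro R hR
  obtain ⟨RT, hRT, hT1⟩ := ps_coeffs (k := k) T'
  obtain ⟨RS, hRS, hS1⟩ := ps_coeffs (k := k) S
  obtain ⟨R1, hR1⟩ : ∃ R1 : Subalgebra k K, R1 = R ⊔ (RT ⊔ RS) := ⟨_, rfl⟩
  have hR1fg : R1.FG := by
    rw [hR1]
    exact hR.sup (hRT.sup hRS)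
  have hle : R ≤ R1 := by
    rw [hR1]
    exact le_sup_left
  have hleT : RT ≤ R1 := by
    rw [hR1]
    exact le_sup_left.trans le_sup_right
  have hleS : RS ≤ R1 := by
    rw [hR1]
    exact le_sup_right.trans le_sup_right
  have hηW : genericPoint V ∈ W := by
    rw [← SetLike.mem_coe, (genericPoint_spec V).mem_open_set_iff W.isOpen]
    simpa using hW
  have hconst : ∀ (V1 : V.Opens) (hη1 : genericPoint V ∈ V1) (c : k),
      ∃ b : Γ(V, V1), chM e V1 hη1 b = algebraMap k K c := by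
    intro V1 hη1 c
    refine ⟨kapU h V1 c, ?_⟩
    change e (V.presheaf.germ V1 (genericPoint V) hη1 (kapU h V1 c)) = algebraMap k K c
    rw [germ_kapU, hk]
  obtain ⟨V0, hV0, hV0le, hη0, hV0R⟩ := W_P9 K e he (W ⊓ g ⁻¹ᵁ T0) ⟨hηW, hηT⟩ R1 hR1fg hconst
  have hVW : V0 ≤ W := hV0le.trans inf_le_left
  have hle0 : V0 ≤ g ⁻¹ᵁ T0 := hV0le.trans inf_le_right
  obtain ⟨A, hA, hMA⟩ := hch V0 hV0 hle0 hη0
  have hRA : R1 ≤ A := hV0R A hA
  choose P hP using fun i => ps_lift A (T' i) fun n => hRA (hleT (hT1 i n))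
  choose Q hQ using fun j => ps_lift A (S j) fun n => hRA (hleS (hS1 j n))
  have hinj : Function.Injective (A.val : A →+* K) := Subtype.val_injective
  have hPm : ∀ i, (P i).Monic := fun i =>
    Polynomial.monic_of_injective hinj (by rw [hP i]; exact hT'm i)
  have hQm : ∀ j, (Q j).Monic := fun j =>
    Polynomial.monic_of_injective hinj (by rw [hQ j]; exact hS j)
  have hkey : ∀ i, ∃ ρ : A, ρ ≠ 0 ∧ ∀ φ : A →ₐ[k] k, φ ρ ≠ 0 →
      ∃ (V1 : V.Opens) (_ : IsAffineOpen V1) (_ : V1 ≤ g ⁻¹ᵁ T0) (hη1 : genericPoint V ∈ V1)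
        (A1 : Subalgebra k K) (_ : IsChart e V1 hη1 A1),
        fibI A1 A0 (φ.comp (Subalgebra.inclusion hMA.le)) ≠ ⊤ ∧
        ∀ (κ : Type) [Field κ] (O : Subring K) (Ψ : O →+* κ) (ψ : A →+* κ) (ψ1 : A1 →+* κ),
          IsFib A A0 (φ.comp (Subalgebra.inclusion hMA.le)) O Ψ ψ →
          IsFib A1 A0 (φ.comp (Subalgebra.inclusion hMA.le)) O Ψ ψ1 →
          ∀ (M : Type) [Field M] [Algebra κ M] (θM : M),
            (P i).eval₂ ((algebraMap κ M).comp ψ) θM = 0 →
            Algebra.Etale ψ1.range (integralClosure ψ1.range M) →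
            ∀ τ : integralClosure ψ.range M →+* k,
              (∀ a : A, τ (algebraMap ψ.range (integralClosure ψ.range M) ⟨ψ a, a, rfl⟩) = φ a) →
              False := by
    intro i
    obtain ⟨hfact, V1, hV1, hle1, hη1, A1, hA1, hram⟩ := hT' i
    obtain ⟨A1', hA1', hMA1⟩ := hch V1 hV1 hle1 hη1
    have hAA : A1' = A1 := by
      ext c
      rw [hA1' c, hA1 c]
    subst hAA
    have hfd : FiniteDimensional K (AdjoinRoot (T' i)) := (hT'm i).finite_adjoinRoot
    have htop : IntermediateField.adjoin K {AdjoinRoot.root (T' i)} = ⊤ :=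
      IntermediateField.adjoin_eq_top_of_algebra K _ AdjoinRoot.adjoinRoot_eq_top
    have hmin : (P i).map (A.val : A →+* K) = minpoly K (AdjoinRoot.root (T' i)) := by
      rw [hP i, AdjoinRoot.minpoly_root (hT'm i).ne_zero, (hT'm i).leadingCoeff, inv_one, map_one,
        mul_one]
    obtain ⟨ρ, hρ, hρ'⟩ := W_R L hcl hne A A1' A0 hMA hMA1 hram (AdjoinRoot.root (T' i)) htop
      (P i) (hPm i) hmin
    refine ⟨ρ, hρ, fun φ hφ => ?_⟩
    obtain ⟨h1, h2⟩ := hρ' φ hφ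
    exact ⟨V1, hV1, hle1, hη1, A1', hA1', h1, h2⟩
  choose ρ hρ0 hρ using hkey
  have hι := Fintype.ofFinite ι
  have hκ := Fintype.ofFinite κ
  obtain ⟨a, ha⟩ : ∃ a : A, a = ∏ i, ρ i := ⟨_, rfl⟩
  have ha0 : a ≠ 0 := by
    rw [ha]
    exact Finset.prod_ne_zero_iff.2 fun i _ => hρ0 i
  obtain ⟨R', Q', φ', hR', hQ', hno⟩ := hav (locA A a) (W_EX3 A a ha0 hMA.fg)
  have hAR : A ≤ R' := (W_EX1 A a).trans hR'
  obtain ⟨φ, hφ⟩ : ∃ φ : A →ₐ[k] k, φ = φ'.comp (Subalgebra.inclusion hAR) := ⟨_, rfl⟩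
  have hφa : φ a ≠ 0 := by
    intro h0
    have h1 : (⟨(a : K), hAR a.2⟩ : R') * ⟨((a : K))⁻¹, hR' (W_EX2 A a ha0)⟩ = 1 := by
      apply Subtype.ext
      exact mul_inv_cancel₀ fun h => ha0 (Subtype.ext h)
    have h2 := congrArg φ' h1
    have h3 : φ' (⟨(a : K), hAR a.2⟩ : R') = 0 := by
      rw [← h0, hφ]
      rfl
    rw [map_mul, h3, zero_mul, map_one] at h2
    exact zero_ne_one h2
  have hφρ : ∀ i, φ (ρ i) ≠ 0 := by
    intro i h0
    apply hφa
    rw [ha, map_prod]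
    exact Finset.prod_eq_zero (Finset.mem_univ i) h0
  have hφQ : ∀ j, ∀ x : k, ¬ ((Q j).map (φ : A →+* k)).IsRoot x := by
    intro j x hx
    apply hno j x
    have h1 : Q' j = (Q j).map (Subalgebra.inclusion hAR : A →+* R') := by
      have hinj4 : Function.Injective (R'.val : R' →+* K) := Subtype.val_injective
      apply Polynomial.map_injective _ hinj4
      rw [hQ', ← hQ j, Polynomial.map_map]
      rfl
    rw [h1, Polynomial.map_map]
    rw [hφ] at hx
    exact hx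
  obtain ⟨ψ', hψ'⟩ := W_PA h t g hg W H K e he hk T0 hT0 hηT L A0 hA0 V0 hV0 hle0 hVW hη0 A hA hMA
    (Fintype.card (ι ⊕ κ)) (fun n => Sum.elim P Q ((Fintype.equivFin (ι ⊕ κ)).symm n))
    (fun n => by
      rcases (Fintype.equivFin (ι ⊕ κ)).symm n with i | j
      · exact hPm i
      · exact hQm j) φ (fun n => by
      rcases (Fintype.equivFin (ι ⊕ κ)).symm n with i | j
      · right
        exact hρ i φ (hφρ i)
      · left
        exact hφQ j)
  refine ⟨A, Sum.elim P Q, ψ', hle.trans hRA, ?_, ?_⟩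
  · rintro (i | j)
    · exact hP i
    · exact hQ j
  · intro i
    have h1 := hψ' ((Fintype.equivFin (ι ⊕ κ)) i)
    rwa [Equiv.symm_apply_apply] at h1

end Pool.Agent.LibHP
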