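import Pool.Agent.LibW64T.Defs

/-! # Fibrations whose fibres have the weak Hilbert property: definitions (algebra) -/

set_option autoImplicit false
open Polynomial

namespace Pool.Agent.LibHP

/-- Evaluation of polynomials in two variables: `Y` (the inner variable) at `y`, `X` (the outer
variable) at `w`. -/
noncomputable def ev2 {R S : Type} [CommRing R] [CommRing S] (σ : R →+* S) (y w : S) :
    R[X][X] →+* S :=
  Polynomial.eval₂RingHom (Polynomial.eval₂RingHom σ y) w

/-- The ideal of the fibre of `U → T` over the point `φ0` of `T`, generated by the functions on `T`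
vanishing at `φ0`. -/
def fibI {k K : Type} [Field k] [Field K] [Algebra k K] (A A0 : Subalgebra k K)
    (φ0 : A0 →ₐ[k] k) : Ideal A :=
  Ideal.span {a : A | ∃ h : (a : K) ∈ A0, φ0 ⟨a, h⟩ = 0}

/-- `κ` is the function field of the fibre over `φ0`, `Ψ` the reduction map of the local ring `O` of
the generic point of the fibre, `ψ` its restriction to the functions on the affine open set `U` with
coordinate ring `A`. -/
structure IsFib {k K κ : Type} [Field k] [Field K] [Algebra k K] [Field κ] (A A0 : Subalgebra k K)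
    (φ0 : A0 →ₐ[k] k) (O : Subring K) (Ψ : O →+* κ) (ψ : A →+* κ) : Prop where
  inv : ∀ x : O, Ψ x ≠ 0 → (x : K)⁻¹ ∈ O
  comp : ∀ a : A, ∃ h : (a : K) ∈ O, Ψ ⟨a, h⟩ = ψ a
  ker : ∀ a : A, ψ a = 0 ↔ a ∈ fibI A A0 φ0
  frac : ∀ z : κ, ∃ a b : A, ψ b ≠ 0 ∧ z * ψ b = ψ a

/-- The subalgebra `A[1/a]` of `K`. -/
def locA {k K : Type} [Field k] [Field K] [Algebra k K] (A : Subalgebra k K) (a : A) :
    Subalgebra k K where
  carrier := {x | ∃ n : ℕ, x * (a : K) ^ n ∈ A}
  mul_mem' := by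
    rintro x y ⟨n, hn⟩ ⟨m, hm⟩
    refine ⟨n + m, ?_⟩
    have h := A.mul_mem hn hm
    rwa [mul_mul_mul_comm, ← pow_add] at h
  add_mem' := by
    rintro x y ⟨n, hn⟩ ⟨m, hm⟩
    refine ⟨n + m, ?_⟩
    have h1 := A.mul_mem hn (A.pow_mem a.2 m)
    have h2 := A.mul_mem hm (A.pow_mem a.2 n)
    have h3 := A.add_mem h1 h2
    have h4 : x * (a : K) ^ n * (a : K) ^ m + y * (a : K) ^ m * (a : K) ^ n =
        (x + y) * (a : K) ^ (n + m) := by ring
    rwa [h4] at h3
  algebraMap_mem' := fun c => ⟨0, by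
    rw [pow_zero, mul_one]
    exact A.algebraMap_mem c⟩

/-- The extension `N / K` is ramified at a horizontal codimension one point `𝔭` of the affine open set
with coordinate ring `A1`; `O` is the local ring at `𝔭`. -/
def RamHor {k K : Type} [Field k] [Field K] [Algebra k K] (A1 A0 : Subalgebra k K) (N : Type)
    [Field N] [Algebra K N] : Prop :=
  ∃ (𝔭 : Ideal A1) (O : Type) (_ : CommRing O) (_ : IsDomain O) (_ : Algebra O K)
    (_ : Algebra O N), 𝔭.IsPrime ∧ (∀ a : A1, (a : K) ∈ A0 → a ∈ 𝔭 → a = 0) ∧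
    IsDiscreteValuationRing O ∧ IsFractionRing O K ∧ IsScalarTower O K N ∧
    (∀ x : K, x ∈ Set.range (algebraMap O K) ↔ ∃ a b : A1, b ∉ 𝔭 ∧ x * b = a) ∧
    ¬ Algebra.Etale O (integralClosure O N)

/-- The extension `N = K(θ)` of `K` as a tower: `α` has the minimal polynomial `h` over `K`, and `θ`
the minimal polynomial `G (α, X)` over `K(α)`. -/
structure Tow {k K N : Type} [Field k] [Field K] [Algebra k K] [Field N] [Algebra K N]
    (A A0 : Subalgebra k K) (h : A0[X]) (α θ : N) where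
  G : A[X][X]
  hh : h.Monic
  hmin : h.map (A0.val : A0 →+* K) = minpoly K α
  hG : G.Monic
  hGd : ∀ i, (G.coeff i).natDegree < h.natDegree
  hG0 : ev2 ((algebraMap K N).comp (A.val : A →+* K)) α θ G = 0
  rank : G.natDegree * h.natDegree = Module.finrank K N
  free : ∀ H : K[X][X], (∀ i, (H.coeff i).natDegree < h.natDegree) →
    H.natDegree < G.natDegree → ev2 (algebraMap K N) α θ H = 0 → H = 0
  span : ∀ x : N, ∃ H : K[X][X], (∀ i, (H.coeff i).natDegree < h.natDegree) ∧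
    H.natDegree < G.natDegree ∧ ev2 (algebraMap K N) α θ H = x

/-- A ramified codimension one point, spread out over the affine open set `b ≠ 0`: there the divisor
`𝔭` is given by `π = 0`, the cover is given by the algebra `C`, which is free with basis `f` over
`A1[1/b]`, and `ϖ ^ 2` divides `π` in `C`, where `ϖ` vanishes at the point `ζ` of the cover above
`𝔭`. -/
structure Spr {k K : Type} [Field k] [Field K] [Algebra k K] (A1 A0 : Subalgebra k K) (N : Type)
    [Field N] [Algebra K N] [Algebra k N] where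
  𝔭 : Ideal A1
  b : A1
  π : A1
  C : Subalgebra k N
  n : ℕ
  f : Module.Basis (Fin n) K N
  ϖ : C
  c : C
  ζ : Ideal C
  h𝔭 : 𝔭.IsPrime
  h0 : ∀ a : A1, (a : K) ∈ A0 → a ∈ 𝔭 → a = 0
  hb : b ∉ 𝔭
  hπ : π ∈ 𝔭
  hπ0 : π ≠ 0
  hgen : ∀ a ∈ 𝔭, ∃ (m : ℕ) (y : A1), b ^ m * a = π * y
  hC : ∀ x : N, x ∈ C ↔ ∀ i, f.repr x i ∈ locA A1 b
  fg : C.FG
  heq : algebraMap K N π = (ϖ : N) ^ 2 * c
  hζ : ζ.IsPrime
  hϖ : ϖ ∈ ζ
  hζA : ∀ (a : A1) (h : algebraMap K N a ∈ C), (⟨algebraMap K N a, h⟩ : C) ∈ ζ → a ∈ 𝔭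

/-- The divisor `𝔭` has a generically reduced intersection with the fibre over `φ0`. -/
def RedAt {k K N : Type} [Field k] [Field K] [Algebra k K] {A1 A0 : Subalgebra k K}
    [Field N] [Algebra K N] [Algebra k N] (S : Spr A1 A0 N) (φ0 : A0 →ₐ[k] k) : Prop :=
  ∀ (x : A1) (n : ℕ), x ^ n ∈ fibI A1 A0 φ0 ⊔ S.𝔭 → ∃ m : ℕ, S.b ^ m * x ∈ fibI A1 A0 φ0 ⊔ S.𝔭

/-- Above every point `(φ0, a)` of the `α`-cover of the base there is a geometric point `χ` of the
divisor `ζ` of the cover. -/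
def ChiAt {k K N : Type} [Field k] [Field K] [Algebra k K] {A1 A0 : Subalgebra k K}
    [Field N] [Algebra K N] [Algebra k N] (S : Spr A1 A0 N) (α : N) (h : A0[X])
    (φ0 : A0 →ₐ[k] k) : Prop :=
  ∀ a : k, (h.map (φ0 : A0 →+* k)).IsRoot a → ∃ χ : S.C →ₐ[k] AlgebraicClosure k,
    (∀ (c : A0) (hc : algebraMap K N c ∈ S.C),
      χ ⟨algebraMap K N c, hc⟩ = algebraMap k (AlgebraicClosure k) (φ0 c)) ∧
    (∀ hα : α ∈ S.C, χ ⟨α, hα⟩ = algebraMap k (AlgebraicClosure k) a) ∧ ∀ z ∈ S.ζ, χ z = 0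

/-- The static data used over the affine open set with coordinate ring `A`. -/
structure Sta {k K N : Type} [Field k] [Field K] [Algebra k K] [Field N] [Algebra K N]
    [Algebra k N] (A A1 A0 : Subalgebra k K) (h : A0[X]) (α θ : N) (S : Spr A1 A0 N) where
  T : Tow A A0 h α θ
  hα : α ∈ S.C
  h1A : A1 ≤ A
  hb : ((S.b : A1) : K)⁻¹ ∈ A
  hπ : ((S.π : A1) : K)⁻¹ ∈ A
  Q0 : A[X]
  hQ0 : Q0.eval₂ ((algebraMap K N).comp (A.val : A →+* K)) θ = α
  P : A[X]
  hPm : P.Monic
  hP : P.map (A.val : A →+* K) = minpoly K θ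
  hH : ∀ l, ∃ H : A[X][X], S.f l = ev2 ((algebraMap K N).comp (A.val : A →+* K)) α θ H
  hco : ∀ (i j : ℕ) (l : Fin S.n), i < T.G.natDegree → j < h.natDegree →
    S.f.repr (α ^ j * θ ^ i) l ∈ A

/-- The field generated by `K` and the algebraic closure of `L`. -/
noncomputable def geoF {K : Type} [Field K] (L : Subfield K) : Subfield (AlgebraicClosure K) :=
  Subfield.closure (Set.range (algebraMap K (AlgebraicClosure K)) ∪
    {β | AlgOver L (algebraMap K (AlgebraicClosure K)) β})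

/-- The universal resolvent: `U` expresses the polynomial with roots `∏_{j ∈ S} (c - θ_j)`, for the
sets `S` of `d` indices, in terms of the coefficients of the polynomial with roots `θ_1, ..., θ_n`. -/
def IsRes (n d : ℕ) (c : ℤ) (U : (MvPolynomial (Fin n) ℤ)[X]) : Prop :=
  U.Monic ∧ ∀ (F : Type) [Field F] (θ : Fin n → F),
    U.map (MvPolynomial.eval₂Hom (Int.castRingHom F)
      (fun i : Fin n => (∏ j, (X - C (θ j))).coeff i)) =
      ∏ S ∈ (Finset.univ : Finset (Fin n)).powersetCard d,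
        (X - C (∏ j ∈ S, ((c : F) - θ j)))

end Pool.Agent.LibHP
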