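import Pool.Agent.LibW64P.Defs
import Pool.Agent.LibW64.F1
import Pool.Agent.LibW64.F5

/-! # Row I6: no roots over the function fields of general fibres

SHORT. Plan. `W_F1` gives a presentation `S : Pres L A A0`, `W_F5` gives `ρ` (with `red0`, which is
`φ` composed with the inclusion). `φ0 := φ.comp (Subalgebra.inclusion hM.le)`.
`fibreIdeal A A0 φ = fibI A A0 φ0` (same generators). Given `IsFib`: `ψ` induces an injective map
`A ⧸ fibreIdeal A A0 φ → κ` (so the quotient is a domain), and `κ` is its fraction field (`frac`): every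
`z : κ` is the image of some `z' : FractionRing (A ⧸ fibreIdeal A A0 φ)` under the induced map
(`IsFractionRing.lift`), which is injective; `T.eval₂ ψ z = 0` gives a root `z'`. -/

set_option autoImplicit false
open Polynomial

namespace Pool.Agent.LibHP

private theorem I6_aux {B κ : Type} [CommRing B] [IsDomain B] [Field κ] (θ : B →+* κ)
    (hθ : Function.Injective θ) (hfrac : ∀ z : κ, ∃ a b : B, θ b ≠ 0 ∧ z * θ b = θ a) :
    ∃ Θ : FractionRing B →+* κ, (∀ b : B, Θ (algebraMap B (FractionRing B) b) = θ b) ∧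
      Function.Surjective Θ := by
  have h1 : ∀ b : B, IsFractionRing.lift (K := FractionRing B) hθ
      (algebraMap B (FractionRing B) b) = θ b := fun b => IsFractionRing.lift_algebraMap hθ b
  refine ⟨IsFractionRing.lift (K := FractionRing B) hθ, h1, fun z => ?_⟩
  obtain ⟨a, b, hb, hab⟩ := hfrac z
  refine ⟨algebraMap B (FractionRing B) a / algebraMap B (FractionRing B) b, ?_⟩
  rw [map_div₀, h1, h1, div_eq_iff hb]
  exact hab.symm

theorem W_IR6 {k K : Type} [Field k] [CharZero k] [Field K] [Algebra k K] (L : Subfield K)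
    (hcl : ClosedSub L) (hne : ∃ c : K, c ∉ L) (A A0 : Subalgebra k K) (hM : IsModel L A A0)
    (T : A[X]) (hTm : T.Monic) (hT : NoConstRoot L (T.map (A.val : A →+* K))) :
    ∃ ρ : A0, ρ ≠ 0 ∧ ∀ φ : A →ₐ[k] k, φ (Subalgebra.inclusion hM.le ρ) ≠ 0 →
      ∀ (κ : Type) [Field κ] (O : Subring K) (Ψ : O →+* κ) (ψ : A →+* κ),
        IsFib A A0 (φ.comp (Subalgebra.inclusion hM.le)) O Ψ ψ → ∀ z : κ, T.eval₂ ψ z ≠ 0 := by
  classical
  obtain ⟨S⟩ := W_F1 L hcl hne A A0 hM.fg hM.fg0 hM.le hM.fracL hM.fracK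
  have hA0L : ∀ c ∈ A0, c ∈ L := by
    intro c hc
    exact (hM.fracL c).2 ⟨c, 1, hc, A0.one_mem, one_ne_zero, mul_one c⟩
  obtain ⟨ρ, hρ, hF5⟩ := W_F5 L A A0 hM.le hA0L S T hTm hT
  refine ⟨ρ, hρ, fun φ hφ κ _ O Ψ ψ hfib z hz => ?_⟩
  have hI : fibreIdeal A A0 φ = fibI A A0 (φ.comp (Subalgebra.inclusion hM.le)) := by
    unfold fibreIdeal fibI
    congr 1
    ext a
    constructor
    · rintro ⟨h1, h2⟩
      exact ⟨h1, h2⟩
    · rintro ⟨h1, h2⟩
      exact ⟨h1, h2⟩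
  have hker : ∀ a : A, ψ a = 0 ↔ a ∈ fibreIdeal A A0 φ := by
    intro a
    rw [hI]
    exact hfib.ker a
  have hkerI : RingHom.ker ψ = fibreIdeal A A0 φ := by
    ext a
    rw [RingHom.mem_ker]
    exact hker a
  have hprime : (fibreIdeal A A0 φ).IsPrime := hkerI ▸ RingHom.ker_isPrime ψ
  have hdom : IsDomain (A ⧸ fibreIdeal A A0 φ) := Ideal.Quotient.isDomain _
  obtain ⟨θ, hθ⟩ : ∃ θ : A ⧸ fibreIdeal A A0 φ →+* κ,
      θ = Ideal.Quotient.lift (fibreIdeal A A0 φ) ψ (fun a ha => (hker a).2 ha) := ⟨_, rfl⟩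
  have hθmk : ∀ a : A, θ (Ideal.Quotient.mk (fibreIdeal A A0 φ) a) = ψ a := by
    intro a
    rw [hθ, Ideal.Quotient.lift_mk]
  have hθinj : Function.Injective θ := by
    rw [injective_iff_map_eq_zero]
    intro x hx
    obtain ⟨a, rfl⟩ := Ideal.Quotient.mk_surjective x
    rw [hθmk] at hx
    exact Ideal.Quotient.eq_zero_iff_mem.2 ((hker a).1 hx)
  obtain ⟨Θ, hΘ, hΘs⟩ := I6_aux θ hθinj (fun z => by
    obtain ⟨a, b, hb, hab⟩ := hfib.frac z
    exact ⟨Ideal.Quotient.mk (fibreIdeal A A0 φ) a, Ideal.Quotient.mk (fibreIdeal A A0 φ) b,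
      by rw [hθmk]; exact hb, by rw [hθmk, hθmk]; exact hab⟩)
  obtain ⟨z', hz'⟩ := hΘs z
  refine hF5 φ hφ hdom z' ?_
  apply Θ.injective
  rw [map_zero, Polynomial.hom_eval₂, hz', Polynomial.eval₂_map]
  rw [← hz]
  congr 1
  ext c
  show Θ (algebraMap _ (FractionRing (A ⧸ fibreIdeal A A0 φ))
    (Ideal.Quotient.mk (fibreIdeal A A0 φ) c)) = ψ c
  rw [hΘ, hθmk]

end Pool.Agent.LibHP
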