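import Pool.Agent.LibW64P.Defs
import Pool.Agent.LibK3G.WH2

/-! # Fibrations whose fibres have the weak Hilbert property: scheme definitions -/

set_option autoImplicit false
open AlgebraicGeometry CategoryTheory

namespace Pool.Agent.LibHP

/-- The weak Hilbert property of the variety `F` relative to its `k`-point `s0`: the `k`-points which do
not lift to finitely many finite surjective covers `π i : Y i ⟶ F`, with `Y i` integral and normal,
each of which is ramified or has no `k`-point above `s0`, are dense. -/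
def RelWHP {k : Type} [Field k] {F : Scheme.{0}} (q : F ⟶ Spec (CommRingCat.of k))
    (s0 : Spec (CommRingCat.of k) ⟶ F) : Prop :=
  ∀ (n : ℕ) (Y : Fin n → Scheme.{0}) (π : ∀ i, Y i ⟶ F),
    (∀ i, AlgebraicGeometry.IsIntegral (Y i)) →
    (∀ i, ∀ y : Y i, IsIntegrallyClosed ((Y i).presheaf.stalk y)) →
    (∀ i, AlgebraicGeometry.IsFinite (π i)) →
    (∀ i, AlgebraicGeometry.Surjective (π i)) →
    (∀ i, ¬ AlgebraicGeometry.Etale (π i) ∨
      ∀ t : Spec (CommRingCat.of k) ⟶ Y i, t ≫ π i ≠ s0) →
    Dense {x : F | ∃ s : Spec (CommRingCat.of k) ⟶ F, s ≫ q = 𝟙 _ ∧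
      x ∈ Set.range s.base ∧
      ∀ i (t : Spec (CommRingCat.of k) ⟶ Y i), t ≫ π i ≠ s}

/-- There is a morphism `g : V ⟶ T` over `k`, from an open neighbourhood `V` of `x` in `X` to an
integral scheme `T` locally of finite type over `k`, which sends `x` to the generic point of `T`
(the prime divisor with generic point `x` is horizontal), such that for all `k`-points `s` of a
nonempty open subset `W` of `V` the fibre of `g` through `s` is integral, normal and has the weak
Hilbert property relative to its point `s`. -/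
def FibreWHP {k : Type} [Field k] {X : Scheme.{0}} (f : X ⟶ Spec (CommRingCat.of k)) (x : X) :
    Prop :=
  ∃ (V T : Scheme.{0}) (_ : IsIntegral V) (_ : IsIntegral T) (j : V ⟶ X) (g : V ⟶ T)
    (t : T ⟶ Spec (CommRingCat.of k)) (v : V) (W : V.Opens),
    IsOpenImmersion j ∧ LocallyOfFiniteType t ∧ g ≫ t = j ≫ f ∧
    j.base v = x ∧ g.base v = genericPoint T ∧ (W : Set V).Nonempty ∧
    ∀ s : Spec (CommRingCat.of k) ⟶ V, s ≫ j ≫ f = 𝟙 _ → Set.range s.base ⊆ W →
      IsIntegral (Limits.pullback g (s ≫ g)) ∧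
      (∀ y : ↥(Limits.pullback g (s ≫ g)),
        IsIntegrallyClosed ((Limits.pullback g (s ≫ g)).presheaf.stalk y)) ∧
      RelWHP (Limits.pullback.snd g (s ≫ g))
        (Limits.pullback.lift s (𝟙 _) (by rw [Category.id_comp]))

/-- The map from the functions on `V1` to the field `K`, isomorphic by `e` to the function field. -/
noncomputable def chM {V : Scheme.{0}} [IsIntegral V] {K : Type} [Field K]
    (e : V.functionField →+* K) (V1 : V.Opens) (hη : genericPoint V ∈ V1) : Γ(V, V1) →+* K :=
  e.comp (V.presheaf.germ V1 (genericPoint V) hη).hom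

/-- `A1` is the ring of functions on `V1`. -/
def IsChart {k : Type} [Field k] {V : Scheme.{0}} [IsIntegral V] {K : Type} [Field K] [Algebra k K]
    (e : V.functionField →+* K) (V1 : V.Opens) (hη : genericPoint V ∈ V1)
    (A1 : Subalgebra k K) : Prop :=
  ∀ c : K, c ∈ A1 ↔ ∃ b : Γ(V, V1), chM e V1 hη b = c

/-- `A0` is the ring of functions on the open subset `T0` of the base. -/
def IsBase {k : Type} [Field k] {V T : Scheme.{0}} [IsIntegral V] (g : V ⟶ T) {K : Type} [Field K]
    [Algebra k K] (e : V.functionField →+* K) (T0 : T.Opens) (hη : genericPoint V ∈ g ⁻¹ᵁ T0)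
    (A0 : Subalgebra k K) : Prop :=
  ∀ c : K, c ∈ A0 ↔ ∃ a : Γ(T, T0), chM e (g ⁻¹ᵁ T0) hη ((g.app T0).hom a) = c

/-- The map from the functions on `V1` to `A1`. -/
noncomputable def chR {k : Type} [Field k] {V : Scheme.{0}} [IsIntegral V] {K : Type} [Field K]
    [Algebra k K] (e : V.functionField →+* K) (V1 : V.Opens) (hη : genericPoint V ∈ V1)
    (A1 : Subalgebra k K) (h : IsChart e V1 hη A1) : Γ(V, V1) →+* A1 :=
  (chM e V1 hη).codRestrict A1 (fun b => (h _).2 ⟨b, rfl⟩)

end Pool.Agent.LibHP
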